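import Mathlib

/-! # A domain of holomorphy in `ℂ²` with the density property: definitions (FIXED: do not change)

Blueprint for Parts A and B of the counterexample to Q1 of MP_fe3720_an.

`(z_0, w_0) = (a, b)`, `z_{k+1} = z_k^2 - e_k w_k`, `w_{k+1} = z_k`,
`K_k = {r_k ≤ |z_k| ≤ R_k, |w_k| ≤ R_k}`, `Ω = ⋃ K_k`. -/

namespace Pool.Agent.MP_fe3720.X

open Topology Filter Set

/-- `ℂ²` with the maximum norm -/
abbrev C2 : Type := ℂ × ℂ

/-! ## The maps -/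

/-- the model `ℂ* × ℂ` -/
def M : Set C2 := {p | p.1 ≠ 0}

/-- the change of coordinates from level `k` to level `k+1` (with `n = 2`, `e = e_k`) -/
noncomputable def H (n : ℕ) (e : ℝ) (p : C2) : C2 := (p.1 ^ n - (e : ℂ) * p.2, p.1)

/-- the inverse of `H n e` (for `e ≠ 0`) -/
noncomputable def Hi (n : ℕ) (e : ℝ) (p : C2) : C2 := (p.2, (p.2 ^ n - p.1) / (e : ℂ))

/-- the coordinates of level `k`: `F e k = (z_k, w_k)` -/
noncomputable def F (e : ℕ → ℝ) : ℕ → C2 → C2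
  | 0 => fun x => x
  | k + 1 => fun x => H 2 (e k) (F e k x)

/-- the inverse of `F e k` -/
noncomputable def Fi (e : ℕ → ℝ) : ℕ → C2 → C2
  | 0 => fun y => y
  | k + 1 => fun y => Fi e k (Hi 2 (e k) y)

/-- `c_0 = 1`, `c_{k+1} = c_k e_k / 2` -/
noncomputable def cc (e : ℕ → ℝ) : ℕ → ℝ
  | 0 => 1
  | k + 1 => e k / 2 * cc e k

/-- the compact sets `K_k` -/
def KK (e r R : ℕ → ℝ) (k : ℕ) : Set C2 :=
  {x | r k ≤ ‖(F e k x).1‖ ∧ ‖(F e k x).1‖ ≤ R k ∧ ‖(F e k x).2‖ ≤ R k}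

/-- the slightly larger compact sets `K'_k` -/
def KK' (e r R : ℕ → ℝ) (k : ℕ) : Set C2 :=
  {x | r k / 4 ≤ ‖(F e k x).1‖ ∧ ‖(F e k x).1‖ ≤ R k ∧ ‖(F e k x).2‖ ≤ R k}

/-- the interiors of the sets `K_k` -/
def DD (e r R : ℕ → ℝ) (k : ℕ) : Set C2 :=
  {x | r k < ‖(F e k x).1‖ ∧ ‖(F e k x).1‖ < R k ∧ ‖(F e k x).2‖ < R k}

/-- the domain -/
def Om (e r R : ℕ → ℝ) : Set C2 := ⋃ k, KK e r R k

/-- the conditions on the numbers `e_k, r_k, R_k` -/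
structure Tower (e r R : ℕ → ℝ) : Prop where
  e_pos : ∀ k, 0 < e k
  r_pos : ∀ k, 0 < r k
  r_lt : ∀ k, r k < 1
  R_gt : ∀ k, 1 < R k
  small : ∀ k, e k * R k ≤ (r k / 4) ^ 2 / 8
  r_succ : ∀ k, r (k + 1) < (r k / 4) ^ 2 / 2
  R_succ : ∀ k, R k ^ 2 + 1 < R (k + 1)

/-- the same conditions up to level `k` (`e i` for `i < k`, `r i` and `R i` for `i ≤ k`) -/
structure PreTower (k : ℕ) (e r R : ℕ → ℝ) : Prop where
  e_pos : ∀ i < k, 0 < e i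
  r_pos : ∀ i ≤ k, 0 < r i
  r_lt : ∀ i ≤ k, r i < 1
  R_gt : ∀ i ≤ k, 1 < R i
  small : ∀ i < k, e i * R i ≤ (r i / 4) ^ 2 / 8
  r_succ : ∀ i < k, r (i + 1) < (r i / 4) ^ 2 / 2
  R_succ : ∀ i < k, R i ^ 2 + 1 < R (i + 1)

/-! ## Laurent polynomials and the group `G` -/

/-- Laurent polynomials in `z, w`: the algebra of functions on `ℂ²` generated by `z`, `z⁻¹`, `w` -/
def LP : Subalgebra ℂ (C2 → ℂ) :=
  Algebra.adjoin ℂ {(fun p : C2 => p.1), (fun p : C2 => (p.1)⁻¹), (fun p : C2 => p.2)}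

/-- the shear `(z, w) ↦ (z, w + t z^a)`, the flow of `z^a ∂_w` -/
noncomputable def sh (a : ℤ) (t : ℂ) : Equiv.Perm C2 where
  toFun p := (p.1, p.2 + t * p.1 ^ a)
  invFun p := (p.1, p.2 - t * p.1 ^ a)
  left_inv p := by simp
  right_inv p := by simp

/-- `(z, w) ↦ (z, w exp (t z^a))`, the flow of `z^a w ∂_w` -/
noncomputable def dl (a : ℤ) (t : ℂ) : Equiv.Perm C2 where
  toFun p := (p.1, p.2 * Complex.exp (t * p.1 ^ a))
  invFun p := (p.1, p.2 * Complex.exp (-(t * p.1 ^ a)))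
  left_inv p := by
    ext
    · rfl
    · simp [mul_assoc, ← Complex.exp_add]
  right_inv p := by
    ext
    · rfl
    · simp [mul_assoc, ← Complex.exp_add]

/-- `(z, w) ↦ (z exp (t w^b), w)`, the flow of `w^b z ∂_z` -/
noncomputable def tw (b : ℕ) (t : ℂ) : Equiv.Perm C2 where
  toFun p := (p.1 * Complex.exp (t * p.2 ^ b), p.2)
  invFun p := (p.1 * Complex.exp (-(t * p.2 ^ b)), p.2)
  left_inv p := by
    ext
    · simp [mul_assoc, ← Complex.exp_add]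
    · rfl
  right_inv p := by
    ext
    · simp [mul_assoc, ← Complex.exp_add]
    · rfl

/-- the group generated by the elementary flows -/
def G : Subgroup (Equiv.Perm C2) :=
  Subgroup.closure ({g | ∃ a t, g = sh a t} ∪ {g | ∃ a t, g = dl a t} ∪ {g | ∃ b t, g = tw b t})

/-- the vector field `g^* (z⁻¹ ∂_w)`, in the coordinates of `M` -/
noncomputable def pbM (g : Equiv.Perm C2) (x : C2) : C2 :=
  deriv (fun s : ℂ => g.symm (sh (-1) s (g x))) 0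

/-- the field `g^* (z⁻¹ ∂_w)` on level `k+1`, seen in the coordinates of level `k` -/
noncomputable def pbE (n : ℕ) (e : ℝ) (g : Equiv.Perm C2) (x : C2) : C2 :=
  deriv (fun s : ℂ => Hi n e (g.symm (sh (-1) s (g (H n e x))))) 0

/-- the one-parameter group of level `k` defined by `g`: `F_k⁻¹ g⁻¹ exp (c_k t z⁻¹ ∂_w) g F_k` -/
noncomputable def Th (e : ℕ → ℝ) (k : ℕ) (g : Equiv.Perm C2) (t : ℂ) (x : C2) : C2 :=
  Fi e k (g.symm (sh (-1) ((cc e k : ℂ) * t) (g (F e k x))))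

/-- its vector field -/
noncomputable def VT (e : ℕ → ℝ) (k : ℕ) (g : Equiv.Perm C2) (x : C2) : C2 :=
  deriv (fun t : ℂ => Th e k g t x) 0

/-- the monomial fields `z_j^a w_j^b e_σ` (`e_σ` the constant fields of `ℂ²`) -/
noncomputable def mu (e : ℕ → ℝ) (j : ℕ) (a : ℤ) (b : ℕ) (σ : Bool) (x : C2) : C2 :=
  let q : ℂ := (F e j x).1 ^ a * (F e j x).2 ^ b
  if σ then (q, 0) else (0, q)

/-! ## Properties of open sets of `ℂ²` -/

/-- a closed holomorphic one-form (given by local primitives) which is not exact -/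
def HasForm (Ω : Set C2) : Prop :=
  ∃ om : C2 → (C2 →L[ℂ] ℂ), (∀ x ∈ Ω, ∃ w : C2 → ℂ, ∀ᶠ y in 𝓝 x, HasFDerivAt w (om y) y) ∧
    ¬ ∃ w : C2 → ℂ, ∀ x ∈ Ω, HasFDerivAt w (om x) x

/-- holomorphic convexity -/
def HolConvex (Ω : Set C2) : Prop :=
  ∀ K ⊆ Ω, IsCompact K → ∃ C ⊆ Ω, IsCompact C ∧ ∀ x ∈ Ω \ C, ∃ h : C2 → ℂ,
    DifferentiableOn ℂ h Ω ∧ (∀ y ∈ K, ‖h y‖ ≤ 1) ∧ 1 < ‖h x‖

/-- complete holomorphic vector fields on `Ω` -/
def IsComplete (Ω : Set C2) (V : C2 → C2) : Prop :=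
  DifferentiableOn ℂ V Ω ∧
    ∀ x ∈ Ω, ∃ γ : ℂ → C2, γ 0 = x ∧ ∀ t, γ t ∈ Ω ∧ HasDerivAt γ (V (γ t)) t

/-- the span of the complete vector fields is dense -/
def SpanDense (Ω : Set C2) : Prop :=
  ∀ V : C2 → C2, DifferentiableOn ℂ V Ω → ∀ K ⊆ Ω, IsCompact K → ∀ ε > 0,
    ∃ (m : ℕ) (c : Fin m → ℂ) (W : Fin m → C2 → C2), (∀ i, IsComplete Ω (W i)) ∧
      ∀ x ∈ K, ‖V x - ∑ i, c i • W i x‖ < ε

end Pool.Agent.MP_fe3720.X
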