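import Pool.Agent.Work.MP_fe3720_an.X.Defs2

/-!
# Annulus times disc: connected, and `z^m` has no continuous logarithm (size S-M, pure Mathlib)

PROOF of `wind_unique`. Choose `ρ` with `r < ρ < R` and consider `φ θ = L (ρ e^{iθ}, 0) - i m θ`, `θ ∈ ℝ`. It is
continuous with `exp (φ θ) = ρ^m`, so `φ` is constant (`ℝ` is connected, `exp` is locally injective: the values of
`φ - φ 0` are in the discrete set `2πi ℤ`); `φ 0 = φ (2π)` gives `2π i m = 0`.
`isConnected_AD`: image of the convex (nonempty) set `{(ζ, w) : log r < Re ζ < log R, ‖w‖ < R}` under the continuous map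
`(ζ, w) ↦ (exp ζ, w)`.
-/

namespace Pool.Agent.MP_fe3720.X

open Topology Filter Set

private theorem const_of_exp {φ : ℝ → ℂ} (hφ : Continuous φ) {c : ℂ} (h : ∀ θ, Complex.exp (φ θ) = c)
    (a b : ℝ) : φ a = φ b := by
  have h1 : ∀ θ, ∃ n : ℤ, φ θ - φ 0 = n * (2 * Real.pi * Complex.I) := by
    intro θ
    apply Complex.exp_eq_one_iff.1
    rw [Complex.exp_sub, h, h]
    have hc : c ≠ 0 := by
      rw [← h 0]
      exact Complex.exp_ne_zero _
    exact div_self hc
  choose n hn using h1
  have hpi : (2 * Real.pi * Complex.I : ℂ) ≠ 0 := Complex.two_pi_I_ne_zero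
  have h2 : ∀ θ, ((n θ : ℤ) : ℝ) = ((φ θ - φ 0) / (2 * Real.pi * Complex.I)).re := by
    intro θ
    rw [hn, mul_div_cancel_right₀ _ hpi]
    simp
  have h3 : Continuous fun θ => ((n θ : ℤ) : ℝ) := by
    simp only [h2]
    exact Complex.continuous_re.comp ((hφ.sub continuous_const).div_const _)
  have h4 : Continuous n := Int.isClosedEmbedding_coe_real.isInducing.continuous_iff.2 h3
  have h5 : n a = n b := PreconnectedSpace.constant inferInstance h4
  have h6 := hn a
  rw [h5, ← hn b] at h6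
  linear_combination h6

theorem wind_unique {r R : ℝ} (hr : 0 < r) (hrR : r < R) {m : ℤ} {L : C2 → ℂ}
    (hL : ContinuousOn L (AD r R)) (h : ∀ y ∈ AD r R, y.1 ^ m = Complex.exp (L y)) : m = 0 := by
  set ρ : ℝ := (r + R) / 2 with hρ
  have hρ1 : r < ρ := by rw [hρ]; linarith
  have hρ2 : ρ < R := by rw [hρ]; linarith
  have hρ0 : 0 < ρ := hr.trans hρ1
  have hR0 : 0 < R := hr.trans hrR
  let g : ℝ → C2 := fun θ => ((ρ : ℂ) * Complex.exp (θ * Complex.I), 0)
  have hg : Continuous g := by
    show Continuous fun θ : ℝ => (((ρ : ℂ) * Complex.exp (θ * Complex.I), 0) : C2)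
    fun_prop
  have hgm : ∀ θ, g θ ∈ AD r R := by
    intro θ
    have h1 : ‖(g θ).1‖ = ρ := by
      show ‖(ρ : ℂ) * Complex.exp (θ * Complex.I)‖ = ρ
      rw [norm_mul, Complex.norm_exp_ofReal_mul_I, mul_one, Complex.norm_real, Real.norm_eq_abs,
        abs_of_pos hρ0]
    refine ⟨by rw [h1]; exact hρ1, by rw [h1]; exact hρ2, ?_⟩
    show ‖(0 : ℂ)‖ < R
    rw [norm_zero]
    exact hR0
  have hLg : Continuous fun θ => L (g θ) := hL.comp_continuous hg hgm
  have hφ : Continuous fun θ : ℝ => L (g θ) - Complex.I * m * θ := by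
    refine hLg.sub ?_
    fun_prop
  have hexp : ∀ θ : ℝ, Complex.exp (L (g θ) - Complex.I * m * θ) = (ρ : ℂ) ^ m := by
    intro θ
    rw [Complex.exp_sub, ← h _ (hgm θ)]
    show ((ρ : ℂ) * Complex.exp (θ * Complex.I)) ^ m / _ = _
    rw [mul_zpow, ← Complex.exp_int_mul, show (m : ℂ) * (θ * Complex.I) = Complex.I * m * θ by ring,
      mul_div_assoc, div_self (Complex.exp_ne_zero _), mul_one]
  have h1 := const_of_exp hφ hexp 0 (2 * Real.pi)
  have h2 : g (2 * Real.pi) = g 0 := by
    show (((ρ : ℂ) * Complex.exp (((2 * Real.pi : ℝ) : ℂ) * Complex.I), 0) : C2) =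
      ((ρ : ℂ) * Complex.exp (((0 : ℝ) : ℂ) * Complex.I), 0)
    push_cast
    rw [Complex.exp_two_pi_mul_I, zero_mul, Complex.exp_zero]
  simp only [h2] at h1
  have h3 : Complex.I * (m : ℂ) * ((2 * Real.pi : ℝ) : ℂ) = 0 := by
    push_cast at h1 ⊢
    linear_combination h1
  have h4 : ((2 * Real.pi : ℝ) : ℂ) ≠ 0 := by
    have := Real.two_pi_pos.ne'
    exact_mod_cast this
  rcases mul_eq_zero.1 h3 with h5 | h5
  · rcases mul_eq_zero.1 h5 with h6 | h6
    · exact absurd h6 Complex.I_ne_zero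
    · exact_mod_cast h6
  · exact absurd h5 h4

theorem isConnected_AD {r R : ℝ} (hr : 0 < r) (hrR : r < R) : IsConnected (AD r R) := by
  have hR0 : 0 < R := hr.trans hrR
  let U : Set C2 := {p | Real.log r < p.1.re ∧ p.1.re < Real.log R ∧ ‖p.2‖ < R}
  have hU : Convex ℝ U := by
    intro p hp q hq a b ha hb hab
    have hb' : b = 1 - a := by linarith
    have key : ∀ u v x y : ℝ, x < u → x < v → a * u + b * v = y → x < y := by
      intro u v x y h1 h2 h3
      rcases ha.eq_or_lt with h0 | h0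
      · have : b = 1 := by linarith
        rw [← h3, ← h0, this]
        linarith
      · have e1 : y - x = a * (u - x) + b * (v - x) := by
          rw [← h3, hb']
          ring
        have e2 := mul_pos h0 (sub_pos.2 h1)
        have e3 := mul_nonneg hb (sub_pos.2 h2).le
        linarith
    refine ⟨?_, ?_, ?_⟩
    · refine key p.1.re q.1.re _ _ hp.1 hq.1 ?_
      simp
    · have := key (-p.1.re) (-q.1.re) (-Real.log R) (-(a • p + b • q).1.re) (by linarith [hp.2.1])
        (by linarith [hq.2.1]) (by simp; ring)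
      linarith
    · have h1 : ‖(a • p + b • q).2‖ ≤ a * ‖p.2‖ + b * ‖q.2‖ := by
        refine (norm_add_le _ _).trans (le_of_eq ?_)
        simp [abs_of_nonneg ha, abs_of_nonneg hb]
      have := key (-‖p.2‖) (-‖q.2‖) (-R) (-(a * ‖p.2‖ + b * ‖q.2‖)) (by linarith [hp.2.2])
        (by linarith [hq.2.2]) (by ring)
      linarith
  have hne : U.Nonempty := by
    have h1 := Real.log_lt_log hr hrR
    refine ⟨((((Real.log r + Real.log R) / 2 : ℝ) : ℂ), 0), ?_, ?_, ?_⟩
    · show Real.log r < (((Real.log r + Real.log R) / 2 : ℝ) : ℂ).re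
      rw [Complex.ofReal_re]
      linarith
    · show (((Real.log r + Real.log R) / 2 : ℝ) : ℂ).re < Real.log R
      rw [Complex.ofReal_re]
      linarith
    · show ‖(0 : ℂ)‖ < R
      rw [norm_zero]
      exact hR0
  have hUc : IsConnected U := ⟨hne, hU.isPreconnected⟩
  have hf : Continuous fun p : C2 => ((Complex.exp p.1, p.2) : C2) := by fun_prop
  have himg : (fun p : C2 => ((Complex.exp p.1, p.2) : C2)) '' U = AD r R := by
    ext y
    constructor
    · rintro ⟨p, ⟨h1, h2, h3⟩, rfl⟩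
      refine ⟨?_, ?_, h3⟩
      · show r < ‖Complex.exp p.1‖
        rw [Complex.norm_exp]
        exact (Real.log_lt_iff_lt_exp hr).1 h1
      · show ‖Complex.exp p.1‖ < R
        rw [Complex.norm_exp]
        exact (Real.lt_log_iff_exp_lt hR0).1 h2
    · rintro ⟨h1, h2, h3⟩
      have h0 : 0 < ‖y.1‖ := hr.trans h1
      have h0' : y.1 ≠ 0 := norm_pos_iff.1 h0
      refine ⟨(Complex.log y.1, y.2), ⟨?_, ?_, h3⟩, ?_⟩
      · show Real.log r < (Complex.log y.1).re
        rw [Complex.log_re]
        exact Real.log_lt_log hr h1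
      · show (Complex.log y.1).re < Real.log R
        rw [Complex.log_re]
        exact Real.log_lt_log h0 h2
      · show (Complex.exp (Complex.log y.1), y.2) = y
        rw [Complex.exp_log h0']
  rw [← himg]
  exact hUc.image _ hf.continuousOn

end Pool.Agent.MP_fe3720.X
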