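import Pool.Agent.Work.MP_fe3720_an.X.Basic
import Pool.Agent.Work.MP_fe3720_an.X.Wind

/-!
# The domain is connected (size S)

PROOF. `DD e r R k = Fi e k '' AD (r k) (R k)` (`Fi_F`, `F_Fi`), image of a connected set under a continuous map
(`isConnected_AD`, `r k < 1 < R k`). `Om = ⋃ DD k` (`Om_eq`), increasing union of connected sets (`DD k ⊆ DD (k+1)` by
`DD_sub_KK`, `KK_sub_DD`): `IsConnected.biUnion_of_chain` / `IsPreconnected.iUnion_of_chain`, or a common point of `DD 0`.
-/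

namespace Pool.Agent.MP_fe3720.X

open Topology Filter Set

variable {e r R : ℕ → ℝ}

theorem isConnected_DD (hT : Tower e r R) (k : ℕ) : IsConnected (DD e r R k) := by
  have he : ∀ i < k, 0 < e i := fun i _ => hT.e_pos i
  have h : DD e r R k = Fi e k '' AD (r k) (R k) := by
    ext x
    constructor
    · rintro ⟨h1, h2, h3⟩
      exact ⟨F e k x, ⟨h1, h2, h3⟩, Fi_F he x⟩
    · rintro ⟨y, ⟨h1, h2, h3⟩, rfl⟩
      refine ⟨?_, ?_, ?_⟩ <;> rw [F_Fi he] <;> assumption
  rw [h]
  exact (isConnected_AD (hT.r_pos k) ((hT.r_lt k).trans (hT.R_gt k))).image _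
    continuous_Fi.continuousOn

theorem isConnected_Om (hT : Tower e r R) : IsConnected (Om e r R) := by
  rw [Om_eq hT]
  have hmono : ∀ k, DD e r R k ⊆ DD e r R (k + 1) := fun k =>
    DD_sub_KK.trans (KK_sub_DD (hT.pre (k + 1)))
  have hmono' : Monotone fun k => DD e r R k := monotone_nat_of_le_succ hmono
  obtain ⟨x, hx⟩ := (isConnected_DD hT 0).nonempty
  refine ⟨⟨x, mem_iUnion.2 ⟨0, hx⟩⟩, ?_⟩
  exact isPreconnected_iUnion ⟨x, mem_iInter.2 fun k => hmono' (Nat.zero_le k) hx⟩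
    fun k => (isConnected_DD hT k).isPreconnected

end Pool.Agent.MP_fe3720.X
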