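import Pool.Agent.Work.MP_fe3720_an.X.Defs2

/-!
# Smoothness of the elements of `G` and of the one-parameter groups `Th` (size M)

PROOFS. `G_smooth`: `G_induction`; `sh`, `dl`, `tw` are built from `fst`, `snd`, `exp`, and `zpow` of `fst` on `M`
(`LP_zpow`, `LP_contDiff`); products: composition, `G_maps`. `sh_smooth` similarly (jointly in `(t, x)`:
`(p.2.1, p.2.2 + p.1 * p.2.1 ^ a)`, `LP_contDiff` composed with `snd`). `conj_smooth`: composition of
`(t, x) ↦ (t, g x)`, `sh_smooth`, `g.symm` (`symm_mem`). `pbM_hasDeriv`: differentiability in `s` of the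
composition with `s ↦ (s, x)`. `pbM_eq`: chain rule, `d/ds sh (-1) s y = (0, y.1⁻¹)`. `pbM_cont`: by `pbM_eq`, as
`fderiv ℂ g.symm` is continuous on the open set `M` (`ContDiffOn.continuousOn_fderiv_of_isOpen`).
`fderiv_symm_comp`: differentiate `g.symm (g x) = x`. `Th_smooth`: composition with `contDiff_F`, `contDiff_Fi` (the map
`(t, x) ↦ (cc e k * t, F e k x)`). `Th_zero`, `Th_add` (`Fi_F`, `F_Fi`, `sh_add`), `Th_maps` (`F_Fi`, `G_maps`,
`sh_mem`). `VT_eq`: chain rule. `VT_diff`: the derivative in `t` at `0` of the jointly `C²` map `Th`: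
`VT e k g x = fderiv ℂ (fun p => Th e k g p.1 p.2) (0, x) (1, 0)`, and the derivative of a `C²` map on an open set is
differentiable.
-/

namespace Pool.Agent.MP_fe3720.X

open Topology Filter Set

variable {g : Equiv.Perm C2} {e : ℕ → ℝ} {k : ℕ}

private theorem zpow_smooth2 (a : ℤ) :
    ContDiffOn ℂ 2 (fun p : ℂ × C2 => p.2.1 ^ a) (univ ×ˢ M) :=
  (LP_contDiff (LP_zpow a) (m := 2)).comp contDiff_snd.contDiffOn fun _ h => h.2

private theorem isOpen_UM : IsOpen ((univ : Set ℂ) ×ˢ M) := isOpen_univ.prod M_open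

theorem sh_smooth (a : ℤ) : ContDiffOn ℂ 2 (fun p : ℂ × C2 => sh a p.1 p.2) (univ ×ˢ M) := by
  have h : (fun p : ℂ × C2 => sh a p.1 p.2) = fun p => (p.2.1, p.2.2 + p.1 * p.2.1 ^ a) := rfl
  rw [h]
  have h1 : ContDiffOn ℂ 2 (fun p : ℂ × C2 => p.2.1) (univ ×ˢ M) := by fun_prop
  have h2 : ContDiffOn ℂ 2 (fun p : ℂ × C2 => p.2.2) (univ ×ˢ M) := by fun_prop
  have h3 : ContDiffOn ℂ 2 (fun p : ℂ × C2 => p.1) (univ ×ˢ M) := by fun_prop
  exact h1.prodMk (h2.add (h3.mul (zpow_smooth2 a)))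

theorem dl_smooth (a : ℤ) : ContDiffOn ℂ 2 (fun p : ℂ × C2 => dl a p.1 p.2) (univ ×ˢ M) := by
  have h : (fun p : ℂ × C2 => dl a p.1 p.2) =
      fun p => (p.2.1, p.2.2 * Complex.exp (p.1 * p.2.1 ^ a)) := rfl
  rw [h]
  have h1 : ContDiffOn ℂ 2 (fun p : ℂ × C2 => p.2.1) (univ ×ˢ M) := by fun_prop
  have h2 : ContDiffOn ℂ 2 (fun p : ℂ × C2 => p.2.2) (univ ×ˢ M) := by fun_prop
  have h3 : ContDiffOn ℂ 2 (fun p : ℂ × C2 => p.1) (univ ×ˢ M) := by fun_prop
  exact h1.prodMk (h2.mul (h3.mul (zpow_smooth2 a)).cexp)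

theorem tw_smooth (b : ℕ) : ContDiffOn ℂ 2 (fun p : ℂ × C2 => tw b p.1 p.2) (univ ×ˢ M) := by
  have h : (fun p : ℂ × C2 => tw b p.1 p.2) =
      fun p => (p.2.1 * Complex.exp (p.1 * p.2.2 ^ b), p.2.2) := rfl
  rw [h]
  have h1 : ContDiffOn ℂ 2 (fun p : ℂ × C2 => p.2.1) (univ ×ˢ M) := by fun_prop
  have h2 : ContDiffOn ℂ 2 (fun p : ℂ × C2 => p.2.2) (univ ×ˢ M) := by fun_prop
  have h3 : ContDiffOn ℂ 2 (fun p : ℂ × C2 => p.1) (univ ×ˢ M) := by fun_prop
  exact (h1.mul (h3.mul (h2.pow b)).cexp).prodMk h2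

theorem G_smooth (hg : g ∈ G) : ContDiffOn ℂ 2 g M := by
  have hin : ∀ t : ℂ, ContDiffOn ℂ 2 (fun x : C2 => (t, x)) M := fun t =>
    contDiffOn_const.prodMk contDiffOn_id
  refine G_induction (P := fun g => ContDiffOn ℂ 2 g M) ?_ ?_ ?_ ?_ ?_ hg
  · exact contDiffOn_id
  · exact fun a t => (sh_smooth a).comp (hin t) fun x hx => ⟨mem_univ _, hx⟩
  · exact fun a t => (dl_smooth a).comp (hin t) fun x hx => ⟨mem_univ _, hx⟩
  · exact fun b t => (tw_smooth b).comp (hin t) fun x hx => ⟨mem_univ _, hx⟩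
  · intro g h _ hh hgs hhs
    exact hgs.comp hhs fun x hx => G_maps hh hx

theorem conj_smooth (hg : g ∈ G) (a : ℤ) :
    ContDiffOn ℂ 2 (fun p : ℂ × C2 => g.symm (sh a p.1 (g p.2))) (univ ×ˢ M) := by
  have h1 : ContDiffOn ℂ 2 (fun p : ℂ × C2 => (p.1, g p.2)) (univ ×ˢ M) :=
    contDiff_fst.contDiffOn.prodMk ((G_smooth hg).comp contDiff_snd.contDiffOn fun _ h => h.2)
  have h2 : ContDiffOn ℂ 2 (fun p : ℂ × C2 => sh a p.1 (g p.2)) (univ ×ˢ M) :=
    (sh_smooth a).comp h1 fun p hp => ⟨mem_univ _, G_maps hg hp.2⟩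
  exact (G_smooth (symm_mem hg)).comp h2 fun p hp => G_maps (sh_mem a p.1) (G_maps hg hp.2)

private theorem G_diffAt (hg : g ∈ G) {x : C2} (hx : x ∈ M) : DifferentiableAt ℂ g x :=
  ((G_smooth hg).differentiableOn two_ne_zero).differentiableAt (M_open.mem_nhds hx)

theorem fderiv_symm_comp (hg : g ∈ G) {x : C2} (hx : x ∈ M) (v : C2) :
    fderiv ℂ g.symm (g x) (fderiv ℂ g x v) = v := by
  have h1 := (G_diffAt (symm_mem hg) (G_maps hg hx)).hasFDerivAt
  have h2 := (G_diffAt hg hx).hasFDerivAt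
  have h3 := h1.comp x h2
  have h4 : (⇑g.symm ∘ ⇑g) = id := by
    funext y
    simp
  rw [h4] at h3
  have h5 := h3.unique (hasFDerivAt_id x)
  have h6 := congrArg (fun L : C2 →L[ℂ] C2 => L v) h5
  simpa using h6

private theorem conj_diffAt (hg : g ∈ G) {x : C2} (hx : x ∈ M) (a : ℤ) (t : ℂ) :
    DifferentiableAt ℂ (fun p : ℂ × C2 => g.symm (sh a p.1 (g p.2))) (t, x) :=
  ((conj_smooth hg a).differentiableOn two_ne_zero).differentiableAt
    (isOpen_UM.mem_nhds ⟨mem_univ _, hx⟩)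

theorem pbM_hasDeriv (hg : g ∈ G) {x : C2} (hx : x ∈ M) :
    HasDerivAt (fun s : ℂ => g.symm (sh (-1) s (g x))) (pbM g x) 0 := by
  have h1 : DifferentiableAt ℂ (fun s : ℂ => g.symm (sh (-1) s (g x))) 0 := by
    have h2 : DifferentiableAt ℂ (fun s : ℂ => (s, x)) 0 :=
      differentiableAt_id.prodMk (differentiableAt_const x)
    have h3 : DifferentiableAt ℂ ((fun p : ℂ × C2 => g.symm (sh (-1) p.1 (g p.2))) ∘
        (fun s : ℂ => (s, x))) 0 := DifferentiableAt.comp (0 : ℂ) (conj_diffAt hg hx (-1) 0) h2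
    exact h3
  exact h1.hasDerivAt

private theorem sh_hasDeriv (y : C2) (s : ℂ) :
    HasDerivAt (fun s : ℂ => sh (-1) s y) (0, (y.1)⁻¹) s := by
  have h : (fun s : ℂ => sh (-1) s y) = fun s => (y.1, y.2 + s * y.1 ^ (-1 : ℤ)) := rfl
  rw [h]
  refine (hasDerivAt_const s y.1).prodMk ?_
  have h1 := ((hasDerivAt_id s).mul_const (y.1 ^ (-1 : ℤ))).const_add y.2
  simpa using h1

theorem pbM_eq (hg : g ∈ G) {x : C2} (hx : x ∈ M) :
    pbM g x = fderiv ℂ g.symm (g x) (0, ((g x).1)⁻¹) := by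
  have h1 : HasFDerivAt g.symm (fderiv ℂ g.symm (g x)) (sh (-1) 0 (g x)) := by
    rw [sh_zero]
    exact (G_diffAt (symm_mem hg) (G_maps hg hx)).hasFDerivAt
  have h2 := h1.comp_hasDerivAt (0 : ℂ) (sh_hasDeriv (g x) 0)
  exact h2.deriv

theorem pbM_cont (hg : g ∈ G) : ContinuousOn (pbM g) M := by
  have h1 : ContinuousOn (fun x => fderiv ℂ g.symm (g x)) M := by
    have h2 : ContinuousOn (fderiv ℂ g.symm) M :=
      (G_smooth (symm_mem hg)).continuousOn_fderiv_of_isOpen M_open (by norm_num)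
    exact h2.comp (G_smooth hg).continuousOn fun x hx => G_maps hg hx
  have h3 : ContinuousOn (fun x => ((0 : ℂ), ((g x).1)⁻¹)) M := by
    refine continuousOn_const.prodMk ?_
    refine ContinuousOn.inv₀ (continuous_fst.comp_continuousOn (G_smooth hg).continuousOn) ?_
    exact fun x hx => G_maps hg hx
  exact (h1.clm_apply h3).congr fun x hx => pbM_eq hg hx

theorem Th_smooth (he : ∀ i < k, 0 < e i) (hg : g ∈ G) :
    ContDiffOn ℂ 2 (fun p : ℂ × C2 => Th e k g p.1 p.2) (univ ×ˢ {x | F e k x ∈ M}) := by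
  have h1 : ContDiff ℂ 2 (fun p : ℂ × C2 => ((cc e k : ℂ) * p.1, F e k p.2)) := by
    have h2 : ContDiff ℂ 2 (fun p : ℂ × C2 => F e k p.2) := contDiff_F.comp contDiff_snd
    have h3 : ContDiff ℂ 2 (fun p : ℂ × C2 => (cc e k : ℂ) * p.1) := by fun_prop
    exact h3.prodMk h2
  have h4 : ContDiffOn ℂ 2 (fun p : ℂ × C2 => g.symm (sh (-1) ((cc e k : ℂ) * p.1)
      (g (F e k p.2)))) (univ ×ˢ {x | F e k x ∈ M}) :=
    (conj_smooth hg (-1)).comp h1.contDiffOn fun p hp => ⟨mem_univ _, hp.2⟩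
  exact contDiff_Fi.comp_contDiffOn h4

theorem Th_zero (he : ∀ i < k, 0 < e i) (x : C2) : Th e k g 0 x = x := by
  simp only [Th, mul_zero, sh_zero, Equiv.symm_apply_apply]
  exact Fi_F he x

theorem Th_add (he : ∀ i < k, 0 < e i) (s t : ℂ) (x : C2) :
    Th e k g (s + t) x = Th e k g s (Th e k g t x) := by
  simp only [Th, F_Fi he, Equiv.apply_symm_apply]
  rw [mul_add, sh_add]

theorem Th_maps (he : ∀ i < k, 0 < e i) (hg : g ∈ G) (t : ℂ) {x : C2} (hx : F e k x ∈ M) :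
    F e k (Th e k g t x) ∈ M := by
  simp only [Th, F_Fi he]
  exact G_maps (symm_mem hg) (G_maps (sh_mem _ _) (G_maps hg hx))

theorem VT_eq (he : ∀ i < k, 0 < e i) (hg : g ∈ G) {x : C2} (hx : F e k x ∈ M) :
    VT e k g x = (cc e k : ℂ) • fderiv ℂ (Fi e k) (F e k x) (pbM g (F e k x)) := by
  have h0 : g.symm (sh (-1) ((cc e k : ℂ) * 0) (g (F e k x))) = F e k x := by
    rw [mul_zero, sh_zero, Equiv.symm_apply_apply]
  have h1 : HasFDerivAt (Fi e k) (fderiv ℂ (Fi e k) (F e k x))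
      (g.symm (sh (-1) ((cc e k : ℂ) * 0) (g (F e k x)))) := by
    rw [h0]
    exact ((contDiff_Fi (m := 1)).differentiable one_ne_zero _).hasFDerivAt
  have h2 : HasDerivAt (fun t : ℂ => g.symm (sh (-1) ((cc e k : ℂ) * t) (g (F e k x))))
      ((cc e k : ℂ) • pbM g (F e k x)) 0 := by
    have h3 : HasDerivAt (fun s : ℂ => g.symm (sh (-1) s (g (F e k x)))) (pbM g (F e k x))
        ((cc e k : ℂ) * 0) := by
      rw [mul_zero]
      exact pbM_hasDeriv hg hx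
    have h4 : HasDerivAt (fun t : ℂ => (cc e k : ℂ) * t) (cc e k : ℂ) 0 := by
      simpa using (hasDerivAt_id (0 : ℂ)).const_mul (cc e k : ℂ)
    exact h3.scomp (0 : ℂ) h4
  have h5 := h1.comp_hasDerivAt (0 : ℂ) h2
  have h6 := h5.deriv
  rw [map_smul] at h6
  exact h6

theorem VT_diff (he : ∀ i < k, 0 < e i) (hg : g ∈ G) :
    DifferentiableOn ℂ (VT e k g) {x | F e k x ∈ M} := by
  have hO : IsOpen {x : C2 | F e k x ∈ M} := M_open.preimage continuous_F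
  have hO2 : IsOpen ((univ : Set ℂ) ×ˢ {x : C2 | F e k x ∈ M}) := isOpen_univ.prod hO
  have h1 : ContDiffOn ℂ 1 (fderiv ℂ (fun p : ℂ × C2 => Th e k g p.1 p.2))
      (univ ×ˢ {x | F e k x ∈ M}) :=
    (Th_smooth he hg).fderiv_of_isOpen hO2 (by norm_num)
  have h2 : DifferentiableOn ℂ (fun x : C2 => fderiv ℂ (fun p : ℂ × C2 => Th e k g p.1 p.2)
      ((0 : ℂ), x)) {x | F e k x ∈ M} := by
    refine (h1.differentiableOn one_ne_zero).comp ?_ fun x hx => ⟨mem_univ _, hx⟩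
    exact (differentiableOn_const _).prodMk differentiableOn_id
  have h3 : DifferentiableOn ℂ (fun x : C2 => fderiv ℂ (fun p : ℂ × C2 => Th e k g p.1 p.2)
      ((0 : ℂ), x) ((1 : ℂ), (0 : C2))) {x | F e k x ∈ M} :=
    h2.clm_apply (differentiableOn_const _)
  refine h3.congr fun x hx => ?_
  have h4 : DifferentiableAt ℂ (fun p : ℂ × C2 => Th e k g p.1 p.2) ((0 : ℂ), x) :=
    ((Th_smooth he hg).differentiableOn two_ne_zero).differentiableAt
      (hO2.mem_nhds ⟨mem_univ _, hx⟩)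
  have h5 : HasDerivAt (fun s : ℂ => (s, x)) ((1 : ℂ), (0 : C2)) 0 :=
    (hasDerivAt_id (0 : ℂ)).prodMk (hasDerivAt_const (0 : ℂ) x)
  exact (h4.hasFDerivAt.comp_hasDerivAt (0 : ℂ) h5).deriv

end Pool.Agent.MP_fe3720.X
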