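import Pool.Agent.Work.MP_fe3720_an.X.Basic

/-!
# A Laurent polynomial is on `M` a finite sum of monomials (size S)

PROOF. `Algebra.adjoin_induction`: the set of functions which agree on `M` with a finite sum
`Σ_{i ∈ s} c i * z^(i.1) * w^(i.2)`, `s : Finset (ℤ × ℕ)`, contains the generators and constants, is closed under
sums, and under products (on `M`: `z^a z^a' = z^(a+a')`, `zpow_add₀`). It may be convenient to use the ring
`AddMonoidAlgebra` or `Finsupp`, or to show first that the span of the monomials (restricted to `M`) is closed under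
multiplication (`Submodule.span_induction`).
-/

namespace Pool.Agent.MP_fe3720.X

open Topology Filter Set

private theorem lps_mul (i i' : ℤ × ℕ) {x : C2} (hx : x ∈ M) :
    (x.1 ^ i.1 * x.2 ^ i.2) * (x.1 ^ i'.1 * x.2 ^ i'.2) =
      x.1 ^ (i.1 + i'.1) * x.2 ^ (i.2 + i'.2) := by
  rw [zpow_add₀ hx, pow_add]
  ring

/-- functions which agree on `M` with an element of the span of the monomials -/
private theorem lps_span {p : C2 → ℂ} (hp : p ∈ LP) :
    ∃ q ∈ Submodule.span ℂ (Set.range fun (i : ℤ × ℕ) (x : C2) => x.1 ^ i.1 * x.2 ^ i.2),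
      ∀ x ∈ M, p x = q x := by
  induction hp using Algebra.adjoin_induction with
  | mem p hp =>
    simp only [mem_insert_iff, mem_singleton_iff] at hp
    rcases hp with rfl | rfl | rfl
    · exact ⟨_, Submodule.subset_span ⟨(1, 0), rfl⟩, fun x _ => by simp⟩
    · exact ⟨_, Submodule.subset_span ⟨(-1, 0), rfl⟩, fun x _ => by simp⟩
    · exact ⟨_, Submodule.subset_span ⟨(0, 1), rfl⟩, fun x _ => by simp⟩
  | algebraMap c =>
    refine ⟨c • _, Submodule.smul_mem _ c (Submodule.subset_span ⟨(0, 0), rfl⟩), fun x _ => ?_⟩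
    simp
  | add p p' _ _ ih ih' =>
    obtain ⟨q, hq, h⟩ := ih
    obtain ⟨q', hq', h'⟩ := ih'
    exact ⟨q + q', Submodule.add_mem _ hq hq', fun x hx => by simp [h x hx, h' x hx]⟩
  | mul p p' _ _ ih ih' =>
    obtain ⟨q, hq, h⟩ := ih
    obtain ⟨q', hq', h'⟩ := ih'
    have key : ∃ q₂ ∈ Submodule.span ℂ
        (Set.range fun (i : ℤ × ℕ) (x : C2) => x.1 ^ i.1 * x.2 ^ i.2),
        ∀ x ∈ M, q x * q' x = q₂ x := by
      clear h h'
      induction hq using Submodule.span_induction with
      | zero => exact ⟨0, Submodule.zero_mem _, fun x _ => by simp⟩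
      | add a b _ _ iha ihb =>
        obtain ⟨a', ha', h1⟩ := iha
        obtain ⟨b', hb', h2⟩ := ihb
        exact ⟨a' + b', Submodule.add_mem _ ha' hb', fun x hx => by
          simp [add_mul, h1 x hx, h2 x hx]⟩
      | smul c a _ iha =>
        obtain ⟨a', ha', h1⟩ := iha
        exact ⟨c • a', Submodule.smul_mem _ c ha', fun x hx => by
          simp [mul_assoc, h1 x hx]⟩
      | mem a ha =>
        obtain ⟨i, rfl⟩ := ha
        induction hq' using Submodule.span_induction with
        | zero => exact ⟨0, Submodule.zero_mem _, fun x _ => by simp⟩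
        | add a b _ _ iha ihb =>
          obtain ⟨a', ha', h1⟩ := iha
          obtain ⟨b', hb', h2⟩ := ihb
          exact ⟨a' + b', Submodule.add_mem _ ha' hb', fun x hx => by
            rw [Pi.add_apply, Pi.add_apply, mul_add, h1 x hx, h2 x hx]⟩
        | smul c a _ iha =>
          obtain ⟨a', ha', h1⟩ := iha
          exact ⟨c • a', Submodule.smul_mem _ c ha', fun x hx => by
            rw [Pi.smul_apply, Pi.smul_apply, smul_eq_mul, smul_eq_mul, mul_left_comm, h1 x hx]⟩
        | mem b hb =>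
          obtain ⟨i', rfl⟩ := hb
          exact ⟨_, Submodule.subset_span ⟨(i.1 + i'.1, i.2 + i'.2), rfl⟩, fun x hx =>
            lps_mul i i' hx⟩
    obtain ⟨q₂, hq₂, h2⟩ := key
    exact ⟨q₂, hq₂, fun x hx => by rw [Pi.mul_apply, h x hx, h' x hx, h2 x hx]⟩

theorem LP_sum {p : C2 → ℂ} (hp : p ∈ LP) :
    ∃ (s : Finset (ℤ × ℕ)) (c : ℤ × ℕ → ℂ), ∀ x ∈ M, p x = ∑ i ∈ s, c i * (x.1 ^ i.1 * x.2 ^ i.2) := by
  obtain ⟨q, hq, h⟩ := lps_span hp
  obtain ⟨c, hc⟩ := Finsupp.mem_span_range_iff_exists_finsupp.1 hq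
  refine ⟨c.support, c, fun x hx => ?_⟩
  rw [h x hx, ← hc, Finsupp.sum, Finset.sum_apply]
  rfl

end Pool.Agent.MP_fe3720.X
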