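import Pool.Agent.Work.MP_fe3720_an.X.Basic

/-!
# Laurent approximation on annulus times disc (size M-L, pure Mathlib)

Let `Q = {r ≤ ‖z‖ ≤ R, ‖w‖ ≤ R}`, compact, `h` holomorphic on the open set `U ⊇ Q`.
PROOF. Let `B` be the closure of the Laurent polynomials in `C(Q, ℂ)`, a closed subalgebra. It contains the kernels
`1 / (ζ - z)` (`‖ζ‖ > R` or `0 < ‖ζ‖ < r`) and `1 / (ω - w)` (`‖ω‖ > R`): geometric series. The integral of a continuous
family of elements of `B` is in `B`. By the Cauchy formula for the annulus, `y ↦ h (y.1, ω)` is in `B` for `‖ω‖ = R₁`,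
and by the Cauchy formula for the disc `h` is in `B`.
-/

namespace Pool.Agent.MP_fe3720.X

open Topology Filter Set

section Gen

variable {K : Type*} [TopologicalSpace K] [CompactSpace K]

private theorem int_mem (A : Submodule ℂ C(K, ℂ)) (hA : IsClosed (A : Set C(K, ℂ)))
    (Φ : C(ℝ × K, ℂ)) (hΦ : ∀ t, Φ.curry t ∈ A) (a b : ℝ) :
    ∃ g ∈ A, ∀ y, g y = ∫ t in a..b, Φ (t, y) := by
  have hc : Continuous fun t : ℝ => Φ.curry t := Φ.curry.continuous
  refine ⟨∫ t in a..b, Φ.curry t, ?_, ?_⟩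
  · have := hA
    have h1 : A.mkQL (∫ t in a..b, Φ.curry t) = 0 := by
      rw [← ContinuousLinearMap.intervalIntegral_comp_comm _ (hc.intervalIntegrable _ _)]
      have h2 : ∀ t, A.mkQL (Φ.curry t) = 0 := fun t =>
        (Submodule.Quotient.mk_eq_zero _).2 (hΦ t)
      simp only [h2, intervalIntegral.integral_zero]
    exact (Submodule.Quotient.mk_eq_zero _).1 h1
  · intro y
    exact ((ContinuousMap.evalCLM ℂ y).intervalIntegral_comp_comm
      (hc.intervalIntegrable (μ := MeasureTheory.volume) a b)).symm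

private theorem circ_mem (A : Submodule ℂ C(K, ℂ)) (hA : IsClosed (A : Set C(K, ℂ))) (ρ : ℝ)
    (k : ℂ → K → ℂ) (hk : Continuous fun p : ℝ × K => k (circleMap 0 ρ p.1) p.2)
    (hm : ∀ t : ℝ, ∃ g ∈ A, ∀ y, g y = k (circleMap 0 ρ t) y) :
    ∃ g ∈ A, ∀ y, g y = ∮ ζ in C(0, ρ), k ζ y := by
  have hd : Continuous fun p : ℝ × K => deriv (circleMap 0 ρ) p.1 := by
    simp only [deriv_circleMap]
    exact (continuous_circleMap 0 ρ |>.comp continuous_fst).mul continuous_const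
  refine int_mem A hA ⟨fun p => deriv (circleMap 0 ρ) p.1 • k (circleMap 0 ρ p.1) p.2,
    hd.smul hk⟩ ?_ 0 (2 * Real.pi)
  intro t
  obtain ⟨g, hg, hgy⟩ := hm t
  have : (ContinuousMap.curry ⟨fun p : ℝ × K => deriv (circleMap 0 ρ) p.1 •
      k (circleMap 0 ρ p.1) p.2, hd.smul hk⟩) t = (deriv (circleMap 0 ρ) t) • g := by
    ext y
    simp [hgy]
  rw [this]
  exact A.smul_mem _ hg

private theorem inv_mem' (A : Subalgebra ℂ C(K, ℂ)) (hA : IsClosed (A : Set C(K, ℂ)))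
    {x : C(K, ℂ)} (hx : x ∈ A) (hn : ‖x‖ < 1) : ∃ g ∈ A, ∀ y, g y = (1 - x y)⁻¹ := by
  have hs : Summable fun n : ℕ => x ^ n := summable_geometric_of_norm_lt_one hn
  refine ⟨∑' n : ℕ, x ^ n, ?_, fun y => ?_⟩
  · exact hA.mem_of_tendsto hs.hasSum.tendsto_sum_nat
      (Eventually.of_forall fun n => A.sum_mem fun i _ => A.pow_mem hx i)
  · have h1 : (∑' n : ℕ, x ^ n) * (1 - x) = 1 := geom_series_mul_neg x hn
    have h2 := congrArg (fun g : C(K, ℂ) => g y) h1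
    simp only [ContinuousMap.mul_apply, ContinuousMap.sub_apply, ContinuousMap.one_apply] at h2
    exact eq_inv_of_mul_eq_one_left h2

end Gen

private theorem annulus {r₁ R₁ : ℝ} (h0 : 0 < r₁) (hle : r₁ ≤ R₁) {f : ℂ → ℂ}
    (hf : ∀ ζ, r₁ ≤ ‖ζ‖ → ‖ζ‖ ≤ R₁ → DifferentiableAt ℂ f ζ) {z : ℂ} (hz₁ : r₁ < ‖z‖)
    (hz₂ : ‖z‖ < R₁) :
    (∮ ζ in C(0, R₁), (ζ - z)⁻¹ * f ζ) - (∮ ζ in C(0, r₁), (ζ - z)⁻¹ * f ζ)
      = 2 * Real.pi * Complex.I * f z := by
  have hR : 0 < R₁ := h0.trans_le hle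
  have hds : ∀ ζ, r₁ ≤ ‖ζ‖ → ‖ζ‖ ≤ R₁ → DifferentiableAt ℂ (dslope f z) ζ := by
    intro ζ h1 h2
    by_cases hζ : ζ = z
    · subst hζ
      -- removable singularity
      have hev : ∀ᶠ y in 𝓝 ζ, DifferentiableAt ℂ f y := by
        have h3 : IsOpen {y : ℂ | r₁ < ‖y‖ ∧ ‖y‖ < R₁} :=
          (isOpen_lt continuous_const continuous_norm).inter
            (isOpen_lt continuous_norm continuous_const)
        filter_upwards [h3.mem_nhds ⟨hz₁, hz₂⟩] with y hy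
        exact hf y hy.1.le hy.2.le
      obtain ⟨s, hs, hso, hζs⟩ := eventually_nhds_iff.1 hev
      have hd : DifferentiableOn ℂ f s := fun y hy => (hs y hy).differentiableWithinAt
      exact ((Complex.differentiableOn_dslope (hso.mem_nhds hζs)).2 hd).differentiableAt
        (hso.mem_nhds hζs)
    · exact (differentiableAt_dslope_of_ne hζ).2 (hf ζ h1 h2)
  have hE := Complex.circleIntegral_eq_of_differentiable_on_annulus_off_countable (c := 0) h0 hle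
    (f := dslope f z) (s := ∅) countable_empty
    (fun ζ hζ => (hds ζ (by simpa using hζ.2) (by simpa using hζ.1)).continuousAt.continuousWithinAt)
    (fun ζ hζ => hds ζ (by simpa using (not_le.1 (by simpa using hζ.1.2) : r₁ < ‖ζ‖).le)
      (by simpa using (by simpa using hζ.1.1 : ‖ζ‖ < R₁).le))
  have hkey : ∀ ρ : ℝ, 0 < ρ → r₁ ≤ ρ → ρ ≤ R₁ → ρ ≠ ‖z‖ →
      (∮ ζ in C(0, ρ), dslope f z ζ) = (∮ ζ in C(0, ρ), (ζ - z)⁻¹ * f ζ)
        - (∮ ζ in C(0, ρ), (ζ - z)⁻¹) * f z := by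
    intro ρ hρ h1 h2 h3
    have hne : ∀ ζ ∈ Metric.sphere (0 : ℂ) ρ, ζ - z ≠ 0 := by
      intro ζ hζ h
      apply h3
      rw [sub_eq_zero] at h
      rw [← h]
      simpa using hζ.symm
    have hci : ContinuousOn (fun ζ : ℂ => (ζ - z)⁻¹) (Metric.sphere 0 ρ) :=
      (continuousOn_id.sub continuousOn_const).inv₀ hne
    have hcf : ContinuousOn f (Metric.sphere 0 ρ) := fun ζ hζ =>
      (hf ζ (by simpa using (by simpa using hζ : ‖ζ‖ = ρ) ▸ h1)
        (by simpa using (by simpa using hζ : ‖ζ‖ = ρ) ▸ h2)).continuousAt.continuousWithinAt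
    have i1 : CircleIntegrable (fun ζ => (ζ - z)⁻¹ * f ζ) 0 ρ :=
      (hci.mul hcf).circleIntegrable hρ.le
    have i2 : CircleIntegrable (fun ζ => (ζ - z)⁻¹ * f z) 0 ρ :=
      (hci.mul continuousOn_const).circleIntegrable hρ.le
    have e1 : (∮ ζ in C(0, ρ), dslope f z ζ)
        = ∮ ζ in C(0, ρ), ((ζ - z)⁻¹ * f ζ - (ζ - z)⁻¹ * f z) := by
      refine circleIntegral.integral_congr hρ.le fun ζ hζ => ?_
      have h4 : ζ ≠ z := fun h => hne ζ hζ (sub_eq_zero.2 h)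
      rw [dslope_of_ne _ h4, slope_def_field]
      ring
    rw [e1, circleIntegral.integral_sub i1 i2]
    congr 1
    have := circleIntegral.integral_smul_const (fun ζ : ℂ => (ζ - z)⁻¹) (f z) 0 ρ
    simpa [smul_eq_mul] using this
  rw [hkey R₁ hR hle le_rfl hz₂.ne', hkey r₁ h0 le_rfl hle hz₁.ne] at hE
  have e2 : (∮ ζ in C(0, R₁), (ζ - z)⁻¹) = 2 * Real.pi * Complex.I :=
    circleIntegral.integral_sub_inv_of_mem_ball (by simpa using hz₂)
  have e3 : (∮ ζ in C(0, r₁), (ζ - z)⁻¹) = 0 := by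
    have hne : ∀ ζ ∈ Metric.closedBall (0 : ℂ) r₁, ζ - z ≠ 0 := by
      intro ζ hζ h
      rw [sub_eq_zero] at h
      rw [h] at hζ
      have : ‖z‖ ≤ r₁ := by simpa using hζ
      linarith
    refine Complex.circleIntegral_eq_zero_of_differentiable_on_off_countable h0.le
      countable_empty ((continuousOn_id.sub continuousOn_const).inv₀ hne) fun ζ hζ => ?_
    exact (differentiableAt_id.sub_const z).inv (hne ζ (Metric.ball_subset_closedBall hζ.1))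
  rw [e2, e3] at hE
  linear_combination hE

private theorem isCompact_polyann (r R : ℝ) :
    IsCompact {y : C2 | r ≤ ‖y.1‖ ∧ ‖y.1‖ ≤ R ∧ ‖y.2‖ ≤ R} := by
  refine (isCompact_closedBall (0 : C2) R).of_isClosed_subset ?_ fun y hy => ?_
  · exact (isClosed_le continuous_const continuous_fst.norm).inter
      ((isClosed_le continuous_fst.norm continuous_const).inter
        (isClosed_le continuous_snd.norm continuous_const))
  · rw [mem_closedBall_zero_iff]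
    exact max_le hy.2.1 hy.2.2

theorem laurent {r R : ℝ} (hr : 0 < r) (hrR : r < R) {U : Set C2} (hU : IsOpen U)
    (hQ : {y : C2 | r ≤ ‖y.1‖ ∧ ‖y.1‖ ≤ R ∧ ‖y.2‖ ≤ R} ⊆ U) {h : C2 → ℂ}
    (hh : DifferentiableOn ℂ h U) {ε : ℝ} (hε : 0 < ε) :
    ∃ p ∈ LP, ∀ y : C2, r ≤ ‖y.1‖ → ‖y.1‖ ≤ R → ‖y.2‖ ≤ R → ‖h y - p y‖ < ε := by
  have hR : 0 < R := hr.trans hrR
  -- a slightly larger polyannulus
  obtain ⟨η, hη, hηr, hQ'⟩ : ∃ η : ℝ, 0 < η ∧ η < r ∧ ∀ y : C2, r - η ≤ ‖y.1‖ → ‖y.1‖ ≤ R + η →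
      ‖y.2‖ ≤ R + η → y ∈ U := by
    let φ : C2 → ℝ := fun y => max (r - ‖y.1‖) (max (‖y.1‖ - R) (‖y.2‖ - R))
    have hφ : Continuous φ := by fun_prop
    set K : Set C2 := {y : C2 | r / 2 ≤ ‖y.1‖ ∧ ‖y.1‖ ≤ R + 1 ∧ ‖y.2‖ ≤ R + 1} ∩ Uᶜ with hK
    have hKc : IsCompact K := (isCompact_polyann _ _).inter_right hU.isClosed_compl
    have hpos : ∀ y ∈ K, 0 < φ y := by
      intro y hy
      by_contra hcon
      push Not at hcon
      simp only [φ, max_le_iff] at hcon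
      exact hy.2 (hQ ⟨by linarith [hcon.1], by linarith [hcon.2.1], by linarith [hcon.2.2]⟩)
    obtain ⟨m, hm, hmK⟩ : ∃ m : ℝ, 0 < m ∧ ∀ y ∈ K, m ≤ φ y := by
      rcases K.eq_empty_or_nonempty with h0 | h0
      · exact ⟨1, one_pos, fun y hy => by rw [h0] at hy; exact hy.elim⟩
      · obtain ⟨x, hx, hmin⟩ := hKc.exists_isMinOn h0 hφ.continuousOn
        exact ⟨φ x, hpos x hx, fun y hy => hmin hy⟩
    refine ⟨min m (min (r / 2) 1) / 2, by positivity, ?_, fun y h1 h2 h3 => ?_⟩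
    · have := min_le_right m (min (r / 2) 1)
      have := min_le_left (r / 2) 1
      linarith
    · have a1 := min_le_right m (min (r / 2) 1)
      have a2 := min_le_left (r / 2) 1
      have a3 := min_le_right (r / 2) 1
      have a4 := min_le_left m (min (r / 2) 1)
      have a5 : 0 < min m (min (r / 2) 1) := by positivity
      by_contra hy
      have h4 := hmK y ⟨⟨by linarith, by linarith, by linarith⟩, hy⟩
      have h5 : φ y ≤ min m (min (r / 2) 1) / 2 :=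
        max_le (by linarith) (max_le (by linarith) (by linarith))
      linarith
  set r₁ := r - η with hr₁
  set R₁ := R + η with hR₁
  have hr₁0 : 0 < r₁ := by linarith
  have hr₁R₁ : r₁ ≤ R₁ := by linarith
  have hR₁0 : 0 < R₁ := by linarith
  have hdiff : ∀ y : C2, r₁ ≤ ‖y.1‖ → ‖y.1‖ ≤ R₁ → ‖y.2‖ ≤ R₁ → DifferentiableAt ℂ h y :=
    fun y h1 h2 h3 => hh.differentiableAt (hU.mem_nhds (hQ' y h1 h2 h3))
  set Q : Set C2 := {y : C2 | r ≤ ‖y.1‖ ∧ ‖y.1‖ ≤ R ∧ ‖y.2‖ ≤ R} with hQdef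
  have hQc : IsCompact Q := by
    have h0 : Q = {y : C2 | r ≤ ‖y.1‖ ∧ ‖y.1‖ ≤ R ∧ ‖y.2‖ ≤ R} := rfl
    rw [h0]
    exact isCompact_polyann r R
  have : CompactSpace Q := isCompact_iff_compactSpace.1 hQc
  have hne : ∀ y : Q, y.1.1 ≠ 0 := fun y h => by
    have := y.2.1
    rw [h, norm_zero] at this
    linarith
  let Z : C(Q, ℂ) := ⟨fun y => y.1.1, by fun_prop⟩
  let Zi : C(Q, ℂ) := ⟨fun y => (y.1.1)⁻¹, by
    exact (continuous_subtype_val.fst).inv₀ hne⟩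
  let W : C(Q, ℂ) := ⟨fun y => y.1.2, by fun_prop⟩
  let B₀ : Subalgebra ℂ C(Q, ℂ) := Algebra.adjoin ℂ {Z, Zi, W}
  let B : Subalgebra ℂ C(Q, ℂ) := B₀.topologicalClosure
  have hB : IsClosed (B : Set C(Q, ℂ)) := B₀.isClosed_topologicalClosure
  have hBs : IsClosed ((Subalgebra.toSubmodule B : Submodule ℂ C(Q, ℂ)) : Set C(Q, ℂ)) := hB
  have hZ : Z ∈ B := B₀.le_topologicalClosure (Algebra.subset_adjoin (by simp))
  have hZi : Zi ∈ B := B₀.le_topologicalClosure (Algebra.subset_adjoin (by simp))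
  have hW : W ∈ B := B₀.le_topologicalClosure (Algebra.subset_adjoin (by simp))
  have hZn : ‖Z‖ ≤ R := (ContinuousMap.norm_le _ hR.le).2 fun y => y.2.2.1
  have hWn : ‖W‖ ≤ R := (ContinuousMap.norm_le _ hR.le).2 fun y => y.2.2.2
  have hZin : ‖Zi‖ ≤ r⁻¹ := (ContinuousMap.norm_le _ (by positivity)).2 fun y => by
    change ‖(y.1.1)⁻¹‖ ≤ r⁻¹
    rw [norm_inv]
    exact inv_anti₀ hr y.2.1
  -- the kernels
  have kout : ∀ (X : C(Q, ℂ)), X ∈ B → ‖X‖ ≤ R → ∀ ζ : ℂ, R < ‖ζ‖ →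
      ∃ g ∈ B, ∀ y, g y = (ζ - X y)⁻¹ := by
    intro X hX hXn ζ hζ
    have hζ0 : ζ ≠ 0 := fun h => by rw [h, norm_zero] at hζ; linarith
    have hn : ‖ζ⁻¹ • X‖ < 1 := by
      rw [norm_smul, norm_inv]
      rw [inv_mul_lt_iff₀ (by linarith)]
      linarith
    obtain ⟨g, hg, hgy⟩ := inv_mem' B hB (B.smul_mem hX ζ⁻¹) hn
    refine ⟨ζ⁻¹ • g, B.smul_mem hg _, fun y => ?_⟩
    rw [ContinuousMap.smul_apply, hgy, ContinuousMap.smul_apply, smul_eq_mul, smul_eq_mul,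
      ← mul_inv]
    congr 1
    field_simp
  have kin : ∀ ζ : ℂ, ‖ζ‖ < r → ∃ g ∈ B, ∀ y, g y = (ζ - Z y)⁻¹ := by
    intro ζ hζ
    have hn : ‖ζ • Zi‖ < 1 := by
      rw [norm_smul]
      calc ‖ζ‖ * ‖Zi‖ ≤ ‖ζ‖ * r⁻¹ := mul_le_mul_of_nonneg_left hZin (norm_nonneg _)
        _ < r * r⁻¹ := mul_lt_mul_of_pos_right hζ (by positivity)
        _ = 1 := mul_inv_cancel₀ hr.ne'
    obtain ⟨g, hg, hgy⟩ := inv_mem' B hB (B.smul_mem hZi ζ) hn
    refine ⟨-(Zi * g), B.neg_mem (B.mul_mem hZi hg), fun y => ?_⟩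
    rw [ContinuousMap.neg_apply, ContinuousMap.mul_apply, hgy, ContinuousMap.smul_apply,
      smul_eq_mul]
    change -((y.1.1)⁻¹ * (1 - ζ * (y.1.1)⁻¹)⁻¹) = (ζ - y.1.1)⁻¹
    rw [← mul_inv, ← inv_neg]
    congr 1
    have := hne y
    field_simp
    ring
  -- continuity of h along circles
  have hcont : ∀ {T : Type} [TopologicalSpace T] (φ : T → C2), Continuous φ →
      (∀ t, r₁ ≤ ‖(φ t).1‖ ∧ ‖(φ t).1‖ ≤ R₁ ∧ ‖(φ t).2‖ ≤ R₁) → Continuous fun t => h (φ t) := by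
    intro T _ φ hφ hφ'
    refine continuous_iff_continuousAt.2 fun t => ?_
    obtain ⟨h1, h2, h3⟩ := hφ' t
    exact (hdiff _ h1 h2 h3).continuousAt.comp hφ.continuousAt
  have hcm : ∀ (ρ : ℝ), 0 < ρ → ∀ t : ℝ, ‖circleMap 0 ρ t‖ = ρ := fun ρ hρ t => by
    simp [abs_of_pos hρ]
  -- Step 1
  have step1 : ∀ ω : ℂ, ‖ω‖ ≤ R₁ → ∃ g ∈ B, ∀ y : Q, g y = h (y.1.1, ω) := by
    intro ω hω
    have hA : ∀ ρ : ℝ, 0 < ρ → r₁ ≤ ρ → ρ ≤ R₁ →
        (∀ ζ : ℂ, ‖ζ‖ = ρ → ∃ g ∈ B, ∀ y, g y = (ζ - Z y)⁻¹) →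
        (∀ ζ : ℂ, ‖ζ‖ = ρ → ∀ y : Q, ζ - y.1.1 ≠ 0) →
        ∃ g ∈ Subalgebra.toSubmodule B, ∀ y : Q, g y
          = ∮ ζ in C(0, ρ), (ζ - y.1.1)⁻¹ * h (ζ, ω) := by
      intro ρ hρ h1 h2 hk hk0
      refine circ_mem _ hBs ρ (fun ζ (y : Q) => (ζ - y.1.1)⁻¹ * h (ζ, ω)) ?_ ?_
      · refine Continuous.mul ?_ ?_
        · refine Continuous.inv₀ ?_ fun p => hk0 _ (hcm ρ hρ _) _
          exact ((continuous_circleMap 0 ρ).comp continuous_fst).sub
            (continuous_subtype_val.fst.comp continuous_snd)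
        · refine hcont (fun p : ℝ × Q => (circleMap 0 ρ p.1, ω)) ?_ fun p => ?_
          · exact ((continuous_circleMap 0 ρ).comp continuous_fst).prodMk continuous_const
          · simp only [hcm ρ hρ]
            exact ⟨h1, h2, hω⟩
      · intro t
        obtain ⟨g, hg, hgy⟩ := hk _ (hcm ρ hρ t)
        refine ⟨h (circleMap 0 ρ t, ω) • g, B.smul_mem hg _, fun y => ?_⟩
        rw [ContinuousMap.smul_apply, hgy, smul_eq_mul, mul_comm]
        rfl
    obtain ⟨g₁, hg₁, hg₁y⟩ := hA R₁ hR₁0 hr₁R₁ le_rfl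
      (fun ζ hζ => kout Z hZ hZn ζ (by rw [hζ]; linarith)) (fun ζ hζ y h => by
        rw [sub_eq_zero] at h
        have := y.2.2.1
        rw [← h, hζ] at this
        linarith)
    obtain ⟨g₂, hg₂, hg₂y⟩ := hA r₁ hr₁0 le_rfl hr₁R₁
      (fun ζ hζ => kin ζ (by rw [hζ]; linarith)) (fun ζ hζ y h => by
        rw [sub_eq_zero] at h
        have := y.2.1
        rw [← h, hζ] at this
        linarith)
    refine ⟨(2 * Real.pi * Complex.I : ℂ)⁻¹ • (g₁ - g₂), B.smul_mem (B.sub_mem hg₁ hg₂) _,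
      fun y => ?_⟩
    have hann := annulus hr₁0 hr₁R₁ (f := fun ζ => h (ζ, ω)) (fun ζ h1 h2 =>
      (hdiff (ζ, ω) h1 h2 hω).comp ζ (differentiableAt_id.prodMk (differentiableAt_const ω)))
      (z := y.1.1) (by linarith [y.2.1]) (by linarith [y.2.2.1])
    rw [ContinuousMap.smul_apply, ContinuousMap.sub_apply, hg₁y, hg₂y, hann, smul_eq_mul]
    rw [inv_mul_cancel_left₀ Complex.two_pi_I_ne_zero]
  -- Step 2
  have step2 : ∃ g ∈ B, ∀ y : Q, g y = h y.1 := by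
    obtain ⟨g, hg, hgy⟩ : ∃ g ∈ Subalgebra.toSubmodule B, ∀ y : Q, g y
        = ∮ ω in C(0, R₁), (ω - y.1.2)⁻¹ * h (y.1.1, ω) := by
      refine circ_mem _ hBs R₁ (fun ω (y : Q) => (ω - y.1.2)⁻¹ * h (y.1.1, ω)) ?_ ?_
      · refine Continuous.mul ?_ ?_
        · refine Continuous.inv₀ ?_ fun p h => ?_
          · exact ((continuous_circleMap 0 R₁).comp continuous_fst).sub
              (continuous_subtype_val.snd.comp continuous_snd)
          · rw [sub_eq_zero] at h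
            have := p.2.2.2.2
            rw [← h, hcm R₁ hR₁0] at this
            linarith
        · refine hcont (fun p : ℝ × Q => (p.2.1.1, circleMap 0 R₁ p.1)) ?_ fun p => ?_
          · exact (continuous_subtype_val.fst.comp continuous_snd).prodMk
              ((continuous_circleMap 0 R₁).comp continuous_fst)
          · simp only [hcm R₁ hR₁0]
            exact ⟨by linarith [p.2.2.1], by linarith [p.2.2.2.1], le_rfl⟩
      · intro t
        obtain ⟨g, hg, hgy⟩ := step1 (circleMap 0 R₁ t) (hcm R₁ hR₁0 t).le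
        obtain ⟨g', hg', hgy'⟩ := kout W hW hWn (circleMap 0 R₁ t)
          (by rw [hcm R₁ hR₁0 t]; linarith)
        refine ⟨g' * g, B.mul_mem hg' hg, fun y => ?_⟩
        rw [ContinuousMap.mul_apply, hgy, hgy']
        rfl
    refine ⟨(2 * Real.pi * Complex.I : ℂ)⁻¹ • g, B.smul_mem hg _, fun y => ?_⟩
    have hd : ∀ w : ℂ, ‖w‖ ≤ R₁ → DifferentiableAt ℂ (fun ω => h (y.1.1, ω)) w := fun w hw =>
      (hdiff (y.1.1, w) (by linarith [y.2.1]) (by linarith [y.2.2.1]) hw).comp w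
        ((differentiableAt_const y.1.1).prodMk differentiableAt_id)
    have hc := Complex.circleIntegral_sub_inv_smul_of_differentiable_on_off_countable
      (R := R₁) (c := 0) (w := y.1.2) (f := fun ω => h (y.1.1, ω)) countable_empty
      (by simpa using (by linarith [y.2.2.2] : ‖y.1.2‖ < R₁))
      (fun w hw => (hd w (by simpa using hw)).continuousAt.continuousWithinAt)
      (fun w hw => hd w (by simpa using (by simpa using hw.1 : ‖w‖ < R₁).le))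
    simp only [smul_eq_mul] at hc
    rw [ContinuousMap.smul_apply, hgy, hc, smul_eq_mul,
      inv_mul_cancel_left₀ Complex.two_pi_I_ne_zero]
  obtain ⟨g, hg, hgy⟩ := step2
  -- approximation by an element of B₀
  obtain ⟨g₀, hg₀, hd⟩ := Metric.mem_closure_iff.1 (show g ∈ closure (B₀ : Set C(Q, ℂ)) from hg) ε hε
  have hres : ∀ g ∈ B₀, ∃ p ∈ LP, ∀ y : Q, g y = p y.1 := by
    intro g hg
    refine Algebra.adjoin_induction (p := fun g _ => ∃ p ∈ LP, ∀ y : Q, g y = p y.1) ?_ ?_ ?_ ?_ hg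
    · rintro x (rfl | rfl | rfl)
      · exact ⟨_, Algebra.subset_adjoin (by simp : (fun p : C2 => p.1) ∈ _), fun y => rfl⟩
      · exact ⟨_, Algebra.subset_adjoin (by simp : (fun p : C2 => (p.1)⁻¹) ∈ _), fun y => rfl⟩
      · exact ⟨_, Algebra.subset_adjoin (by simp : (fun p : C2 => p.2) ∈ _), fun y => rfl⟩
    · intro c
      exact ⟨algebraMap ℂ (C2 → ℂ) c, LP.algebraMap_mem c, fun y => rfl⟩
    · rintro x y _ _ ⟨p, hp, hpy⟩ ⟨q, hq, hqy⟩
      exact ⟨p + q, LP.add_mem hp hq, fun u => by simp [hpy, hqy]⟩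
    · rintro x y _ _ ⟨p, hp, hpy⟩ ⟨q, hq, hqy⟩
      exact ⟨p * q, LP.mul_mem hp hq, fun u => by simp [hpy, hqy]⟩
  obtain ⟨p, hp, hpy⟩ := hres g₀ hg₀
  refine ⟨p, hp, fun y h1 h2 h3 => ?_⟩
  have h4 : dist (g ⟨y, h1, h2, h3⟩) (g₀ ⟨y, h1, h2, h3⟩) < ε :=
    lt_of_le_of_lt (ContinuousMap.dist_apply_le_dist _) hd
  rw [hgy, hpy, dist_eq_norm] at h4
  exact h4

end Pool.Agent.MP_fe3720.X
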