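import Pool.Agent.Work.MP_fe3720_an.X.Defs

/-!
# Weierstrass theorem in several variables (size M, pure Mathlib)

PROOF. Let `x0 ∈ U`, `closedBall x0 (2ρ) ⊆ U` (compact: `C2` is proper). For `n ≥ n₀` all `f n` are
complex differentiable at every point of this ball, hence on the open ball `ball x0 (2ρ)`, and they are
uniformly Cauchy there. Cauchy estimate in one variable: for `x ∈ ball x0 ρ` and a vector `v`, `‖v‖ ≤ 1`,
the function `φ s = f n (x + s v) - f m (x + s v)` of `s ∈ ℂ`, `‖s‖ < ρ`, is differentiable, so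
`‖(fderiv ℂ (f n) x - fderiv ℂ (f m) x) v‖ = ‖deriv φ 0‖ ≤ (sup ‖φ‖)/(ρ/2)` on the circle of radius `ρ/2`
(`Complex.norm_deriv_le_of_forall_mem_sphere_norm_le`). So the derivatives are uniformly Cauchy on
`ball x0 ρ` (operator norm: `ContinuousLinearMap.opNorm_le_bound`), and converge uniformly to some
`g' x` (`C2 →L[ℂ] E` is complete: `cauchySeq_tendsto_of_complete`, `UniformCauchySeqOn.tendstoUniformlyOn_of_tendsto`).
Conclude with `hasFDerivAt_of_tendstoUniformlyOn` (Mathlib.Analysis.Calculus.UniformLimitsDeriv) on the open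
ball, for the sequence `n ↦ f (n + n₀)`.
-/

namespace Pool.Agent.MP_fe3720.X

open Topology Filter Set

/-- Cauchy estimate for the derivative -/
private theorem cauchy_est {E : Type*} [NormedAddCommGroup E] [NormedSpace ℂ E] [CompleteSpace E]
    {x0 : C2} {ρ : ℝ} (hρ : 0 < ρ) {F : C2 → E}
    (hF : ∀ x ∈ Metric.closedBall x0 (2 * ρ), DifferentiableAt ℂ F x) {C : ℝ}
    (hC : ∀ x ∈ Metric.closedBall x0 (2 * ρ), ‖F x‖ ≤ C) {x : C2} (hx : x ∈ Metric.ball x0 ρ) :
    ‖fderiv ℂ F x‖ ≤ C / (ρ / 2) := by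
  have hC0 : 0 ≤ C := (norm_nonneg _).trans (hC x0 (Metric.mem_closedBall_self (by linarith)))
  refine ContinuousLinearMap.opNorm_le_of_unit_norm (by positivity) ?_
  intro v hv
  have hin : ∀ s : ℂ, ‖s‖ ≤ ρ / 2 → x + s • v ∈ Metric.closedBall x0 (2 * ρ) := by
    intro s hs
    rw [Metric.mem_closedBall, dist_eq_norm]
    have h1 : ‖x - x0‖ < ρ := by rw [← dist_eq_norm]; exact hx
    have h2 : x + s • v - x0 = (x - x0) + s • v := by abel
    rw [h2]
    have h3 : ‖s • v‖ ≤ ρ / 2 := by rw [norm_smul, hv, mul_one]; exact hs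
    have h4 := norm_add_le (x - x0) (s • v)
    linarith
  have hlin : ∀ s : ℂ, HasDerivAt (fun s : ℂ => x + s • v) v s := by
    intro s
    have h1 : HasDerivAt (fun s : ℂ => s • v) ((1 : ℂ) • v) s := (hasDerivAt_id s).smul_const v
    rw [one_smul] at h1
    exact h1.const_add x
  have hcomp : ∀ s : ℂ, ‖s‖ ≤ ρ / 2 → HasDerivAt (fun s : ℂ => F (x + s • v))
      (fderiv ℂ F (x + s • v) v) s := by
    intro s hs
    exact (hF _ (hin s hs)).hasFDerivAt.comp_hasDerivAt s (hlin s)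
  have hd : DiffContOnCl ℂ (fun s : ℂ => F (x + s • v)) (Metric.ball 0 (ρ / 2)) := by
    apply DifferentiableOn.diffContOnCl
    intro s hs
    have hs' : ‖s‖ ≤ ρ / 2 := by
      rw [closure_ball (0 : ℂ) (by positivity)] at hs
      simpa using hs
    exact (hcomp s hs').differentiableAt.differentiableWithinAt
  have h1 := Complex.norm_deriv_le_of_forall_mem_sphere_norm_le (show 0 < ρ / 2 by positivity) hd
    (C := C) (fun s hs => hC _ (hin s (by simpa using (mem_sphere_zero_iff_norm.1 hs).le)))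
  rw [(hcomp 0 (by simp; positivity)).deriv, zero_smul, add_zero] at h1
  exact h1

theorem diffOn_of_unif {E : Type*} [NormedAddCommGroup E] [NormedSpace ℂ E] [CompleteSpace E]
    {U : Set C2} (hU : IsOpen U) (f : ℕ → C2 → E) (g : C2 → E)
    (h : ∀ K ⊆ U, IsCompact K → ∀ ε > 0, ∃ n₀ : ℕ, ∀ n ≥ n₀,
      (∀ x ∈ K, DifferentiableAt ℂ (f n) x) ∧ ∀ x ∈ K, ‖f n x - g x‖ < ε) :
    DifferentiableOn ℂ g U := by
  intro x0 hx0
  apply DifferentiableAt.differentiableWithinAt
  obtain ⟨r, hr, hball⟩ := Metric.isOpen_iff.1 hU x0 hx0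
  set ρ : ℝ := r / 4 with hρdef
  have hρ : 0 < ρ := by positivity
  have hK : Metric.closedBall x0 (2 * ρ) ⊆ U :=
    (Metric.closedBall_subset_ball (by rw [hρdef]; linarith)).trans hball
  have hKc : IsCompact (Metric.closedBall x0 (2 * ρ)) := isCompact_closedBall _ _
  obtain ⟨n₀, hn₀⟩ := h _ hK hKc 1 one_pos
  have hdiff : ∀ n, ∀ x ∈ Metric.closedBall x0 (2 * ρ), DifferentiableAt ℂ (f (n + n₀)) x :=
    fun n => (hn₀ (n + n₀) (Nat.le_add_left _ _)).1
  have hunif : ∀ ε > 0, ∃ N : ℕ, ∀ n ≥ N, ∀ x ∈ Metric.closedBall x0 (2 * ρ),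
      ‖f (n + n₀) x - g x‖ < ε := by
    intro ε hε
    obtain ⟨N, hN⟩ := h _ hK hKc ε hε
    exact ⟨N, fun n hn => (hN (n + n₀) (by omega)).2⟩
  have hcau : UniformCauchySeqOn (fun n x => fderiv ℂ (f (n + n₀)) x) atTop
      (Metric.ball x0 ρ) := by
    rw [Metric.uniformCauchySeqOn_iff]
    intro ε hε
    obtain ⟨N, hN⟩ := hunif (ε * ρ / 8) (by positivity)
    refine ⟨N, fun m hm n hn x hx => ?_⟩
    have hxK : x ∈ Metric.closedBall x0 (2 * ρ) :=
      Metric.ball_subset_closedBall (Metric.ball_subset_ball (by linarith) hx)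
    have h1 : fderiv ℂ (fun y => f (m + n₀) y - f (n + n₀) y) x =
        fderiv ℂ (f (m + n₀)) x - fderiv ℂ (f (n + n₀)) x :=
      fderiv_fun_sub (hdiff m x hxK) (hdiff n x hxK)
    rw [dist_eq_norm, ← h1]
    have h2 : ‖fderiv ℂ (fun y => f (m + n₀) y - f (n + n₀) y) x‖ ≤ (ε * ρ / 4) / (ρ / 2) := by
      refine cauchy_est hρ (fun y hy => (hdiff m y hy).fun_sub (hdiff n y hy)) ?_ hx
      intro y hy
      have e1 := hN m hm y hy
      have e2 := hN n hn y hy
      have e3 : f (m + n₀) y - f (n + n₀) y = (f (m + n₀) y - g y) - (f (n + n₀) y - g y) := by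
        abel
      rw [e3]
      have e4 := norm_sub_le (f (m + n₀) y - g y) (f (n + n₀) y - g y)
      linarith
    have h3 : (ε * ρ / 4) / (ρ / 2) = ε / 2 := by field_simp; ring
    rw [h3] at h2
    linarith
  have hlim : ∀ x : C2, ∃ G : C2 →L[ℂ] E, x ∈ Metric.ball x0 ρ →
      Tendsto (fun n => fderiv ℂ (f (n + n₀)) x) atTop (𝓝 G) := by
    intro x
    by_cases hx : x ∈ Metric.ball x0 ρ
    · obtain ⟨G, hG⟩ := cauchySeq_tendsto_of_complete (hcau.cauchy_map hx)
      exact ⟨G, fun _ => hG⟩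
    · exact ⟨0, fun h => absurd h hx⟩
  choose g' hg' using hlim
  have hmain := hasFDerivAt_of_tendstoUniformlyOn (𝕜 := ℂ) (l := atTop)
    (f := fun n x => f (n + n₀) x) (f' := fun n x => fderiv ℂ (f (n + n₀)) x) (g := g) (g' := g')
    (s := Metric.ball x0 ρ) Metric.isOpen_ball (hcau.tendstoUniformlyOn_of_tendsto hg')
    (fun n x hx => (hdiff n x (Metric.ball_subset_closedBall
      (Metric.ball_subset_ball (by linarith) hx))).hasFDerivAt)
    (fun x hx => by
      rw [Metric.tendsto_atTop]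
      intro ε hε
      obtain ⟨N, hN⟩ := hunif ε hε
      exact ⟨N, fun n hn => by
        rw [dist_eq_norm]
        exact hN n hn x (Metric.ball_subset_closedBall
          (Metric.ball_subset_ball (by linarith) hx))⟩)
    (Metric.mem_ball_self hρ)
  exact hmain.differentiableAt

end Pool.Agent.MP_fe3720.X
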