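import Pool.Agent.Work.MP_fe3720_an.X.Defs
import Pool.Agent.Work.MP_fe3720_an.X.Weier

/-!
# Limits of one-parameter groups: complete vector fields on the union (size M-L)

PROOF. Write `Ω = ⋃ K l`, `K l ⊆ K (l+1)`, `Ω` open. (1) For `l ≥ k₀`, `‖t‖ ≤ l+1`, `x ∈ K l` the sequence
`(Θ n t x)_{n ≥ l}` is Cauchy, `dist (Θ (n+1) t x) (Θ n t x) ≤ ε n`, `Σ_{n ≥ l} ε n ≤ 2 ε l` (`hhalf`). Let `P t x` be its
limit (defined for all `t`, `x ∈ Ω`: `limUnder`), `dist (P t x) (Θ l t x) ≤ 2 ε l`; by `hthick`, `P t x ∈ K (l+1) ⊆ Ω`.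
(2) for `x ∈ Ω`, `t ↦ P t x` is entire: on every disc it is a uniform limit of the holomorphic functions `t ↦ Θ n t x`
(`TendstoLocallyUniformlyOn.differentiableOn`; differentiability from `hsmooth`). For fixed `t` the map `P t` is continuous
on `Ω` (uniform limit on each `K l`, whose interiors cover `Ω`).
(3) `P 0 x = x`; `P (s+t) x = P s (P t x)`: `Θ n (s+t) x = Θ n s (Θ n t x)`; `y_n = Θ n t x → y = P t x ∈ K (l+1) ⊆ interior
(K (l+2))`, so `y_n ∈ K (l+2)` for large `n` and `dist (Θ n s y_n) (P s y_n) ≤ 2 ε n → 0`, `P s y_n → P s y`.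
(4) `V x = deriv (fun t => P t x) 0`. Cauchy estimate: for `x ∈ K l`, `l ≥ k₀`, `‖V x - deriv (fun t => Θ l t x) 0‖ ≤
sup_{‖t‖=1} ‖P t x - Θ l t x‖ ≤ 2 ε l` (`Complex.norm_deriv_le_of_forall_mem_sphere_norm_le`, radius 1 `≤ l + 1`).
(5) `V` is holomorphic on `Ω`: `x ↦ deriv (fun t => Θ l t x) 0 = fderiv ℂ (fun p => Θ l p.1 p.2) (0,x) (1,0)` is
differentiable on `U l` (`hsmooth`, C²) and converges to `V` uniformly on compact sets by (4): `diffOn_of_unif`
(every compact subset of `Ω` is contained in some `K l`: `IsCompact.elim_directed_cover` with the interiors).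
(6) complete: `γ t = P t x`, `HasDerivAt γ (V (γ t)) t` because `γ (t + s) = P s (γ t)` (add commuted), derivative at `s = 0`.
-/

namespace Pool.Agent.MP_fe3720.X

open Topology Filter Set

private theorem lf_mono {K : ℕ → Set C2} (hKi : ∀ l, K l ⊆ interior (K (l + 1))) : Monotone K :=
  monotone_nat_of_le_succ fun l => (hKi l).trans interior_subset

private theorem lf_eps {ε : ℕ → ℝ} (hhalf : ∀ l, ε (l + 1) ≤ ε l / 2) (l j : ℕ) :
    ε (j + l) ≤ ε l / 2 ^ j := by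
  induction j with
  | zero => simp
  | succ j ih =>
    have h := hhalf (j + l)
    rw [show j + 1 + l = j + l + 1 by ring]
    refine h.trans ?_
    rw [pow_succ, ← div_div]
    exact div_le_div_of_nonneg_right ih (by norm_num)

private theorem lf_zero {ε : ℕ → ℝ} (hε : ∀ l, 0 < ε l) (hhalf : ∀ l, ε (l + 1) ≤ ε l / 2) :
    Tendsto ε atTop (𝓝 0) := by
  have h1 : ∀ j, ε j ≤ ε 0 * (1 / 2) ^ j := by
    intro j
    have h := lf_eps hhalf 0 j
    rw [add_zero] at h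
    refine h.trans (le_of_eq ?_)
    rw [one_div, inv_pow, div_eq_mul_inv]
  refine squeeze_zero (fun j => (hε j).le) h1 ?_
  have h2 := (tendsto_pow_atTop_nhds_zero_of_lt_one (r := (1 / 2 : ℝ)) (by norm_num)
    (by norm_num)).const_mul (ε 0)
  rwa [mul_zero] at h2

/-- convergence -/
private theorem lf_conv {K : ℕ → Set C2} (hKm : Monotone K) (Θ : ℕ → ℂ → C2 → C2) {ε : ℕ → ℝ}
    {k₀ : ℕ} (hhalf : ∀ l, ε (l + 1) ≤ ε l / 2)
    (hclose : ∀ l ≥ k₀, ∀ t : ℂ, ‖t‖ ≤ l + 1 → ∀ x ∈ K l, dist (Θ (l + 1) t x) (Θ l t x) ≤ ε l)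
    {l : ℕ} (hl : k₀ ≤ l) {t : ℂ} (ht : ‖t‖ ≤ l + 1) {x : C2} (hx : x ∈ K l) :
    Tendsto (fun n => Θ n t x) atTop (𝓝 (limUnder atTop fun n => Θ n t x)) ∧
      dist (Θ l t x) (limUnder atTop fun n => Θ n t x) ≤ 2 * ε l := by
  have h1 : ∀ j, dist (Θ (j + l) t x) (Θ (j + 1 + l) t x) ≤ 2 * ε l / 2 / 2 ^ j := by
    intro j
    rw [dist_comm, show j + 1 + l = j + l + 1 by ring]
    have h2 := hclose (j + l) (hl.trans (Nat.le_add_left _ _)) t
      (ht.trans (by push_cast; linarith [(Nat.cast_nonneg j : (0 : ℝ) ≤ j)])) x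
      (hKm (Nat.le_add_left _ _) hx)
    refine h2.trans ((lf_eps hhalf l j).trans (le_of_eq ?_))
    ring
  have h2 : CauchySeq fun j => Θ (j + l) t x := cauchySeq_of_le_geometric_two h1
  obtain ⟨a, ha⟩ := cauchySeq_tendsto_of_complete h2
  have h3 : Tendsto (fun n => Θ n t x) atTop (𝓝 a) := (tendsto_add_atTop_iff_nat l).1 ha
  rw [h3.limUnder_eq]
  refine ⟨h3, ?_⟩
  have h4 := dist_le_of_le_geometric_two_of_tendsto₀ h1 ha
  rwa [zero_add] at h4

private theorem lf_diff {U : ℕ → Set C2} (hU : ∀ l, IsOpen (U l)) {Θ : ℕ → ℂ → C2 → C2}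
    (hsmooth : ∀ l, ContDiffOn ℂ 2 (fun p : ℂ × C2 => Θ l p.1 p.2) (univ ×ˢ U l)) {n : ℕ} {x : C2}
    (hx : x ∈ U n) (t : ℂ) : DifferentiableAt ℂ (fun p : ℂ × C2 => Θ n p.1 p.2) (t, x) :=
  ((hsmooth n).differentiableOn (by norm_num)).differentiableAt
    ((isOpen_univ.prod (hU n)).mem_nhds ⟨mem_univ _, hx⟩)

private theorem lf_deriv {U : ℕ → Set C2} (hU : ∀ l, IsOpen (U l)) {Θ : ℕ → ℂ → C2 → C2}
    (hsmooth : ∀ l, ContDiffOn ℂ 2 (fun p : ℂ × C2 => Θ l p.1 p.2) (univ ×ˢ U l)) {n : ℕ} {x : C2}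
    (hx : x ∈ U n) (t : ℂ) : HasDerivAt (fun t => Θ n t x)
      (fderiv ℂ (fun p : ℂ × C2 => Θ n p.1 p.2) (t, x) (1, 0)) t := by
  have h1 := (lf_diff hU hsmooth hx t).hasFDerivAt
  have h2 : HasDerivAt (fun t : ℂ => (t, x)) ((1 : ℂ), (0 : C2)) t :=
    (hasDerivAt_id t).prodMk (hasDerivAt_const t x)
  exact h1.comp_hasDerivAt t h2

theorem lim_flow {K U : ℕ → Set C2} (hK : ∀ l, IsCompact (K l))
    (hKi : ∀ l, K l ⊆ interior (K (l + 1))) (hU : ∀ l, IsOpen (U l)) (hKU : ∀ l, K l ⊆ U l)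
    (Θ : ℕ → ℂ → C2 → C2) {ε : ℕ → ℝ} (k₀ : ℕ) (hε : ∀ l, 0 < ε l)
    (hhalf : ∀ l, ε (l + 1) ≤ ε l / 2) (hzero : ∀ l, ∀ x ∈ U l, Θ l 0 x = x)
    (hadd : ∀ l, ∀ x ∈ U l, ∀ s t, Θ l (s + t) x = Θ l s (Θ l t x))
    (hsmooth : ∀ l, ContDiffOn ℂ 2 (fun p : ℂ × C2 => Θ l p.1 p.2) (univ ×ˢ U l))
    (hclose : ∀ l ≥ k₀, ∀ t : ℂ, ‖t‖ ≤ l + 1 → ∀ x ∈ K l, dist (Θ (l + 1) t x) (Θ l t x) ≤ ε l)
    (hthick : ∀ l ≥ k₀, ∀ t : ℂ, ‖t‖ ≤ l + 1 → ∀ x ∈ K l, ∀ y, dist y (Θ l t x) ≤ 2 * ε l →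
      y ∈ K (l + 1)) :
    ∃ V : C2 → C2, IsComplete (⋃ l, K l) V ∧
      ∀ l ≥ k₀, ∀ x ∈ K l, ‖V x - deriv (fun t => Θ l t x) 0‖ ≤ 2 * ε l := by
  have hKm := lf_mono hKi
  have hε0 := lf_zero hε hhalf
  set P : ℂ → C2 → C2 := fun t x => limUnder atTop fun n => Θ n t x with hP
  have hconv : ∀ l ≥ k₀, ∀ t : ℂ, ‖t‖ ≤ l + 1 → ∀ x ∈ K l,
      Tendsto (fun n => Θ n t x) atTop (𝓝 (P t x)) ∧ dist (Θ l t x) (P t x) ≤ 2 * ε l :=
    fun l hl t ht x hx => lf_conv hKm Θ hhalf hclose hl ht hx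
  -- a good index for finitely many data
  have hidx : ∀ (x : C2), x ∈ ⋃ l, K l → ∀ R : ℝ, ∃ l ≥ k₀, R ≤ (l : ℝ) + 1 ∧ x ∈ K l := by
    intro x hx R
    obtain ⟨m, hm⟩ := mem_iUnion.1 hx
    refine ⟨max (max m k₀) ⌈R⌉₊, (le_max_right _ _).trans (le_max_left _ _), ?_,
      hKm ((le_max_left _ _).trans (le_max_left _ _)) hm⟩
    have h1 : R ≤ (⌈R⌉₊ : ℝ) := Nat.le_ceil R
    have h2 : ((⌈R⌉₊ : ℕ) : ℝ) ≤ ((max (max m k₀) ⌈R⌉₊ : ℕ) : ℝ) :=
      Nat.cast_le.2 (le_max_right _ _)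
    linarith
  have hmem : ∀ l ≥ k₀, ∀ t : ℂ, ‖t‖ ≤ l + 1 → ∀ x ∈ K l, P t x ∈ K (l + 1) := fun l hl t ht x hx =>
    hthick l hl t ht x hx _ (by rw [dist_comm]; exact (hconv l hl t ht x hx).2)
  have hΩ : IsOpen (⋃ l, K l) := by
    have h1 : (⋃ l, K l) = ⋃ l, interior (K (l + 1)) := by
      apply subset_antisymm
      · exact iUnion_mono fun l => hKi l
      · intro x hx
        obtain ⟨l, hl⟩ := mem_iUnion.1 hx
        exact mem_iUnion.2 ⟨l + 1, interior_subset hl⟩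
    rw [h1]
    exact isOpen_iUnion fun l => isOpen_interior
  -- uniform convergence in `t`
  have hPd : ∀ x ∈ ⋃ l, K l, Differentiable ℂ fun t => P t x := by
    intro x hx t₀
    obtain ⟨l, hl, htl, hxl⟩ := hidx x hx (‖t₀‖ + 1)
    have h1 : TendstoUniformlyOn (fun n t => Θ n t x) (fun t => P t x) atTop
        (Metric.ball (0 : ℂ) (l + 1)) := by
      rw [Metric.tendstoUniformlyOn_iff]
      intro δ hδ
      have h2 : ∀ᶠ n in atTop, ε n < δ / 2 := hε0.eventually (gt_mem_nhds (half_pos hδ))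
      filter_upwards [h2, eventually_ge_atTop l] with n hn hln t ht
      have h3 : ‖t‖ ≤ (n : ℝ) + 1 := by
        rw [mem_ball_zero_iff] at ht
        have : (l : ℝ) ≤ n := Nat.cast_le.2 hln
        linarith
      have h4 := (hconv n (hl.trans hln) t h3 x (hKm hln hxl)).2
      rw [dist_comm]
      linarith
    have h2 : DifferentiableOn ℂ (fun t => P t x) (Metric.ball (0 : ℂ) (l + 1)) := by
      refine h1.tendstoLocallyUniformlyOn.differentiableOn ?_ Metric.isOpen_ball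
      filter_upwards [eventually_ge_atTop l] with n hn t ht
      exact (lf_deriv hU hsmooth (hKU n (hKm hn hxl)) t).differentiableAt.differentiableWithinAt
    refine h2.differentiableAt (Metric.isOpen_ball.mem_nhds ?_)
    rw [mem_ball_zero_iff]
    linarith
  -- continuity in `x`
  have hPc : ∀ l ≥ k₀, ∀ t : ℂ, ‖t‖ ≤ l + 1 → ContinuousOn (P t) (K l) := by
    intro l hl t ht
    have h1 : TendstoUniformlyOn (fun n x => Θ n t x) (P t) atTop (K l) := by
      rw [Metric.tendstoUniformlyOn_iff]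
      intro δ hδ
      have h2 : ∀ᶠ n in atTop, ε n < δ / 2 := hε0.eventually (gt_mem_nhds (half_pos hδ))
      filter_upwards [h2, eventually_ge_atTop l] with n hn hln x hx
      have h3 : ‖t‖ ≤ (n : ℝ) + 1 := by
        have : (l : ℝ) ≤ n := Nat.cast_le.2 hln
        linarith
      have h4 := (hconv n (hl.trans hln) t h3 x (hKm hln hx)).2
      rw [dist_comm]
      linarith
    refine h1.continuousOn (Eventually.frequently ?_)
    filter_upwards [eventually_ge_atTop l] with n hn x hx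
    have h5 := (lf_diff hU hsmooth (hKU n (hKm hn hx)) t).continuousAt
    have h6 : ContinuousAt (fun x : C2 => Θ n t x) x :=
      ContinuousAt.comp (g := fun p : ℂ × C2 => Θ n p.1 p.2) (f := fun x : C2 => (t, x)) h5
        (Continuous.prodMk_right t).continuousAt
    exact h6.continuousWithinAt
  have hP0 : ∀ x ∈ ⋃ l, K l, P 0 x = x := by
    intro x hx
    obtain ⟨l, hl, htl, hxl⟩ := hidx x hx 0
    have h1 := (hconv l hl 0 (by rw [norm_zero]; exact htl) x hxl).1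
    refine tendsto_nhds_unique h1 ?_
    refine tendsto_const_nhds.congr' ?_
    filter_upwards [eventually_ge_atTop l] with n hn
    exact (hzero n x (hKU n (hKm hn hxl))).symm
  have hPadd : ∀ x ∈ ⋃ l, K l, ∀ s t, P (s + t) x = P s (P t x) := by
    intro x hx s t
    obtain ⟨l, hl, htl, hxl⟩ := hidx x hx (‖s‖ + ‖t‖)
    have hs : ‖s‖ ≤ (l : ℝ) + 1 := by linarith [norm_nonneg t]
    have ht : ‖t‖ ≤ (l : ℝ) + 1 := by linarith [norm_nonneg s]
    have hst : ‖s + t‖ ≤ (l : ℝ) + 1 := (norm_add_le s t).trans htl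
    have h1 := (hconv l hl (s + t) hst x hxl).1
    have h2 := (hconv l hl t ht x hxl).1
    have h3 : P t x ∈ interior (K (l + 2)) := hKi (l + 1) (hmem l hl t ht x hxl)
    have hs2 : ‖s‖ ≤ ((l + 2 : ℕ) : ℝ) + 1 := by push_cast; linarith
    have h4 : Tendsto (fun n => P s (Θ n t x)) atTop (𝓝 (P s (P t x))) := by
      have h5 : ContinuousAt (P s) (P t x) :=
        (hPc (l + 2) (by omega) s hs2).continuousAt (mem_interior_iff_mem_nhds.1 h3)
      exact h5.tendsto.comp h2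
    have h5 : Tendsto (fun n => Θ n s (Θ n t x)) atTop (𝓝 (P s (P t x))) := by
      refine h4.congr_dist ?_
      have h6 : ∀ᶠ n in atTop, Θ n t x ∈ K (l + 2) :=
        (h2.eventually (isOpen_interior.mem_nhds h3)).mono fun n hn => interior_subset hn
      have h7 : Tendsto (fun n => 2 * ε n) atTop (𝓝 0) := by
        have h8 := hε0.const_mul 2
        rwa [mul_zero] at h8
      refine squeeze_zero' (Eventually.of_forall fun n => dist_nonneg) ?_ h7
      filter_upwards [h6, eventually_ge_atTop (l + 2)] with n hn hln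
      have h8 : ‖s‖ ≤ (n : ℝ) + 1 := by
        have : ((l + 2 : ℕ) : ℝ) ≤ n := Nat.cast_le.2 hln
        linarith
      have h9 := (hconv n (by omega) s h8 (Θ n t x) (hKm hln hn)).2
      rwa [dist_comm] at h9
    refine tendsto_nhds_unique h1 (h5.congr' ?_)
    filter_upwards [eventually_ge_atTop l] with n hn
    exact (hadd n x (hKU n (hKm hn hxl)) s t).symm
  have hV : ∀ l ≥ k₀, ∀ x ∈ K l,
      ‖deriv (fun t => P t x) 0 - deriv (fun t => Θ l t x) 0‖ ≤ 2 * ε l := by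
    intro l hl x hx
    have hxΩ : x ∈ ⋃ l, K l := mem_iUnion.2 ⟨l, hx⟩
    have hd1 := hPd x hxΩ
    have hd2 : Differentiable ℂ fun t => Θ l t x := fun t =>
      (lf_deriv hU hsmooth (hKU l hx) t).differentiableAt
    have h1 : deriv (fun t => P t x) 0 - deriv (fun t => Θ l t x) 0 =
        deriv (fun t => P t x - Θ l t x) 0 := (deriv_fun_sub (hd1 0) (hd2 0)).symm
    rw [h1]
    have h2 : ‖deriv (fun t => P t x - Θ l t x) 0‖ ≤ 2 * ε l / 1 := by
      refine Complex.norm_deriv_le_of_forall_mem_sphere_norm_le one_pos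
        (hd1.sub hd2).diffContOnCl ?_
      intro t ht
      rw [mem_sphere_zero_iff_norm] at ht
      have h3 : ‖t‖ ≤ (l : ℝ) + 1 := by
        rw [ht]
        linarith [(Nat.cast_nonneg l : (0 : ℝ) ≤ l)]
      have h4 := (hconv l hl t h3 x hx).2
      rwa [dist_comm, dist_eq_norm] at h4
    rwa [div_one] at h2
  refine ⟨fun x => deriv (fun t => P t x) 0, ⟨?_, ?_⟩, hV⟩
  · refine diffOn_of_unif hΩ (fun n x => deriv (fun t => Θ n t x) 0) _ ?_
    intro C hC hCc δ hδ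
    have h1 : ∃ L, C ⊆ K L := by
      obtain ⟨i, hi⟩ := hCc.elim_directed_cover (fun l => interior (K l))
        (fun l => isOpen_interior) (fun x hx => by
          obtain ⟨l, hl⟩ := mem_iUnion.1 (hC hx)
          exact mem_iUnion.2 ⟨l + 1, hKi l hl⟩)
        (Monotone.directed_le fun a b hab => interior_mono (hKm hab))
      exact ⟨i, hi.trans interior_subset⟩
    obtain ⟨L, hL⟩ := h1
    obtain ⟨N, hN⟩ := eventually_atTop.1 (hε0.eventually (gt_mem_nhds (half_pos hδ)))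
    refine ⟨max (max L k₀) N, fun n hn => ?_⟩
    have hnL : L ≤ n := (le_max_left _ _).trans ((le_max_left _ _).trans hn)
    have hnk : k₀ ≤ n := (le_max_right _ _).trans ((le_max_left _ _).trans hn)
    have hnN : N ≤ n := (le_max_right _ _).trans hn
    refine ⟨fun x hx => ?_, fun x hx => ?_⟩
    · have hxU : x ∈ U n := hKU n (hKm hnL (hL hx))
      have h2 : (fun x => deriv (fun t => Θ n t x) 0) =ᶠ[𝓝 x]
          fun x => fderiv ℂ (fun p : ℂ × C2 => Θ n p.1 p.2) ((0 : ℂ), x) (1, 0) := by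
        filter_upwards [(hU n).mem_nhds hxU] with y hy
        exact (lf_deriv hU hsmooth hy 0).deriv
      refine DifferentiableAt.congr_of_eventuallyEq ?_ h2
      have h3 : ContDiffOn ℂ 1 (fderiv ℂ fun p : ℂ × C2 => Θ n p.1 p.2) (univ ×ˢ U n) :=
        (hsmooth n).fderiv_of_isOpen (isOpen_univ.prod (hU n)) (by norm_num)
      have h4 : DifferentiableAt ℂ (fderiv ℂ fun p : ℂ × C2 => Θ n p.1 p.2) ((0 : ℂ), x) :=
        (h3.differentiableOn (by norm_num)).differentiableAt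
          ((isOpen_univ.prod (hU n)).mem_nhds ⟨mem_univ _, hxU⟩)
      have h5 : DifferentiableAt ℂ (fun x : C2 => ((0 : ℂ), x)) x :=
        (differentiableAt_const _).prodMk differentiableAt_id
      have h6 := DifferentiableAt.comp x (g := fderiv ℂ fun p : ℂ × C2 => Θ n p.1 p.2)
        (f := fun x : C2 => ((0 : ℂ), x)) h4 h5
      exact h6.clm_apply (differentiableAt_const _)
    · have h2 := hV n hnk x (hKm hnL (hL hx))
      rw [norm_sub_rev] at h2
      have h3 := hN n hnN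
      exact h2.trans_lt (by linarith)
  · intro x hx
    refine ⟨fun t => P t x, hP0 x hx, fun t => ?_⟩
    obtain ⟨l, hl, htl, hxl⟩ := hidx x hx ‖t‖
    have h1 : P t x ∈ ⋃ l, K l := mem_iUnion.2 ⟨l + 1, hmem l hl t htl x hxl⟩
    refine ⟨h1, ?_⟩
    have h2 : HasDerivAt (fun s => P s (P t x)) (deriv (fun s => P s (P t x)) 0) (t - t) := by
      rw [sub_self]
      exact (hPd _ h1 0).hasDerivAt
    have h3 := h2.comp_sub_const t t
    have h4 : (fun u => P (u - t) (P t x)) = fun u => P u x := by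
      funext u
      rw [← hPadd x hx, sub_add_cancel]
    rw [h4] at h3
    exact h3

end Pool.Agent.MP_fe3720.X
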