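import Pool.Agent.Work.MP_fe3720_an.X.Defs2
import Pool.Agent.Work.MP_fe3720_an.X.LimFlow
import Pool.Agent.Work.MP_fe3720_an.X.Laur
import Pool.Agent.Work.MP_fe3720_an.X.LPsum
import Pool.Agent.Work.MP_fe3720_an.X.GBase

/-!
# The span of the complete vector fields is dense (size M)

PROOF. Let `D : SeqD e r R g m ε`, `V` holomorphic on `Om`, `K ⊆ Om` compact, `η > 0`; `K ⊆ KK e r R j` (`exists_KK`).
(1) For `σ`-component `V_σ` of `V` (`σ = true`: first component), `V_σ ∘ Fi e j` is holomorphic on the open set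
`U = {y | Fi e j y ∈ Om}`, which contains `{r_j ≤ ‖y.1‖ ≤ R_j, ‖y.2‖ ≤ R_j}` (`F_Fi`: `Fi e j y ∈ KK j`); `laurent` gives
`p_σ ∈ LP` with `‖V_σ x - p_σ (F e j x)‖ < η/2` on `KK j` (`Fi_F`). By `LP_sum` (`F e j x ∈ M`, `KK_M`) and the definition of `mu`,
`‖V x - Σ_σ Σ_{i ∈ s_σ} c_σ i • mu e j i.1 i.2 σ x‖ < η/2` on `KK j` (max norm).
(2) Let `A = Σ_σ Σ_i ‖c_σ i‖` and choose `k ≥ j`, `k ≥ |i.1|, i.2` for all occurring `i`, with `A * (2/(k+1)) < η/2`.
(3) For `i < m k` apply `lim_flow` to `K = KK e r R`, `U l = {x | F e l x ∈ M}`, `Θ l = Th e l (g l i)`, `k₀ = k`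
(`i < m k ≤ m l` for `l ≥ k`, `D.mono`; hypotheses from `Th_smooth`, `Th_zero`, `Th_add`, `D.close`, `D.thick`,
`isCompact_KK`, `KK_sub_interior`, `KK_M`): complete fields `W_i` on `⋃ KK = Om` with `‖W_i x - VT e k (g k i) x‖ ≤ 2 ε k` on `KK k`
(`VT` is by definition the derivative).
(4) For each occurring monomial the task `(j, a, b, σ)` at stage `k` gives `I, c` with
`‖mu e j a b σ x - Σ_{i ∈ I} c i • W_i x‖ ≤ 1/(k+1) + (Σ ‖c i‖) 2 ε k ≤ 2/(k+1)` on `KK j ⊆ KK k` (`KK_mono`).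
Combine: a finite linear combination of the `W_i` is within `η` of `V` on `K`. Reindex by `Fin` (the final family can be taken
as `i : Fin (m k)`, with the summed coefficients).
-/

namespace Pool.Agent.MP_fe3720.X

open Topology Filter Set

private theorem dp_lap {e r R : ℕ → ℝ} (hT : Tower e r R) (j : ℕ) {h : C2 → ℂ}
    (hh : DifferentiableOn ℂ h (Om e r R)) {η : ℝ} (hη : 0 < η) :
    ∃ (s : Finset (ℤ × ℕ)) (c : ℤ × ℕ → ℂ), ∀ x ∈ KK e r R j,
      ‖h x - ∑ i ∈ s, c i * ((F e j x).1 ^ i.1 * (F e j x).2 ^ i.2)‖ < η := by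
  have he : ∀ i < j, 0 < e i := fun i _ => hT.e_pos i
  have hU : IsOpen {y | Fi e j y ∈ Om e r R} := (isOpen_Om hT).preimage continuous_Fi
  have hQ : {y : C2 | r j ≤ ‖y.1‖ ∧ ‖y.1‖ ≤ R j ∧ ‖y.2‖ ≤ R j} ⊆ {y | Fi e j y ∈ Om e r R} := by
    intro y hy
    refine mem_iUnion.2 ⟨j, ?_⟩
    simp only [KK, mem_ofPred_eq, F_Fi he]
    exact hy
  have hd : DifferentiableOn ℂ (fun y => h (Fi e j y)) {y | Fi e j y ∈ Om e r R} :=
    hh.comp ((contDiff_Fi (m := 1)).differentiable one_ne_zero).differentiableOn fun y hy => hy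
  obtain ⟨p, hp, hpe⟩ := laurent (hT.r_pos j) (((hT.r_lt j).trans (hT.R_gt j))) hU hQ hd hη
  obtain ⟨s, c, hs⟩ := LP_sum hp
  refine ⟨s, c, fun x hx => ?_⟩
  have h1 := hpe (F e j x) hx.1 hx.2.1 hx.2.2
  rwa [Fi_F he, hs _ (KK_M (hT.pre j) hx)] at h1

private theorem dp_lim {e r R : ℕ → ℝ} {g : ℕ → ℕ → Equiv.Perm C2} {m : ℕ → ℕ} {ε : ℕ → ℝ}
    (D : SeqD e r R g m ε) (k : ℕ) {i : ℕ} (hi : i < m k) :
    ∃ W : C2 → C2, IsComplete (Om e r R) W ∧
      ∀ x ∈ KK e r R k, ‖W x - VT e k (g k i) x‖ ≤ 2 * ε k := by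
  have hT := D.tower
  have he : ∀ l, ∀ i < l, 0 < e i := fun l i _ => hT.e_pos i
  have hmono : Monotone m := monotone_nat_of_le_succ D.mono
  obtain ⟨W, hW, hWe⟩ := lim_flow (K := KK e r R) (U := fun l => {x | F e l x ∈ M})
    (fun l => isCompact_KK (he l)) (KK_sub_interior hT)
    (fun l => M_open.preimage continuous_F) (fun l x hx => KK_M (hT.pre l) hx)
    (fun l t x => Th e l (g l i) t x) k D.pos D.half
    (fun l x _ => Th_zero (he l) x) (fun l x _ s t => Th_add (he l) s t x)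
    (fun l => Th_smooth (he l) (D.mem l i))
    (fun l hl t ht x hx => D.close l i (hi.trans_le (hmono hl)) t ht x hx)
    (fun l hl t ht x hx y hy => D.thick l i (hi.trans_le (hmono hl)) t ht x hx y hy)
  exact ⟨W, hW, fun x hx => hWe k le_rfl x hx⟩

private theorem dp_mu {e r R : ℕ → ℝ} {g : ℕ → ℕ → Equiv.Perm C2} {m : ℕ → ℕ} {ε : ℕ → ℝ}
    (D : SeqD e r R g m ε) {k : ℕ} {W : ℕ → C2 → C2}
    (hW : ∀ i < m k, ∀ x ∈ KK e r R k, ‖W i x - VT e k (g k i) x‖ ≤ 2 * ε k) {j : ℕ} (hj : j ≤ k)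
    {a : ℤ} (ha : |a| ≤ (k : ℤ)) {b : ℕ} (hb : b ≤ k) (σ : Bool) :
    ∃ d : ℕ → ℂ, ∀ x ∈ KK e r R j,
      ‖mu e j a b σ x - ∑ i ∈ Finset.range (m k), d i • W i x‖ ≤ 2 / ((k : ℝ) + 1) := by
  classical
  obtain ⟨I, c, h1, h2, h3⟩ := D.task k j hj a ha b hb σ
  refine ⟨fun i => if i ∈ I then c i else 0, fun x hx => ?_⟩
  have hsum : ∑ i ∈ Finset.range (m k), (if i ∈ I then c i else 0) • W i x =
      ∑ i ∈ I, c i • W i x := by
    have hIs : I ⊆ Finset.range (m k) := fun i hi => Finset.mem_range.2 (h1 i hi)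
    rw [← Finset.sum_subset hIs (f := fun i => (if i ∈ I then c i else 0) • W i x)]
    · exact Finset.sum_congr rfl fun i hi => by rw [if_pos hi]
    · intro i _ hi
      rw [if_neg hi, zero_smul]
  rw [hsum]
  have hxk : x ∈ KK e r R k := KK_mono D.tower hj hx
  have h4 : ‖∑ i ∈ I, c i • VT e k (g k i) x - ∑ i ∈ I, c i • W i x‖ ≤
      (∑ i ∈ I, ‖c i‖) * (2 * ε k) := by
    rw [← Finset.sum_sub_distrib, Finset.sum_mul]
    refine (norm_sum_le _ _).trans (Finset.sum_le_sum fun i hi => ?_)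
    rw [← smul_sub, norm_smul, norm_sub_rev]
    exact mul_le_mul_of_nonneg_left (hW i (h1 i hi) x hxk) (norm_nonneg _)
  have h5 : mu e j a b σ x - ∑ i ∈ I, c i • W i x =
      (mu e j a b σ x - ∑ i ∈ I, c i • VT e k (g k i) x) +
        (∑ i ∈ I, c i • VT e k (g k i) x - ∑ i ∈ I, c i • W i x) := by abel
  rw [h5]
  have h6 : (2 : ℝ) / ((k : ℝ) + 1) = 1 / ((k : ℝ) + 1) + 1 / ((k : ℝ) + 1) := by ring
  rw [h6]
  exact (norm_add_le _ _).trans (add_le_add (h2 x hx) (h4.trans h3))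

theorem spanDense {e r R : ℕ → ℝ} {g : ℕ → ℕ → Equiv.Perm C2} {m : ℕ → ℕ} {ε : ℕ → ℝ}
    (D : SeqD e r R g m ε) : SpanDense (Om e r R) := by
  classical
  intro V hV K hK hKc η hη
  have hT := D.tower
  obtain ⟨j, hj⟩ := exists_KK hT hKc hK
  obtain ⟨s₁, c₁, hs₁⟩ := dp_lap hT j (h := fun x => (V x).1) hV.fst (half_pos hη)
  obtain ⟨s₂, c₂, hs₂⟩ := dp_lap hT j (h := fun x => (V x).2) hV.snd (half_pos hη)
  let s := s₁ ∪ s₂
  let c : Bool → ℤ × ℕ → ℂ := fun σ i =>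
    if σ then (if i ∈ s₁ then c₁ i else 0) else (if i ∈ s₂ then c₂ i else 0)
  -- the first approximation
  have hV1 : ∀ x ∈ KK e r R j,
      ‖V x - ∑ σ : Bool, ∑ i ∈ s, c σ i • mu e j i.1 i.2 σ x‖ < η / 2 := by
    intro x hx
    have e1 : (∑ σ : Bool, ∑ i ∈ s, c σ i • mu e j i.1 i.2 σ x).1 =
        ∑ i ∈ s₁, c₁ i * ((F e j x).1 ^ i.1 * (F e j x).2 ^ i.2) := by
      rw [Fintype.sum_bool, Prod.fst_add, Prod.fst_sum, Prod.fst_sum]
      simp only [mu, c, Prod.smul_fst, if_true, smul_eq_mul, Bool.false_eq_true, if_false,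
        mul_zero, Finset.sum_const_zero, add_zero]
      rw [← Finset.sum_subset (Finset.subset_union_left (s₁ := s₁) (s₂ := s₂))]
      · exact Finset.sum_congr rfl fun i hi => by rw [if_pos hi]
      · intro i _ hi
        rw [if_neg hi, zero_mul]
    have e2 : (∑ σ : Bool, ∑ i ∈ s, c σ i • mu e j i.1 i.2 σ x).2 =
        ∑ i ∈ s₂, c₂ i * ((F e j x).1 ^ i.1 * (F e j x).2 ^ i.2) := by
      rw [Fintype.sum_bool, Prod.snd_add, Prod.snd_sum, Prod.snd_sum]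
      simp only [mu, c, Prod.smul_snd, if_true, smul_eq_mul, Bool.false_eq_true, if_false,
        mul_zero, Finset.sum_const_zero, zero_add]
      rw [← Finset.sum_subset (Finset.subset_union_right (s₁ := s₁) (s₂ := s₂))]
      · exact Finset.sum_congr rfl fun i hi => by rw [if_pos hi]
      · intro i _ hi
        rw [if_neg hi, zero_mul]
    rw [Prod.norm_def, Prod.fst_sub, Prod.snd_sub, e1, e2]
    exact max_lt (hs₁ x hx) (hs₂ x hx)
  -- the choice of `k`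
  let A : ℝ := ∑ σ : Bool, ∑ i ∈ s, ‖c σ i‖
  have hA : 0 ≤ A := Finset.sum_nonneg fun σ _ => Finset.sum_nonneg fun i _ => norm_nonneg _
  obtain ⟨n, hn⟩ := exists_nat_gt (4 * A / η)
  obtain ⟨B, hB⟩ : ∃ B : ℕ, ∀ i ∈ s, |i.1| ≤ (B : ℤ) ∧ i.2 ≤ B := by
    refine ⟨∑ i ∈ s, (i.1.natAbs + i.2), fun i hi => ?_⟩
    have h := Finset.single_le_sum (f := fun i : ℤ × ℕ => i.1.natAbs + i.2)
      (fun i _ => Nat.zero_le _) hi
    constructor
    · rw [Int.abs_eq_natAbs]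
      exact_mod_cast (Nat.le_add_right _ _).trans h
    · exact (Nat.le_add_left _ _).trans h
  let k := max j (max n B)
  have hjk : j ≤ k := le_max_left _ _
  have hnk : n ≤ k := (le_max_left _ _).trans (le_max_right _ _)
  have hBk : B ≤ k := (le_max_right _ _).trans (le_max_right _ _)
  have hk1 : A * (2 / ((k : ℝ) + 1)) < η / 2 := by
    have h1 : (4 * A / η) < (k : ℝ) + 1 := by
      have : (n : ℝ) ≤ k := by exact_mod_cast hnk
      linarith
    have h2 : (0 : ℝ) < (k : ℝ) + 1 := by positivity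
    rw [div_lt_iff₀ hη] at h1
    rw [mul_div_assoc', div_lt_div_iff₀ h2 two_pos]
    linarith
  -- the complete fields
  have hW : ∀ i : ℕ, ∃ W : C2 → C2, i < m k → IsComplete (Om e r R) W ∧
      ∀ x ∈ KK e r R k, ‖W x - VT e k (g k i) x‖ ≤ 2 * ε k := by
    intro i
    by_cases hi : i < m k
    · obtain ⟨W, h⟩ := dp_lim D k hi
      exact ⟨W, fun _ => h⟩
    · exact ⟨0, fun h => absurd h hi⟩
  choose W hW using hW
  have hd : ∀ σ : Bool, ∀ i : ℤ × ℕ, ∃ d : ℕ → ℂ, i ∈ s → ∀ x ∈ KK e r R j,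
      ‖mu e j i.1 i.2 σ x - ∑ l ∈ Finset.range (m k), d l • W l x‖ ≤ 2 / ((k : ℝ) + 1) := by
    intro σ i
    by_cases hi : i ∈ s
    · obtain ⟨d, h⟩ := dp_mu D (W := W) (fun l hl => (hW l hl).2) hjk
        ((hB i hi).1.trans (by exact_mod_cast hBk)) ((hB i hi).2.trans hBk) σ
      exact ⟨d, fun _ => h⟩
    · exact ⟨0, fun h => absurd h hi⟩
  choose d hd using hd
  refine ⟨m k, fun l => ∑ σ : Bool, ∑ i ∈ s, c σ i * d σ i l, fun l => W l,
    fun l => (hW l l.2).1, fun x hx => ?_⟩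
  have hxj := hj hx
  have hsw : ∑ l : Fin (m k), (∑ σ : Bool, ∑ i ∈ s, c σ i * d σ i l) • W l x =
      ∑ σ : Bool, ∑ i ∈ s, c σ i • ∑ l ∈ Finset.range (m k), d σ i l • W l x := by
    rw [← Finset.sum_range (fun l => (∑ σ : Bool, ∑ i ∈ s, c σ i * d σ i l) • W l x)]
    simp only [Finset.sum_smul, Finset.smul_sum]
    rw [Finset.sum_comm]
    refine Finset.sum_congr rfl fun σ _ => ?_
    rw [Finset.sum_comm]
    refine Finset.sum_congr rfl fun i _ => Finset.sum_congr rfl fun l _ => ?_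
    rw [smul_smul]
  rw [hsw]
  have h1 : V x - ∑ σ : Bool, ∑ i ∈ s, c σ i • ∑ l ∈ Finset.range (m k), d σ i l • W l x =
      (V x - ∑ σ : Bool, ∑ i ∈ s, c σ i • mu e j i.1 i.2 σ x) +
        ∑ σ : Bool, ∑ i ∈ s, c σ i • (mu e j i.1 i.2 σ x -
          ∑ l ∈ Finset.range (m k), d σ i l • W l x) := by
    simp only [smul_sub, Finset.sum_sub_distrib]
    abel
  rw [h1]
  have h2 : ‖∑ σ : Bool, ∑ i ∈ s, c σ i • (mu e j i.1 i.2 σ x -
      ∑ l ∈ Finset.range (m k), d σ i l • W l x)‖ ≤ A * (2 / ((k : ℝ) + 1)) := by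
    rw [Finset.sum_mul]
    refine (norm_sum_le _ _).trans (Finset.sum_le_sum fun σ _ => ?_)
    rw [Finset.sum_mul]
    refine (norm_sum_le _ _).trans (Finset.sum_le_sum fun i hi => ?_)
    rw [norm_smul]
    exact mul_le_mul_of_nonneg_left (hd σ i hi x hxj) (norm_nonneg _)
  calc _ ≤ _ := norm_add_le _ _
    _ < η / 2 + η / 2 := add_lt_add (hV1 x hxj) (h2.trans_lt hk1)
    _ = η := by ring

end Pool.Agent.MP_fe3720.X
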