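import Pool.Agent.Work.MP_fe3720_an.X.ConnT
import Pool.Agent.Work.MP_fe3720_an.X.Weier

/-!
# A closed holomorphic 1-form on the domain which is not exact (size M)

PROOF. Let `z_k x = (F_k x).1`, `w_k x = (F_k x).2`, `D_k = DD e r R k`, and `η_i = e_i w_i / z_i^2`, so
`z_{i+1} = z_i^2 (1 - η_i)` and `‖η_i‖ ≤ 1/8` on `K_i ⊇ D_j` for `i ≥ j` (`KK'_small`, `KK_mono`, `KK_sub_KK'`). On `D_j` let
`g_j = Σ_{i ≥ j} 2^{-(i+1)} log (1 - η_i)` (principal logarithm): every term is holomorphic on `D_j` and bounded by `2^{-(i+1)}`, so by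
`diffOn_of_unif` (partial sums) `g_j` is holomorphic on `D_j`, and `g_j = g_{j+1} + 2^{-(j+1)} log (1 - η_j)` there.
Let `om x = fderiv ℂ g_j x + (2^j z_j(x))⁻¹ • fderiv ℂ z_j x` for `x ∈ D_j`. It does not depend on `j`: on `D_j` we have
`dz_{j+1}/z_{j+1} = 2 dz_j/z_j + d log (1 - η_j)`. (Define `om` with the smallest `j` with `x ∈ D_j`.) Local primitives: near `x0 ∈ D_j`
the function `h y = g_j y + 2^{-j} log (z_j y / z_j x0)` satisfies `HasFDerivAt h (om y) y` for `y` near `x0`.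
Not exact: if `h` is a primitive on `Om`, then on `D_0` (`z_0 = x.1`) the derivative of `x.1 * exp (g_0 x - h x)` is zero, so
(`D_0 = AD (r 0) (R 0)` open connected; `IsOpen.is_const_of_fderiv_eq_zero` or `exists_is_const_of_fderiv_eq_zero`) `x.1 = c exp (h x - g_0 x)` on `D_0`,
`c ≠ 0`, `c = exp c'`; this contradicts `wind_unique` (`m = 1`).
-/

namespace Pool.Agent.MP_fe3720.X

open Topology Filter Set

variable {e r R : ℕ → ℝ}

/-- `e_i w_i / z_i ^ 2` -/
private noncomputable def et (e : ℕ → ℝ) (i : ℕ) (x : C2) : ℂ :=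
  (e i : ℂ) * (F e i x).2 / (F e i x).1 ^ 2

/-- the terms of the series -/
private noncomputable def tm (e : ℕ → ℝ) (i : ℕ) (x : C2) : ℂ :=
  ((2 : ℂ) ^ (i + 1))⁻¹ * Complex.log (1 - et e i x)

/-- the sum of the terms from `j` on -/
private noncomputable def gg (e : ℕ → ℝ) (j : ℕ) (x : C2) : ℂ := ∑' i : ℕ, tm e (i + j) x

private theorem et_le (hT : Tower e r R) {i : ℕ} {x : C2} (hx : x ∈ KK e r R i) :
    ‖et e i x‖ ≤ 1 / 8 := by
  have h1 := KK'_small (hT.pre (i + 1)) (KK_sub_KK' (hT.r_pos i) hx)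
  have h2 : (F e i x).1 ≠ 0 := KK_M (hT.pre i) hx
  have h3 : 0 < ‖(F e i x).1‖ := norm_pos_iff.2 h2
  unfold et
  rw [norm_div, norm_mul, norm_pow, Complex.norm_real, Real.norm_of_nonneg (hT.e_pos i).le,
    div_le_iff₀ (by positivity)]
  linarith

private theorem slit_of_le {u : ℂ} (hu : ‖u‖ ≤ 1 / 8) : 1 - u ∈ Complex.slitPlane := by
  left
  have h1 := Complex.abs_re_le_norm u
  rw [Complex.sub_re, Complex.one_re]
  have h2 := le_abs_self u.re
  linarith

private theorem tm_le (hT : Tower e r R) {i j : ℕ} {x : C2} (hx : x ∈ KK e r R j) (hij : j ≤ i) :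
    ‖tm e i x‖ ≤ (1 / 2) ^ (i + 1) := by
  have h1 := et_le hT (KK_mono hT hij hx)
  have h2 : ‖Complex.log (1 - et e i x)‖ ≤ 1 := by
    have h3 := Complex.norm_log_one_add_half_le_self (z := -et e i x) (by rw [norm_neg]; linarith)
    rw [norm_neg, ← sub_eq_add_neg] at h3
    linarith
  unfold tm
  rw [norm_mul, norm_inv, norm_pow, Complex.norm_ofNat, one_div, inv_pow]
  calc ((2 : ℝ) ^ (i + 1))⁻¹ * ‖Complex.log (1 - et e i x)‖ ≤ ((2 : ℝ) ^ (i + 1))⁻¹ * 1 :=
        mul_le_mul_of_nonneg_left h2 (by positivity)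
    _ = ((2 : ℝ) ^ (i + 1))⁻¹ := mul_one _

private theorem tm_summable (hT : Tower e r R) {j : ℕ} {x : C2} (hx : x ∈ KK e r R j) :
    Summable fun i : ℕ => tm e (i + j) x := by
  refine Summable.of_norm_bounded (g := fun i : ℕ => (1 / 2 : ℝ) ^ i) summable_geometric_two ?_
  intro i
  refine (tm_le hT hx (Nat.le_add_left j i)).trans ?_
  exact pow_le_pow_of_le_one (by norm_num) (by norm_num) (by omega)

private theorem gg_succ (hT : Tower e r R) {j : ℕ} {x : C2} (hx : x ∈ KK e r R j) :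
    gg e j x = tm e j x + gg e (j + 1) x := by
  unfold gg
  rw [(tm_summable hT hx).tsum_eq_zero_add, Nat.zero_add]
  congr 1
  refine tsum_congr fun i => ?_
  rw [show i + 1 + j = i + (j + 1) by omega]

private theorem et_diff (hT : Tower e r R) {i : ℕ} {x : C2} (hx : x ∈ KK e r R i) :
    DifferentiableAt ℂ (et e i) x := by
  have h2 : (F e i x).1 ≠ 0 := KK_M (hT.pre i) hx
  have h3 : DifferentiableAt ℂ (F e i) x :=
    (contDiff_F (m := 1)).differentiable one_ne_zero x
  have h4 : DifferentiableAt ℂ (fun x => ((F e i x).1 ^ 2)⁻¹) x :=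
    (h3.fst.fun_pow 2).inv (pow_ne_zero 2 h2)
  unfold et
  simp only [div_eq_mul_inv]
  exact (h3.snd.const_mul _).mul h4

private theorem tm_diff (hT : Tower e r R) {i : ℕ} {x : C2} (hx : x ∈ KK e r R i) :
    DifferentiableAt ℂ (tm e i) x := by
  unfold tm
  exact (((et_diff hT hx).const_sub 1).clog (slit_of_le (et_le hT hx))).const_mul _

private theorem gg_diff (hT : Tower e r R) (j : ℕ) : DifferentiableOn ℂ (gg e j) (DD e r R j) := by
  refine diffOn_of_unif isOpen_DD (fun n x => ∑ i ∈ Finset.range n, tm e (i + j) x) _ ?_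
  intro K hK _ ε hε
  obtain ⟨n₀, hn₀⟩ := exists_pow_lt_of_lt_one (show (0 : ℝ) < ε / 2 by positivity)
    (show (1 / 2 : ℝ) < 1 by norm_num)
  refine ⟨n₀, fun n hn => ⟨fun x hx => ?_, fun x hx => ?_⟩⟩
  · have hxK : x ∈ KK e r R j := DD_sub_KK (hK hx)
    refine DifferentiableAt.fun_sum fun i _ => ?_
    exact tm_diff hT (KK_mono hT (Nat.le_add_left j i) hxK)
  · have hxK : x ∈ KK e r R j := DD_sub_KK (hK hx)
    have hs := tm_summable hT hxK
    have h1 := hs.sum_add_tsum_nat_add n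
    have h2 : (∑ i ∈ Finset.range n, tm e (i + j) x) - gg e j x =
        -∑' i : ℕ, tm e (i + n + j) x := by
      unfold gg
      rw [← h1]
      ring
    rw [h2, norm_neg]
    have h3 : ‖∑' i : ℕ, tm e (i + n + j) x‖ ≤ (1 / 2 : ℝ) ^ n * 2 := by
      refine tsum_of_norm_bounded (hasSum_geometric_two.mul_left ((1 / 2 : ℝ) ^ n)) fun i => ?_
      refine (tm_le hT hxK (show j ≤ i + n + j by omega)).trans ?_
      rw [← pow_add]
      exact pow_le_pow_of_le_one (by norm_num) (by norm_num) (by omega)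
    have h4 : (1 / 2 : ℝ) ^ n ≤ (1 / 2) ^ n₀ :=
      pow_le_pow_of_le_one (by norm_num) (by norm_num) hn
    linarith

/-- the form on `DD j` -/
private noncomputable def oj (e : ℕ → ℝ) (j : ℕ) (x : C2) : C2 →L[ℂ] ℂ :=
  fderiv ℂ (gg e j) x + ((2 : ℂ) ^ j * (F e j x).1)⁻¹ • fderiv ℂ (fun y => (F e j y).1) x

private theorem zd (j : ℕ) (x : C2) : DifferentiableAt ℂ (fun y => (F e j y).1) x :=
  ((contDiff_F (m := 1)).differentiable one_ne_zero x).fst

private theorem oj_succ (hT : Tower e r R) {j : ℕ} {x : C2} (hx : x ∈ DD e r R j) :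
    oj e j x = oj e (j + 1) x := by
  have hxK := DD_sub_KK hx
  have hx1 : x ∈ DD e r R (j + 1) := KK_sub_DD (hT.pre (j + 1)) hxK
  have hz : (F e j x).1 ≠ 0 := KK_M (hT.pre j) hxK
  have hG : HasFDerivAt (gg e (j + 1)) (fderiv ℂ (gg e (j + 1)) x) x :=
    ((gg_diff hT (j + 1)).differentiableAt (isOpen_DD.mem_nhds hx1)).hasFDerivAt
  set z' := fderiv ℂ (fun y => (F e j y).1) x with hz'
  have hZ : HasFDerivAt (fun y => (F e j y).1) z' x := (zd j x).hasFDerivAt
  set u' := fderiv ℂ (fun y => 1 - et e j y) x with hu'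
  have hU : HasFDerivAt (fun y => 1 - et e j y) u' x :=
    ((et_diff hT hxK).const_sub 1).hasFDerivAt
  have hsl := slit_of_le (et_le hT hxK)
  have hu0 : 1 - et e j x ≠ 0 := Complex.slitPlane_ne_zero hsl
  have hTm : HasFDerivAt (tm e j) (((2 : ℂ) ^ (j + 1))⁻¹ • ((1 - et e j x)⁻¹ • u')) x :=
    (hU.clog hsl).const_mul _
  have h1 : fderiv ℂ (gg e j) x = ((2 : ℂ) ^ (j + 1))⁻¹ • ((1 - et e j x)⁻¹ • u') +
      fderiv ℂ (gg e (j + 1)) x := by
    have h2 : gg e j =ᶠ[𝓝 x] fun y => tm e j y + gg e (j + 1) y := by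
      filter_upwards [isOpen_DD.mem_nhds hx] with y hy
      exact gg_succ hT (DD_sub_KK hy)
    rw [h2.fderiv_eq]
    exact (hTm.add hG).fderiv
  have h3 : HasFDerivAt (fun y => (F e (j + 1) y).1) ((F e j x).1 ^ 2 • u' +
      (1 - et e j x) • (((2 : ℂ) * (F e j x).1) • z')) x := by
    have h4 : (fun y => (F e (j + 1) y).1) =ᶠ[𝓝 x]
        fun y => (F e j y).1 ^ 2 * (1 - et e j y) := by
      filter_upwards [isOpen_DD.mem_nhds hx] with y hy
      have hy0 : (F e j y).1 ≠ 0 := KK_M (hT.pre j) (DD_sub_KK hy)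
      show (F e j y).1 ^ 2 - (e j : ℂ) * (F e j y).2 = _
      unfold et
      field_simp
    refine HasFDerivAt.congr_of_eventuallyEq ?_ h4
    have h5 := (hZ.pow 2).mul hU
    refine h5.congr_fderiv ?_
    ext v
    · simp
    · simp
  have h6 : (F e (j + 1) x).1 = (F e j x).1 ^ 2 * (1 - et e j x) := by
    show (F e j x).1 ^ 2 - (e j : ℂ) * (F e j x).2 = _
    unfold et
    field_simp
  unfold oj
  rw [h1, h3.fderiv, h6]
  have h7 : ((2 : ℂ) ^ (j + 1) * ((F e j x).1 ^ 2 * (1 - et e j x)))⁻¹ •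
      ((F e j x).1 ^ 2 • u' + (1 - et e j x) • (((2 : ℂ) * (F e j x).1) • z')) =
      ((2 : ℂ) ^ (j + 1))⁻¹ • ((1 - et e j x)⁻¹ • u') + ((2 : ℂ) ^ j * (F e j x).1)⁻¹ • z' := by
    rw [smul_add, smul_smul, smul_smul, smul_smul, smul_smul]
    congr 2
    · field_simp
    · rw [pow_succ]
      field_simp
  rw [h7]
  abel

private theorem oj_eq (hT : Tower e r R) {i j : ℕ} (hij : i ≤ j) {x : C2} (hx : x ∈ DD e r R i) :
    oj e i x = oj e j x := by
  induction j, hij using Nat.le_induction with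
  | base => rfl
  | succ j hj ih =>
    rw [ih]
    refine oj_succ hT ?_
    have h1 : ∀ k ≥ i, x ∈ DD e r R k := by
      intro k hk
      induction k, hk using Nat.le_induction with
      | base => exact hx
      | succ k _ ih' => exact KK_sub_DD (hT.pre (k + 1)) (DD_sub_KK ih')
    exact h1 j hj

theorem hasForm (hT : Tower e r R) : HasForm (Om e r R) := by
  classical
  have hex : ∀ x ∈ Om e r R, ∃ j, x ∈ DD e r R j := by
    intro x hx
    rw [Om_eq hT] at hx
    exact mem_iUnion.1 hx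
  set om : C2 → (C2 →L[ℂ] ℂ) := fun x =>
    if h : ∃ j, x ∈ DD e r R j then oj e (Nat.find h) x else 0 with hom
  have hom' : ∀ j x, x ∈ DD e r R j → om x = oj e j x := by
    intro j x hx
    have h : ∃ j, x ∈ DD e r R j := ⟨j, hx⟩
    rw [hom]
    simp only [dif_pos h]
    exact oj_eq hT (Nat.find_min' h hx) (Nat.find_spec h)
  refine ⟨om, ?_, ?_⟩
  · intro x hx
    obtain ⟨j, hj⟩ := hex x hx
    have hz : (F e j x).1 ≠ 0 := KK_M (hT.pre j) (DD_sub_KK hj)
    refine ⟨fun y => gg e j y + ((2 : ℂ) ^ j)⁻¹ * Complex.log ((F e j y).1 * ((F e j x).1)⁻¹), ?_⟩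
    have hcont : ContinuousAt (fun y => (F e j y).1 * ((F e j x).1)⁻¹) x :=
      (continuous_F.fst.continuousAt).mul continuousAt_const
    have hsl : ∀ᶠ y in 𝓝 x, (F e j y).1 * ((F e j x).1)⁻¹ ∈ Complex.slitPlane := by
      refine hcont.eventually (Complex.isOpen_slitPlane.mem_nhds ?_)
      show (F e j x).1 * ((F e j x).1)⁻¹ ∈ Complex.slitPlane
      rw [mul_inv_cancel₀ hz]
      exact Complex.one_mem_slitPlane
    filter_upwards [isOpen_DD.mem_nhds hj, hsl] with y hy hys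
    have hzy : (F e j y).1 ≠ 0 := KK_M (hT.pre j) (DD_sub_KK hy)
    rw [hom' j y hy]
    have hG : HasFDerivAt (gg e j) (fderiv ℂ (gg e j) y) y :=
      ((gg_diff hT j).differentiableAt (isOpen_DD.mem_nhds hy)).hasFDerivAt
    have hZ : HasFDerivAt (fun y => (F e j y).1) (fderiv ℂ (fun y => (F e j y).1) y) y :=
      (zd j y).hasFDerivAt
    have h1 := hG.add (((hZ.mul_const ((F e j x).1)⁻¹).clog hys).const_mul (((2 : ℂ) ^ j)⁻¹))
    refine h1.congr_fderiv ?_
    unfold oj
    rw [smul_smul, smul_smul]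
    congr 2
    field_simp
  · rintro ⟨w, hw⟩
    have hsub : DD e r R 0 ⊆ Om e r R := DD_sub_KK.trans (subset_iUnion (KK e r R) 0)
    have hz1 : ∀ x ∈ DD e r R 0, x.1 ≠ 0 := fun x hx => KK_M (hT.pre 0) (DD_sub_KK hx)
    have hder : ∀ x ∈ DD e r R 0, HasFDerivAt (fun y : C2 => y.1 * Complex.exp (gg e 0 y - w y))
        (0 : C2 →L[ℂ] ℂ) x := by
      intro x hx
      have hG : HasFDerivAt (gg e 0) (fderiv ℂ (gg e 0) x) x :=
        ((gg_diff hT 0).differentiableAt (isOpen_DD.mem_nhds hx)).hasFDerivAt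
      have hw' := hw x (hsub hx)
      rw [hom' 0 x hx] at hw'
      have hf : HasFDerivAt (fun y : C2 => y.1) (ContinuousLinearMap.fst ℂ ℂ ℂ) x :=
        hasFDerivAt_fst
      have h1 := hf.mul ((hG.sub hw').cexp)
      refine h1.congr_fderiv ?_
      unfold oj
      have h2 : fderiv ℂ (fun y => (F e 0 y).1) x = ContinuousLinearMap.fst ℂ ℂ ℂ := hf.fderiv
      have h3 : (F e 0 x).1 = x.1 := rfl
      rw [h2, h3, pow_zero, one_mul, sub_add_cancel_left, smul_neg, smul_neg, smul_smul,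
        smul_smul]
      have h4 : x.1 * (Complex.exp (gg e 0 x - w x) * (x.1)⁻¹) =
          Complex.exp (gg e 0 x - w x) := by
        have := hz1 x hx
        field_simp
      have h5 : x.1 * Complex.exp ((gg e 0 - w) x) * (x.1)⁻¹ = Complex.exp ((gg e 0 - w) x) := by
        have := hz1 x hx
        field_simp
      rw [h5]
      exact neg_add_cancel _
    obtain ⟨x0, hx0⟩ := (isConnected_DD hT 0).nonempty
    have hconst : ∀ x ∈ DD e r R 0, x.1 * Complex.exp (gg e 0 x - w x) =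
        x0.1 * Complex.exp (gg e 0 x0 - w x0) := by
      intro x hx
      exact isOpen_DD.is_const_of_fderiv_eq_zero (isConnected_DD hT 0).isPreconnected
        (fun y hy => (hder y hy).differentiableAt.differentiableWithinAt)
        (fun y hy => (hder y hy).fderiv) hx hx0
    set c : ℂ := x0.1 * Complex.exp (gg e 0 x0 - w x0) with hc
    have hc0 : c ≠ 0 := mul_ne_zero (hz1 x0 hx0) (Complex.exp_ne_zero _)
    have hrR : r 0 < R 0 := (hT.r_lt 0).trans (hT.R_gt 0)
    have h10 : (1 : ℤ) = 0 := by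
      refine wind_unique (hT.r_pos 0) hrR (m := 1)
        (L := fun y => Complex.log c + (w y - gg e 0 y)) ?_ ?_
      · have h1 : ContinuousOn w (DD e r R 0) := fun y hy =>
          (hw y (hsub hy)).continuousAt.continuousWithinAt
        exact continuousOn_const.add (h1.sub (gg_diff hT 0).continuousOn)
      · intro y hy
        have hy' : y ∈ DD e r R 0 := hy
        have h1 := hconst y hy'
        rw [zpow_one, Complex.exp_add, Complex.exp_log hc0, ← h1, mul_assoc, ← Complex.exp_add]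
        have h2 : gg e 0 y - w y + (w y - gg e 0 y) = 0 := by ring
        rw [h2, Complex.exp_zero, mul_one]
    exact one_ne_zero h10

end Pool.Agent.MP_fe3720.X
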