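import Pool.Agent.Work.MP_fe3720_an.X.ConnT
import Pool.Agent.Work.MP_fe3720_an.NR.PrmA
import Pool.Agent.Work.MP_fe3720_an.NR.H1conv

/-!
# Every local system on the domain with values in a group without infinite 2-division chains has a primitive (size M-L)

PROOF. `D_k = DD e r R k`, `C_k = {(ζ, w) : log r_k < Re ζ < log R_k, ‖w‖ < R_k}` convex open in `C2`, and
`π_k (ζ, w) = Fi e k (exp ζ, w)`, a continuous map of `C_k` onto `D_k` (`‖exp ζ‖ = exp (Re ζ)`). Let `P` be a local system on `Om`.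
(1) The pull back `P_k p q = P (π_k p) (π_k q)` is a local system on `C_k` (`IsLS.comp`, `IsLS.mono`), so by `h1triv_star`
(a convex set is star convex around each of its points) it has a primitive `N_k` on `C_k`.
(2) `(ζ, w) ↦ N_k (ζ + 2πi, w)` is also a primitive of `P_k` on `C_k` (`Prm.comp` with the translation `τ`, `π_k ∘ τ = π_k`), so by
`Prm.sub_const` (`C_k` is convex, so preconnected) `N_k (ζ + 2πi, w) - N_k (ζ, w) = γ_k` is constant.
(3) `λ (ζ, w) = (2 ζ + log (1 - e_k w exp (-2 ζ)), exp ζ)` (principal logarithm; `‖e_k w exp (-2ζ)‖ ≤ 1/8` by `KK'_small`) is a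
continuous map `C_k → C_{k+1}` with `π_{k+1} ∘ λ = π_k` (`exp (2ζ + log (1-η)) = z^2 (1 - η) = z^2 - e_k w`, `Fi e (k+1) = Fi e k ∘ Hi 2 (e k)`,
`Hi_H`; it maps into `C_{k+1}` since `D_k ⊆ D_{k+1}`) and `λ (ζ + 2πi, w) = λ (ζ, w) + (4πi, 0)`. So `N_{k+1} ∘ λ` is a primitive of
`P_k` on `C_k`, hence differs from `N_k` by a constant, and `γ_k = 2 γ_{k+1}`. By `DivFree2` (applied to `j ↦ γ_{k+j}`) `γ_k = 0`.
(4) So `N_k (ζ + 2πi n, w) = N_k (ζ, w)` for integers `n`, and `W_k x = N_k (log (F_k x).1, (F_k x).2)` satisfies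
`W_k (π_k p) = N_k p` for all `p ∈ C_k`. `W_k` is a primitive of `P` on `D_k`: near `x = π_k p₀` use the continuous local inverse
`y ↦ (ζ₀ + log ((F_k y).1 / exp ζ₀), (F_k y).2)` of `π_k`.
(5) `D_k` is connected (`isConnected_DD`), so `W_{k+1} - W_k` is constant on `D_k`; after adding constants (recursively, or
`W_k - W_k x₀` for a base point `x₀ ∈ D_0`) `W_{k+1} = W_k` on `D_k`, hence `W_l = W_k` on `D_k` for `l ≥ k`. Define `W x = W_k x` for the
smallest `k` with `x ∈ D_k`; it is equal to `W_k` on the open set `D_k`, so it is a primitive on `Om`.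
-/

namespace Pool.Agent.MP_fe3720.X

open Topology Filter Set

variable {e r R : ℕ → ℝ}

/-- The strip `C_k`. -/
private def cK (r R : ℕ → ℝ) (k : ℕ) : Set C2 :=
  {p | Real.log (r k) < p.1.re ∧ p.1.re < Real.log (R k) ∧ ‖p.2‖ < R k}

/-- The map `π_k`. -/
private noncomputable def pk (e : ℕ → ℝ) (k : ℕ) (p : C2) : C2 := Fi e k (Complex.exp p.1, p.2)

/-- The translation by `2 π i`. -/
private noncomputable def tau (p : C2) : C2 := (p.1 + 2 * Real.pi * Complex.I, p.2)

/-- The map `λ`. -/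
private noncomputable def lm (e : ℕ → ℝ) (k : ℕ) (p : C2) : C2 :=
  (2 * p.1 + Complex.log (1 - (e k : ℂ) * p.2 * Complex.exp (-(2 * p.1))), Complex.exp p.1)

private theorem pk_F (hT : Tower e r R) (k : ℕ) (p : C2) :
    F e k (pk e k p) = (Complex.exp p.1, p.2) := F_Fi (fun i _ => hT.e_pos i) _

private theorem mem_cK (hT : Tower e r R) (k : ℕ) (p : C2) :
    p ∈ cK r R k ↔ pk e k p ∈ DD e r R k := by
  unfold cK DD
  rw [mem_ofPred_eq, mem_ofPred_eq, pk_F hT]
  simp only [Complex.norm_exp]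
  rw [Real.log_lt_iff_lt_exp (hT.r_pos k),
    Real.lt_log_iff_exp_lt (by linarith [hT.R_gt k] : 0 < R k)]

private theorem continuous_pk (k : ℕ) : Continuous (pk e k) := by
  unfold pk
  exact continuous_Fi.comp (by fun_prop)

private theorem isOpen_cK (hT : Tower e r R) (k : ℕ) : IsOpen (cK r R k) := by
  have h : cK r R k = pk e k ⁻¹' DD e r R k := by
    ext p
    exact mem_cK hT k p
  rw [h]
  exact isOpen_DD.preimage (continuous_pk k)

private theorem zero_mem_cK (hT : Tower e r R) (k : ℕ) : ((0, 0) : C2) ∈ cK r R k := by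
  refine ⟨?_, ?_, ?_⟩
  · simpa using Real.log_neg (hT.r_pos k) (hT.r_lt k)
  · simpa using Real.log_pos (hT.R_gt k)
  · simpa using (by linarith [hT.R_gt k] : 0 < R k)

private theorem convex_cK (r R : ℕ → ℝ) (k : ℕ) : Convex ℝ (cK r R k) := by
  have h1 := (convex_Ioo (Real.log (r k)) (Real.log (R k))).linear_preimage
    (Complex.reLm.comp (LinearMap.fst ℝ ℂ ℂ))
  have h2 := (convex_ball (0 : ℂ) (R k)).linear_preimage (LinearMap.snd ℝ ℂ ℂ)
  have h : cK r R k = (Complex.reLm.comp (LinearMap.fst ℝ ℂ ℂ)) ⁻¹'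
      Ioo (Real.log (r k)) (Real.log (R k)) ∩
      (LinearMap.snd ℝ ℂ ℂ) ⁻¹' Metric.ball (0 : ℂ) (R k) := by
    ext p
    simp [cK, and_assoc]
  rw [h]
  exact h1.inter h2

private theorem pk_tau (k : ℕ) (p : C2) : pk e k (tau p) = pk e k p := by
  unfold pk tau
  simp only
  rw [Complex.exp_periodic]

private theorem tau_mem (hT : Tower e r R) (k : ℕ) {p : C2} (hp : p ∈ cK r R k) :
    tau p ∈ cK r R k := by
  rw [mem_cK hT, pk_tau]
  exact (mem_cK hT k p).1 hp

private theorem DD_mono (hT : Tower e r R) : Monotone (DD e r R) :=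
  monotone_nat_of_le_succ fun k => DD_sub_KK.trans (KK_sub_DD (hT.pre (k + 1)))

private theorem lm_small (hT : Tower e r R) (k : ℕ) {p : C2} (hp : p ∈ cK r R k) :
    ‖(e k : ℂ) * p.2 * Complex.exp (-(2 * p.1))‖ ≤ 1 / 8 := by
  have h1 := KK'_small (hT.pre (k + 1))
    (KK_sub_KK' (hT.r_pos k) (DD_sub_KK ((mem_cK hT k p).1 hp)))
  rw [pk_F hT] at h1
  simp only at h1
  rw [norm_mul, norm_mul, Complex.norm_real, Real.norm_of_nonneg (hT.e_pos k).le]
  have h2 : ‖Complex.exp (-(2 * p.1))‖ * ‖Complex.exp p.1‖ ^ 2 = 1 := by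
    rw [← norm_pow, ← norm_mul, ← Complex.exp_nat_mul, ← Complex.exp_add]
    have : -(2 * p.1) + ((2 : ℕ) : ℂ) * p.1 = 0 := by
      push_cast
      ring
    rw [this, Complex.exp_zero, norm_one]
  have h3 : 0 < ‖Complex.exp (-(2 * p.1))‖ := norm_pos_iff.2 (Complex.exp_ne_zero _)
  calc e k * ‖p.2‖ * ‖Complex.exp (-(2 * p.1))‖
      ≤ (‖Complex.exp p.1‖ ^ 2 / 8) * ‖Complex.exp (-(2 * p.1))‖ :=
        mul_le_mul_of_nonneg_right h1 h3.le
    _ = (‖Complex.exp (-(2 * p.1))‖ * ‖Complex.exp p.1‖ ^ 2) / 8 := by ring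
    _ = 1 / 8 := by rw [h2]

private theorem lm_slit (hT : Tower e r R) (k : ℕ) {p : C2} (hp : p ∈ cK r R k) :
    1 - (e k : ℂ) * p.2 * Complex.exp (-(2 * p.1)) ∈ Complex.slitPlane := by
  left
  have h1 := lm_small hT k hp
  have h2 := Complex.re_le_norm ((e k : ℂ) * p.2 * Complex.exp (-(2 * p.1)))
  rw [Complex.sub_re, Complex.one_re]
  linarith

private theorem pk_lm (hT : Tower e r R) (k : ℕ) {p : C2} (hp : p ∈ cK r R k) :
    pk e (k + 1) (lm e k p) = pk e k p := by
  have h1 := Complex.slitPlane_ne_zero (lm_slit hT k hp)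
  have h2 : Complex.exp (lm e k p).1 = Complex.exp p.1 ^ 2 - (e k : ℂ) * p.2 := by
    unfold lm
    simp only
    rw [Complex.exp_add, Complex.exp_log h1, ← Complex.exp_nat_mul]
    have h3 : Complex.exp (2 * p.1) * Complex.exp (-(2 * p.1)) = 1 := by
      rw [← Complex.exp_add, add_neg_cancel, Complex.exp_zero]
    push_cast
    linear_combination (-(e k : ℂ) * p.2) * h3
  unfold pk
  rw [h2]
  have h4 : ((Complex.exp p.1 ^ 2 - (e k : ℂ) * p.2, (lm e k p).2) : C2) =
      H 2 (e k) (Complex.exp p.1, p.2) := rfl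
  rw [h4]
  show Fi e k (Hi 2 (e k) (H 2 (e k) (Complex.exp p.1, p.2))) = _
  rw [Hi_H (hT.e_pos k).ne']

private theorem lm_mem (hT : Tower e r R) (k : ℕ) {p : C2} (hp : p ∈ cK r R k) :
    lm e k p ∈ cK r R (k + 1) := by
  rw [mem_cK hT, pk_lm hT k hp]
  exact DD_mono hT (Nat.le_succ k) ((mem_cK hT k p).1 hp)

private theorem lm_tau (k : ℕ) (p : C2) : lm e k (tau p) = tau (tau (lm e k p)) := by
  unfold lm tau
  simp only
  have h1 : Complex.exp (-(2 * (p.1 + 2 * Real.pi * Complex.I))) = Complex.exp (-(2 * p.1)) := by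
    have h2 : -(2 * (p.1 + 2 * Real.pi * Complex.I)) =
        -(2 * p.1) + ((-2 : ℤ) : ℂ) * (2 * Real.pi * Complex.I) := by
      push_cast
      ring
    rw [h2, Complex.exp_periodic.int_mul]
  rw [h1, Complex.exp_periodic]
  refine Prod.ext ?_ rfl
  simp only
  ring

private theorem lm_cont (hT : Tower e r R) (k : ℕ) : ContinuousOn (lm e k) (cK r R k) := by
  unfold lm
  refine ContinuousOn.prodMk (ContinuousOn.add (by fun_prop) ?_) (by fun_prop)
  refine ContinuousOn.clog (by fun_prop) fun p hp => lm_slit hT k hp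

private theorem prm_congr {X A : Type*} [TopologicalSpace X] [AddCommGroup A] {P P' : X → X → A}
    {S : Set X} {W : X → A} (h : NR.Prm P S W) (h' : ∀ x ∈ S, ∀ y ∈ S, P x y = P' x y) :
    NR.Prm P' S W := by
  intro x hx
  filter_upwards [h x hx, self_mem_nhdsWithin] with y hy hyS
  rw [hy, h' x hx y hyS, h' x hx x hx]

section

variable {A : Type} [AddCommGroup A] {P : C2 → C2 → A}

private theorem ex_N (hT : Tower e r R) (hP : NR.IsLS (Om e r R) P) (k : ℕ) :
    ∃ N : C2 → A, NR.Prm (fun p q => P (pk e k p) (pk e k q)) (cK r R k) N := by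
  refine NR.h1triv_star (G := A) (isOpen_cK hT k) (zero_mem_cK hT k)
    ((convex_cK r R k).starConvex (zero_mem_cK hT k)) _ ?_
  refine hP.comp (continuous_pk k).continuousOn fun p hp => ?_
  rw [Om_eq hT]
  exact mem_iUnion.2 ⟨k, (mem_cK hT k p).1 hp⟩

private theorem ex_gam (hT : Tower e r R) (k : ℕ) {N : C2 → A}
    (hN : NR.Prm (fun p q => P (pk e k p) (pk e k q)) (cK r R k) N) {p : C2}
    (hp : p ∈ cK r R k) : N (tau p) - N p = N (tau (0, 0)) - N (0, 0) := by
  have hc : ContinuousOn tau (cK r R k) := by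
    unfold tau
    fun_prop
  have h1 : NR.Prm (fun p q => P (pk e k p) (pk e k q)) (cK r R k) fun p => N (tau p) := by
    refine prm_congr (hN.comp hc fun p hp => tau_mem hT k hp) fun x _ y _ => ?_
    simp only [pk_tau]
  exact h1.sub_const hN (convex_cK r R k).isPreconnected (zero_mem_cK hT k) hp

private theorem gam_two (hT : Tower e r R) (k : ℕ) {N N' : C2 → A}
    (hN : NR.Prm (fun p q => P (pk e k p) (pk e k q)) (cK r R k) N)
    (hN' : NR.Prm (fun p q => P (pk e (k + 1) p) (pk e (k + 1) q)) (cK r R (k + 1)) N') :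
    N (tau (0, 0)) - N (0, 0) = 2 • (N' (tau (0, 0)) - N' (0, 0)) := by
  have h0 := zero_mem_cK hT k
  have h1 : NR.Prm (fun p q => P (pk e k p) (pk e k q)) (cK r R k) fun p => N' (lm e k p) := by
    refine prm_congr (hN'.comp (lm_cont hT k) fun p hp => lm_mem hT k hp) fun x hx y hy => ?_
    simp only [pk_lm hT k hx, pk_lm hT k hy]
  have h2 := h1.sub_const hN (convex_cK r R k).isPreconnected h0 (tau_mem hT k h0)
  simp only [lm_tau] at h2
  have h3 := lm_mem hT k h0
  have h4 := ex_gam hT (k + 1) hN' h3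
  have h5 := ex_gam hT (k + 1) hN' (tau_mem hT (k + 1) h3)
  rw [← h4, two_nsmul]
  rw [← h4] at h5
  rw [sub_eq_sub_iff_add_eq_add] at h2
  have h6 : N' (tau (tau (lm e k (0, 0)))) = (N' (tau (lm e k (0, 0))) - N' (lm e k (0, 0))) +
      N' (tau (lm e k (0, 0))) := eq_add_of_sub_eq h5
  rw [h6] at h2
  rw [sub_eq_iff_eq_add]
  have h7 : N' (lm e k (0, 0)) + N (tau (0, 0)) = N' (lm e k (0, 0)) +
      ((N' (tau (lm e k (0, 0))) - N' (lm e k (0, 0))) +
        (N' (tau (lm e k (0, 0))) - N' (lm e k (0, 0))) + N (0, 0)) := by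
    rw [← h2]
    abel
  exact add_left_cancel h7

omit [AddCommGroup A] in
private theorem N_inv (hT : Tower e r R) (k : ℕ) {N : C2 → A}
    (hN : ∀ p ∈ cK r R k, N (tau p) = N p) {p q : C2} (hp : p ∈ cK r R k)
    (h : pk e k p = pk e k q) : N p = N q := by
  have hq : q ∈ cK r R k := by
    rw [mem_cK hT, ← h]
    exact (mem_cK hT k p).1 hp
  have h1 : ((Complex.exp p.1, p.2) : C2) = (Complex.exp q.1, q.2) := by
    rw [← pk_F hT k p, ← pk_F hT k q, h]
  have h2 := congrArg Prod.fst h1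
  have h3 := congrArg Prod.snd h1
  simp only at h2 h3
  have key : ∀ (n : ℕ) (p : C2), p ∈ cK r R k →
      N (p.1 + n * (2 * Real.pi * Complex.I), p.2) = N p := by
    intro n
    induction n with
    | zero =>
      intro p _
      simp
    | succ n ih =>
      intro p hp
      have h4 := ih (tau p) (tau_mem hT k hp)
      rw [hN p hp] at h4
      rw [← h4]
      congr 1
      refine Prod.ext ?_ rfl
      simp only [tau]
      push_cast
      ring
  obtain ⟨n, hn⟩ := Complex.exp_eq_exp_iff_exists_int.1 h2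
  rcases Int.eq_nat_or_neg n with ⟨m, rfl | rfl⟩
  · have h4 := key m q hq
    rw [← h4]
    congr 1
    refine Prod.ext ?_ h3
    rw [hn]
    push_cast
    ring
  · have h4 := key m p hp
    rw [← h4]
    congr 1
    refine Prod.ext ?_ h3
    simp only
    rw [hn]
    push_cast
    ring

/-- A primitive on `D_k`. -/
private theorem ex_W (hT : Tower e r R) (k : ℕ) {N : C2 → A}
    (hN : NR.Prm (fun p q => P (pk e k p) (pk e k q)) (cK r R k) N)
    (hN' : ∀ p ∈ cK r R k, N (tau p) = N p) : ∃ W : C2 → A, NR.Prm P (DD e r R k) W := by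
  have hpos : ∀ x ∈ DD e r R k, (F e k x).1 ≠ 0 := fun x hx =>
    norm_pos_iff.1 ((hT.r_pos k).trans hx.1)
  have hsec : ∀ x ∈ DD e r R k, pk e k (Complex.log (F e k x).1, (F e k x).2) = x := by
    intro x hx
    unfold pk
    simp only
    rw [Complex.exp_log (hpos x hx)]
    exact Fi_F (fun i _ => hT.e_pos i) x
  refine ⟨fun x => N (Complex.log (F e k x).1, (F e k x).2), fun x hx => ?_⟩
  rw [isOpen_DD.nhdsWithin_eq hx]
  set p₀ : C2 := (Complex.log (F e k x).1, (F e k x).2) with hp₀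
  have hp₀x : pk e k p₀ = x := hsec x hx
  have hp₀m : p₀ ∈ cK r R k := by
    rw [mem_cK hT, hp₀x]
    exact hx
  have he₀ : Complex.exp p₀.1 = (F e k x).1 := Complex.exp_log (hpos x hx)
  have hF : Continuous (F e k) := continuous_F
  let s : C2 → C2 := fun y => (p₀.1 + Complex.log ((F e k y).1 / Complex.exp p₀.1), (F e k y).2)
  have hs0 : s x = p₀ := by
    show ((p₀.1 + Complex.log ((F e k x).1 / Complex.exp p₀.1), (F e k x).2) : C2) = p₀
    rw [he₀, div_self (hpos x hx), Complex.log_one, add_zero]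
  have hsc : ContinuousAt s x := by
    refine ContinuousAt.prodMk (ContinuousAt.add continuousAt_const (ContinuousAt.clog ?_ ?_)) ?_
    · exact (hF.fst.div_const _).continuousAt
    · rw [he₀, div_self (hpos x hx)]
      exact Complex.one_mem_slitPlane
    · exact hF.snd.continuousAt
  have hst : Tendsto s (𝓝 x) (𝓝 p₀) := by
    have := hsc.tendsto
    rwa [hs0] at this
  have hspk : ∀ y ∈ DD e r R k, pk e k (s y) = y := by
    intro y hy
    show Fi e k (Complex.exp (p₀.1 + Complex.log ((F e k y).1 / Complex.exp p₀.1)),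
      (F e k y).2) = y
    rw [Complex.exp_add, Complex.exp_log (div_ne_zero (hpos y hy) (Complex.exp_ne_zero _)),
      mul_div_cancel₀ _ (Complex.exp_ne_zero _)]
    exact Fi_F (fun i _ => hT.e_pos i) y
  have h1 := hN p₀ hp₀m
  rw [(isOpen_cK hT k).nhdsWithin_eq hp₀m] at h1
  filter_upwards [hst.eventually h1, isOpen_DD.mem_nhds hx] with y hy hyD
  have h2 : N (Complex.log (F e k y).1, (F e k y).2) = N (s y) := by
    refine N_inv hT k hN' ?_ ?_
    · rw [mem_cK hT, hsec y hyD]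
      exact hyD
    · rw [hsec y hyD, hspk y hyD]
  rw [h2]
  simp only [hp₀x, hspk y hyD] at hy
  exact hy

end

theorem h1_Om (hT : Tower e r R) (A : Type) [AddCommGroup A] (hA : NR.DivFree2 A) :
    NR.H1triv (Om e r R) A := by
  classical
  intro P hP
  choose N hN using ex_N hT hP
  have hg : ∀ k, N k (tau (0, 0)) - N k (0, 0) = 0 := by
    intro k
    exact hA (fun j => N (k + j) (tau (0, 0)) - N (k + j) (0, 0))
      fun j => gam_two hT (k + j) (hN (k + j)) (hN (k + (j + 1)))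
  have hN' : ∀ k, ∀ p ∈ cK r R k, N k (tau p) = N k p := fun k p hp => by
    have h1 := ex_gam hT k (hN k) hp
    rw [hg k] at h1
    exact sub_eq_zero.1 h1
  choose W hW using fun k => ex_W hT k (hN k) (hN' k)
  obtain ⟨x₀, hx₀⟩ := (isConnected_DD hT 0).nonempty
  have hx₀k : ∀ k, x₀ ∈ DD e r R k := fun k => DD_mono hT (Nat.zero_le k) hx₀
  have hV : ∀ k, NR.Prm P (DD e r R k) fun x => W k x + (-(W k x₀)) :=
    fun k => (hW k).add_const _
  have heq : ∀ k l, k ≤ l → ∀ x ∈ DD e r R k, W l x + (-(W l x₀)) = W k x + (-(W k x₀)) := by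
    intro k l hkl x hx
    have h1 := ((hV l).mono (DD_mono hT hkl)).sub_const (hV k) (isConnected_DD hT k).isPreconnected
      (hx₀k k) hx
    rw [add_neg_cancel, add_neg_cancel, sub_zero, sub_eq_zero] at h1
    exact h1
  let V : C2 → A := fun x => if h : ∃ k, x ∈ DD e r R k then
    W (Nat.find h) x + (-(W (Nat.find h) x₀)) else 0
  have hVk : ∀ k, ∀ x ∈ DD e r R k, V x = W k x + (-(W k x₀)) := by
    intro k x hx
    have h : ∃ k, x ∈ DD e r R k := ⟨k, hx⟩
    show (if h : ∃ k, x ∈ DD e r R k then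
      W (Nat.find h) x + (-(W (Nat.find h) x₀)) else 0) = _
    rw [dif_pos h]
    exact (heq _ _ (Nat.find_min' h hx) x (Nat.find_spec h)).symm
  refine ⟨V, fun x hx => ?_⟩
  rw [Om_eq hT, mem_iUnion] at hx
  obtain ⟨k, hk⟩ := hx
  have h1 := hV k x hk
  rw [isOpen_DD.nhdsWithin_eq hk] at h1
  refine Filter.Eventually.filter_mono nhdsWithin_le_nhds ?_
  filter_upwards [h1, isOpen_DD.mem_nhds hk] with y hy hyD
  rw [hVk k y hyD, hVk k x hk]
  exact hy

end Pool.Agent.MP_fe3720.X
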