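import Pool.Agent.Work.MP_fe3720_an.X.HolAp

/-!
# The domain is holomorphically convex (size M)

PROOF. Let `K ⊆ Om` be compact, `K ⊆ K_k` (`exists_KK`). Claim: `C = K'_k` works (`isCompact_KK'`; `K'_k ⊆ Om` by
`KK'_sub_DD`). Say that `x ∈ Om` is in the hull if `‖h x‖ ≤ 1` for every `h` holomorphic on `Om` with `‖h y‖ ≤ 1` on
`K`; we must show hull `⊆ K'_k`. By scaling, for `x` in the hull, `‖h x‖ ≤ B` whenever `‖h‖ ≤ B` on `K`, `B > 0`.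
Let `x` be in the hull, `x ∈ K_j` for some `j > k` (increase `j`), so `x ∈ K'_j`. Descending step: if `i ≥ k` and
`x ∈ K'_{i+1}` then `x ∈ K'_i`. Proof: for every `p ∈ LP` and `B ≥ 0` with `‖p (F_{i+1} y)‖ ≤ B` on `K_i` (`⊇ K`) we have
`‖p (F_{i+1} x)‖ ≤ B`: take `h` from `hol_approx` (level `i+1`, accuracy `ε`), `‖h‖ ≤ B + ε` on `K_i ⊆ K'_{i+1}`, so
`‖h x‖ ≤ B + ε`, `‖p (F_{i+1} x)‖ ≤ B + 2ε`. Apply this to
 * `p = snd`: `(F_{i+1} y).2 = z_i y`, so `‖z_i x‖ ≤ R_i`;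
 * `p = (W^2 - Z)/e_i`, i.e. `p y = (y.2^2 - y.1)/e_i ∈ LP`: `p (F_{i+1} y) = w_i y`, so `‖w_i x‖ ≤ R_i`;
 * `p = fst⁻¹`: on `K_i`, `‖z_{i+1} y‖ ≥ ‖z_i y‖^2 - e_i R_i ≥ a := r_i^2 - (r_i/4)^2/8 > 0`, so
   `‖(z_{i+1} x)⁻¹‖ ≤ a⁻¹`, `‖z_{i+1} x‖ ≥ a` (it is `≠ 0` as `x ∈ K'_{i+1}`).
Hence `‖z_i x‖^2 = ‖z_{i+1} x + e_i w_i x‖ ≥ a - e_i R_i ≥ r_i^2 - (r_i/4)^2/4 ≥ (r_i/4)^2`, so
`‖z_i x‖ ≥ r_i/4` and `x ∈ K'_i`. After finitely many steps `x ∈ K'_k`.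
-/

namespace Pool.Agent.MP_fe3720.X

open Topology Filter Set

variable {e r R : ℕ → ℝ}

private theorem hull_scale {K : Set C2} {x : C2}
    (hx : ∀ h : C2 → ℂ, DifferentiableOn ℂ h (Om e r R) → (∀ y ∈ K, ‖h y‖ ≤ 1) → ‖h x‖ ≤ 1)
    {h : C2 → ℂ} (hd : DifferentiableOn ℂ h (Om e r R)) {B : ℝ} (hB : 0 < B)
    (hK : ∀ y ∈ K, ‖h y‖ ≤ B) : ‖h x‖ ≤ B := by
  have h1 := hx (fun y => (B : ℂ)⁻¹ * h y) (hd.const_mul _) (fun y hy => by
    rw [norm_mul, norm_inv, Complex.norm_real, Real.norm_of_nonneg hB.le, inv_mul_le_iff₀ hB,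
      mul_one]
    exact hK y hy)
  rwa [norm_mul, norm_inv, Complex.norm_real, Real.norm_of_nonneg hB.le, inv_mul_le_iff₀ hB,
    mul_one] at h1

private theorem hull_transfer (hT : Tower e r R) {K : Set C2} {x : C2}
    (hx : ∀ h : C2 → ℂ, DifferentiableOn ℂ h (Om e r R) → (∀ y ∈ K, ‖h y‖ ≤ 1) → ‖h x‖ ≤ 1)
    {i : ℕ} (hK : K ⊆ KK' e r R i) (hxi : x ∈ KK' e r R i) {p : C2 → ℂ} (hp : p ∈ LP) {B : ℝ}
    (hB : 0 ≤ B) (hpB : ∀ y ∈ K, ‖p (F e i y)‖ ≤ B) : ‖p (F e i x)‖ ≤ B := by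
  refine le_of_forall_pos_le_add fun ε hε => ?_
  obtain ⟨h, hd, hh⟩ := hol_approx hT i hp (half_pos hε)
  have h1 : ‖h x‖ ≤ B + ε / 2 := by
    refine hull_scale hx hd (by linarith) fun y hy => ?_
    have h2 := hh y (hK hy)
    have h3 := hpB y hy
    have h4 : ‖h y‖ ≤ ‖h y - p (F e i y)‖ + ‖p (F e i y)‖ := by
      simpa using norm_add_le (h y - p (F e i y)) (p (F e i y))
    linarith
  have h2 := hh x hxi
  have h4 : ‖p (F e i x)‖ ≤ ‖h x - p (F e i x)‖ + ‖h x‖ := by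
    have h5 := norm_sub_le (h x) (h x - p (F e i x))
    rw [sub_sub_cancel] at h5
    linarith
  linarith

private theorem hull_step (hT : Tower e r R) {K : Set C2} {x : C2}
    (hx : ∀ h : C2 → ℂ, DifferentiableOn ℂ h (Om e r R) → (∀ y ∈ K, ‖h y‖ ≤ 1) → ‖h x‖ ≤ 1)
    {i : ℕ} (hK : K ⊆ KK e r R i) (hxi : x ∈ KK' e r R (i + 1)) : x ∈ KK' e r R i := by
  have he := hT.e_pos i
  have hr := hT.r_pos i
  have hR := hT.R_gt i
  have hs := hT.small i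
  have he' : (e i : ℂ) ≠ 0 := by exact_mod_cast he.ne'
  have hK' : K ⊆ KK' e r R (i + 1) := fun y hy =>
    KK_sub_KK' (hT.r_pos (i + 1)) (DD_sub_KK (KK_sub_DD (hT.pre (i + 1)) (hK hy)))
  have hz : ‖(F e i x).1‖ ≤ R i := by
    have h1 := hull_transfer hT hx hK' hxi LP_snd (B := R i) (by linarith)
      (fun y hy => (hK hy).2.1)
    exact h1
  have hw : ‖(F e i x).2‖ ≤ R i := by
    have hp : (fun q : C2 => (e i : ℂ)⁻¹ * (q.2 ^ 2 - q.1)) ∈ LP :=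
      LP.mul_mem (LP_const _) (LP.sub_mem (LP.pow_mem LP_snd 2) LP_fst)
    have hq : ∀ y : C2, (e i : ℂ)⁻¹ * ((F e (i + 1) y).2 ^ 2 - (F e (i + 1) y).1) =
        (F e i y).2 := by
      intro y
      simp only [F, H]
      field_simp
      ring
    have h1 := hull_transfer hT hx hK' hxi hp (B := R i) (by linarith)
      (fun y hy => by
        show ‖(e i : ℂ)⁻¹ * ((F e (i + 1) y).2 ^ 2 - (F e (i + 1) y).1)‖ ≤ R i
        rw [hq]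
        exact (hK hy).2.2)
    have h2 : ‖(e i : ℂ)⁻¹ * ((F e (i + 1) x).2 ^ 2 - (F e (i + 1) x).1)‖ ≤ R i := h1
    rwa [hq] at h2
  have hnw : ∀ y : C2, ‖(e i : ℂ) * (F e i y).2‖ = e i * ‖(F e i y).2‖ := by
    intro y
    rw [norm_mul, Complex.norm_real, Real.norm_of_nonneg he.le]
  have ha : 0 < r i ^ 2 - (r i / 4) ^ 2 / 8 := by nlinarith
  have hlow : r i ^ 2 - (r i / 4) ^ 2 / 8 ≤ ‖(F e (i + 1) x).1‖ := by
    have hM : F e (i + 1) x ∈ M := KK'_M (hT.pre (i + 1)) hxi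
    have hM' : 0 < ‖(F e (i + 1) x).1‖ := norm_pos_iff.2 hM
    have h1 := hull_transfer hT hx hK' hxi LP_inv
      (B := (r i ^ 2 - (r i / 4) ^ 2 / 8)⁻¹) (by positivity)
      (fun y hy => by
        have hy1 := hK hy
        have h2 : r i ^ 2 - (r i / 4) ^ 2 / 8 ≤ ‖(F e (i + 1) y).1‖ := by
          simp only [F, H]
          have h3 := norm_sub_norm_le ((F e i y).1 ^ 2) ((e i : ℂ) * (F e i y).2)
          rw [norm_pow, hnw] at h3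
          have h4 : r i ^ 2 ≤ ‖(F e i y).1‖ ^ 2 := pow_le_pow_left₀ hr.le hy1.1 2
          have h5 : e i * ‖(F e i y).2‖ ≤ e i * R i := mul_le_mul_of_nonneg_left hy1.2.2 he.le
          linarith
        show ‖((F e (i + 1) y).1)⁻¹‖ ≤ _
        rw [norm_inv]
        exact inv_anti₀ ha h2)
    have h2 : ‖((F e (i + 1) x).1)⁻¹‖ ≤ (r i ^ 2 - (r i / 4) ^ 2 / 8)⁻¹ := h1
    rw [norm_inv] at h2
    exact (inv_le_inv₀ hM' ha).1 h2
  refine ⟨?_, hz, hw⟩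
  have h6 : (F e (i + 1) x).1 = (F e i x).1 ^ 2 - (e i : ℂ) * (F e i x).2 := rfl
  have h7 := norm_sub_le ((F e i x).1 ^ 2) ((e i : ℂ) * (F e i x).2)
  rw [← h6, norm_pow, hnw] at h7
  have h8 : e i * ‖(F e i x).2‖ ≤ e i * R i := mul_le_mul_of_nonneg_left hw he.le
  have h9 : (r i / 4) ^ 2 ≤ ‖(F e i x).1‖ ^ 2 := by nlinarith
  exact le_of_sq_le_sq h9 (norm_nonneg _)

theorem holConvex (hT : Tower e r R) : HolConvex (Om e r R) := by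
  intro K hKO hKc
  obtain ⟨k, hk⟩ := exists_KK hT hKc hKO
  refine ⟨KK' e r R k, ?_, isCompact_KK' (fun i _ => hT.e_pos i), ?_⟩
  · exact (KK'_sub_DD (hT.pre (k + 1))).trans
      (DD_sub_KK.trans (subset_iUnion (fun j => KK e r R j) (k + 1)))
  · rintro x ⟨hxO, hxC⟩
    by_contra hcon
    push Not at hcon
    have hx : ∀ h : C2 → ℂ, DifferentiableOn ℂ h (Om e r R) → (∀ y ∈ K, ‖h y‖ ≤ 1) →
        ‖h x‖ ≤ 1 := hcon
    have hdesc : ∀ n : ℕ, x ∈ KK' e r R (k + n) → x ∈ KK' e r R k := by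
      intro n
      induction n with
      | zero => exact id
      | succ n ih =>
        intro h1
        exact ih (hull_step hT hx (hk.trans (KK_mono hT (Nat.le_add_right k n))) h1)
    obtain ⟨j, hj⟩ := mem_iUnion.1 hxO
    have h1 : x ∈ KK e r R (k + j) := KK_mono hT (Nat.le_add_left j k) hj
    exact hxC (hdesc j (KK_sub_KK' (hT.r_pos _) h1))

end Pool.Agent.MP_fe3720.X
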