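import Pool.Agent.Work.MP_fe3720_an.X.SeqL
import Pool.Agent.Work.MP_fe3720_an.X.DPfin
import Pool.Agent.Work.MP_fe3720_an.X.Hull
import Pool.Agent.Work.MP_fe3720_an.X.H1T
import Pool.Agent.Work.MP_fe3720_an.X.FormT
import Pool.Agent.Work.MP_fe3720_an.X.ConnT

/-!
# Parts A and B: the domain
-/

namespace Pool.Agent.MP_fe3720.X

open Topology Filter Set

theorem exists_domain : ∃ Ω : Set C2, IsOpen Ω ∧ IsConnected Ω ∧ HolConvex Ω ∧ SpanDense Ω ∧
    HasForm Ω ∧ ∀ (A : Type) [AddCommGroup A], NR.DivFree2 A → NR.H1triv Ω A := by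
  obtain ⟨e, r, R, g, m, ε, D⟩ := exists_seqD
  exact ⟨Om e r R, isOpen_Om D.tower, isConnected_Om D.tower, holConvex D.tower, spanDense D,
    hasForm D.tower, fun A _ hA => h1_Om D.tower A hA⟩

end Pool.Agent.MP_fe3720.X
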