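import Pool.Agent.Work.MP_fe3720_an.X.TaskL
import Pool.Agent.Work.MP_fe3720_an.X.GBase

/-!
# Adding the tasks of stage k (size M)

PROOF. The set of tasks `(j, a, b, σ)`, `j ≤ k`, `|a| ≤ k`, `b ≤ k`, is finite. Induction over a finite set (or list) of
tasks: for each one take the family of `task_exists` with `δ = 1/(k+1)` and append its elements of `G` to the list of active
elements (positions `m, ..., m + m₁ - 1`; redefine `g` there; the elements at positions `< m` are not changed, so the earlier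
tasks remain satisfied, as they only use indices `< m`). Result: `g'`, `m'` with all the approximation inequalities, with
coefficient families `(I, c)` (for `i = m + l` the coefficient is `c_l`). A convenient formulation for the induction: for
every finite set `τ` of tasks and every `g, m` there are `g', m'` with `g' i = g i` for `i < m`, `m ≤ m'`, `g' i ∈ G` and the
tasks in `τ` satisfied (`∃ I c, (∀ i ∈ I, i < m') ∧ inequality`).
Choice of `ε`: (1) for every `i < m'` the set `{Th e k (g' i) t x : ‖t‖ ≤ k+1, x ∈ KK e r R k}` is compact (`Th_smooth` gives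
continuity, `isCompact_KK`, `KK_M`) and contained in the open set `{y | F e k y ∈ M}` (`Th_maps`), so some
closed `2ε`-thickening is contained in it (`IsCompact.exists_cthickening_subset_open`); (2) `(Σ ‖c i‖) 2 ε ≤ 1/(k+1)` for each of
the finitely many tasks (choose for each task its `I, c` once); (3) `ε ≤ ε₀`. Finitely many conditions, each satisfied for all
small `ε > 0`: use `𝓝[>] 0` and `Filter.eventually_all_finite` or a minimum.
-/

namespace Pool.Agent.MP_fe3720.X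

open Topology Filter Set

private def AtSat (e r R : ℕ → ℝ) (k : ℕ) (g : ℕ → Equiv.Perm C2) (m : ℕ)
    (τ : ℕ × ℤ × ℕ × Bool) (I : Finset ℕ) (c : ℕ → ℂ) : Prop :=
  (∀ i ∈ I, i < m) ∧ ∀ x ∈ KK e r R τ.1,
    ‖mu e τ.1 τ.2.1 τ.2.2.1 τ.2.2.2 x - ∑ i ∈ I, c i • VT e k (g i) x‖ ≤ 1 / ((k : ℝ) + 1)

private theorem at_ind {k : ℕ} {e r R : ℕ → ℝ} (hT : PreTower k e r R) (g : ℕ → Equiv.Perm C2)
    (hg : ∀ i, g i ∈ G) (m : ℕ) (T : Finset (ℕ × ℤ × ℕ × Bool)) (hTj : ∀ τ ∈ T, τ.1 ≤ k) :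
    ∃ (g' : ℕ → Equiv.Perm C2) (m' : ℕ), (∀ i < m, g' i = g i) ∧ m ≤ m' ∧ (∀ i, g' i ∈ G) ∧
      ∀ τ ∈ T, ∃ I c, AtSat e r R k g' m' τ I c := by
  classical
  induction T using Finset.induction_on with
  | empty => exact ⟨g, m, fun _ _ => rfl, le_rfl, hg, by simp⟩
  | insert τ T _ ih =>
    obtain ⟨g₁, m₁, h1, h2, h3, h4⟩ := ih fun τ' h => hTj τ' (Finset.mem_insert_of_mem h)
    obtain ⟨n, c, γ, hγ, hc⟩ := task_exists hT (hTj τ (Finset.mem_insert_self _ _)) τ.2.1 τ.2.2.1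
      τ.2.2.2 (δ := 1 / ((k : ℝ) + 1)) (by positivity)
    let g' : ℕ → Equiv.Perm C2 := fun i => if h : i - m₁ < n ∧ m₁ ≤ i then γ ⟨i - m₁, h.1⟩ else g₁ i
    have hg' : ∀ i < m₁, g' i = g₁ i := by
      intro i hi
      simp only [g']
      rw [dif_neg]
      omega
    refine ⟨g', m₁ + n, fun i hi => (hg' i (hi.trans_le h2)).trans (h1 i hi), by omega, ?_, ?_⟩
    · intro i
      simp only [g']
      split_ifs with h
      · exact hγ _
      · exact h3 i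
    · intro τ' hτ'
      rcases Finset.mem_insert.1 hτ' with rfl | hτ'
      · refine ⟨Finset.Ico m₁ (m₁ + n), fun i => if h : i - m₁ < n then c ⟨i - m₁, h⟩ else 0,
          fun i hi => (Finset.mem_Ico.1 hi).2, fun x hx => ?_⟩
        have hs : ∑ i ∈ Finset.Ico m₁ (m₁ + n), (if h : i - m₁ < n then c ⟨i - m₁, h⟩ else 0) •
            VT e k (g' i) x = ∑ i, c i • VT e k (γ i) x := by
          rw [Finset.sum_Ico_eq_sum_range, show m₁ + n - m₁ = n by omega, Finset.sum_range]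
          refine Finset.sum_congr rfl fun i _ => ?_
          have h5 : m₁ + (i : ℕ) - m₁ = i := by omega
          have h6 : m₁ + (i : ℕ) - m₁ < n := by rw [h5]; exact i.2
          have h7 : (⟨m₁ + (i : ℕ) - m₁, h6⟩ : Fin n) = i := Fin.ext h5
          have h8 : g' (m₁ + i) = γ i := by
            simp only [g']
            rw [dif_pos ⟨h6, Nat.le_add_right _ _⟩, h7]
          rw [dif_pos h6, h7, h8]
        rw [hs]
        exact (hc x hx).le
      · obtain ⟨I, d, hI, hd⟩ := h4 τ' hτ'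
        refine ⟨I, d, fun i hi => (hI i hi).trans_le (Nat.le_add_right _ _), fun x hx => ?_⟩
        have hs : ∑ i ∈ I, d i • VT e k (g' i) x = ∑ i ∈ I, d i • VT e k (g₁ i) x :=
          Finset.sum_congr rfl fun i hi => by rw [hg' i (hI i hi)]
        rw [hs]
        exact hd x hx

private theorem at_thick {k : ℕ} {e r R : ℕ → ℝ} (hT : PreTower k e r R) {g : Equiv.Perm C2}
    (hg : g ∈ G) : ∀ᶠ ε : ℝ in 𝓝[>] 0, ∀ t : ℂ, ‖t‖ ≤ k + 1 → ∀ x ∈ KK e r R k, ∀ y,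
      dist y (Th e k g t x) ≤ 2 * ε → F e k y ∈ M := by
  have hcomp : IsCompact (Metric.closedBall (0 : ℂ) (k + 1) ×ˢ KK e r R k) :=
    (isCompact_closedBall _ _).prod (isCompact_KK hT.e_pos)
  have hcont : ContinuousOn (fun p : ℂ × C2 => Th e k g p.1 p.2)
      (Metric.closedBall (0 : ℂ) (k + 1) ×ˢ KK e r R k) :=
    (Th_smooth hT.e_pos hg).continuousOn.mono fun p hp => ⟨mem_univ _, KK_M hT hp.2⟩
  have hC := hcomp.image_of_continuousOn hcont
  have hU : IsOpen {y | F e k y ∈ M} := M_open.preimage continuous_F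
  have hsub : (fun p : ℂ × C2 => Th e k g p.1 p.2) ''
      (Metric.closedBall (0 : ℂ) (k + 1) ×ˢ KK e r R k) ⊆ {y | F e k y ∈ M} := by
    rintro _ ⟨p, hp, rfl⟩
    exact Th_maps hT.e_pos hg p.1 (KK_M hT hp.2)
  obtain ⟨δ, hδ, hδs⟩ := hC.exists_cthickening_subset_open hU hsub
  have h1 : ∀ᶠ ε : ℝ in 𝓝[>] 0, ε < δ / 2 :=
    nhdsWithin_le_nhds (gt_mem_nhds (by positivity))
  filter_upwards [h1] with ε hε t ht x hx y hy
  refine hδs (Metric.mem_cthickening_of_dist_le y (Th e k g t x) δ _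
    ⟨(t, x), ⟨by simpa using ht, hx⟩, rfl⟩ (hy.trans (by linarith)))

theorem add_tasks {k : ℕ} {e r R : ℕ → ℝ} (hT : PreTower k e r R) (g : ℕ → Equiv.Perm C2)
    (hg : ∀ i, g i ∈ G) (m : ℕ) {ε₀ : ℝ} (hε₀ : 0 < ε₀) :
    ∃ (g' : ℕ → Equiv.Perm C2) (m' : ℕ) (ε : ℝ), (∀ i < m, g' i = g i) ∧ m ≤ m' ∧ ε ≤ ε₀ ∧
      Good k ⟨e, r, R, g', m', ε⟩ := by
  classical
  let T : Finset (ℕ × ℤ × ℕ × Bool) := Finset.range (k + 1) ×ˢ Finset.Icc (-(k : ℤ)) k ×ˢ
    Finset.range (k + 1) ×ˢ Finset.univ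
  have hTj : ∀ τ ∈ T, τ.1 ≤ k := by
    intro τ hτ
    have := (Finset.mem_product.1 hτ).1
    exact Nat.lt_succ_iff.1 (Finset.mem_range.1 this)
  obtain ⟨g', m', h1, h2, h3, h4⟩ := at_ind hT g hg m T hTj
  choose! I c hIc using h4
  have e1 : ∀ᶠ ε : ℝ in 𝓝[>] 0, ∀ i < m', ∀ t : ℂ, ‖t‖ ≤ k + 1 → ∀ x ∈ KK e r R k, ∀ y,
      dist y (Th e k (g' i) t x) ≤ 2 * ε → F e k y ∈ M := by
    have : ∀ᶠ ε : ℝ in 𝓝[>] 0, ∀ i ∈ Finset.range m', ∀ t : ℂ, ‖t‖ ≤ k + 1 →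
        ∀ x ∈ KK e r R k, ∀ y, dist y (Th e k (g' i) t x) ≤ 2 * ε → F e k y ∈ M :=
      (Finset.eventually_all _).2 fun i _ => at_thick hT (h3 i)
    filter_upwards [this] with ε h i hi
    exact h i (Finset.mem_range.2 hi)
  have e2 : ∀ᶠ ε : ℝ in 𝓝[>] 0, ∀ τ ∈ T, (∑ i ∈ I τ, ‖c τ i‖) * (2 * ε) ≤ 1 / ((k : ℝ) + 1) := by
    refine (Finset.eventually_all _).2 fun τ _ => ?_
    have hc : Tendsto (fun ε : ℝ => (∑ i ∈ I τ, ‖c τ i‖) * (2 * ε)) (𝓝[>] 0) (𝓝 0) := by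
      have : Tendsto (fun ε : ℝ => (∑ i ∈ I τ, ‖c τ i‖) * (2 * ε)) (𝓝 0)
          (𝓝 ((∑ i ∈ I τ, ‖c τ i‖) * (2 * 0))) := by
        exact (Continuous.tendsto (by fun_prop) _)
      simpa using this.mono_left nhdsWithin_le_nhds
    have hp : (0 : ℝ) < 1 / ((k : ℝ) + 1) := by positivity
    filter_upwards [hc.eventually (gt_mem_nhds hp)] with ε hε using hε.le
  have e3 : ∀ᶠ ε : ℝ in 𝓝[>] 0, ε ≤ ε₀ := by
    have : ∀ᶠ ε : ℝ in 𝓝[>] 0, ε < ε₀ := nhdsWithin_le_nhds (gt_mem_nhds hε₀)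
    filter_upwards [this] with ε hε using hε.le
  obtain ⟨ε, ⟨⟨e1, e2⟩, e3⟩, e4⟩ := (((e1.and e2).and e3).and self_mem_nhdsWithin).exists
  refine ⟨g', m', ε, h1, h2, e3, ⟨hT, h3, e4, fun i hi t ht x hx y hy => e1 i hi t ht x hx y hy, ?_⟩⟩
  intro j hj a ha b hb σ
  have hτ : ((j, a, b, σ) : ℕ × ℤ × ℕ × Bool) ∈ T := by
    simp only [T, Finset.mem_product, Finset.mem_range, Finset.mem_Icc, Finset.mem_univ, and_true]
    refine ⟨by omega, ?_, by omega⟩
    exact abs_le.1 ha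
  obtain ⟨h5, h6⟩ := hIc _ hτ
  exact ⟨I (j, a, b, σ), c (j, a, b, σ), h5, h6, e2 _ hτ⟩

end Pool.Agent.MP_fe3720.X
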