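import Pool.Agent.Work.MP_fe3720_an.X.Basic

/-!
# Laurent polynomials of level k are limits of Laurent polynomials of level k+1 (size S-M)

PROOF. The set of all `p : C2 → ℂ` such that `ContinuousOn p T` and `∀ ε > 0, ∃ q ∈ LP, ∀ x ∈ T, ‖q (H n e x) - p x‖ < ε`
is closed under sums and products (`p` is bounded on the compact set `T`:
`|q₁ q₂ - p₁ p₂| ≤ |q₁ - p₁| (|p₂| + 1) + |p₁| |q₂ - p₂|`) and contains the constants. By
`Algebra.adjoin_induction` it is enough to treat the three generators. Write `H n e x = (Z, W)`, `W = x.1`,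
`Z = x.1^n - e x.2`. `z`: `q = W` (snd), exactly. `w = (W^n - Z)/e` exactly, `q = (W^n - Z)/e ∈ LP`.
`z⁻¹`: with `u = 1 - W^n / Z = - e x.2 / Z` we have `‖e x.2‖ ≤ ‖x.1‖^n / 8` and `‖Z‖ ≥ (7/8) ‖x.1‖^n`, so `‖u‖ ≤ 1/7`;
`W^n / Z = 1 - u`, `x.1⁻¹ = W^(n-1) / W^n = (W^(n-1)/Z) (1 - u)⁻¹ = Σ_j (W^(n-1)/Z) u^j`, uniformly on `T` (the factor
`W^(n-1)/Z` is bounded on `T`). Take the partial sum `q = Σ_{j<J} W^(n-1) Z⁻¹ (1 - W^n Z⁻¹)^j ∈ LP`.
-/

namespace Pool.Agent.MP_fe3720.X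

open Topology Filter Set

private theorem ra_inv {n : ℕ} (hn : 1 ≤ n) {e : ℝ} (he : 0 < e) {T : Set C2} (hT : IsCompact T)
    (hM : T ⊆ M) (hs : ∀ x ∈ T, e * ‖x.2‖ ≤ ‖x.1‖ ^ n / 8) {ε : ℝ}
    (hε : 0 < ε) : ∃ q ∈ LP, ∀ x ∈ T, ‖q (H n e x) - (x.1)⁻¹‖ < ε := by
  obtain ⟨B, hB⟩ := hT.exists_bound_of_continuousOn ((LP_continuousOn LP_inv).mono hM)
  obtain ⟨J, hJ⟩ := exists_pow_lt_of_lt_one (show (0 : ℝ) < ε / (|B| + 1) by positivity)
    (show (1 / 7 : ℝ) < 1 by norm_num)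
  let W : C2 → ℂ := fun p => p.2
  let Z : C2 → ℂ := fun p => (p.1)⁻¹
  have hq : W ^ (n - 1) * Z * ∑ j ∈ Finset.range J, (1 - W ^ n * Z) ^ j ∈ LP := by
    refine LP.mul_mem (LP.mul_mem (LP.pow_mem LP_snd _) LP_inv) (LP.sum_mem fun j _ => ?_)
    exact LP.pow_mem (LP.sub_mem LP.one_mem (LP.mul_mem (LP.pow_mem LP_snd _) LP_inv)) _
  refine ⟨_, hq, fun x hx => ?_⟩
  have hx0 : x.1 ≠ 0 := hM hx
  have hx1 : 0 < ‖x.1‖ := norm_pos_iff.2 hx0
  have hxn : 0 < ‖x.1‖ ^ n := by positivity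
  set z : ℂ := x.1 ^ n - (e : ℂ) * x.2 with hz
  have hes : ‖(e : ℂ) * x.2‖ = e * ‖x.2‖ := by
    rw [norm_mul, Complex.norm_real, Real.norm_of_nonneg he.le]
  have hzn : 7 / 8 * ‖x.1‖ ^ n ≤ ‖z‖ := by
    have h := norm_sub_norm_le (x.1 ^ n) ((e : ℂ) * x.2)
    rw [norm_pow, hes] at h
    have h1 := hs x hx
    linarith
  have hzpos : 0 < ‖z‖ := by linarith
  have hz0 : z ≠ 0 := norm_pos_iff.1 hzpos
  set u : ℂ := 1 - x.1 ^ n * z⁻¹ with hu
  have hun : ‖u‖ ≤ 1 / 7 := by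
    have h1 : u = -((e : ℂ) * x.2) / z := by
      rw [hu, hz]
      rw [hz] at hz0
      field_simp
      ring
    rw [h1, norm_div, norm_neg, hes, div_le_iff₀ hzpos]
    have h2 := hs x hx
    linarith
  have hval : (W ^ (n - 1) * Z * ∑ j ∈ Finset.range J, (1 - W ^ n * Z) ^ j) (H n e x) =
      x.1 ^ (n - 1) * z⁻¹ * ∑ j ∈ Finset.range J, u ^ j := by
    simp only [Pi.mul_apply, Pi.pow_apply, Finset.sum_apply, Pi.sub_apply, Pi.one_apply]
    rfl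
  have hgeo : (∑ j ∈ Finset.range J, u ^ j) * (1 - u) = 1 - u ^ J := geom_sum_mul_neg u J
  have hone : 1 - u = x.1 ^ n * z⁻¹ := by rw [hu]; ring
  have hn1 : x.1 ^ n = x.1 * x.1 ^ (n - 1) := by
    rw [← pow_succ', Nat.sub_add_cancel hn]
  have hdiff : x.1 ^ (n - 1) * z⁻¹ * ∑ j ∈ Finset.range J, u ^ j - (x.1)⁻¹ =
      -((x.1)⁻¹ * u ^ J) := by
    have h3 : x.1 * (x.1 ^ (n - 1) * z⁻¹ * ∑ j ∈ Finset.range J, u ^ j) = 1 - u ^ J := by
      rw [← hgeo, hone, hn1]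
      ring
    have h4 : x.1 ^ (n - 1) * z⁻¹ * ∑ j ∈ Finset.range J, u ^ j = (x.1)⁻¹ * (1 - u ^ J) := by
      rw [← h3, inv_mul_cancel_left₀ hx0]
    rw [h4]
    ring
  rw [hval, hdiff, norm_neg, norm_mul, norm_pow]
  have hb : ‖(x.1)⁻¹‖ ≤ |B| := (hB x hx).trans (le_abs_self B)
  have hpow : ‖u‖ ^ J ≤ (1 / 7) ^ J := pow_le_pow_left₀ (norm_nonneg _) hun J
  have hJ0 : (0 : ℝ) < (1 / 7) ^ J := by positivity
  calc ‖(x.1)⁻¹‖ * ‖u‖ ^ J ≤ |B| * (1 / 7) ^ J :=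
        mul_le_mul hb hpow (by positivity) (abs_nonneg B)
    _ < (|B| + 1) * (1 / 7) ^ J := by
        apply mul_lt_mul_of_pos_right _ hJ0
        linarith
    _ ≤ (|B| + 1) * (ε / (|B| + 1)) :=
        mul_le_mul_of_nonneg_left hJ.le (by positivity)
    _ = ε := by field_simp

theorem runge_step {n : ℕ} (hn : 1 ≤ n) {e : ℝ} (he : 0 < e) {T : Set C2} (hT : IsCompact T)
    (hM : T ⊆ M) (hs : ∀ x ∈ T, e * ‖x.2‖ ≤ ‖x.1‖ ^ n / 8) {p : C2 → ℂ} (hp : p ∈ LP) {ε : ℝ}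
    (hε : 0 < ε) : ∃ q ∈ LP, ∀ x ∈ T, ‖q (H n e x) - p x‖ < ε := by
  induction hp using Algebra.adjoin_induction generalizing ε with
  | mem x hx =>
    simp only [mem_insert_iff, mem_singleton_iff] at hx
    rcases hx with rfl | rfl | rfl
    · refine ⟨_, LP_snd, fun x _ => ?_⟩
      show ‖x.1 - x.1‖ < ε
      rw [sub_self, norm_zero]
      exact hε
    · exact ra_inv hn he hT hM hs hε
    · have he0 : (e : ℂ) ≠ 0 := by exact_mod_cast he.ne'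
      let W : C2 → ℂ := fun p => p.2
      let Z : C2 → ℂ := fun p => p.1
      have hq : ((e : ℂ)⁻¹) • (W ^ n - Z) ∈ LP :=
        LP.smul_mem (LP.sub_mem (LP.pow_mem LP_snd _) LP_fst) _
      refine ⟨_, hq, fun x _ => ?_⟩
      have hval : (((e : ℂ)⁻¹) • (W ^ n - Z)) (H n e x) = x.2 := by
        show (e : ℂ)⁻¹ * (x.1 ^ n - (x.1 ^ n - (e : ℂ) * x.2)) = x.2
        field_simp
        ring
      rw [hval, sub_self, norm_zero]
      exact hε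
  | algebraMap c =>
    refine ⟨_, LP_const c, fun x _ => ?_⟩
    show ‖c - c‖ < ε
    rw [sub_self, norm_zero]
    exact hε
  | add a b _ _ ha hb =>
    obtain ⟨q₁, h1, h2⟩ := ha (half_pos hε)
    obtain ⟨q₂, h3, h4⟩ := hb (half_pos hε)
    refine ⟨_, LP.add_mem h1 h3, fun x hx => ?_⟩
    have h5 : (q₁ + q₂) (H n e x) - (a + b) x = (q₁ (H n e x) - a x) + (q₂ (H n e x) - b x) := by
      simp only [Pi.add_apply]
      ring
    rw [h5]
    calc _ ≤ ‖q₁ (H n e x) - a x‖ + ‖q₂ (H n e x) - b x‖ := norm_add_le _ _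
      _ < ε / 2 + ε / 2 := add_lt_add (h2 x hx) (h4 x hx)
      _ = ε := by ring
  | mul a b hma hmb ha hb =>
    obtain ⟨A, hA⟩ := hT.exists_bound_of_continuousOn ((LP_continuousOn hma).mono hM)
    obtain ⟨B, hB⟩ := hT.exists_bound_of_continuousOn ((LP_continuousOn hmb).mono hM)
    set δ : ℝ := min 1 (ε / (2 * (|A| + |B| + 2))) with hδ
    have hδ0 : 0 < δ := lt_min one_pos (by positivity)
    have hδ1 : δ ≤ 1 := min_le_left _ _
    have hδ2 : δ * (|A| + |B| + 2) ≤ ε / 2 := by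
      calc δ * (|A| + |B| + 2) ≤ ε / (2 * (|A| + |B| + 2)) * (|A| + |B| + 2) :=
            mul_le_mul_of_nonneg_right (min_le_right _ _) (by positivity)
        _ = ε / 2 := by field_simp
    obtain ⟨q₁, h1, h2⟩ := ha hδ0
    obtain ⟨q₂, h3, h4⟩ := hb hδ0
    refine ⟨_, LP.mul_mem h1 h3, fun x hx => ?_⟩
    have h5 : (q₁ * q₂) (H n e x) - (a * b) x = (q₁ (H n e x) - a x) * (q₂ (H n e x) - b x) +
        (q₁ (H n e x) - a x) * b x + a x * (q₂ (H n e x) - b x) := by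
      simp only [Pi.mul_apply]
      ring
    have hax : ‖a x‖ ≤ |A| := (hA x hx).trans (le_abs_self A)
    have hbx : ‖b x‖ ≤ |B| := (hB x hx).trans (le_abs_self B)
    have g1 := h2 x hx
    have g2 := h4 x hx
    rw [h5]
    have k1 : ‖(q₁ (H n e x) - a x) * (q₂ (H n e x) - b x)‖ ≤ δ * 1 := by
      rw [norm_mul]
      exact mul_le_mul g1.le (g2.le.trans hδ1) (norm_nonneg _) hδ0.le
    have k2 : ‖(q₁ (H n e x) - a x) * b x‖ ≤ δ * |B| := by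
      rw [norm_mul]
      exact mul_le_mul g1.le hbx (norm_nonneg _) hδ0.le
    have k3 : ‖a x * (q₂ (H n e x) - b x)‖ ≤ |A| * δ := by
      rw [norm_mul]
      exact mul_le_mul hax g2.le (norm_nonneg _) (abs_nonneg A)
    have k4 := norm_add_le ((q₁ (H n e x) - a x) * (q₂ (H n e x) - b x) +
      (q₁ (H n e x) - a x) * b x) (a x * (q₂ (H n e x) - b x))
    have k5 := norm_add_le ((q₁ (H n e x) - a x) * (q₂ (H n e x) - b x))
      ((q₁ (H n e x) - a x) * b x)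
    nlinarith

end Pool.Agent.MP_fe3720.X
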