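import Pool.Agent.Work.MP_fe3720_an.X.Defs2
import Pool.Agent.Work.MP_fe3720_an.X.RungeA

/-!
# The class `Ap` of functions which are limits of Laurent polynomials of level k (size M)

PROOFS. `Ap_add`, `Ap_const`, `Ap_congr`: direct. `Ap_mul`: a function in `Ap e k C` is bounded on the compact set
`C` (it is within 1 of `q ∘ F_k`, which is continuous on `C` since `F_k (C) ⊆ M`, `LP_continuousOn`); then
`|q₁ q₂ - f₁ f₂| ≤ |q₁ - f₁| (|f₂| + 1) + |f₁| |q₂ - f₂|`.
`Ap_level`, one step: `f` is near `p ∘ F_k` (`p ∈ LP`), and by `runge_step` with `n = 2`, `e = e_k`, `T = F_k '' C`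
(compact, in `M`, smallness by `KK'_small`) `p ∘ F_k` is near `q ∘ H ∘ F_k = q ∘ F_{k+1}`; then induction on `k`
(`C ⊆ KK' j ⊆ KK' k` by `KK'_mono`).
`Ap_coord`: the coordinates of `F_j`, `j ≤ k`, are polynomials in the coordinates of `F_k`: for `j = k` clear;
from `j+1` to `j`: `(F_j x).1 = (F_{j+1} x).2` and `(F_j x).2 = ((F_j x).1^2 - (F_{j+1} x).1)/e_j`; descending
induction with `Ap_mul`, `Ap_add`, `Ap_const`. `Ap_dF`: `D_j x = fderiv ℂ (F e j) x v`: `D_0 = v` constant,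
`D_{j+1} = (2 z_j (D_j).1 - e_j (D_j).2, (D_j).1)` (chain rule for `H 2 (e j) ∘ F e j`), so by
induction on `j ≤ k` both components are in `Ap e k C`.
-/

namespace Pool.Agent.MP_fe3720.X

open Topology Filter Set

variable {e r R : ℕ → ℝ} {k : ℕ} {C : Set C2} {f g : C2 → ℂ}

theorem Ap_LP {q : C2 → ℂ} (hq : q ∈ LP) : Ap e k C (fun x => q (F e k x)) := by
  intro ε hε
  exact ⟨q, hq, fun x _ => by rwa [sub_self, norm_zero]⟩

theorem Ap_const (c : ℂ) : Ap e k C (fun _ => c) := Ap_LP (LP_const c)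

theorem Ap_congr (h : ∀ x ∈ C, f x = g x) (hf : Ap e k C f) : Ap e k C g := by
  intro ε hε
  obtain ⟨q, hq, h1⟩ := hf ε hε
  exact ⟨q, hq, fun x hx => by rw [← h x hx]; exact h1 x hx⟩

theorem Ap_add (hf : Ap e k C f) (hg : Ap e k C g) : Ap e k C (fun x => f x + g x) := by
  intro ε hε
  obtain ⟨q, hq, h1⟩ := hf (ε / 2) (by positivity)
  obtain ⟨q', hq', h2⟩ := hg (ε / 2) (by positivity)
  refine ⟨q + q', LP.add_mem hq hq', fun x hx => ?_⟩
  have e1 : (q + q') (F e k x) - (f x + g x) = (q (F e k x) - f x) + (q' (F e k x) - g x) := by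
    rw [Pi.add_apply]
    ring
  rw [e1]
  calc _ ≤ ‖q (F e k x) - f x‖ + ‖q' (F e k x) - g x‖ := norm_add_le _ _
    _ < ε / 2 + ε / 2 := add_lt_add (h1 x hx) (h2 x hx)
    _ = ε := by ring

private theorem Ap_bdd (hC : IsCompact C) (hM : ∀ x ∈ C, F e k x ∈ M) (hf : Ap e k C f) :
    ∃ B : ℝ, 0 ≤ B ∧ ∀ x ∈ C, ‖f x‖ ≤ B := by
  obtain ⟨q, hq, h1⟩ := hf 1 one_pos
  have h2 : ContinuousOn (fun x => q (F e k x)) C :=
    (LP_continuousOn hq).comp continuous_F.continuousOn hM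
  obtain ⟨B, hB⟩ := hC.exists_bound_of_continuousOn h2
  refine ⟨max B 0 + 1, by positivity, fun x hx => ?_⟩
  have h3 := h1 x hx
  have h4 := hB x hx
  have h5 : f x = q (F e k x) - (q (F e k x) - f x) := by ring
  rw [h5]
  calc _ ≤ ‖q (F e k x)‖ + ‖q (F e k x) - f x‖ := norm_sub_le _ _
    _ ≤ max B 0 + 1 := add_le_add (h4.trans (le_max_left _ _)) h3.le

theorem Ap_mul (hC : IsCompact C) (hM : ∀ x ∈ C, F e k x ∈ M) (hf : Ap e k C f) (hg : Ap e k C g) :
    Ap e k C (fun x => f x * g x) := by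
  obtain ⟨B, hB0, hB⟩ := Ap_bdd hC hM hf
  obtain ⟨B', hB0', hB'⟩ := Ap_bdd hC hM hg
  intro ε hε
  set δ : ℝ := min 1 (ε / (2 * (B + B' + 1))) with hδ
  have hδ0 : 0 < δ := lt_min one_pos (by positivity)
  have hδ1 : δ ≤ 1 := min_le_left _ _
  have hδ2 : δ * (B + B' + 1) < ε := by
    have h1 : δ ≤ ε / (2 * (B + B' + 1)) := min_le_right _ _
    have h2 : δ * (B + B' + 1) ≤ ε / (2 * (B + B' + 1)) * (B + B' + 1) :=
      mul_le_mul_of_nonneg_right h1 (by positivity)
    have h3 : ε / (2 * (B + B' + 1)) * (B + B' + 1) = ε / 2 := by field_simp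
    linarith
  obtain ⟨q, hq, h1⟩ := hf δ hδ0
  obtain ⟨q', hq', h2⟩ := hg δ hδ0
  refine ⟨q * q', LP.mul_mem hq hq', fun x hx => ?_⟩
  have e1 : (q * q') (F e k x) - f x * g x =
      (q (F e k x) - f x) * ((q' (F e k x) - g x) + g x) + f x * (q' (F e k x) - g x) := by
    rw [Pi.mul_apply]
    ring
  rw [e1]
  have h3 := h1 x hx
  have h4 := h2 x hx
  have h5 := hB x hx
  have h6 := hB' x hx
  calc _ ≤ ‖(q (F e k x) - f x) * ((q' (F e k x) - g x) + g x)‖ +
        ‖f x * (q' (F e k x) - g x)‖ := norm_add_le _ _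
    _ ≤ δ * (1 + B') + B * δ := by
        rw [norm_mul, norm_mul]
        refine add_le_add (mul_le_mul h3.le ?_ (norm_nonneg _) hδ0.le)
          (mul_le_mul h5 h4.le (norm_nonneg _) hB0)
        exact (norm_add_le _ _).trans (add_le_add (h4.le.trans hδ1) h6)
    _ = δ * (B + B' + 1) := by ring
    _ < ε := hδ2

theorem Ap_level (hT : PreTower k e r R) {j : ℕ} (hj : j ≤ k) (hC : IsCompact C)
    (hCK : C ⊆ KK' e r R j) (hf : Ap e j C f) : Ap e k C f := by
  obtain ⟨d, rfl⟩ := Nat.exists_eq_add_of_le hj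
  clear hj
  induction d with
  | zero => exact hf
  | succ d ih =>
    have hT' : PreTower (j + d + 1) e r R := hT
    have hT1 : PreTower (j + d) e r R := hT'.mono (Nat.le_succ _)
    have h1 := ih hT1
    have hsub : C ⊆ KK' e r R (j + d) := hCK.trans (KK'_mono hT1 (Nat.le_add_right j d))
    intro ε hε
    obtain ⟨q, hq, h2⟩ := h1 (ε / 2) (by positivity)
    obtain ⟨q', hq', h3⟩ := runge_step (n := 2) (by norm_num)
      (hT'.e_pos (j + d) (Nat.lt_succ_self _)) (T := F e (j + d) '' C) (hC.image continuous_F)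
      (by
        rintro _ ⟨x, hx, rfl⟩
        exact KK'_M hT1 (hsub hx))
      (by
        rintro _ ⟨x, hx, rfl⟩
        exact KK'_small hT' (hsub hx)) hq (ε := ε / 2) (by positivity)
    refine ⟨q', hq', fun x hx => ?_⟩
    have h4 := h2 x hx
    have h5 := h3 _ ⟨x, hx, rfl⟩
    have e1 : q' (F e (j + (d + 1)) x) - f x =
        (q' (H 2 (e (j + d)) (F e (j + d) x)) - q (F e (j + d) x)) +
          (q (F e (j + d) x) - f x) := by
      show q' (H 2 (e (j + d)) (F e (j + d) x)) - f x = _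
      ring
    rw [e1]
    calc _ ≤ ‖q' (H 2 (e (j + d)) (F e (j + d) x)) - q (F e (j + d) x)‖ +
          ‖q (F e (j + d) x) - f x‖ := norm_add_le _ _
      _ < ε / 2 + ε / 2 := add_lt_add h5 h4
      _ = ε := by ring

theorem Ap_coord (he : ∀ i < k, 0 < e i) (hC : IsCompact C) (hM : ∀ x ∈ C, F e k x ∈ M) {j : ℕ}
    (hj : j ≤ k) : Ap e k C (fun x => (F e j x).1) ∧ Ap e k C (fun x => (F e j x).2) := by
  obtain ⟨d, hd⟩ := Nat.exists_eq_add_of_le hj
  clear hj
  induction d generalizing j with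
  | zero =>
    obtain rfl : k = j := hd
    exact ⟨Ap_LP LP_fst, Ap_LP LP_snd⟩
  | succ d ih =>
    obtain ⟨h1, h2⟩ := ih (j := j + 1) (by omega)
    have h3 : Ap e k C (fun x => (F e j x).1) := Ap_congr (fun x _ => rfl) h2
    refine ⟨h3, ?_⟩
    have hej : (e j : ℂ) ≠ 0 := by
      have := he j (by omega)
      exact_mod_cast this.ne'
    have h4 : Ap e k C (fun x => ((e j : ℂ))⁻¹ * ((F e j x).1 * (F e j x).1 +
        (-1) * (F e (j + 1) x).1)) :=
      Ap_mul hC hM (Ap_const _) (Ap_add (Ap_mul hC hM h3 h3) (Ap_mul hC hM (Ap_const _) h1))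
    refine Ap_congr (fun x _ => ?_) h4
    show ((e j : ℂ))⁻¹ * ((F e j x).1 * (F e j x).1 +
        (-1) * ((F e j x).1 ^ 2 - (e j : ℂ) * (F e j x).2)) = (F e j x).2
    field_simp
    ring

private theorem fderiv_F_succ (j : ℕ) (x v : C2) : fderiv ℂ (F e (j + 1)) x v =
    (2 * (F e j x).1 * (fderiv ℂ (F e j) x v).1 - (e j : ℂ) * (fderiv ℂ (F e j) x v).2,
      (fderiv ℂ (F e j) x v).1) := by
  have h : HasFDerivAt (F e j) (fderiv ℂ (F e j) x) x :=
    ((contDiff_F (e := e) (k := j) (m := 1)).differentiable one_ne_zero x).hasFDerivAt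
  have h1 : HasFDerivAt (F e (j + 1)) _ x :=
    ((h.fst.pow 2).sub (h.snd.const_mul (e j : ℂ))).prodMk h.fst
  rw [h1.fderiv]
  simp

theorem Ap_dF (he : ∀ i < k, 0 < e i) (hC : IsCompact C) (hM : ∀ x ∈ C, F e k x ∈ M) {j : ℕ}
    (hj : j ≤ k) (v : C2) : Ap e k C (fun x => (fderiv ℂ (F e j) x v).1) ∧
      Ap e k C (fun x => (fderiv ℂ (F e j) x v).2) := by
  induction j with
  | zero =>
    have h0 : ∀ x : C2, fderiv ℂ (F e 0) x v = v := by
      intro x
      have : F e 0 = id := rfl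
      rw [this, fderiv_id]
      rfl
    exact ⟨Ap_congr (fun x _ => by rw [h0 x]) (Ap_const v.1),
      Ap_congr (fun x _ => by rw [h0 x]) (Ap_const v.2)⟩
  | succ j ih =>
    obtain ⟨h1, h2⟩ := ih (by omega)
    obtain ⟨h3, -⟩ := Ap_coord he hC hM (j := j) (by omega)
    constructor
    · have h4 : Ap e k C (fun x => (2 * (F e j x).1) * (fderiv ℂ (F e j) x v).1 +
          (-(e j : ℂ)) * (fderiv ℂ (F e j) x v).2) :=
        Ap_add (Ap_mul hC hM (Ap_mul hC hM (Ap_const _) h3) h1) (Ap_mul hC hM (Ap_const _) h2)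
      refine Ap_congr (fun x _ => ?_) h4
      rw [fderiv_F_succ]
      ring
    · refine Ap_congr (fun x _ => ?_) h1
      rw [fderiv_F_succ]

end Pool.Agent.MP_fe3720.X
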