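import Pool.Agent.Work.MP_fe3720_an.X.Defs

/-! # Basic facts on the maps `H`, `F`, `sh`, `dl`, `tw` -/

namespace Pool.Agent.MP_fe3720.X

open Topology Filter Set

variable {n k : ℕ} {e e' r r' R R' : ℕ → ℝ}

theorem Hi_H {a : ℝ} (ha : a ≠ 0) (p : C2) : Hi n a (H n a p) = p := by
  have h : (a : ℂ) ≠ 0 := by exact_mod_cast ha
  ext
  · rfl
  · simp only [Hi, H]
    field_simp
    ring

theorem H_Hi {a : ℝ} (ha : a ≠ 0) (p : C2) : H n a (Hi n a p) = p := by
  have h : (a : ℂ) ≠ 0 := by exact_mod_cast ha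
  ext
  · simp only [Hi, H]
    field_simp
    ring
  · rfl

theorem Fi_F (he : ∀ i < k, 0 < e i) (x : C2) : Fi e k (F e k x) = x := by
  induction k with
  | zero => rfl
  | succ k ih =>
    simp only [Fi, F]
    rw [Hi_H (he k (Nat.lt_succ_self k)).ne']
    exact ih fun i hi => he i (Nat.lt_succ_of_lt hi)

theorem F_Fi (he : ∀ i < k, 0 < e i) (y : C2) : F e k (Fi e k y) = y := by
  induction k generalizing y with
  | zero => rfl
  | succ k ih =>
    simp only [Fi, F]
    rw [ih (fun i hi => he i (Nat.lt_succ_of_lt hi)), H_Hi (he k (Nat.lt_succ_self k)).ne']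

theorem contDiff_H {a : ℝ} {m : WithTop ℕ∞} : ContDiff ℂ m (H n a) := by
  unfold H
  fun_prop

theorem contDiff_Hi {a : ℝ} {m : WithTop ℕ∞} : ContDiff ℂ m (Hi n a) := by
  unfold Hi
  simp only [div_eq_mul_inv]
  fun_prop

theorem contDiff_F {m : WithTop ℕ∞} : ContDiff ℂ m (F e k) := by
  induction k with
  | zero => exact contDiff_id
  | succ k ih => exact contDiff_H.comp ih

theorem contDiff_Fi {m : WithTop ℕ∞} : ContDiff ℂ m (Fi e k) := by
  induction k with
  | zero => exact contDiff_id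
  | succ k ih => exact ih.comp contDiff_Hi

theorem continuous_F : Continuous (F e k) := (contDiff_F (m := 0)).continuous

theorem continuous_Fi : Continuous (Fi e k) := (contDiff_Fi (m := 0)).continuous

theorem F_congr (h : ∀ i < k, e i = e' i) : F e k = F e' k := by
  induction k with
  | zero => rfl
  | succ k ih =>
    funext x
    simp only [F]
    rw [ih fun i hi => h i (Nat.lt_succ_of_lt hi), h k (Nat.lt_succ_self k)]

theorem Fi_congr (h : ∀ i < k, e i = e' i) : Fi e k = Fi e' k := by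
  induction k with
  | zero => rfl
  | succ k ih =>
    funext x
    simp only [Fi]
    rw [ih fun i hi => h i (Nat.lt_succ_of_lt hi), h k (Nat.lt_succ_self k)]

theorem cc_congr (h : ∀ i < k, e i = e' i) : cc e k = cc e' k := by
  induction k with
  | zero => rfl
  | succ k ih =>
    simp only [cc]
    rw [ih fun i hi => h i (Nat.lt_succ_of_lt hi), h k (Nat.lt_succ_self k)]

theorem cc_pos (he : ∀ i < k, 0 < e i) : 0 < cc e k := by
  induction k with
  | zero => exact one_pos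
  | succ k ih =>
    simp only [cc]
    have h1 := ih fun i hi => he i (Nat.lt_succ_of_lt hi)
    have h2 := he k (Nat.lt_succ_self k)
    positivity

theorem KK_congr (h : ∀ i < k, e i = e' i) (hr : r k = r' k) (hR : R k = R' k) :
    KK e r R k = KK e' r' R' k := by
  simp only [KK, F_congr h, hr, hR]

theorem Th_congr (h : ∀ i < k, e i = e' i) (g : Equiv.Perm C2) (t : ℂ) (x : C2) :
    Th e k g t x = Th e' k g t x := by
  simp only [Th, F_congr h, Fi_congr h, cc_congr h]

theorem VT_congr (h : ∀ i < k, e i = e' i) (g : Equiv.Perm C2) (x : C2) :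
    VT e k g x = VT e' k g x := by
  simp only [VT, Th_congr h]

theorem mu_congr (h : ∀ i < k, e i = e' i) (a : ℤ) (b : ℕ) (σ : Bool) (x : C2) :
    mu e k a b σ x = mu e' k a b σ x := by
  simp only [mu, F_congr h]

theorem Tower.pre (hT : Tower e r R) (k : ℕ) : PreTower k e r R :=
  ⟨fun i _ => hT.e_pos i, fun i _ => hT.r_pos i, fun i _ => hT.r_lt i, fun i _ => hT.R_gt i,
    fun i _ => hT.small i, fun i _ => hT.r_succ i, fun i _ => hT.R_succ i⟩

theorem PreTower.mono {j : ℕ} (hT : PreTower k e r R) (hj : j ≤ k) : PreTower j e r R :=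
  ⟨fun i h => hT.e_pos i (h.trans_le hj), fun i h => hT.r_pos i (h.trans hj),
    fun i h => hT.r_lt i (h.trans hj), fun i h => hT.R_gt i (h.trans hj),
    fun i h => hT.small i (h.trans_le hj), fun i h => hT.r_succ i (h.trans_le hj),
    fun i h => hT.R_succ i (h.trans_le hj)⟩

theorem M_open : IsOpen M := isOpen_ne_fun continuous_fst continuous_const

theorem isCompact_KK (he : ∀ i < k, 0 < e i) : IsCompact (KK e r R k) := by
  have h : KK e r R k = Fi e k '' ({z : ℂ | r k ≤ ‖z‖ ∧ ‖z‖ ≤ R k} ×ˢ Metric.closedBall (0 : ℂ) (R k)) := by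
    ext x
    constructor
    · rintro ⟨h1, h2, h3⟩
      exact ⟨F e k x, ⟨⟨h1, h2⟩, by simpa using h3⟩, Fi_F he x⟩
    · rintro ⟨y, ⟨⟨h1, h2⟩, h3⟩, rfl⟩
      simp only [KK, mem_ofPred_eq, F_Fi he]
      exact ⟨h1, h2, by simpa using h3⟩
  rw [h]
  refine IsCompact.image (IsCompact.prod ?_ (isCompact_closedBall _ _)) continuous_Fi
  refine (isCompact_closedBall (0 : ℂ) (R k)).of_isClosed_subset ?_ fun z hz => by simpa using hz.2
  exact (isClosed_le continuous_const continuous_norm).inter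
    (isClosed_le continuous_norm continuous_const)

theorem isCompact_KK' (he : ∀ i < k, 0 < e i) : IsCompact (KK' e r R k) := by
  have h : KK' e r R k = Fi e k '' ({z : ℂ | r k / 4 ≤ ‖z‖ ∧ ‖z‖ ≤ R k} ×ˢ Metric.closedBall (0 : ℂ) (R k)) := by
    ext x
    constructor
    · rintro ⟨h1, h2, h3⟩
      exact ⟨F e k x, ⟨⟨h1, h2⟩, by simpa using h3⟩, Fi_F he x⟩
    · rintro ⟨y, ⟨⟨h1, h2⟩, h3⟩, rfl⟩
      simp only [KK', mem_ofPred_eq, F_Fi he]
      exact ⟨h1, h2, by simpa using h3⟩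
  rw [h]
  refine IsCompact.image (IsCompact.prod ?_ (isCompact_closedBall _ _)) continuous_Fi
  refine (isCompact_closedBall (0 : ℂ) (R k)).of_isClosed_subset ?_ fun z hz => by simpa using hz.2
  exact (isClosed_le continuous_const continuous_norm).inter
    (isClosed_le continuous_norm continuous_const)

theorem isOpen_DD : IsOpen (DD e r R k) := by
  have h : Continuous (F e k) := continuous_F
  exact (isOpen_lt continuous_const h.fst.norm).inter
    ((isOpen_lt h.fst.norm continuous_const).inter (isOpen_lt h.snd.norm continuous_const))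

theorem DD_sub_KK : DD e r R k ⊆ KK e r R k := fun _ h => ⟨h.1.le, h.2.1.le, h.2.2.le⟩

theorem KK_sub_KK' (hr : 0 < r k) : KK e r R k ⊆ KK' e r R k :=
  fun _ h => ⟨le_trans (by linarith) h.1, h.2.1, h.2.2⟩

/-- the basic estimate: `e_k |w_k| ≤ |z_k|^2 / 8` on `K'_k` -/
theorem KK'_small (hT : PreTower (k + 1) e r R) {x : C2} (hx : x ∈ KK' e r R k) :
    e k * ‖(F e k x).2‖ ≤ ‖(F e k x).1‖ ^ 2 / 8 := by
  have h0 := hT.e_pos k (Nat.lt_succ_self k)
  have h1 := hT.small k (Nat.lt_succ_self k)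
  have h2 := hT.r_pos k (Nat.le_succ k)
  have h3 : (r k / 4) ^ 2 ≤ ‖(F e k x).1‖ ^ 2 :=
    pow_le_pow_left₀ (by positivity) hx.1 _
  have h4 : e k * ‖(F e k x).2‖ ≤ e k * R k := mul_le_mul_of_nonneg_left hx.2.2 h0.le
  linarith

theorem KK'_sub_DD (hT : PreTower (k + 1) e r R) : KK' e r R k ⊆ DD e r R (k + 1) := by
  intro x hx
  have h0 := hT.e_pos k (Nat.lt_succ_self k)
  have h1 := KK'_small hT hx
  have h2 := hT.r_pos k (Nat.le_succ k)
  have h3 : (r k / 4) ^ 2 ≤ ‖(F e k x).1‖ ^ 2 :=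
    pow_le_pow_left₀ (by positivity) hx.1 _
  have h4 := hT.r_succ k (Nat.lt_succ_self k)
  have h5 := hT.R_succ k (Nat.lt_succ_self k)
  have h6 := hT.R_gt k (Nat.le_succ k)
  have h7 : ‖(F e k x).1‖ ^ 2 ≤ R k ^ 2 :=
    pow_le_pow_left₀ (norm_nonneg _) hx.2.1 _
  have h8 : ‖(e k : ℂ) * (F e k x).2‖ = e k * ‖(F e k x).2‖ := by
    rw [norm_mul, Complex.norm_real, Real.norm_of_nonneg h0.le]
  have h9 : (0 : ℝ) < (r k / 4) ^ 2 := by positivity
  have h10 : R k ≤ R k ^ 2 := le_self_pow₀ h6.le (by omega)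
  have h11 := hT.small k (Nat.lt_succ_self k)
  have h12 := hT.r_lt k (Nat.le_succ k)
  have h13 : (r k / 4) ^ 2 ≤ 1 := pow_le_one₀ (by positivity) (by linarith)
  have h14 : e k * ‖(F e k x).2‖ ≤ e k * R k := mul_le_mul_of_nonneg_left hx.2.2 h0.le
  refine ⟨?_, ?_, ?_⟩
  · simp only [F, H]
    have h := norm_sub_norm_le ((F e k x).1 ^ 2) ((e k : ℂ) * (F e k x).2)
    rw [norm_pow, h8] at h
    linarith
  · simp only [F, H]
    have h := norm_sub_le ((F e k x).1 ^ 2) ((e k : ℂ) * (F e k x).2)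
    rw [norm_pow, h8] at h
    linarith
  · simp only [F, H]
    exact lt_of_le_of_lt hx.2.1 (by linarith)

theorem KK_sub_DD (hT : PreTower (k + 1) e r R) : KK e r R k ⊆ DD e r R (k + 1) :=
  (KK_sub_KK' (hT.r_pos k (Nat.le_succ k))).trans (KK'_sub_DD hT)

theorem KK_mono (hT : Tower e r R) {j : ℕ} (hj : j ≤ k) : KK e r R j ⊆ KK e r R k := by
  induction k, hj using Nat.le_induction with
  | base => exact Subset.rfl
  | succ k _ ih => exact ih.trans ((KK_sub_DD (hT.pre (k + 1))).trans DD_sub_KK)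

theorem KK'_mono (hT : PreTower k e r R) {j : ℕ} (hj : j ≤ k) : KK' e r R j ⊆ KK' e r R k := by
  induction k, hj using Nat.le_induction with
  | base => exact Subset.rfl
  | succ k hk ih =>
    exact (ih (hT.mono (Nat.le_succ k))).trans
      ((KK'_sub_DD hT).trans (DD_sub_KK.trans (KK_sub_KK' (hT.r_pos (k + 1) le_rfl))))

theorem KK'_M (hT : PreTower k e r R) {x : C2} (hx : x ∈ KK' e r R k) : F e k x ∈ M := by
  have h := hT.r_pos k le_rfl
  have h1 : 0 < ‖(F e k x).1‖ := lt_of_lt_of_le (by linarith) hx.1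
  exact norm_pos_iff.1 h1

theorem KK_M (hT : PreTower k e r R) {x : C2} (hx : x ∈ KK e r R k) : F e k x ∈ M :=
  KK'_M hT (KK_sub_KK' (hT.r_pos k le_rfl) hx)

/-- the domain as an increasing union of open sets -/
theorem Om_eq (hT : Tower e r R) : Om e r R = ⋃ k, DD e r R k := by
  apply Subset.antisymm
  · exact iUnion_subset fun k => ((KK_sub_DD (hT.pre (k + 1))).trans (subset_iUnion _ (k + 1)))
  · exact iUnion_mono fun k => DD_sub_KK

theorem KK_sub_interior (hT : Tower e r R) (k : ℕ) : KK e r R k ⊆ interior (KK e r R (k + 1)) :=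
  (KK_sub_DD (hT.pre (k + 1))).trans (interior_maximal DD_sub_KK isOpen_DD)

theorem isOpen_Om (hT : Tower e r R) : IsOpen (Om e r R) := by
  rw [Om_eq hT]
  exact isOpen_iUnion fun _ => isOpen_DD

/-- every compact subset of the domain lies in some `K_k` -/
theorem exists_KK (hT : Tower e r R) {C : Set C2} (hC : IsCompact C) (hCO : C ⊆ Om e r R) :
    ∃ k, C ⊆ KK e r R k := by
  rw [Om_eq hT] at hCO
  have hmono : Monotone (DD e r R) := monotone_nat_of_le_succ fun k =>
    DD_sub_KK.trans (KK_sub_DD (hT.pre (k + 1)))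
  obtain ⟨k, hk⟩ := hC.elim_directed_cover (DD e r R) (fun _ => isOpen_DD) hCO
    hmono.directed_le
  exact ⟨k, hk.trans DD_sub_KK⟩

/-! ## the elementary maps -/

theorem sh_apply (a : ℤ) (t : ℂ) (p : C2) : sh a t p = (p.1, p.2 + t * p.1 ^ a) := rfl

theorem dl_apply (a : ℤ) (t : ℂ) (p : C2) : dl a t p = (p.1, p.2 * Complex.exp (t * p.1 ^ a)) := rfl

theorem tw_apply (b : ℕ) (t : ℂ) (p : C2) : tw b t p = (p.1 * Complex.exp (t * p.2 ^ b), p.2) := rfl

theorem sh_add (a : ℤ) (s t : ℂ) (p : C2) : sh a (s + t) p = sh a s (sh a t p) := by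
  simp only [sh_apply]
  ext
  · rfl
  · simp only
    ring

theorem dl_add (a : ℤ) (s t : ℂ) (p : C2) : dl a (s + t) p = dl a s (dl a t p) := by
  simp only [dl_apply]
  ext
  · rfl
  · simp only
    rw [add_mul, Complex.exp_add]
    ring

theorem tw_add (b : ℕ) (s t : ℂ) (p : C2) : tw b (s + t) p = tw b s (tw b t p) := by
  simp only [tw_apply]
  ext
  · simp only
    rw [add_mul, Complex.exp_add]
    ring
  · rfl

theorem sh_zero (a : ℤ) (p : C2) : sh a 0 p = p := by simp [sh_apply]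

theorem dl_zero (a : ℤ) (p : C2) : dl a 0 p = p := by simp [dl_apply]

theorem tw_zero (b : ℕ) (p : C2) : tw b 0 p = p := by simp [tw_apply]

theorem sh_symm (a : ℤ) (t : ℂ) : (sh a t).symm = sh a (-t) := by
  ext p
  · rfl
  · change p.2 - t * p.1 ^ a = p.2 + -t * p.1 ^ a
    ring

theorem dl_symm (a : ℤ) (t : ℂ) : (dl a t).symm = dl a (-t) := by
  ext p
  · rfl
  · change p.2 * Complex.exp (-(t * p.1 ^ a)) = p.2 * Complex.exp (-t * p.1 ^ a)
    rw [neg_mul]

theorem tw_symm (b : ℕ) (t : ℂ) : (tw b t).symm = tw b (-t) := by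
  ext p
  · change p.1 * Complex.exp (-(t * p.2 ^ b)) = p.1 * Complex.exp (-t * p.2 ^ b)
    rw [neg_mul]
  · rfl

theorem sh_mem (a : ℤ) (t : ℂ) : sh a t ∈ G :=
  Subgroup.subset_closure (Or.inl (Or.inl ⟨a, t, rfl⟩))

theorem dl_mem (a : ℤ) (t : ℂ) : dl a t ∈ G :=
  Subgroup.subset_closure (Or.inl (Or.inr ⟨a, t, rfl⟩))

theorem tw_mem (b : ℕ) (t : ℂ) : tw b t ∈ G :=
  Subgroup.subset_closure (Or.inr ⟨b, t, rfl⟩)

theorem symm_mem {g : Equiv.Perm C2} (hg : g ∈ G) : g.symm ∈ G := G.inv_mem hg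

/-- induction for elements of `G` -/
theorem G_induction {P : Equiv.Perm C2 → Prop} (h1 : P 1) (hsh : ∀ a t, P (sh a t))
    (hdl : ∀ a t, P (dl a t)) (htw : ∀ b t, P (tw b t))
    (hmul : ∀ g h, g ∈ G → h ∈ G → P g → P h → P (g * h)) {g : Equiv.Perm C2} (hg : g ∈ G) :
    P g := by
  have hgen : ∀ x ∈ ({g | ∃ a t, g = sh a t} ∪ {g | ∃ a t, g = dl a t} ∪
      {g | ∃ b t, g = tw b t} : Set (Equiv.Perm C2)), P x ∧ P x⁻¹ := by
    rintro x ((⟨a, t, rfl⟩ | ⟨a, t, rfl⟩) | ⟨b, t, rfl⟩)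
    · exact ⟨hsh a t, by rw [show (sh a t)⁻¹ = sh a (-t) from sh_symm a t]; exact hsh _ _⟩
    · exact ⟨hdl a t, by rw [show (dl a t)⁻¹ = dl a (-t) from dl_symm a t]; exact hdl _ _⟩
    · exact ⟨htw b t, by rw [show (tw b t)⁻¹ = tw b (-t) from tw_symm b t]; exact htw _ _⟩
  have key : P g ∧ P g⁻¹ := by
    induction hg using Subgroup.closure_induction with
    | mem x hx => exact hgen x hx
    | one => exact ⟨h1, by simpa using h1⟩
    | mul x y hx hy ihx ihy =>
      refine ⟨hmul x y hx hy ihx.1 ihy.1, ?_⟩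
      rw [mul_inv_rev]
      exact hmul _ _ (G.inv_mem hy) (G.inv_mem hx) ihy.2 ihx.2
    | inv x _ ih => exact ⟨ih.2, by simpa using ih.1⟩
  exact key.1

theorem G_maps {g : Equiv.Perm C2} (hg : g ∈ G) {x : C2} (hx : x ∈ M) : g x ∈ M := by
  refine G_induction (P := fun g => ∀ x ∈ M, g x ∈ M) ?_ ?_ ?_ ?_ ?_ hg x hx
  · exact fun _ h => h
  · exact fun a t _ h => h
  · exact fun a t _ h => h
  · exact fun b t _ h => mul_ne_zero h (Complex.exp_ne_zero _)
  · exact fun g h _ _ hg hh x hx => hg _ (hh x hx)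

/-! ## Laurent polynomials -/

theorem LP_fst : (fun p : C2 => p.1) ∈ LP := Algebra.subset_adjoin (by simp)

theorem LP_inv : (fun p : C2 => (p.1)⁻¹) ∈ LP := Algebra.subset_adjoin (by simp)

theorem LP_snd : (fun p : C2 => p.2) ∈ LP := Algebra.subset_adjoin (by simp)

theorem LP_const (c : ℂ) : (fun _ : C2 => c) ∈ LP := LP.algebraMap_mem c

theorem LP_zpow (a : ℤ) : (fun p : C2 => p.1 ^ a) ∈ LP := by
  cases a with
  | ofNat n =>
    have h : (fun p : C2 => p.1 ^ (Int.ofNat n)) = (fun p : C2 => p.1) ^ n := by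
      funext p
      simp
    rw [h]
    exact LP.pow_mem LP_fst n
  | negSucc n =>
    have h : (fun p : C2 => p.1 ^ (Int.negSucc n)) = (fun p : C2 => (p.1)⁻¹) ^ (n + 1) := by
      funext p
      simp [zpow_negSucc]
    rw [h]
    exact LP.pow_mem LP_inv _

theorem LP_mono (a : ℤ) (b : ℕ) : (fun p : C2 => p.1 ^ a * p.2 ^ b) ∈ LP :=
  LP.mul_mem (LP_zpow a) (LP.pow_mem LP_snd b)

/-- Laurent polynomials are holomorphic on `M` -/
theorem LP_contDiff {p : C2 → ℂ} (hp : p ∈ LP) {m : WithTop ℕ∞} : ContDiffOn ℂ m p M := by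
  induction hp using Algebra.adjoin_induction with
  | mem x hx =>
    simp only [mem_insert_iff, mem_singleton_iff] at hx
    rcases hx with rfl | rfl | rfl
    · exact contDiff_fst.contDiffOn
    · exact contDiff_fst.contDiffOn.inv fun x hx => hx
    · exact contDiff_snd.contDiffOn
  | algebraMap c => exact contDiffOn_const
  | add x y _ _ hx hy => exact hx.add hy
  | mul x y _ _ hx hy => exact hx.mul hy

theorem LP_diffAt {p : C2 → ℂ} (hp : p ∈ LP) {x : C2} (hx : x ∈ M) : DifferentiableAt ℂ p x :=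
  ((LP_contDiff hp (m := 1)).differentiableOn one_ne_zero).differentiableAt (M_open.mem_nhds hx)

theorem LP_continuousOn {p : C2 → ℂ} (hp : p ∈ LP) : ContinuousOn p M :=
  (LP_contDiff hp (m := 0)).continuousOn

end Pool.Agent.MP_fe3720.X
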