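import Mathlib

/-!
# Closeness of compositions on compact sets (size S, pure Mathlib)

PROOF. `f '' K ⊆ V` is compact; choose `ρ > 0` with `K' = Metric.cthickening ρ (f '' K) ⊆ V`
(`IsCompact.exists_cthickening_subset_open`), compact since `Y` is proper. `h` is uniformly continuous on `K'`: there is
`δ₁` with `dist (h y) (h y') < ε/2` for `y, y' ∈ K'`, `dist y y' < δ₁`. Take `δ = min (min ρ δ₁) (ε/2)`.
-/

namespace Pool.Agent.MP_fe3720.X

open Topology Filter Set

theorem comp_close {X Y Z : Type*} [MetricSpace X] [MetricSpace Y] [ProperSpace Y] [MetricSpace Z]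
    {K : Set X} (hK : IsCompact K) {V : Set Y} (hV : IsOpen V) {f : X → Y} (hf : ContinuousOn f K)
    (hfV : MapsTo f K V) {h : Y → Z} (hh : ContinuousOn h V) {ε : ℝ} (hε : 0 < ε) :
    ∃ K' ⊆ V, IsCompact K' ∧ f '' K ⊆ K' ∧ ∃ δ > 0, ∀ f' : X → Y, (∀ x ∈ K, dist (f' x) (f x) < δ) →
      (∀ x ∈ K, f' x ∈ K') ∧ ∀ h' : Y → Z, (∀ y ∈ K', dist (h' y) (h y) < δ) →
        ∀ x ∈ K, dist (h' (f' x)) (h (f x)) < ε := by
  have hfK : IsCompact (f '' K) := hK.image_of_continuousOn hf
  obtain ⟨ρ, hρ, hρV⟩ := hfK.exists_cthickening_subset_open hV (image_subset_iff.2 hfV)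
  have hK' : IsCompact (Metric.cthickening ρ (f '' K)) := hfK.cthickening
  obtain ⟨δ₁, hδ₁, huc⟩ := Metric.uniformContinuousOn_iff.1
    (hK'.uniformContinuousOn_of_continuous (hh.mono hρV)) (ε / 2) (by positivity)
  refine ⟨Metric.cthickening ρ (f '' K), hρV, hK', Metric.self_subset_cthickening _,
    min (min ρ δ₁) (ε / 2), by positivity, fun f' hf' => ?_⟩
  have hmem : ∀ x ∈ K, f' x ∈ Metric.cthickening ρ (f '' K) := fun x hx =>
    Metric.mem_cthickening_of_dist_le (f' x) (f x) ρ _ (mem_image_of_mem f hx)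
      ((hf' x hx).le.trans ((min_le_left _ _).trans (min_le_left _ _)))
  refine ⟨hmem, fun h' hh' x hx => ?_⟩
  have h1 : dist (h' (f' x)) (h (f' x)) < ε / 2 := (hh' _ (hmem x hx)).trans_le (min_le_right _ _)
  have h2 : dist (h (f' x)) (h (f x)) < ε / 2 :=
    huc _ (hmem x hx) _ (Metric.self_subset_cthickening _ (mem_image_of_mem f hx))
      ((hf' x hx).trans_le ((min_le_left _ _).trans (min_le_right _ _)))
  calc dist (h' (f' x)) (h (f x)) ≤ dist (h' (f' x)) (h (f' x)) + dist (h (f' x)) (h (f x)) :=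
        dist_triangle _ _ _
    _ < ε := by linarith

end Pool.Agent.MP_fe3720.X
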