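import Pool.Agent.Work.MP_fe3720_an.X.Basic

/-! # Further definitions for Parts A and B (FIXED: do not change) -/

namespace Pool.Agent.MP_fe3720.X

open Topology Filter Set

/-- annulus times disc -/
def AD (r R : ℝ) : Set C2 := {y | r < ‖y.1‖ ∧ ‖y.1‖ < R ∧ ‖y.2‖ < R}

/-- `h` is on `C` a uniform limit of Laurent polynomials of level `k` -/
def Ap (e : ℕ → ℝ) (k : ℕ) (C : Set C2) (h : C2 → ℂ) : Prop :=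
  ∀ ε > 0, ∃ q ∈ LP, ∀ x ∈ C, ‖q (F e k x) - h x‖ < ε

/-- the field `V` is, on every compact subset of `M`, a uniform limit of linear combinations of
fields `g^* (z⁻¹ ∂_w)`, `g ∈ G` -/
def InS (V : C2 → C2) : Prop :=
  ∀ K ⊆ M, IsCompact K → ∀ ε > 0, ∃ (m : ℕ) (c : Fin m → ℂ) (g : Fin m → Equiv.Perm C2),
    (∀ i, g i ∈ G) ∧ ∀ x ∈ K, ‖V x - ∑ i, c i • pbM (g i) x‖ < ε

/-- the word `∏ g_i⁻¹ exp (c_i h z⁻¹ ∂_w) g_i` -/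
noncomputable def Aw : {m : ℕ} → (Fin m → ℂ) → (Fin m → Equiv.Perm C2) → ℂ → Equiv.Perm C2
  | 0, _, _, _ => 1
  | _ + 1, c, g, h => ((g 0)⁻¹ * sh (-1) (c 0 * h) * g 0) * Aw (Fin.tail c) (Fin.tail g) h

/-- a real one-parameter group of `M` with its vector field -/
structure EFlow (ψ : ℝ → C2 → C2) (y : C2 → C2) : Prop where
  zero : ∀ x, ψ 0 x = x
  add : ∀ s t x, ψ (s + t) x = ψ s (ψ t x)
  maps : ∀ s, ∀ x ∈ M, ψ s x ∈ M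
  smooth : ContDiffOn ℝ 1 (fun p : ℝ × C2 => ψ p.1 p.2) (univ ×ˢ M)
  deriv : ∀ x ∈ M, HasDerivAt (fun s => ψ s x) (y x) 0

/-- `g` can be approximated, in the coordinates of level `k`, by elements of `G` on level `k+1` -/
def Upd (n : ℕ) (g : Equiv.Perm C2) : Prop :=
  ∀ C ⊆ M, IsCompact C → ∀ δ > 0, ∀ᶠ e : ℝ in 𝓝[>] 0, ∃ g' ∈ G, ∀ x ∈ C,
    dist (Hi n e (g' (H n e x))) (g x) < δ ∧ dist (Hi n e (g'.symm (H n e x))) (g.symm x) < δ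

/-- the state of the construction: the numbers, the active elements of `G`, their number and the
accuracy -/
structure St where
  e : ℕ → ℝ
  r : ℕ → ℝ
  R : ℕ → ℝ
  g : ℕ → Equiv.Perm C2
  m : ℕ
  ε : ℝ

/-- the invariants at stage `k` -/
structure Good (k : ℕ) (s : St) : Prop where
  pre : PreTower k s.e s.r s.R
  mem : ∀ i, s.g i ∈ G
  pos : 0 < s.ε
  thick : ∀ i < s.m, ∀ t : ℂ, ‖t‖ ≤ k + 1 → ∀ x ∈ KK s.e s.r s.R k, ∀ y,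
    dist y (Th s.e k (s.g i) t x) ≤ 2 * s.ε → F s.e k y ∈ M
  task : ∀ j ≤ k, ∀ a : ℤ, |a| ≤ (k : ℤ) → ∀ b ≤ k, ∀ σ : Bool, ∃ (I : Finset ℕ) (c : ℕ → ℂ),
    (∀ i ∈ I, i < s.m) ∧
    (∀ x ∈ KK s.e s.r s.R j, ‖mu s.e j a b σ x - ∑ i ∈ I, c i • VT s.e k (s.g i) x‖ ≤ 1 / (k + 1)) ∧
    (∑ i ∈ I, ‖c i‖) * (2 * s.ε) ≤ 1 / (k + 1)

/-- the relation between stage `k` and stage `k+1` -/
structure StepR (k : ℕ) (s s' : St) : Prop where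
  e_eq : ∀ i < k, s'.e i = s.e i
  r_eq : ∀ i ≤ k, s'.r i = s.r i
  R_eq : ∀ i ≤ k, s'.R i = s.R i
  m_le : s.m ≤ s'.m
  ε_le : s'.ε ≤ s.ε / 2
  close : ∀ i < s.m, ∀ t : ℂ, ‖t‖ ≤ k + 1 → ∀ x ∈ KK s.e s.r s.R k,
    dist (Th s'.e (k + 1) (s'.g i) t x) (Th s.e k (s.g i) t x) ≤ s.ε
  thick : ∀ i < s.m, ∀ t : ℂ, ‖t‖ ≤ k + 1 → ∀ x ∈ KK s.e s.r s.R k, ∀ y,
    dist y (Th s.e k (s.g i) t x) ≤ 2 * s.ε → y ∈ KK s'.e s'.r s'.R (k + 1)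

/-- the final sequence of data -/
structure SeqD (e r R : ℕ → ℝ) (g : ℕ → ℕ → Equiv.Perm C2) (m : ℕ → ℕ) (ε : ℕ → ℝ) : Prop where
  tower : Tower e r R
  mem : ∀ k i, g k i ∈ G
  pos : ∀ k, 0 < ε k
  half : ∀ k, ε (k + 1) ≤ ε k / 2
  mono : ∀ k, m k ≤ m (k + 1)
  close : ∀ k : ℕ, ∀ i < m k, ∀ t : ℂ, ‖t‖ ≤ k + 1 → ∀ x ∈ KK e r R k,
    dist (Th e (k + 1) (g (k + 1) i) t x) (Th e k (g k i) t x) ≤ ε k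
  thick : ∀ k : ℕ, ∀ i < m k, ∀ t : ℂ, ‖t‖ ≤ k + 1 → ∀ x ∈ KK e r R k, ∀ y,
    dist y (Th e k (g k i) t x) ≤ 2 * ε k → y ∈ KK e r R (k + 1)
  task : ∀ k : ℕ, ∀ j ≤ k, ∀ a : ℤ, |a| ≤ (k : ℤ) → ∀ b ≤ k, ∀ σ : Bool,
    ∃ (I : Finset ℕ) (c : ℕ → ℂ), (∀ i ∈ I, i < m k) ∧
    (∀ x ∈ KK e r R j, ‖mu e j a b σ x - ∑ i ∈ I, c i • VT e k (g k i) x‖ ≤ 1 / (k + 1)) ∧
    (∑ i ∈ I, ‖c i‖) * (2 * ε k) ≤ 1 / (k + 1)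

end Pool.Agent.MP_fe3720.X
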