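import Mathlib

/-!
# Discrete Gronwall lemma (Lady Windermere's fan) in a metric space (size S-M, pure Mathlib)

PROOF. Write `x_i = A^[i] x`. Strong induction on `j ≤ N`: assume `dist x_i (ψ (i/N) x) ≤ L η` for all `i < j`.
So `x_i ∈ T` for `i < j` (`L η ≤ ρ`, `htube`). For `i + 1 < j` put `p_i = ψ (1/N) x_i`, `q_i = x_{i+1} = A x_i`:
`dist q_i p_i ≤ η/N` (`hA`), and `dist p_i (ψ ((i+1)/N) x) ≤ η/N + L η ≤ 2 L η ≤ ρ`, so `p_i, q_i ∈ T`, and
`dist (ψ s q_i) (ψ s p_i) ≤ L η/N` with `s = (j-1-i)/N ∈ [0,1]`. Since `ψ s p_i = ψ ((j-i)/N) x_i` and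
`ψ s q_i = ψ ((j-(i+1))/N) x_{i+1}`, the telescoping sum (for `i = j-1` use `hA` only: `dist x_j (ψ (1/N) x_{j-1}) ≤ η/N ≤ L η/N`)
gives `dist x_j (ψ (j/N) x) ≤ Σ_{i<j} L η/N = j L η/N ≤ L η`.
-/

namespace Pool.Agent.MP_fe3720.X

open Topology Filter Set

theorem fan {X : Type*} [PseudoMetricSpace X] {ψ : ℝ → X → X} (hψ0 : ∀ x, ψ 0 x = x)
    (hadd : ∀ s t x, ψ (s + t) x = ψ s (ψ t x)) {A : X → X} {N : ℕ} (hN : 0 < N) {x : X} {T : Set X}
    {L η ρ : ℝ} (hL : 1 ≤ L) (hη : 0 ≤ η) (hρ : 2 * L * η ≤ ρ)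
    (htube : ∀ s ∈ Icc (0 : ℝ) 1, ∀ y, dist y (ψ s x) ≤ ρ → y ∈ T)
    (hlip : ∀ s ∈ Icc (0 : ℝ) 1, ∀ p ∈ T, ∀ q ∈ T, dist p q ≤ η →
      dist (ψ s p) (ψ s q) ≤ L * dist p q)
    (hA : ∀ p ∈ T, dist (A p) (ψ (1 / N) p) ≤ η / N) :
    ∀ j ≤ N, dist (A^[j] x) (ψ (j / N) x) ≤ L * η := by
  have hN' : (0 : ℝ) < N := by exact_mod_cast hN
  have hN1 : (1 : ℝ) ≤ N := by exact_mod_cast hN
  have hLη : 0 ≤ L * η := mul_nonneg (by linarith) hη
  have hηN : η / N ≤ η := div_le_self hη hN1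
  have hηL : η ≤ L * η := le_mul_of_one_le_left hη hL
  have hηN0 : 0 ≤ η / N := div_nonneg hη hN'.le
  intro j
  induction j using Nat.strong_induction_on with
  | _ j IH =>
  intro hj
  have hT : ∀ i < j, A^[i] x ∈ T := by
    intro i hi
    have h1 := IH i hi (by omega)
    refine htube ((i : ℝ) / N) ⟨by positivity, ?_⟩ _ (by linarith)
    rw [div_le_one hN']
    have : i ≤ N := by omega
    exact_mod_cast this
  have step : ∀ k, k + 1 ≤ j →
      dist (ψ (((j : ℝ) - (k + 1 : ℕ)) / N) (A^[k + 1] x)) (ψ (((j : ℝ) - k) / N) (A^[k] x)) ≤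
        L * η / N := by
    intro k hk
    have hkT := hT k (by omega)
    have hAk : dist (A^[k + 1] x) (ψ (1 / N) (A^[k] x)) ≤ η / N := by
      rw [Function.iterate_succ_apply']
      exact hA _ hkT
    have he : ψ (((j : ℝ) - k) / N) (A^[k] x) =
        ψ (((j : ℝ) - (k + 1 : ℕ)) / N) (ψ (1 / N) (A^[k] x)) := by
      rw [← hadd]
      congr 1
      push_cast
      rw [← add_div]
      congr 1
      ring
    rw [he]
    rcases Nat.eq_or_lt_of_le hk with hkj | hkj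
    · have h0 : ((j : ℝ) - (k + 1 : ℕ)) / N = 0 := by
        rw [← hkj, sub_self, zero_div]
      rw [h0, hψ0, hψ0]
      refine hAk.trans ?_
      rw [div_le_div_iff_of_pos_right hN']
      exact hηL
    · have hk1T := hT (k + 1) hkj
      have hpT : ψ (1 / N) (A^[k] x) ∈ T := by
        have h1 := IH (k + 1) hkj (by omega)
        refine htube (((k + 1 : ℕ) : ℝ) / N) ⟨by positivity, ?_⟩ _ ?_
        · rw [div_le_one hN']
          have : k + 1 ≤ N := by omega
          exact_mod_cast this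
        · have h2 := dist_triangle (ψ (1 / N) (A^[k] x)) (A^[k + 1] x)
            (ψ (((k + 1 : ℕ) : ℝ) / N) x)
          have h5 : dist (ψ (1 / N) (A^[k] x)) (A^[k + 1] x) ≤ η / N := by
            rw [dist_comm]
            exact hAk
          linarith
      have h3 := hlip (((j : ℝ) - (k + 1 : ℕ)) / N) ⟨?_, ?_⟩ _ hk1T _ hpT (hAk.trans hηN)
      · refine h3.trans ?_
        rw [mul_div_assoc]
        exact mul_le_mul_of_nonneg_left hAk (by linarith)
      · refine div_nonneg ?_ hN'.le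
        rw [sub_nonneg]
        exact_mod_cast hk
      · rw [div_le_one hN']
        have h4 : (j : ℝ) ≤ N := by exact_mod_cast hj
        have h5 : (0 : ℝ) ≤ (k + 1 : ℕ) := by positivity
        linarith
  have main : ∀ k, k ≤ j →
      dist (ψ (((j : ℝ) - k) / N) (A^[k] x)) (ψ ((j : ℝ) / N) x) ≤ k * (L * η / N) := by
    intro k
    induction k with
    | zero =>
      intro _
      simp
    | succ k ih =>
      intro hk
      have h1 := ih (by omega)
      have h2 := step k hk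
      have h3 := dist_triangle (ψ (((j : ℝ) - (k + 1 : ℕ)) / N) (A^[k + 1] x))
        (ψ (((j : ℝ) - k) / N) (A^[k] x)) (ψ ((j : ℝ) / N) x)
      have h4 : ((k + 1 : ℕ) : ℝ) * (L * η / N) = k * (L * η / N) + L * η / N := by
        push_cast
        ring
      rw [h4]
      linarith
  have h1 := main j le_rfl
  rw [sub_self, zero_div, hψ0] at h1
  refine h1.trans ?_
  rw [mul_div_assoc', div_le_iff₀ hN', mul_comm]
  refine mul_le_mul_of_nonneg_left ?_ hLη
  exact_mod_cast hj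

end Pool.Agent.MP_fe3720.X
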