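import Pool.Agent.Work.MP_fe3720_an.X.Mono
import Pool.Agent.Work.MP_fe3720_an.X.RungeA

/-!
# Laurent polynomial fields of level k are limits of combinations of `pbE` fields (size M)

PROOF. For `x ∈ T` put `X = H n e x`; `‖X.1‖ ≥ ‖x.1‖^n - ‖x.1‖^n/8 > 0`, so `X ∈ M`, and `K = H n e '' T ⊆ M` is compact.
Derivative of `H n e` at `x`: `(u, v) ↦ (n x.1^(n-1) u - e v, u)`. The two functions
`p₁ x = n x.1^(n-1) y₁ x - e y₂ x` and `p₂ x = y₁ x` are in `LP`, so by `runge_step` there are `q₁, q₂ ∈ LP` with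
`q_i (H n e x)` within `δ'` of `p_i x` on `T`. By `InS_LP` for `(q₁, q₂)` and the compact set `K` there is a family with
`‖(q₁ X, q₂ X) - Σ c_i • pbM (g_i) X‖ < δ'` on `K`. So `‖DH(x) (y₁ x, y₂ x) - Σ c_i • pbM (g_i) (H n e x)‖ < 2 δ'` for
`x ∈ T` (max norm). Apply the linear map `fderiv ℂ (Hi n e) (H n e x)`, bounded by some `B` for `x ∈ T` (continuity,
`contDiff_Hi`): `fderiv (Hi n e) (H n e x) ∘ fderiv (H n e) x = id` (differentiate `Hi_H`), and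
`pbE n e g x = fderiv ℂ (Hi n e) (H n e x) (pbM g (H n e x))` (chain rule, `pbM_hasDeriv`). Take `δ' = δ/(2 B + 2)`.
-/

namespace Pool.Agent.MP_fe3720.X

open Topology Filter Set

theorem pbE_eq {n : ℕ} {e : ℝ} {g : Equiv.Perm C2} (hg : g ∈ G) {x : C2} (hx : H n e x ∈ M) :
    pbE n e g x = fderiv ℂ (Hi n e) (H n e x) (pbM g (H n e x)) := by
  have h1 := pbM_hasDeriv hg hx
  have h0 : g.symm (sh (-1) 0 (g (H n e x))) = H n e x := by
    rw [sh_zero, Equiv.symm_apply_apply]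
  have h2 : HasFDerivAt (Hi n e) (fderiv ℂ (Hi n e) (H n e x))
      (g.symm (sh (-1) 0 (g (H n e x)))) := by
    rw [h0]
    exact ((contDiff_Hi (m := 1)).differentiable one_ne_zero).differentiableAt.hasFDerivAt
  exact (h2.comp_hasDerivAt (0 : ℂ) h1).deriv

theorem H_maps {n : ℕ} {e : ℝ} (he : 0 < e) {x : C2} (hx : x ∈ M)
    (hs : e * ‖x.2‖ ≤ ‖x.1‖ ^ n / 8) : H n e x ∈ M := by
  intro h
  have h1 : x.1 ^ n = (e : ℂ) * x.2 := sub_eq_zero.1 h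
  have h2 : ‖x.1‖ ^ n = e * ‖x.2‖ := by
    rw [← norm_pow, h1, norm_mul, Complex.norm_real, Real.norm_of_nonneg he.le]
  have h3 : 0 < ‖x.1‖ ^ n := pow_pos (norm_pos_iff.2 hx) n
  linarith

private theorem fa_Hi {n : ℕ} {e : ℝ} (X : C2) (u v : ℂ) :
    fderiv ℂ (Hi n e) X (u, v) = (v, (n * X.2 ^ (n - 1) * v - u) / (e : ℂ)) := by
  have h1 : HasFDerivAt (fun p : C2 => p.1) (ContinuousLinearMap.fst ℂ ℂ ℂ) X := hasFDerivAt_fst
  have h2 : HasFDerivAt (fun p : C2 => p.2) (ContinuousLinearMap.snd ℂ ℂ ℂ) X := hasFDerivAt_snd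
  have h3 := ((h2.pow n).sub h1).mul_const ((e : ℂ)⁻¹)
  have h4 := h2.prodMk h3
  have h5 : HasFDerivAt (Hi n e) _ X := h4
  rw [h5.fderiv]
  simp only [ContinuousLinearMap.prod_apply, smul_apply,
    sub_apply, ContinuousLinearMap.coe_fst', ContinuousLinearMap.coe_snd',
    smul_eq_mul, nsmul_eq_mul]
  ext
  · rfl
  · simp only
    field_simp

theorem field_approx {n : ℕ} (hn : 1 ≤ n) {e : ℝ} (he : 0 < e) {T : Set C2} (hT : IsCompact T)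
    (hM : T ⊆ M) (hs : ∀ x ∈ T, e * ‖x.2‖ ≤ ‖x.1‖ ^ n / 8) {y₁ y₂ : C2 → ℂ} (h₁ : y₁ ∈ LP)
    (h₂ : y₂ ∈ LP) {δ : ℝ} (hδ : 0 < δ) :
    ∃ (m : ℕ) (c : Fin m → ℂ) (g : Fin m → Equiv.Perm C2), (∀ i, g i ∈ G) ∧
      ∀ x ∈ T, ‖(y₁ x, y₂ x) - ∑ i, c i • pbE n e (g i) x‖ < δ := by
  have hcL : Continuous (fun x : C2 => fderiv ℂ (Hi n e) (H n e x)) :=
    ((contDiff_Hi (m := 1)).continuous_fderiv one_ne_zero).comp
      (contDiff_H (m := 0)).continuous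
  obtain ⟨C, hC⟩ := hT.exists_bound_of_continuousOn hcL.continuousOn
  set B : ℝ := max C 0 with hB
  have hB0 : 0 ≤ B := le_max_right _ _
  have hBC : ∀ x ∈ T, ‖fderiv ℂ (Hi n e) (H n e x)‖ ≤ B := fun x hx =>
    (hC x hx).trans (le_max_left _ _)
  set δ' : ℝ := δ / (2 * B + 2) with hδ'
  have hδ'0 : 0 < δ' := by positivity
  have hp₁ : (fun x : C2 => ((n : ℂ) * x.1 ^ (n - 1)) * y₁ x - (e : ℂ) * y₂ x) ∈ LP :=
    LP.sub_mem (LP.mul_mem (LP.mul_mem (LP_const (n : ℂ)) (LP.pow_mem LP_fst (n - 1))) h₁)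
      (LP.mul_mem (LP_const (e : ℂ)) h₂)
  obtain ⟨q₁, hq₁, hq₁'⟩ := runge_step hn he hT hM hs hp₁ hδ'0
  obtain ⟨q₂, hq₂, hq₂'⟩ := runge_step hn he hT hM hs h₁ hδ'0
  have hK : IsCompact (H n e '' T) := hT.image (contDiff_H (m := 0)).continuous
  have hKM : H n e '' T ⊆ M := by
    rintro _ ⟨x, hx, rfl⟩
    exact H_maps he (hM hx) (hs x hx)
  obtain ⟨m, c, g, hg, hcg⟩ := InS_LP hq₁ hq₂ (H n e '' T) hKM hK δ' hδ'0
  refine ⟨m, c, g, hg, fun x hx => ?_⟩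
  have hHx : H n e x ∈ M := hKM ⟨x, hx, rfl⟩
  set p : C2 := (((n : ℂ) * x.1 ^ (n - 1)) * y₁ x - (e : ℂ) * y₂ x, y₁ x) with hp
  have e1 : fderiv ℂ (Hi n e) (H n e x) p = (y₁ x, y₂ x) := by
    rw [hp, fa_Hi]
    have he' : (e : ℂ) ≠ 0 := by exact_mod_cast he.ne'
    ext
    · rfl
    · simp only [H]
      field_simp
      ring
  have e2 : (y₁ x, y₂ x) - ∑ i, c i • pbE n e (g i) x =
      fderiv ℂ (Hi n e) (H n e x) (p - ∑ i, c i • pbM (g i) (H n e x)) := by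
    rw [map_sub, e1, map_sum]
    congr 1
    refine Finset.sum_congr rfl fun i _ => ?_
    rw [map_smul, pbE_eq (hg i) hHx]
  have e3 : ‖p - (q₁ (H n e x), q₂ (H n e x))‖ < δ' := by
    rw [norm_sub_rev, Prod.norm_def, max_lt_iff]
    exact ⟨hq₁' x hx, hq₂' x hx⟩
  have e4 : ‖(q₁ (H n e x), q₂ (H n e x)) - ∑ i, c i • pbM (g i) (H n e x)‖ < δ' :=
    hcg _ ⟨x, hx, rfl⟩
  have e5 : ‖p - ∑ i, c i • pbM (g i) (H n e x)‖ < 2 * δ' := by
    have := norm_sub_le_norm_sub_add_norm_sub p (q₁ (H n e x), q₂ (H n e x))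
      (∑ i, c i • pbM (g i) (H n e x))
    linarith
  rw [e2]
  calc ‖fderiv ℂ (Hi n e) (H n e x) (p - ∑ i, c i • pbM (g i) (H n e x))‖
      ≤ ‖fderiv ℂ (Hi n e) (H n e x)‖ * ‖p - ∑ i, c i • pbM (g i) (H n e x)‖ :=
        ContinuousLinearMap.le_opNorm _ _
    _ ≤ B * (2 * δ') := mul_le_mul (hBC x hx) e5.le (norm_nonneg _) hB0
    _ < δ := by
        rw [hδ', ← mul_assoc, mul_div_assoc', div_lt_iff₀ (by positivity)]
        nlinarith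

end Pool.Agent.MP_fe3720.X
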