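import Pool.Agent.Work.MP_fe3720_an.X.Basic

/-!
# The explicit update of the flow of `z⁻¹ ∂_w` (size M)

PROOF. Let `x = (z, w)`, `Z = z^n - a w`, `z' = z + (a/n) c t / Z`, `w' = (z'^n - Z)/a = w + (z'^n - z^n)/a
= w + (c t / (n Z)) Σ_{i<n} z'^i z^(n-1-i)` (for `a > 0`; `z'^n - z^n = (z' - z) Σ_{i<n} z'^i z^(n-1-i)`,
`Commute.geom_sum₂_mul` or `geom_sum₂_mul`). So `Hi n a (sh (-1) ((a/n) c t) (H n a x)) = Ψ (a, t, x)`, where
`Ψ (a, t, x) = (z', w + (c t/(n Z)) Σ_{i<n} z'^i z^(n-1-i))` is continuous at every point `(0, t, x)`, `x ∈ M`, with value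
`(z, w + (c t/(n z^n)) n z^(n-1)) = (z, w + c t / z) = sh (-1) (c t) x`. By compactness of `C` (tube lemma: the set
`{(a, p) : dist (Ψ (a, p)) (Ψ (0, p)) < δ}` is a neighbourhood of `{0} ×ˢ C`; e.g. `Ψ` is continuous on the open set
`{Z ≠ 0}`, use uniform continuity on `Icc 0 a₀ ×ˢ C` for small `a₀`) the claim holds for all small `a > 0`.
-/

namespace Pool.Agent.MP_fe3720.X

open Topology Filter Set

/-- the first coordinate of the image of `H n a x` -/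
private noncomputable def ZZ (n : ℕ) (q : ℝ × (ℂ × C2)) : ℂ :=
  q.2.2.1 ^ n - (q.1 : ℂ) * q.2.2.2

private noncomputable def Z1 (n : ℕ) (c : ℝ) (q : ℝ × (ℂ × C2)) : ℂ :=
  q.2.2.1 + (q.1 : ℂ) / n * c * q.2.1 * (ZZ n q)⁻¹

private noncomputable def Psi (n : ℕ) (c : ℝ) (q : ℝ × (ℂ × C2)) : C2 :=
  (Z1 n c q, q.2.2.2 + (∑ i ∈ Finset.range n, Z1 n c q ^ i * q.2.2.1 ^ (n - 1 - i)) *
    ((c : ℂ) / n * q.2.1 * (ZZ n q)⁻¹))

private theorem psi_eq {n : ℕ} (c : ℝ) {a : ℝ} (ha : 0 < a) (p : ℂ × C2) :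
    Hi n a (sh (-1) (((a / n * c : ℝ) : ℂ) * p.1) (H n a p.2)) = Psi n c (a, p) := by
  have ha' : (a : ℂ) ≠ 0 := by exact_mod_cast ha.ne'
  rw [sh_apply]
  have e1 : ((H n a p.2).1, (H n a p.2).2 + ((a / n * c : ℝ) : ℂ) * p.1 * (H n a p.2).1 ^ (-1 : ℤ)) =
      ((ZZ n (a, p), Z1 n c (a, p)) : C2) := by
    ext
    · rfl
    · simp only [H, ZZ, Z1, zpow_neg_one, Complex.ofReal_mul, Complex.ofReal_div,
        Complex.ofReal_natCast]
  rw [e1]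
  ext
  · rfl
  · simp only [Hi, Psi]
    have h1 := geom_sum₂_mul (Z1 n c (a, p)) p.2.1 n
    have h2 : Z1 n c (a, p) - p.2.1 = (a : ℂ) * ((c : ℂ) / n * p.1 * (ZZ n (a, p))⁻¹) := by
      simp only [Z1]
      ring
    rw [h2] at h1
    have h3 : Z1 n c (a, p) ^ n - ZZ n (a, p) = (a : ℂ) * (p.2.2 +
        (∑ i ∈ Finset.range n, Z1 n c (a, p) ^ i * p.2.1 ^ (n - 1 - i)) *
          ((c : ℂ) / n * p.1 * (ZZ n (a, p))⁻¹)) := by
      have h4 : ZZ n (a, p) = p.2.1 ^ n - (a : ℂ) * p.2.2 := rfl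
      have h5 : Z1 n c (a, p) ^ n = p.2.1 ^ n +
          (∑ i ∈ Finset.range n, Z1 n c (a, p) ^ i * p.2.1 ^ (n - 1 - i)) *
            ((a : ℂ) * ((c : ℂ) / n * p.1 * (ZZ n (a, p))⁻¹)) := by
        rw [h1]; ring
      rw [h5]
      generalize (∑ i ∈ Finset.range n, Z1 n c (a, p) ^ i * p.2.1 ^ (n - 1 - i)) = S
      have h6 : p.2.1 ^ n - ZZ n (a, p) = (a : ℂ) * p.2.2 := by rw [h4]; ring
      linear_combination h6
    rw [h3, mul_div_cancel_left₀ _ ha']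

private theorem psi_zero {n : ℕ} (hn : 1 ≤ n) (c : ℝ) {p : ℂ × C2} (hp : p.2 ∈ M) :
    Psi n c (0, p) = sh (-1) ((c : ℂ) * p.1) p.2 := by
  have hp' : p.2.1 ≠ 0 := hp
  have hn' : (n : ℂ) ≠ 0 := by exact_mod_cast (by omega : n ≠ 0)
  have hZ : ZZ n (0, p) = p.2.1 ^ n := by simp [ZZ]
  have hZ1 : Z1 n c (0, p) = p.2.1 := by simp [Z1]
  rw [sh_apply]
  ext
  · exact hZ1
  · simp only [Psi]
    rw [hZ1, hZ, zpow_neg_one]
    have h1 : ∑ i ∈ Finset.range n, p.2.1 ^ i * p.2.1 ^ (n - 1 - i) = n * p.2.1 ^ (n - 1) := by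
      rw [Finset.sum_congr rfl (g := fun _ => p.2.1 ^ (n - 1))]
      · simp
      · intro i hi
        rw [← pow_add]
        congr 1
        have := Finset.mem_range.1 hi
        omega
    rw [h1]
    have h2 : p.2.1 ^ n = p.2.1 ^ (n - 1) * p.2.1 := by
      rw [← pow_succ]
      congr 1
      omega
    rw [h2]
    field_simp

private theorem psi_cont {n : ℕ} (c : ℝ) {p : ℂ × C2} (hp : p.2 ∈ M) :
    ContinuousAt (Psi n c) (0, p) := by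
  have hZ : ContinuousAt (ZZ n) (0, p) := by
    unfold ZZ
    fun_prop
  have hZ0 : ZZ n (0, p) ≠ 0 := by
    have h1 : ZZ n (0, p) = p.2.1 ^ n := by simp [ZZ]
    rw [h1]
    exact pow_ne_zero n hp
  have hZi : ContinuousAt (fun q => (ZZ n q)⁻¹) (0, p) := hZ.inv₀ hZ0
  have h1 : ContinuousAt (fun q : ℝ × (ℂ × C2) => q.2.2.1) (0, p) := by fun_prop
  have h2 : ContinuousAt (fun q : ℝ × (ℂ × C2) => q.2.2.2) (0, p) := by fun_prop
  have h3 : ContinuousAt (fun q : ℝ × (ℂ × C2) => (q.1 : ℂ) / n * c * q.2.1) (0, p) := by fun_prop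
  have h4 : ContinuousAt (fun q : ℝ × (ℂ × C2) => (c : ℂ) / n * q.2.1) (0, p) := by fun_prop
  have hZ1 : ContinuousAt (Z1 n c) (0, p) := h1.add (h3.mul hZi)
  have h5 : ContinuousAt (fun q : ℝ × (ℂ × C2) =>
      ∑ i ∈ Finset.range n, Z1 n c q ^ i * q.2.2.1 ^ (n - 1 - i)) (0, p) := by
    refine tendsto_finsetSum _ fun i _ => ?_
    exact (hZ1.pow i).mul (h1.pow (n - 1 - i))
  exact hZ1.prodMk (h2.add (h5.mul (h4.mul hZi)))

private theorem sh_cont (c : ℝ) {p : ℂ × C2} (hp : p.2 ∈ M) :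
    ContinuousAt (fun q : ℂ × C2 => sh (-1) ((c : ℂ) * q.1) q.2) p := by
  have h0 : (fun q : ℂ × C2 => sh (-1) ((c : ℂ) * q.1) q.2) =
      fun q => (q.2.1, q.2.2 + (c : ℂ) * q.1 * (q.2.1)⁻¹) := by
    funext q
    rw [sh_apply, zpow_neg_one]
  rw [h0]
  have h1 : ContinuousAt (fun q : ℂ × C2 => q.2.1) p := by fun_prop
  have h2 : ContinuousAt (fun q : ℂ × C2 => q.2.2) p := by fun_prop
  have h3 : ContinuousAt (fun q : ℂ × C2 => (c : ℂ) * q.1) p := by fun_prop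
  exact h1.prodMk (h2.add (h3.mul (h1.inv₀ hp)))

theorem flow_up {n : ℕ} (hn : 1 ≤ n) (c : ℝ) {C : Set (ℂ × C2)} (hC : IsCompact C)
    (hCM : ∀ p ∈ C, p.2 ∈ M) {δ : ℝ} (hδ : 0 < δ) :
    ∀ᶠ a : ℝ in 𝓝[>] 0, ∀ p ∈ C,
      dist (Hi n a (sh (-1) (((a / n * c : ℝ) : ℂ) * p.1) (H n a p.2))) (sh (-1) ((c : ℂ) * p.1) p.2)
        < δ := by
  have key : ∀ᶠ a : ℝ in 𝓝 0, ∀ p ∈ C,
      dist (Psi n c (a, p)) (sh (-1) ((c : ℂ) * p.1) p.2) < δ := by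
    refine hC.eventually_forall_of_forall_eventually fun p hp => ?_
    have h1 : ContinuousAt (fun z : ℝ × (ℂ × C2) => Psi n c (z.1, z.2)) (0, p) :=
      psi_cont c (hCM p hp)
    have h2 : ContinuousAt (fun z : ℝ × (ℂ × C2) => sh (-1) ((c : ℂ) * z.2.1) z.2.2) (0, p) :=
      ContinuousAt.comp (f := fun z : ℝ × (ℂ × C2) => z.2)
        (g := fun q : ℂ × C2 => sh (-1) ((c : ℂ) * q.1) q.2) (x := ((0, p) : ℝ × (ℂ × C2)))
        (sh_cont c (hCM p hp)) continuousAt_snd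
    have h3 : ContinuousAt (fun z : ℝ × (ℂ × C2) =>
        dist (Psi n c (z.1, z.2)) (sh (-1) ((c : ℂ) * z.2.1) z.2.2)) (0, p) := h1.dist h2
    refine h3.eventually_lt_const ?_
    show dist (Psi n c (0, p)) (sh (-1) ((c : ℂ) * p.1) p.2) < δ
    rw [psi_zero hn c (hCM p hp), dist_self]
    exact hδ
  filter_upwards [nhdsWithin_le_nhds key, self_mem_nhdsWithin] with a ha ha0 p hp
  rw [psi_eq c ha0 p]
  exact ha p hp

end Pool.Agent.MP_fe3720.X
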