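import Pool.Agent.Work.MP_fe3720_an.X.Approx
import Pool.Agent.Work.MP_fe3720_an.X.Weier

/-!
# Laurent polynomials of level j are limits of holomorphic functions on the domain (size M)

PROOF. Construct recursively `p_i ∈ LP` for `i ≥ j`, `p_j = p`, with
`‖p_{i+1} (F_{i+1} x) - p_i (F_i x)‖ < ε / 2^(i-j+2)` for all `x ∈ K'_i`: `runge_step` with `n = 2`, `e = e_i`,
`T = F_i '' K'_i` (compact by `isCompact_KK'`, in `M` by `KK'_M`, small by `KK'_small`); `F_{i+1} x = H 2 (e i) (F_i x)`.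
(Index shift: build a sequence `q : ℕ → LP` with `q n` of level `j + n`.) As `K'_j ⊆ K'_i` (`KK'_mono`) and
every compact subset of `Om` lies in some `K_i ⊆ K'_i` (`exists_KK`, `KK_mono`, `KK_sub_KK'`), the functions
`f_n x = q n (F (j+n) x)` are uniformly Cauchy on every `K'_i`; let `h` be the pointwise limit on `Om` (`limUnder` or
choice). By `diffOn_of_unif` (each `f_n` is differentiable at the points of `K'_{j+n}`: `LP_diffAt`, `contDiff_F`)
`h` is holomorphic on `Om`, and `‖h - p ∘ F_j‖ ≤ Σ ε/2^(n+2) = ε/2 < ε` on `K'_j`.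
-/

namespace Pool.Agent.MP_fe3720.X

open Topology Filter Set

variable {e r R : ℕ → ℝ}

private theorem ha_step (hT : Tower e r R) (k : ℕ) {p : C2 → ℂ} (hp : p ∈ LP) {δ : ℝ}
    (hδ : 0 < δ) : ∃ q ∈ LP, ∀ x ∈ KK' e r R k, ‖q (F e (k + 1) x) - p (F e k x)‖ < δ := by
  have hc : IsCompact (F e k '' KK' e r R k) :=
    (isCompact_KK' fun i _ => hT.e_pos i).image continuous_F
  have hM : F e k '' KK' e r R k ⊆ M := by
    rintro _ ⟨x, hx, rfl⟩
    exact KK'_M (hT.pre k) hx
  have hs : ∀ y ∈ F e k '' KK' e r R k, e k * ‖y.2‖ ≤ ‖y.1‖ ^ 2 / 8 := by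
    rintro _ ⟨x, hx, rfl⟩
    exact KK'_small (hT.pre (k + 1)) hx
  obtain ⟨q, h1, h2⟩ := runge_step (n := 2) (by norm_num) (hT.e_pos k) hc hM hs hp hδ
  exact ⟨q, h1, fun x hx => h2 _ ⟨x, hx, rfl⟩⟩

theorem hol_approx (hT : Tower e r R) (j : ℕ) {p : C2 → ℂ} (hp : p ∈ LP) {ε : ℝ} (hε : 0 < ε) :
    ∃ h : C2 → ℂ, DifferentiableOn ℂ h (Om e r R) ∧ ∀ x ∈ KK' e r R j, ‖h x - p (F e j x)‖ < ε := by
  classical
  have hδ : ∀ n : ℕ, 0 < ε / 2 ^ (n + 2) := fun n => by positivity
  -- the sequence of Laurent polynomials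
  let nx : ∀ n : ℕ, {q : C2 → ℂ // q ∈ LP} → {q : C2 → ℂ // q ∈ LP} := fun n q =>
    ⟨(ha_step hT (j + n) q.2 (hδ n)).choose, (ha_step hT (j + n) q.2 (hδ n)).choose_spec.1⟩
  let s : ℕ → {q : C2 → ℂ // q ∈ LP} := fun n => Nat.rec ⟨p, hp⟩ nx n
  have hs0 : s 0 = ⟨p, hp⟩ := rfl
  have hs1 : ∀ n, s (n + 1) = nx n (s n) := fun n => rfl
  let f : ℕ → C2 → ℂ := fun n x => (s n).1 (F e (j + n) x)
  have hf1 : ∀ n, ∀ x ∈ KK' e r R (j + n), ‖f (n + 1) x - f n x‖ < ε / 2 ^ (n + 2) := by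
    intro n x hx
    have h := (ha_step hT (j + n) (s n).2 (hδ n)).choose_spec.2 x hx
    show ‖(s (n + 1)).1 (F e (j + (n + 1)) x) - (s n).1 (F e (j + n) x)‖ < _
    rw [hs1 n]
    exact h
  have hmono : ∀ {m n : ℕ}, m ≤ n → KK' e r R (j + m) ⊆ KK' e r R (j + n) := by
    intro m n hmn
    exact KK'_mono (hT.pre (j + n)) (Nat.add_le_add_left hmn j)
  have hf2 : ∀ n, ∀ x ∈ KK' e r R (j + n), ∀ k : ℕ,
      ‖f (n + k) x - f n x‖ ≤ ε / 2 ^ (n + 1) - ε / 2 ^ (n + k + 1) := by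
    intro n x hx k
    induction k with
    | zero => simp
    | succ k ih =>
      have h1 := hf1 (n + k) x (hmono (Nat.le_add_right n k) hx)
      have h2 : f (n + (k + 1)) x - f n x =
          (f (n + k + 1) x - f (n + k) x) + (f (n + k) x - f n x) := by
        rw [← add_assoc n k 1]
        ring
      rw [h2]
      refine (norm_add_le _ _).trans ?_
      have h3 : ε / 2 ^ (n + k + 1) = 2 * (ε / 2 ^ (n + k + 2)) := by
        rw [pow_succ (2 : ℝ) (n + k + 1)]
        field_simp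
      have h4 : n + (k + 1) + 1 = n + k + 2 := by ring
      rw [h4]
      linarith
  have hf3 : ∀ n, ∀ x ∈ KK' e r R (j + n), ∀ k : ℕ, ‖f (n + k) x - f n x‖ ≤ ε / 2 ^ (n + 1) := by
    intro n x hx k
    have h1 := hf2 n x hx k
    have h2 : 0 < ε / 2 ^ (n + k + 1) := by positivity
    linarith
  -- the limit
  have hlim : ∀ x : C2, ∃ y : ℂ, (∃ m, x ∈ KK' e r R (j + m)) →
      Tendsto (fun n => f n x) atTop (𝓝 y) := by
    intro x
    by_cases hx : ∃ m, x ∈ KK' e r R (j + m)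
    · obtain ⟨m, hm⟩ := hx
      have hc : CauchySeq fun n => f (n + m) x := by
        refine cauchySeq_of_le_geometric (1 / 2 : ℝ) ε (by norm_num) fun n => ?_
        have h1 := hf1 (n + m) x (hmono (Nat.le_add_left m n) hm)
        have h2 : n + 1 + m = n + m + 1 := by ring
        rw [dist_comm, dist_eq_norm, h2]
        refine h1.le.trans ?_
        have h3 : ε * (1 / 2) ^ n = ε / 2 ^ n := by
          rw [one_div, inv_pow]
          rfl
        rw [h3]
        apply div_le_div_of_nonneg_left hε.le (by positivity)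
        exact pow_le_pow_right₀ (by norm_num) (by omega)
      obtain ⟨y, hy⟩ := cauchySeq_tendsto_of_complete hc
      exact ⟨y, fun _ => (tendsto_add_atTop_iff_nat m).1 hy⟩
    · exact ⟨0, fun h => absurd h hx⟩
  choose g hg using hlim
  have hfg : ∀ n, ∀ x ∈ KK' e r R (j + n), ‖f n x - g x‖ ≤ ε / 2 ^ (n + 1) := by
    intro n x hx
    have h1 : Tendsto (fun k => ‖f (n + k) x - f n x‖) atTop (𝓝 ‖g x - f n x‖) := by
      have h2 : Tendsto (fun k => f (n + k) x) atTop (𝓝 (g x)) := by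
        have h3 := (tendsto_add_atTop_iff_nat n).2 (hg x ⟨n, hx⟩)
        refine h3.congr fun k => ?_
        rw [add_comm]
      exact (h2.sub_const _).norm
    rw [norm_sub_rev]
    exact le_of_tendsto h1 (Eventually.of_forall fun k => hf3 n x hx k)
  refine ⟨g, ?_, ?_⟩
  · refine diffOn_of_unif (isOpen_Om hT) f g ?_
    intro K hK hKc ε' hε'
    obtain ⟨k, hk⟩ := exists_KK hT hKc hK
    obtain ⟨N, hN⟩ := exists_pow_lt_of_lt_one (show (0 : ℝ) < ε' / ε by positivity)
      (show (1 / 2 : ℝ) < 1 by norm_num)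
    refine ⟨max k N, fun n hn => ?_⟩
    have hnk : k ≤ n := (le_max_left _ _).trans hn
    have hnN : N ≤ n := (le_max_right _ _).trans hn
    have hsub : K ⊆ KK' e r R (j + n) := by
      refine hk.trans ((KK_mono hT (show k ≤ j + n by omega)).trans ?_)
      exact KK_sub_KK' (hT.r_pos _)
    refine ⟨fun x hx => ?_, fun x hx => ?_⟩
    · have h1 : DifferentiableAt ℂ (s n).1 (F e (j + n) x) :=
        LP_diffAt (s n).2 (KK'_M (hT.pre (j + n)) (hsub hx))
      have h2 : DifferentiableAt ℂ (F e (j + n)) x :=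
        ((contDiff_F (m := 1)).differentiable one_ne_zero) x
      exact h1.comp x h2
    · refine (hfg n x (hsub hx)).trans_lt ?_
      have h3 : ε / 2 ^ (n + 1) ≤ ε * (1 / 2) ^ N := by
        have h4 : ε * (1 / 2) ^ N = ε / 2 ^ N := by
          rw [one_div, inv_pow]
          rfl
        rw [h4]
        apply div_le_div_of_nonneg_left hε.le (by positivity)
        exact pow_le_pow_right₀ (by norm_num) (by omega)
      refine h3.trans_lt ?_
      calc ε * (1 / 2) ^ N < ε * (ε' / ε) := mul_lt_mul_of_pos_left hN hε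
        _ = ε' := by field_simp
  · intro x hx
    have h1 := hfg 0 x hx
    rw [norm_sub_rev] at h1
    have h2 : ‖g x - p (F e j x)‖ ≤ ε / 2 ^ (0 + 1) := h1
    have h3 : ε / 2 ^ (0 + 1) = ε / 2 := by norm_num
    rw [h3] at h2
    linarith

end Pool.Agent.MP_fe3720.X
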