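import Pool.Agent.Work.MP_fe3720_an.X.Defs2

/-!
# Uniform local Lipschitz constant of a one-parameter group on a compact set (size S-M)

PROOF. `Φ (s, x) = ψ s x` is `C¹` on the open set `univ ×ˢ M`. Choose `ρ₁ > 0` with
`T₁ = {y | ∃ x ∈ T, dist y x ≤ ρ₁} ⊆ M` (compact: `Metric.cthickening` of a compact set in an open set,
`IsCompact.exists_cthickening_subset_open`). The derivative of `Φ` is bounded by some `L ≥ 1` on the compact set
`Icc (-1) 1 ×ˢ T₁`. For `p, q ∈ T`, `dist p q ≤ ρ₁`, the segment `[p, q]` lies in `closedBall p ρ₁ ⊆ T₁`; the mean value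
inequality on the segment for `x ↦ ψ s x` gives the claim (`Convex.norm_image_sub_le_of_norm_fderiv_le` or
`..._hasFDerivWithin_le` on the convex set `closedBall p ρ₁`).
-/

namespace Pool.Agent.MP_fe3720.X

open Topology Filter Set

theorem eflow_lip {ψ : ℝ → C2 → C2} {y : C2 → C2} (hψ : EFlow ψ y) {T : Set C2} (hT : IsCompact T)
    (hTM : T ⊆ M) : ∃ L ≥ 1, ∃ ρ > 0, ∀ s ∈ Icc (-1 : ℝ) 1, ∀ p ∈ T, ∀ q ∈ T, dist p q ≤ ρ →
      dist (ψ s p) (ψ s q) ≤ L * dist p q := by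
  have hMo : IsOpen M := isOpen_ne_fun continuous_fst continuous_const
  obtain ⟨ρ, hρ, hρM⟩ := hT.exists_cthickening_subset_open hMo hTM
  set T₁ : Set C2 := Metric.cthickening ρ T with hT₁
  have hT₁c : IsCompact T₁ := hT.cthickening
  set S : Set (ℝ × C2) := univ ×ˢ M with hS
  have hSo : IsOpen S := isOpen_univ.prod hMo
  set Φ : ℝ × C2 → C2 := fun p => ψ p.1 p.2 with hΦ
  have hcd : ContDiffOn ℝ 1 Φ S := hψ.smooth
  have hcf : ContinuousOn (fderiv ℝ Φ) S := hcd.continuousOn_fderiv_of_isOpen hSo le_rfl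
  have hK : IsCompact (Icc (-1 : ℝ) 1 ×ˢ T₁) := isCompact_Icc.prod hT₁c
  have hKS : Icc (-1 : ℝ) 1 ×ˢ T₁ ⊆ S := by
    rintro ⟨s, x⟩ ⟨_, hx⟩
    exact ⟨mem_univ _, hρM hx⟩
  obtain ⟨L0, hL0⟩ := hK.exists_bound_of_continuousOn (hcf.mono hKS)
  refine ⟨max 1 L0, le_max_left _ _, ρ, hρ, ?_⟩
  intro s hs p hp q hq hpq
  have hball : Metric.closedBall p ρ ⊆ T₁ := Metric.closedBall_subset_cthickening hp ρ
  have hder : ∀ x ∈ Metric.closedBall p ρ,
      HasFDerivWithinAt (fun x => ψ s x)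
        ((fderiv ℝ Φ (s, x)).comp (ContinuousLinearMap.inr ℝ ℝ C2)) (Metric.closedBall p ρ) x := by
    intro x hx
    have hxS : (s, x) ∈ S := ⟨mem_univ _, hρM (hball hx)⟩
    have h1 : HasFDerivAt Φ (fderiv ℝ Φ (s, x)) (s, x) :=
      ((hcd.differentiableOn one_ne_zero).differentiableAt (hSo.mem_nhds hxS)).hasFDerivAt
    have h2 : HasFDerivAt (fun x : C2 => (s, x)) (ContinuousLinearMap.inr ℝ ℝ C2) x :=
      hasFDerivAt_prodMk_right s x
    exact (h1.comp x h2).hasFDerivWithinAt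
  have hbd : ∀ x ∈ Metric.closedBall p ρ,
      ‖(fderiv ℝ Φ (s, x)).comp (ContinuousLinearMap.inr ℝ ℝ C2)‖ ≤ max 1 L0 := by
    intro x hx
    have h1 : ‖fderiv ℝ Φ (s, x)‖ ≤ L0 := hL0 (s, x) ⟨hs, hball hx⟩
    have h2 : ‖(ContinuousLinearMap.inr ℝ ℝ C2)‖ ≤ 1 := by
      refine ContinuousLinearMap.opNorm_le_bound _ zero_le_one (fun v => ?_)
      simp
    calc ‖(fderiv ℝ Φ (s, x)).comp (ContinuousLinearMap.inr ℝ ℝ C2)‖
        ≤ ‖fderiv ℝ Φ (s, x)‖ * ‖ContinuousLinearMap.inr ℝ ℝ C2‖ :=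
          ContinuousLinearMap.opNorm_comp_le _ _
      _ ≤ ‖fderiv ℝ Φ (s, x)‖ * 1 := by gcongr
      _ = ‖fderiv ℝ Φ (s, x)‖ := mul_one _
      _ ≤ L0 := h1
      _ ≤ max 1 L0 := le_max_right _ _
  have hconv : Convex ℝ (Metric.closedBall p ρ) := convex_closedBall p ρ
  have hqb : q ∈ Metric.closedBall p ρ := by
    rw [Metric.mem_closedBall, dist_comm]
    exact hpq
  have hpb : p ∈ Metric.closedBall p ρ := Metric.mem_closedBall_self hρ.le
  have hfin := hconv.norm_image_sub_le_of_norm_hasFDerivWithin_le hder hbd hqb hpb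
  rw [dist_eq_norm, dist_eq_norm]
  exact hfin

end Pool.Agent.MP_fe3720.X
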