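import Pool.Agent.Work.MP_fe3720_an.X.Span
import Pool.Agent.Work.MP_fe3720_an.X.LPsum

/-!
# All Laurent polynomial fields are in `InS` (size M)

PROOF. Derivatives: `(dl a t).symm = dl a (-t)` (`dl_symm`) has at `y = (z, w)` the derivative
`(u, v) ↦ (u, v e^{-t z^a} - t a z^(a-1) w e^{-t z^a} u)`; at `y = dl a t x`, `x = (z, w)`, `y = (z, w e^{t z^a})`:
`(u, v) ↦ (u, v e^{-t z^a} - t a z^(a-1) w u)`. `(tw b t).symm = tw b (-t)` has at `y = tw b t x = (z e^{t w^b}, w)` the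
derivative `(u, v) ↦ (u e^{-t w^b} - t b z w^(b-1) v, v)` (for `b = 0` the second term is zero).
Step 1. `Y_a := (0, z^a)` is in `InS` for all `a : ℤ`: apply `InS_deriv` to `D t = dl (a+1) t`, `V = (0, z⁻¹)` (`InS_base`):
`Q t x = (0, z⁻¹ e^{-t z^(a+1)})`, `Q' t x = (0, - z^a e^{-t z^(a+1)})`, `Q' 0 = -Y_a`.
Step 2. `H_{a,b} := (-b z^(a+1) w^(b-1), a z^a w^b)`, `b ≥ 1`: `D t = tw b t`, `V = Y_a`:
`Q t x = (- t b z w^(b-1) z^a e^{a t w^b}, z^a e^{a t w^b})`, and `Q' 0 = H_{a,b}`.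
Step 3. `Y_{a+1,b} := (0, z^(a+1) w^b)`, `b ≥ 1`: `D t = dl 1 t`, `V = H_{a,b}`:
`Q t x = (-b z^(a+1) w^(b-1) e^{(b-1) t z}, a z^a w^b e^{(b-1) t z} + t b z^(a+1) w^b e^{(b-1) t z})`,
`Q' 0 = (-b (b-1) z^(a+2) w^(b-1), (a (b-1) z^(a+1) + b z^(a+1)) w^b)`, and
`Q' 0 - (b-1) H_{a+1,b} = (0, (a(b-1) + b - (b-1)(a+1)) z^(a+1) w^b) = (0, z^(a+1) w^b)`.
Step 4. `(z^(a+1) w^(b-1), 0) = -(1/b) (H_{a,b} - a Y_{a,b})`, `b ≥ 1`. So all monomial fields are in `InS`.
(`Q'` is in each case an explicit combination of products of `zpow`, `pow`, `exp`: continuity on `univ ×ˢ M`.)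
`InS_LP`: by `LP_sum`, on `M` the field is a finite sum of monomial fields (`InS_add`, `InS_smul`, `InS_congr`).
-/

namespace Pool.Agent.MP_fe3720.X

open Topology Filter Set

private theorem mono_dl (a : ℤ) (s : ℂ) {y : C2} (hy : y ∈ M) (u v : ℂ) :
    fderiv ℂ (dl a s) y (u, v) = (u, y.2 * (Complex.exp (s * y.1 ^ a) *
      (s * (a * y.1 ^ (a - 1) * u))) + Complex.exp (s * y.1 ^ a) * v) := by
  have h1 : HasFDerivAt (fun p : C2 => p.1) (ContinuousLinearMap.fst ℂ ℂ ℂ) y := hasFDerivAt_fst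
  have h2 : HasFDerivAt (fun p : C2 => p.2) (ContinuousLinearMap.snd ℂ ℂ ℂ) y := hasFDerivAt_snd
  have h3 : HasFDerivAt (fun p : C2 => p.1 ^ a)
      (((a : ℂ) * y.1 ^ (a - 1)) • ContinuousLinearMap.fst ℂ ℂ ℂ) y :=
    (hasDerivAt_zpow a y.1 (Or.inl hy)).comp_hasFDerivAt y h1
  have h4 : HasFDerivAt (dl a s : C2 → C2) _ y := h1.prodMk (h2.mul (h3.const_mul s).cexp)
  rw [h4.fderiv]
  simp [mul_assoc]

private theorem mono_tw (b : ℕ) (s : ℂ) {y : C2} (u v : ℂ) :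
    fderiv ℂ (tw b s) y (u, v) = (y.1 * (Complex.exp (s * y.2 ^ b) *
      (s * (b * y.2 ^ (b - 1) * v))) + Complex.exp (s * y.2 ^ b) * u, v) := by
  have h1 : HasFDerivAt (fun p : C2 => p.1) (ContinuousLinearMap.fst ℂ ℂ ℂ) y := hasFDerivAt_fst
  have h2 : HasFDerivAt (fun p : C2 => p.2) (ContinuousLinearMap.snd ℂ ℂ ℂ) y := hasFDerivAt_snd
  have h3 : HasFDerivAt (fun p : C2 => p.2 ^ b)
      (((b : ℂ) * y.2 ^ (b - 1)) • ContinuousLinearMap.snd ℂ ℂ ℂ) y :=
    (hasDerivAt_pow b y.2).comp_hasFDerivAt y h2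
  have h4 : HasFDerivAt (tw b s : C2 → C2) _ y := (h1.mul (h3.const_mul s).cexp).prodMk h2
  rw [h4.fderiv]
  simp [mul_assoc]

private theorem mono_cz (a : ℤ) :
    ContinuousOn (fun p : ℂ × C2 => p.2.1 ^ a) ((univ : Set ℂ) ×ˢ M) :=
  (LP_continuousOn (LP_zpow a)).comp continuous_snd.continuousOn fun _ h => h.2

/-- Step 1 -/
private theorem mono_Y0 (a : ℤ) : InS (fun x => (0, x.1 ^ a)) := by
  have h := InS_deriv (D := fun t => dl (a + 1) t) (fun t => dl_mem _ _) InS_base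
    (Q := fun t x => (0, Complex.exp (-t * x.1 ^ (a + 1)) * (x.1)⁻¹))
    (Q' := fun t x => (0, Complex.exp (-t * x.1 ^ (a + 1)) * (-1 * x.1 ^ (a + 1)) * (x.1)⁻¹))
    ?_ ?_ ?_ ?_
  · refine InS_congr (fun x hx => ?_) (InS_smul (-1) h)
    have hx0 : x.1 ≠ 0 := hx
    ext
    · simp
    · simp [zpow_add₀ hx0, hx0]
  · intro t x hx
    rw [dl_symm, mono_dl _ _ (show dl (a + 1) t x ∈ M from hx)]
    simp [dl_apply]
  · intro x hx
    simp
  · intro t x hx
    refine (hasDerivAt_const t (0 : ℂ)).prodMk ?_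
    refine HasDerivAt.mul_const ?_ _
    refine HasDerivAt.cexp ?_
    exact (hasDerivAt_neg t).mul_const _
  · refine continuousOn_const.prodMk ?_
    have h1 : ContinuousOn (fun p : ℂ × C2 => (p.2.1)⁻¹) ((univ : Set ℂ) ×ˢ M) := by
      have := mono_cz (-1)
      simpa using this
    refine ContinuousOn.mul (ContinuousOn.mul (ContinuousOn.cexp ?_) ?_) h1
    · exact (continuous_fst.neg).continuousOn.mul (mono_cz _)
    · exact continuousOn_const.mul (mono_cz _)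

/-- Step 2 -/
private theorem mono_H (a : ℤ) (c : ℕ) :
    InS (fun x => (-((c : ℂ) + 1) * x.1 ^ (a + 1) * x.2 ^ c, a * x.1 ^ a * x.2 ^ (c + 1))) := by
  have h := InS_deriv (D := fun t => tw (c + 1) t) (fun t => tw_mem _ _) (mono_Y0 a)
    (Q := fun t x => (-t * (((c : ℂ) + 1) * x.1 ^ (a + 1) * x.2 ^ c) *
        Complex.exp (t * (a * x.2 ^ (c + 1))), x.1 ^ a * Complex.exp (t * (a * x.2 ^ (c + 1)))))
    (Q' := fun t x => (-1 * (((c : ℂ) + 1) * x.1 ^ (a + 1) * x.2 ^ c) *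
        Complex.exp (t * (a * x.2 ^ (c + 1))) + -t * (((c : ℂ) + 1) * x.1 ^ (a + 1) * x.2 ^ c) *
        (Complex.exp (t * (a * x.2 ^ (c + 1))) * (1 * (a * x.2 ^ (c + 1)))),
        x.1 ^ a * (Complex.exp (t * (a * x.2 ^ (c + 1))) * (1 * (a * x.2 ^ (c + 1))))))
    ?_ ?_ ?_ ?_
  · refine InS_congr (fun x hx => ?_) h
    ext
    · simp
      ring
    · simp
      ring
  · intro t x hx
    have hx0 : x.1 ≠ 0 := hx
    rw [tw_symm, mono_tw]
    have hz : (x.1 * Complex.exp (t * x.2 ^ (c + 1))) ^ a =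
        x.1 ^ a * Complex.exp (t * (a * x.2 ^ (c + 1))) := by
      rw [mul_zpow, ← Complex.exp_int_mul]
      congr 2
      ring
    have he : Complex.exp (t * x.2 ^ (c + 1)) * Complex.exp (-t * x.2 ^ (c + 1)) = 1 := by
      rw [← Complex.exp_add]
      simp
    simp only [tw_apply]
    rw [hz]
    ext
    · simp only [add_tsub_cancel_right, Nat.cast_add, Nat.cast_one, mul_zero, add_zero]
      rw [zpow_add₀ hx0, zpow_one]
      linear_combination (t * ((c : ℂ) + 1) * x.1 ^ a * x.1 * x.2 ^ c *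
        Complex.exp (t * (a * x.2 ^ (c + 1)))) * he
    · simp
  · intro x hx
    simp
  · intro t x hx
    have hE : HasDerivAt (fun t : ℂ => Complex.exp (t * (a * x.2 ^ (c + 1))))
        (Complex.exp (t * (a * x.2 ^ (c + 1))) * (1 * (a * x.2 ^ (c + 1)))) t :=
      ((hasDerivAt_id t).mul_const _).cexp
    exact (((hasDerivAt_neg t).mul_const _).mul hE).prodMk (hE.const_mul _)
  · have hw : ∀ n : ℕ, ContinuousOn (fun p : ℂ × C2 => p.2.2 ^ n) ((univ : Set ℂ) ×ˢ M) :=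
      fun n => (by fun_prop : Continuous fun p : ℂ × C2 => p.2.2 ^ n).continuousOn
    have ht : ContinuousOn (fun p : ℂ × C2 => p.1) ((univ : Set ℂ) ×ˢ M) :=
      continuous_fst.continuousOn
    have hE : ContinuousOn (fun p : ℂ × C2 => Complex.exp (p.1 * (a * p.2.2 ^ (c + 1))))
        ((univ : Set ℂ) ×ˢ M) := (ht.mul (continuousOn_const.mul (hw _))).cexp
    have hg : ContinuousOn (fun p : ℂ × C2 => ((c : ℂ) + 1) * p.2.1 ^ (a + 1) * p.2.2 ^ c)
        ((univ : Set ℂ) ×ˢ M) := (continuousOn_const.mul (mono_cz _)).mul (hw _)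
    have hE' := hE.mul (continuousOn_const.mul (continuousOn_const.mul (hw (c + 1))) :
      ContinuousOn (fun p : ℂ × C2 => 1 * ((a : ℂ) * p.2.2 ^ (c + 1))) ((univ : Set ℂ) ×ˢ M))
    refine ContinuousOn.prodMk (ContinuousOn.add ?_ ?_) ?_
    · exact (continuousOn_const.mul hg).mul hE
    · exact (ht.neg.mul hg).mul hE'
    · exact (mono_cz a).mul hE'

/-- Step 3 -/
private theorem mono_Yb (a : ℤ) (c : ℕ) : InS (fun x => (0, x.1 ^ (a + 1) * x.2 ^ (c + 1))) := by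
  have h := InS_deriv (D := fun t => dl 1 t) (fun t => dl_mem _ _) (mono_H a c)
    (Q := fun t x => (-((c : ℂ) + 1) * x.1 ^ (a + 1) * x.2 ^ c * Complex.exp (t * (c * x.1)),
      (a * x.1 ^ a * x.2 ^ (c + 1) + t * (((c : ℂ) + 1) * x.1 ^ (a + 1) * x.2 ^ (c + 1))) *
        Complex.exp (t * (c * x.1))))
    (Q' := fun t x => (-((c : ℂ) + 1) * x.1 ^ (a + 1) * x.2 ^ c *
        (Complex.exp (t * (c * x.1)) * (1 * (c * x.1))),
      (1 * (((c : ℂ) + 1) * x.1 ^ (a + 1) * x.2 ^ (c + 1))) * Complex.exp (t * (c * x.1)) +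
      (a * x.1 ^ a * x.2 ^ (c + 1) + t * (((c : ℂ) + 1) * x.1 ^ (a + 1) * x.2 ^ (c + 1))) *
        (Complex.exp (t * (c * x.1)) * (1 * (c * x.1)))))
    ?_ ?_ ?_ ?_
  · refine InS_congr (fun x hx => ?_) (InS_add h (InS_smul (-(c : ℂ)) (mono_H (a + 1) c)))
    have hx0 : x.1 ≠ 0 := hx
    have h2 : x.1 ^ (a + 1 + 1) = x.1 ^ a * x.1 * x.1 := by
      rw [zpow_add₀ hx0, zpow_add₀ hx0, zpow_one]
    have h3 : x.1 ^ (a + 1) = x.1 ^ a * x.1 := by rw [zpow_add₀ hx0, zpow_one]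
    ext
    · simp only [zero_mul, Complex.exp_zero, one_mul, Prod.fst_add, Prod.smul_fst, smul_eq_mul,
        h2, h3]
      ring
    · simp only [zero_mul, Complex.exp_zero, one_mul, Prod.snd_add, Prod.smul_snd, smul_eq_mul,
        h3]
      push_cast
      ring
  · intro t x hx
    have hx0 : x.1 ≠ 0 := hx
    rw [dl_symm, mono_dl _ _ (show dl 1 t x ∈ M from hx)]
    have he : Complex.exp (t * x.1) * Complex.exp (-t * x.1) = 1 := by
      rw [← Complex.exp_add]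
      simp
    have hc : Complex.exp (t * x.1) ^ c = Complex.exp (t * (c * x.1)) := by
      rw [← Complex.exp_nat_mul]
      congr 1
      ring
    simp only [dl_apply, zpow_one, mul_pow, pow_succ, hc, sub_self, zpow_zero, Int.cast_one]
    ext
    · simp only
      ring
    · simp only
      linear_combination (-(t * ((c : ℂ) + 1) * x.1 ^ (a + 1) * x.2 ^ c * x.2 *
        Complex.exp (t * (c * x.1))) - a * x.1 ^ a * x.2 ^ c * x.2 *
        Complex.exp (t * (c * x.1))) * he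
  · intro x hx
    simp
  · intro t x hx
    have hE : HasDerivAt (fun t : ℂ => Complex.exp (t * (c * x.1)))
        (Complex.exp (t * (c * x.1)) * (1 * (c * x.1))) t :=
      ((hasDerivAt_id t).mul_const _).cexp
    exact (hE.const_mul _).prodMk ((((hasDerivAt_id t).mul_const _).const_add _).mul hE)
  · have hw : ∀ n : ℕ, ContinuousOn (fun p : ℂ × C2 => p.2.2 ^ n) ((univ : Set ℂ) ×ˢ M) :=
      fun n => (by fun_prop : Continuous fun p : ℂ × C2 => p.2.2 ^ n).continuousOn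
    have hz : ContinuousOn (fun p : ℂ × C2 => p.2.1) ((univ : Set ℂ) ×ˢ M) :=
      (continuous_fst.comp continuous_snd).continuousOn
    have ht : ContinuousOn (fun p : ℂ × C2 => p.1) ((univ : Set ℂ) ×ˢ M) :=
      continuous_fst.continuousOn
    have hE : ContinuousOn (fun p : ℂ × C2 => Complex.exp (p.1 * (c * p.2.1)))
        ((univ : Set ℂ) ×ˢ M) := (ht.mul (continuousOn_const.mul hz)).cexp
    have hE' := hE.mul (continuousOn_const.mul (continuousOn_const.mul hz) :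
      ContinuousOn (fun p : ℂ × C2 => 1 * ((c : ℂ) * p.2.1)) ((univ : Set ℂ) ×ˢ M))
    have hg : ContinuousOn (fun p : ℂ × C2 => ((c : ℂ) + 1) * p.2.1 ^ (a + 1) * p.2.2 ^ (c + 1))
        ((univ : Set ℂ) ×ˢ M) := (continuousOn_const.mul (mono_cz _)).mul (hw _)
    have hk : ContinuousOn (fun p : ℂ × C2 => (a : ℂ) * p.2.1 ^ a * p.2.2 ^ (c + 1))
        ((univ : Set ℂ) ×ˢ M) := (continuousOn_const.mul (mono_cz _)).mul (hw _)
    refine ContinuousOn.prodMk ?_ (ContinuousOn.add ?_ ?_)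
    · exact ((continuousOn_const.mul (mono_cz _)).mul (hw _)).mul hE'
    · exact (continuousOn_const.mul hg).mul hE
    · exact (hk.add (ht.mul hg)).mul hE'

theorem InS_Y (a : ℤ) (b : ℕ) : InS (fun x => (0, x.1 ^ a * x.2 ^ b)) := by
  cases b with
  | zero =>
    refine InS_congr (fun x _ => ?_) (mono_Y0 a)
    simp
  | succ c =>
    have h := mono_Yb (a - 1) c
    rwa [sub_add_cancel] at h

theorem InS_X (a : ℤ) (b : ℕ) : InS (fun x => (x.1 ^ a * x.2 ^ b, 0)) := by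
  have h1 := InS_smul (-((a - 1 : ℤ) : ℂ)) (InS_Y (a - 1) (b + 1))
  have h2 := InS_smul (-((b : ℂ) + 1)⁻¹) (InS_add (mono_H (a - 1) b) h1)
  refine InS_congr (fun x _ => ?_) h2
  have hb : ((b : ℂ) + 1) ≠ 0 := by exact_mod_cast Nat.succ_ne_zero b
  ext
  · simp only [sub_add_cancel, Prod.fst_add, Prod.smul_fst, smul_eq_mul, mul_zero, add_zero]
    field_simp
  · simp only [Prod.snd_add, Prod.smul_snd, smul_eq_mul]
    ring

private theorem InS_zero : InS (fun _ => (0, 0)) := by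
  refine InS_congr (fun x _ => ?_) (InS_smul 0 InS_base)
  rw [zero_smul]
  rfl

private theorem InS_sum (V : ℤ × ℕ → C2 → C2) (hV : ∀ i, InS (V i)) (c : ℤ × ℕ → ℂ)
    (s : Finset (ℤ × ℕ)) : InS (fun x => ∑ i ∈ s, c i • V i x) := by
  classical
  induction s using Finset.induction_on with
  | empty =>
    simp only [Finset.sum_empty]
    exact InS_zero
  | insert i s hi ih =>
    simp only [Finset.sum_insert hi]
    exact InS_add (InS_smul _ (hV i)) ih

theorem InS_LP {P₁ P₂ : C2 → ℂ} (h₁ : P₁ ∈ LP) (h₂ : P₂ ∈ LP) : InS (fun x => (P₁ x, P₂ x)) := by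
  obtain ⟨s, c, hs⟩ := LP_sum h₁
  obtain ⟨s', c', hs'⟩ := LP_sum h₂
  have h := InS_add (InS_sum _ (fun i => InS_X i.1 i.2) c s)
    (InS_sum _ (fun i => InS_Y i.1 i.2) c' s')
  refine InS_congr (fun x hx => ?_) h
  rw [hs x hx, hs' x hx]
  ext
  · simp only [Prod.fst_add, Prod.fst_sum, Prod.smul_fst, smul_eq_mul, mul_zero,
      Finset.sum_const_zero, add_zero]
  · simp only [Prod.snd_add, Prod.snd_sum, Prod.smul_snd, smul_eq_mul, mul_zero,
      Finset.sum_const_zero, zero_add]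

end Pool.Agent.MP_fe3720.X
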