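import Pool.Agent.Work.MP_fe3720_an.X.Defs

/-!
# Uniform convergence of difference quotients (size S-M, pure Mathlib)

PROOF. The function `Q'` is continuous on `univ ×ˢ U`, so `(t, x) ↦ Q' t x - Q' 0 x` is small, `< ε/2`, for
`‖t‖ < δ` and all `x ∈ K` (compactness of `K`: generalized tube lemma, or `IsCompact.uniformContinuousOn_of_continuous` on
`closedBall 0 1 ×ˢ K`). For such `t` and `x ∈ K` the function `s ↦ Q s x - s • Q' 0 x` has on the convex ball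
`‖s‖ < δ` the derivative `Q' s x - Q' 0 x` of norm `≤ ε/2`, so by the mean value inequality
(`Convex.norm_image_sub_le_of_norm_hasDerivWithin_le`) `‖Q t x - Q 0 x - t • Q' 0 x‖ ≤ (ε/2) ‖t‖`; divide by `t`.
`unif_small` is the same estimate for a function of the real variable `h`.
-/

namespace Pool.Agent.MP_fe3720.X

open Topology Filter Set

private theorem quot_aux {𝕜 : Type*} [RCLike 𝕜] [NormedSpace 𝕜 C2] {Q Q' : 𝕜 → C2 → C2}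
    {U : Set C2} (hd : ∀ t, ∀ x ∈ U, HasDerivAt (fun s => Q s x) (Q' t x) t)
    (hc : ContinuousOn (fun p : 𝕜 × C2 => Q' p.1 p.2) (univ ×ˢ U)) {K : Set C2} (hK : IsCompact K)
    (hKU : K ⊆ U) {ε : ℝ} (hε : 0 < ε) :
    ∃ δ > 0, ∀ t : 𝕜, ‖t‖ < δ → ∀ x ∈ K, ‖Q t x - Q 0 x - t • Q' 0 x‖ ≤ ε * ‖t‖ := by
  have hS : IsCompact (Metric.closedBall (0 : 𝕜) 1 ×ˢ K) := (isCompact_closedBall _ _).prod hK
  have hu := hS.uniformContinuousOn_of_continuous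
    (hc.mono (prod_mono (subset_univ _) hKU))
  obtain ⟨δ₁, hδ₁, hu'⟩ := Metric.uniformContinuousOn_iff.1 hu ε hε
  refine ⟨min δ₁ 1, lt_min hδ₁ one_pos, fun t ht x hx => ?_⟩
  have ht1 : ‖t‖ < 1 := ht.trans_le (min_le_right _ _)
  have hcx : Convex ℝ (Metric.ball (0 : 𝕜) (min δ₁ 1)) := convex_ball _ _
  have h1 : ∀ s ∈ Metric.ball (0 : 𝕜) (min δ₁ 1),
      HasDerivWithinAt (fun s => Q s x - s • Q' 0 x) (Q' s x - Q' 0 x)
        (Metric.ball (0 : 𝕜) (min δ₁ 1)) s := by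
    intro s _
    have h2 : HasDerivAt (fun s : 𝕜 => s • Q' 0 x) (Q' 0 x) s := by
      simpa using (hasDerivAt_id s).smul_const (Q' 0 x)
    exact ((hd s x (hKU hx)).sub h2).hasDerivWithinAt
  have h3 : ∀ s ∈ Metric.ball (0 : 𝕜) (min δ₁ 1), ‖Q' s x - Q' 0 x‖ ≤ ε := by
    intro s hs
    rw [mem_ball_zero_iff] at hs
    have h4 := hu' (s, x) ⟨by
      rw [mem_closedBall_zero_iff]
      exact (hs.trans_le (min_le_right _ _)).le, hx⟩ (0, x) ⟨by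
      rw [mem_closedBall_zero_iff, norm_zero]
      exact zero_le_one, hx⟩ (by
      rw [Prod.dist_eq, dist_self, max_eq_left dist_nonneg, dist_zero_right]
      exact hs.trans_le (min_le_left _ _))
    rw [dist_eq_norm] at h4
    exact h4.le
  have h5 := hcx.norm_image_sub_le_of_norm_hasDerivWithin_le h1 h3
    (Metric.mem_ball_self (lt_min hδ₁ one_pos)) (by rw [mem_ball_zero_iff]; exact ht)
  have h6 : Q t x - t • Q' 0 x - (Q 0 x - (0 : 𝕜) • Q' 0 x) = Q t x - Q 0 x - t • Q' 0 x := by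
    rw [zero_smul]
    abel
  rw [h6, sub_zero] at h5
  exact h5

theorem unif_quot {Q Q' : ℂ → C2 → C2} {U : Set C2} (hU : IsOpen U)
    (hd : ∀ t, ∀ x ∈ U, HasDerivAt (fun s => Q s x) (Q' t x) t)
    (hc : ContinuousOn (fun p : ℂ × C2 => Q' p.1 p.2) (univ ×ˢ U)) {K : Set C2} (hK : IsCompact K)
    (hKU : K ⊆ U) {ε : ℝ} (hε : 0 < ε) :
    ∃ δ > 0, ∀ t : ℂ, t ≠ 0 → ‖t‖ < δ → ∀ x ∈ K, ‖t⁻¹ • (Q t x - Q 0 x) - Q' 0 x‖ < ε := by
  obtain ⟨δ, hδ, h⟩ := quot_aux hd hc hK hKU (half_pos hε)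
  refine ⟨δ, hδ, fun t ht0 ht x hx => ?_⟩
  have h1 := h t ht x hx
  have h2 : t⁻¹ • (Q t x - Q 0 x) - Q' 0 x = t⁻¹ • (Q t x - Q 0 x - t • Q' 0 x) := by
    rw [smul_sub t⁻¹ (Q t x - Q 0 x), smul_smul, inv_mul_cancel₀ ht0, one_smul]
  have h3 : 0 < ‖t‖ := norm_pos_iff.2 ht0
  rw [h2, norm_smul, norm_inv]
  calc ‖t‖⁻¹ * ‖Q t x - Q 0 x - t • Q' 0 x‖ ≤ ‖t‖⁻¹ * (ε / 2 * ‖t‖) := by gcongr
    _ = ε / 2 := by field_simp
    _ < ε := half_lt_self hε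

theorem unif_small {Q Q' : ℝ → C2 → C2} {U : Set C2} (hU : IsOpen U)
    (hd : ∀ t, ∀ x ∈ U, HasDerivAt (fun s => Q s x) (Q' t x) t)
    (hc : ContinuousOn (fun p : ℝ × C2 => Q' p.1 p.2) (univ ×ˢ U)) {K : Set C2} (hK : IsCompact K)
    (hKU : K ⊆ U) (h0 : ∀ x ∈ K, Q 0 x = 0) {η : ℝ} (hη : ∀ x ∈ K, ‖Q' 0 x‖ < η) :
    ∃ δ > 0, ∀ t : ℝ, |t| < δ → ∀ x ∈ K, ‖Q t x‖ ≤ η * |t| := by
  rcases K.eq_empty_or_nonempty with rfl | hne
  · exact ⟨1, one_pos, fun t _ x hx => absurd hx (notMem_empty x)⟩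
  have hcont : ContinuousOn (fun x => ‖Q' 0 x‖) K := by
    have h1 : ContinuousOn (fun x : C2 => Q' 0 x) K := by
      have h2 : ContinuousOn (fun x : C2 => ((0 : ℝ), x)) K := by fun_prop
      exact hc.comp h2 fun x hx => ⟨mem_univ _, hKU hx⟩
    exact h1.norm
  obtain ⟨x₀, hx₀, hmax⟩ := hK.exists_isMaxOn hne hcont
  have hpos : 0 < η - ‖Q' 0 x₀‖ := sub_pos.2 (hη x₀ hx₀)
  obtain ⟨δ, hδ, h⟩ := quot_aux hd hc hK hKU hpos
  refine ⟨δ, hδ, fun t ht x hx => ?_⟩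
  have h1 := h t (by rwa [Real.norm_eq_abs]) x hx
  have h2 : ‖Q' 0 x‖ ≤ ‖Q' 0 x₀‖ := hmax hx
  rw [h0 x hx, sub_zero, Real.norm_eq_abs] at h1
  calc ‖Q t x‖ = ‖(Q t x - t • Q' 0 x) + t • Q' 0 x‖ := by rw [sub_add_cancel]
    _ ≤ ‖Q t x - t • Q' 0 x‖ + ‖t • Q' 0 x‖ := norm_add_le _ _
    _ ≤ (η - ‖Q' 0 x₀‖) * |t| + |t| * ‖Q' 0 x₀‖ := by
      rw [norm_smul, Real.norm_eq_abs]
      gcongr
    _ = η * |t| := by ring

end Pool.Agent.MP_fe3720.X
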