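import Pool.Agent.Work.MP_fe3720_an.X.StepL

/-!
# The sequence of states (size M)

PROOF. `good_zero`: `e = 1`, `r = 1/2`, `R = 2` (constant sequences) satisfy `PreTower 0`; `add_tasks` with `g = 1`, `m = 0`,
`ε₀ = 1`. `exists_seqD`: by recursion (choice) there is `s : ℕ → St` with `Good k (s k)` and `StepR k (s k) (s (k+1))` for
all `k`. Put `e k = (s (k+1)).e k`, `r k = (s k).r k`, `R k = (s k).R k`, `g k = (s k).g`, `m k = (s k).m`, `ε k = (s k).ε`.
By induction on `l`: `(s (k + l)).e i = e i` for `i < k`..., precisely `(s l).e i = e i` for all `i < l`, and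
`(s l).r i = r i`, `(s l).R i = R i` for all `i ≤ l`. So `KK`, `Th`, `VT`, `mu` of the states agree with those of the
final sequences (`KK_congr`, `Th_congr`, `VT_congr`, `mu_congr`; for `mu e j` with `j ≤ k` use agreement below `j`).
`Tower`: from `PreTower (k+1)` of `s (k+1)`.
-/

namespace Pool.Agent.MP_fe3720.X

open Topology Filter Set

theorem good_zero : ∃ s, Good 0 s := by
  have hT : PreTower 0 (fun _ => 1) (fun _ => 1 / 2) (fun _ => 2) :=
    ⟨fun i h => absurd h (Nat.not_lt_zero i), fun _ _ => by norm_num, fun _ _ => by norm_num,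
      fun _ _ => by norm_num, fun i h => absurd h (Nat.not_lt_zero i),
      fun i h => absurd h (Nat.not_lt_zero i), fun i h => absurd h (Nat.not_lt_zero i)⟩
  obtain ⟨g', m', ε, _, _, _, h⟩ := add_tasks hT (fun _ => 1) (fun _ => G.one_mem) 0 one_pos
  exact ⟨_, h⟩

private theorem sq_states : ∃ s : ℕ → St, (∀ k, Good k (s k)) ∧ ∀ k, StepR k (s k) (s (k + 1)) := by
  obtain ⟨s₀, hs₀⟩ := good_zero
  choose! nx hnx using fun (k : ℕ) (s : St) (hs : Good k s) => exists_step hs
  let s : ℕ → St := fun k => Nat.rec s₀ (fun k t => nx k t) k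
  have hg : ∀ k, Good k (s k) := by
    intro k
    induction k with
    | zero => exact hs₀
    | succ k ih => exact (hnx k (s k) ih).1
  exact ⟨s, hg, fun k => (hnx k (s k) (hg k)).2⟩

theorem exists_seqD : ∃ (e r R : ℕ → ℝ) (g : ℕ → ℕ → Equiv.Perm C2) (m : ℕ → ℕ) (ε : ℕ → ℝ),
    SeqD e r R g m ε := by
  obtain ⟨s, hs, hst⟩ := sq_states
  let e : ℕ → ℝ := fun k => (s (k + 1)).e k
  let r : ℕ → ℝ := fun k => (s k).r k
  let R : ℕ → ℝ := fun k => (s k).R k
  have he : ∀ l i, i < l → (s l).e i = e i := by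
    intro l
    induction l with
    | zero => intro i hi; omega
    | succ l ih =>
      intro i hi
      rcases Nat.lt_succ_iff_lt_or_eq.1 hi with h | h
      · rw [(hst l).e_eq i h, ih i h]
      · rw [h]
  have hr : ∀ l i, i ≤ l → (s l).r i = r i := by
    intro l
    induction l with
    | zero => intro i hi; rw [Nat.le_zero.1 hi]
    | succ l ih =>
      intro i hi
      rcases Nat.le_succ_iff_eq_or_le.1 hi with h | h
      · rw [h]
      · rw [(hst l).r_eq i h, ih i h]
  have hR : ∀ l i, i ≤ l → (s l).R i = R i := by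
    intro l
    induction l with
    | zero => intro i hi; rw [Nat.le_zero.1 hi]
    | succ l ih =>
      intro i hi
      rcases Nat.le_succ_iff_eq_or_le.1 hi with h | h
      · rw [h]
      · rw [(hst l).R_eq i h, ih i h]
  have hKK : ∀ l j, j ≤ l → KK (s l).e (s l).r (s l).R j = KK e r R j := fun l j hj =>
    KK_congr (fun i hi => he l i (hi.trans_le hj)) (hr l j hj) (hR l j hj)
  have hTh : ∀ l (γ : Equiv.Perm C2) t x, Th (s l).e l γ t x = Th e l γ t x := fun l γ t x =>
    Th_congr (fun i hi => he l i hi) γ t x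
  have hVT : ∀ l (γ : Equiv.Perm C2) x, VT (s l).e l γ x = VT e l γ x := fun l γ x =>
    VT_congr (fun i hi => he l i hi) γ x
  have hmu : ∀ l j, j ≤ l → ∀ a b σ x, mu (s l).e j a b σ x = mu e j a b σ x :=
    fun l j hj a b σ x => mu_congr (fun i hi => he l i (hi.trans_le hj)) a b σ x
  refine ⟨e, r, R, fun k => (s k).g, fun k => (s k).m, fun k => (s k).ε, ?_⟩
  constructor
  · constructor
    · intro k
      have := (hs (k + 1)).pre.e_pos k (Nat.lt_succ_self k)
      exact this
    · intro k
      exact (hs k).pre.r_pos k le_rfl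
    · intro k
      exact (hs k).pre.r_lt k le_rfl
    · intro k
      exact (hs k).pre.R_gt k le_rfl
    · intro k
      have := (hs (k + 1)).pre.small k (Nat.lt_succ_self k)
      rwa [hR (k + 1) k (Nat.le_succ k), hr (k + 1) k (Nat.le_succ k)] at this
    · intro k
      have := (hs (k + 1)).pre.r_succ k (Nat.lt_succ_self k)
      rwa [hr (k + 1) k (Nat.le_succ k), hr (k + 1) (k + 1) le_rfl] at this
    · intro k
      have := (hs (k + 1)).pre.R_succ k (Nat.lt_succ_self k)
      rwa [hR (k + 1) k (Nat.le_succ k), hR (k + 1) (k + 1) le_rfl] at this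
  · exact fun k i => (hs k).mem i
  · exact fun k => (hs k).pos
  · exact fun k => (hst k).ε_le
  · exact fun k => (hst k).m_le
  · intro k i hi t ht x hx
    have := (hst k).close i hi t ht x (by rw [hKK k k le_rfl]; exact hx)
    rwa [hTh, hTh] at this
  · intro k i hi t ht x hx y hy
    have := (hst k).thick i hi t ht x (by rw [hKK k k le_rfl]; exact hx) y (by rw [hTh]; exact hy)
    rwa [hKK (k + 1) (k + 1) le_rfl] at this
  · intro k j hj a ha b hb σ
    obtain ⟨I, c, h1, h2, h3⟩ := (hs k).task j hj a ha b hb σ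
    refine ⟨I, c, h1, fun x hx => ?_, h3⟩
    have := h2 x (by rw [hKK k j hj]; exact hx)
    rw [hmu k j hj] at this
    simpa only [hVT] using this

end Pool.Agent.MP_fe3720.X
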