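import Pool.Agent.Work.MP_fe3720_an.X.GBase
import Pool.Agent.Work.MP_fe3720_an.X.Quot

/-!
# The class `InS`: closure properties (size M)

PROOFS. `InS_base`: `m = 1`, `g = 1`, `pbM 1 x = (0, x.1⁻¹)` (`pbM_eq`, or directly). `InS_add`: concatenate the
families (`Fin.append` or `Fin (m₁ + m₂)`, `Fin.sum_univ_add`), accuracy `ε/2`. `InS_smul`: scale the coefficients.
`InS_lim`: if on every compact `K ⊆ M` the field `V` is a uniform limit of fields in `InS`, then `V` is in `InS`.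
`InS_pull`: let `K ⊆ M` be compact; `‖fderiv ℂ g.symm (g x)‖ ≤ B` for `x ∈ K` (continuity: `G_smooth (symm_mem hg)`).
Choose the family `(c_i, g_i)` for `V` on the compact set `g '' K ⊆ M` with accuracy `ε / (B + 1)`. Then
`fderiv ℂ g.symm (g x) (V (g x))` is within `ε` of `Σ c_i fderiv ℂ g.symm (g x) (pbM g_i (g x)) = Σ c_i pbM (g_i * g) x`:
indeed `(g_i * g).symm = g.symm ∘ g_i.symm`, so `pbM (g_i * g) x = d/ds g.symm (g_i.symm (sh (-1) s (g_i (g x))))` at `0`,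
chain rule with `pbM_hasDeriv` at the point `g x` (`g_i.symm (sh (-1) 0 (g_i (g x))) = g x`).
`InS_deriv`: for `t ≠ 0` the field `t⁻¹ • (Q t - Q 0)` is in `InS` (`Q t` by `InS_pull`, `Q 0 = V` by hypothesis on `M`;
`InS_congr`), and by `unif_quot` it converges to `Q' 0` uniformly on compact sets: `InS_lim`.
-/

namespace Pool.Agent.MP_fe3720.X

open Topology Filter Set

variable {V W : C2 → C2}

theorem InS_base : InS (fun x => (0, (x.1)⁻¹)) := by
  intro K hK _ ε hε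
  refine ⟨1, fun _ => 1, fun _ => 1, fun _ => G.one_mem, fun x hx => ?_⟩
  have h1 : pbM 1 x = (0, (x.1)⁻¹) := by
    rw [pbM_eq G.one_mem (hK hx)]
    have h2 : fderiv ℂ (⇑(1 : Equiv.Perm C2).symm) ((1 : Equiv.Perm C2) x) =
        ContinuousLinearMap.id ℂ C2 := by
      have h3 : ⇑(1 : Equiv.Perm C2).symm = id := rfl
      rw [h3, fderiv_id]
    rw [h2]
    rfl
  simp [h1, hε]

theorem InS_congr (h : ∀ x ∈ M, V x = W x) (hV : InS V) : InS W := by
  intro K hK hKc ε hε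
  obtain ⟨m, c, g, hg, hx⟩ := hV K hK hKc ε hε
  refine ⟨m, c, g, hg, fun x hxK => ?_⟩
  rw [← h x (hK hxK)]
  exact hx x hxK

theorem InS_add (hV : InS V) (hW : InS W) : InS (fun x => V x + W x) := by
  intro K hK hKc ε hε
  obtain ⟨m, c, g, hg, hx⟩ := hV K hK hKc (ε / 2) (half_pos hε)
  obtain ⟨m', c', g', hg', hx'⟩ := hW K hK hKc (ε / 2) (half_pos hε)
  refine ⟨m + m', Fin.append c c', Fin.append g g', ?_, fun x hxK => ?_⟩
  · intro i
    induction i using Fin.addCases with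
    | left i => rw [Fin.append_left]; exact hg i
    | right i => rw [Fin.append_right]; exact hg' i
  · rw [Fin.sum_univ_add]
    simp only [Fin.append_left, Fin.append_right]
    have h1 := hx x hxK
    have h2 := hx' x hxK
    calc ‖V x + W x - (∑ i, c i • pbM (g i) x + ∑ i, c' i • pbM (g' i) x)‖
        = ‖(V x - ∑ i, c i • pbM (g i) x) + (W x - ∑ i, c' i • pbM (g' i) x)‖ := by
          congr 1
          abel
      _ ≤ ‖V x - ∑ i, c i • pbM (g i) x‖ + ‖W x - ∑ i, c' i • pbM (g' i) x‖ := norm_add_le _ _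
      _ < ε := by linarith

theorem InS_smul (c : ℂ) (hV : InS V) : InS (fun x => c • V x) := by
  intro K hK hKc ε hε
  have hpos : 0 < ‖c‖ + 1 := by positivity
  obtain ⟨m, c', g, hg, hx⟩ := hV K hK hKc (ε / (‖c‖ + 1)) (by positivity)
  refine ⟨m, fun i => c * c' i, g, hg, fun x hxK => ?_⟩
  have h1 : c • V x - ∑ i, (c * c' i) • pbM (g i) x = c • (V x - ∑ i, c' i • pbM (g i) x) := by
    rw [smul_sub, Finset.smul_sum]
    simp only [mul_smul]
  rw [h1, norm_smul]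
  have h2 := hx x hxK
  rw [lt_div_iff₀ hpos] at h2
  have h3 := norm_nonneg (V x - ∑ i, c' i • pbM (g i) x)
  nlinarith [norm_nonneg c]

theorem InS_lim (h : ∀ K ⊆ M, IsCompact K → ∀ ε > 0, ∃ W, InS W ∧ ∀ x ∈ K, ‖V x - W x‖ < ε) :
    InS V := by
  intro K hK hKc ε hε
  obtain ⟨W, hW, hVW⟩ := h K hK hKc (ε / 2) (half_pos hε)
  obtain ⟨m, c, g, hg, hx⟩ := hW K hK hKc (ε / 2) (half_pos hε)
  refine ⟨m, c, g, hg, fun x hxK => ?_⟩
  have h1 := hx x hxK
  have h2 := hVW x hxK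
  calc ‖V x - ∑ i, c i • pbM (g i) x‖ = ‖(V x - W x) + (W x - ∑ i, c i • pbM (g i) x)‖ := by
        congr 1
        abel
    _ ≤ ‖V x - W x‖ + ‖W x - ∑ i, c i • pbM (g i) x‖ := norm_add_le _ _
    _ < ε := by linarith

private theorem G_diffAt' {g : Equiv.Perm C2} (hg : g ∈ G) {x : C2} (hx : x ∈ M) :
    DifferentiableAt ℂ g x :=
  ((G_smooth hg).differentiableOn two_ne_zero).differentiableAt (M_open.mem_nhds hx)

private theorem pbM_mul {g g' : Equiv.Perm C2} (hg : g ∈ G) (hg' : g' ∈ G) {x : C2} (hx : x ∈ M) :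
    pbM (g' * g) x = fderiv ℂ g.symm (g x) (pbM g' (g x)) := by
  have h0 : g'.symm (sh (-1) 0 (g' (g x))) = g x := by
    rw [sh_zero, Equiv.symm_apply_apply]
  have h1 : HasFDerivAt g.symm (fderiv ℂ g.symm (g x)) (g'.symm (sh (-1) 0 (g' (g x)))) := by
    rw [h0]
    exact (G_diffAt' (symm_mem hg) (G_maps hg hx)).hasFDerivAt
  have h2 := h1.comp_hasDerivAt (0 : ℂ) (pbM_hasDeriv hg' (G_maps hg hx))
  exact h2.deriv

theorem InS_pull {g : Equiv.Perm C2} (hg : g ∈ G) (hV : InS V) :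
    InS (fun x => fderiv ℂ g.symm (g x) (V (g x))) := by
  intro K hK hKc ε hε
  have hgc : ContinuousOn g K := (G_smooth hg).continuousOn.mono hK
  have hcont : ContinuousOn (fun x => fderiv ℂ g.symm (g x)) K := by
    have h2 : ContinuousOn (fderiv ℂ g.symm) M :=
      (G_smooth (symm_mem hg)).continuousOn_fderiv_of_isOpen M_open (by norm_num)
    exact h2.comp hgc fun x hx => G_maps hg (hK hx)
  obtain ⟨B, hB⟩ := hKc.exists_bound_of_continuousOn hcont
  have hBpos : 0 < |B| + 1 := by positivity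
  have hK' : g '' K ⊆ M := by
    rintro _ ⟨x, hx, rfl⟩
    exact G_maps hg (hK hx)
  obtain ⟨m, c, g', hg', hx⟩ := hV (g '' K) hK' (hKc.image_of_continuousOn hgc)
    (ε / (|B| + 1)) (by positivity)
  refine ⟨m, c, fun i => g' i * g, fun i => G.mul_mem (hg' i) hg, fun x hxK => ?_⟩
  have h1 : fderiv ℂ g.symm (g x) (V (g x)) - ∑ i, c i • pbM (g' i * g) x =
      fderiv ℂ g.symm (g x) (V (g x) - ∑ i, c i • pbM (g' i) (g x)) := by
    rw [map_sub, map_sum]
    simp only [map_smul]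
    congr 1
    refine Finset.sum_congr rfl fun i _ => ?_
    rw [pbM_mul hg (hg' i) (hK hxK)]
  rw [h1]
  have h2 := hx (g x) ⟨x, hxK, rfl⟩
  have h3 := (fderiv ℂ g.symm (g x)).le_opNorm (V (g x) - ∑ i, c i • pbM (g' i) (g x))
  have h4 := hB x hxK
  rw [lt_div_iff₀ hBpos] at h2
  have h5 := norm_nonneg (V (g x) - ∑ i, c i • pbM (g' i) (g x))
  have h6 : ‖fderiv ℂ g.symm (g x)‖ * ‖V (g x) - ∑ i, c i • pbM (g' i) (g x)‖ ≤
      |B| * ‖V (g x) - ∑ i, c i • pbM (g' i) (g x)‖ :=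
    mul_le_mul_of_nonneg_right (h4.trans (le_abs_self B)) h5
  nlinarith

theorem InS_deriv {D : ℂ → Equiv.Perm C2} (hD : ∀ t, D t ∈ G) (hV : InS V) {Q Q' : ℂ → C2 → C2}
    (hQ : ∀ t, ∀ x ∈ M, Q t x = fderiv ℂ (D t).symm (D t x) (V (D t x)))
    (hQ0 : ∀ x ∈ M, Q 0 x = V x)
    (hd : ∀ t, ∀ x ∈ M, HasDerivAt (fun s => Q s x) (Q' t x) t)
    (hc : ContinuousOn (fun p : ℂ × C2 => Q' p.1 p.2) (univ ×ˢ M)) : InS (Q' 0) := by
  refine InS_lim fun K hK hKc ε hε => ?_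
  obtain ⟨δ, hδ, hq⟩ := unif_quot M_open hd hc hKc hK hε
  have ht0 : ((δ / 2 : ℝ) : ℂ) ≠ 0 := by
    simp only [ne_eq, Complex.ofReal_eq_zero]
    positivity
  have htn : ‖((δ / 2 : ℝ) : ℂ)‖ < δ := by
    rw [Complex.norm_real, Real.norm_of_nonneg (by positivity)]
    linarith
  set t : ℂ := ((δ / 2 : ℝ) : ℂ) with ht
  refine ⟨fun x => t⁻¹ • (Q t x - Q 0 x), ?_, fun x hx => ?_⟩
  · have h1 : InS (Q t) := InS_congr (fun x hx => (hQ t x hx).symm) (InS_pull (hD t) hV)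
    have h2 : InS (fun x => (-1 : ℂ) • V x) := InS_smul (-1) hV
    have h3 := InS_smul t⁻¹ (InS_add h1 h2)
    refine InS_congr (fun x hx => ?_) h3
    rw [hQ0 x hx]
    congr 1
    rw [neg_one_smul, sub_eq_add_neg]
  · have := hq t ht0 htn x hx
    rwa [norm_sub_rev] at this

end Pool.Agent.MP_fe3720.X
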