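import Pool.Agent.Work.MP_fe3720_an.X.UpdAll
import Pool.Agent.Work.MP_fe3720_an.X.FlowUp

/-!
# Update of the one-parameter groups `Th` (size M)

Proved (helper71).

PROOF. Put `e' = Function.update e k a`, `n = 2`. `F e' (k+1) x = H 2 a (F e k x)`, `Fi e' (k+1) y = Fi e k (Hi 2 a y)`,
`cc e' (k+1) = a / 2 * cc e k` (`F_congr`, `Fi_congr`, `cc_congr`, `Function.update_of_ne`; note `((2 : ℕ) : ℝ) = 2` in
`flow_up`). By `H_Hi`, for `a > 0`,
`Th e' (k+1) g' t x = Fi e k (G₂ (S (t, G₁ (F e k x))))` with `G₁ y = Hi n a (g' (H n a y))`,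
`S (t, y) = Hi n a (sh (-1) (cc e' (k+1) * t) (H n a y))`, `G₂ y = Hi n a (g'.symm (H n a y))`, which are close to
`g y`, `sh (-1) (cc e k * t) y`, `g.symm y` (`upd_all`, `flow_up` with `c = cc e k`). Use `comp_close` three times
(first find, from the outside to the inside, the compact sets and the accuracies; the last map `Fi e k` is the same on
both sides, with `V = univ`; carry the parameter `t` along: `X = ℂ × C2`, maps `(t, x) ↦ (t, G₁ (F e k x))`, `Y = ℂ × C2`,
`V = univ ×ˢ M`). The same `g'` must serve for `G₁` and `G₂`: choose it for the union of the two compact subsets of `M` and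
the smaller accuracy. Combine the eventual statements with `Filter.Eventually.and` and `self_mem_nhdsWithin` (`a > 0`).
-/

namespace Pool.Agent.MP_fe3720.X

open Topology Filter Set

theorem th_upd {k : ℕ} {e : ℕ → ℝ} {g : Equiv.Perm C2} (hg : g ∈ G)
    {C : Set (ℂ × C2)} (hC : IsCompact C) (hCM : ∀ p ∈ C, F e k p.2 ∈ M) {δ : ℝ} (hδ : 0 < δ) :
    ∀ᶠ a : ℝ in 𝓝[>] 0, ∃ g' ∈ G, ∀ p ∈ C,
      dist (Th (Function.update e k a) (k + 1) g' p.1 p.2) (Th e k g p.1 p.2) < δ := by
  have hgc : ContinuousOn g M := (G_smooth hg).continuousOn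
  have hgsc : ContinuousOn g.symm M := (G_smooth (symm_mem hg)).continuousOn
  have hFc : Continuous (fun p : ℂ × C2 => F e k p.2) := continuous_F.comp continuous_snd
  -- the first map
  have c1 : ContinuousOn (fun p : ℂ × C2 => (p.1, g (F e k p.2))) C :=
    continuous_fst.continuousOn.prodMk (hgc.comp hFc.continuousOn hCM)
  have m1 : MapsTo (fun p : ℂ × C2 => (p.1, g (F e k p.2))) C (univ ×ˢ M) :=
    fun p hp => ⟨mem_univ _, G_maps hg (hCM p hp)⟩
  have c2 : ContinuousOn (fun q : ℂ × C2 => sh (-1) ((cc e k : ℂ) * q.1) q.2) (univ ×ˢ M) := by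
    have h1 : ContinuousOn (fun p : ℂ × C2 => sh (-1) p.1 p.2) (univ ×ˢ M) :=
      (sh_smooth (-1)).continuousOn
    have h2 : Continuous (fun q : ℂ × C2 => ((cc e k : ℂ) * q.1, q.2)) := by fun_prop
    exact h1.comp h2.continuousOn fun q hq => ⟨mem_univ _, hq.2⟩
  have c3 : ContinuousOn (fun p : ℂ × C2 => sh (-1) ((cc e k : ℂ) * p.1) (g (F e k p.2))) C :=
    c2.comp c1 m1
  have m3 : MapsTo (fun p : ℂ × C2 => sh (-1) ((cc e k : ℂ) * p.1) (g (F e k p.2))) C M :=
    fun p hp => G_maps (sh_mem _ _) (G_maps hg (hCM p hp))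
  have c4 : ContinuousOn (fun p : ℂ × C2 =>
      g.symm (sh (-1) ((cc e k : ℂ) * p.1) (g (F e k p.2)))) C := hgsc.comp c3 m3
  obtain ⟨KA, -, -, -, δA, hδA, HA⟩ := comp_close hC isOpen_univ c4 (mapsTo_univ _ _)
    (continuous_Fi (e := e) (k := k)).continuousOn hδ
  obtain ⟨KB, hKBM, hKBc, -, δB, hδB, HB⟩ := comp_close hC M_open c3 m3 hgsc hδA
  obtain ⟨KC, hKCM, hKCc, -, δC, hδC, HC⟩ := comp_close hC (isOpen_univ.prod M_open) c1 m1 c2 hδB
  have hFC : IsCompact ((fun p : ℂ × C2 => F e k p.2) '' C) := hC.image hFc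
  have hFM : (fun p : ℂ × C2 => F e k p.2) '' C ⊆ M := by
    rintro _ ⟨p, hp, rfl⟩
    exact hCM p hp
  have ug := upd_all (n := 2) one_le_two hg ((fun p : ℂ × C2 => F e k p.2) '' C ∪ KB)
    (union_subset hFM hKBM) (hFC.union hKBc) (min δB δC) (lt_min hδB hδC)
  have uf := flow_up (n := 2) one_le_two (cc e k) hKCc (fun p hp => (hKCM hp).2) hδC
  filter_upwards [ug, uf, self_mem_nhdsWithin] with a hga hfa ha
  obtain ⟨g', hg'G, hg'⟩ := hga
  have ha' : a ≠ 0 := ne_of_gt ha
  refine ⟨g', hg'G, ?_⟩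
  have e1 : F (Function.update e k a) k = F e k :=
    F_congr fun i hi => Function.update_of_ne hi.ne a e
  have e2 : Fi (Function.update e k a) k = Fi e k :=
    Fi_congr fun i hi => Function.update_of_ne hi.ne a e
  have e3 : cc (Function.update e k a) k = cc e k :=
    cc_congr fun i hi => Function.update_of_ne hi.ne a e
  have step1 := (HC (fun p => (p.1, Hi 2 a (g' (H 2 a (F e k p.2))))) (fun p hp => by
    have h1 := (hg' (F e k p.2) (Or.inl ⟨p, hp, rfl⟩)).1.trans_le (min_le_right _ _)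
    rw [Prod.dist_eq]
    exact max_lt (by rw [dist_self]; exact hδC) h1)).2
    (fun q => Hi 2 a (sh (-1) (((a / (2 : ℕ) * cc e k : ℝ) : ℂ) * q.1) (H 2 a q.2)))
    (fun q hq => hfa q hq)
  have step2 := (HB _ step1).2 (fun y => Hi 2 a (g'.symm (H 2 a y)))
    (fun y hy => (hg' y (Or.inr hy)).2.trans_le (min_le_left _ _))
  have step3 := (HA _ step2).2 (Fi e k) (fun y _ => by rw [dist_self]; exact hδA)
  intro p hp
  have h := step3 p hp
  simp only [H_Hi ha'] at h
  have h2 : Th (Function.update e k a) (k + 1) g' p.1 p.2 =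
      Fi e k (Hi 2 a (g'.symm (sh (-1) (((a / (2 : ℕ) * cc e k : ℝ) : ℂ) * p.1)
        (g' (H 2 a (F e k p.2)))))) := by
    simp only [Th, Fi, F, cc, e1, e2, e3, Function.update_self, Nat.cast_ofNat]
  rw [h2]
  exact h

end Pool.Agent.MP_fe3720.X
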