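import Pool.Agent.Work.MP_fe3720_an.X.AddT
import Pool.Agent.Work.MP_fe3720_an.X.ThUpd

/-!
# The step of the construction (size M-L)

PROOF. Let `s` be good at stage `k`, `C₀ = KK s.e s.r s.R k` (compact, `F ∈ M` on it). For `i < s.m` put
`B_i = {y | ∃ t x, ‖t‖ ≤ k+1 ∧ x ∈ C₀ ∧ dist y (Th s.e k (s.g i) t x) ≤ 2 s.ε}`: compact (closed thickening of the compact image
of `closedBall 0 (k+1) ×ˢ C₀` under the continuous map `Th`, `Th_smooth`), and `F s.e k y ∈ M` on it (`Good.thick`).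
For all small `a > 0`, with `e' = Function.update s.e k a`:
 (i) `a * s.R k ≤ (s.r k / 4)^2 / 8`;
 (ii) for every `i < s.m` there is `g'_i ∈ G` with `dist (Th e' (k+1) g'_i t x) (Th s.e k (s.g i) t x) < s.ε` for
 `‖t‖ ≤ k+1`, `x ∈ C₀` (`th_upd`, `C = closedBall 0 (k+1) ×ˢ C₀`, `δ = s.ε`);
 (iii) for `y ∈ B = C₀ ∪ ⋃_{i<m} B_i` (compact): `F e' (k+1) y = H 2 a (F s.e k y) ∈ M`, i.e.
 `z^2 ≠ a w` : `‖z‖` is bounded below and `‖w‖` above on `F '' B`.
Fix such an `a`. Choose `r'` = `Function.update s.r (k+1) ρ`, `R'` = `Function.update s.R (k+1) P` with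
`0 < ρ < min ((s.r k/4)^2/2, 1)`, `ρ ≤ ‖(F e' (k+1) y).1‖` on `B`, and `P > s.R k^2 + 1`, `P > 1`, `P ≥ ‖F e' (k+1) y‖`
on `B` (compact). Then `PreTower (k+1) e' r' R'` (for `i < k` nothing changed) and `B_i ⊆ KK e' r' R' (k+1)`.
Let `g₁ i = g'_i` for `i < s.m` and `1` for `i ≥ s.m`; `add_tasks` at stage `k+1` with `g₁`, `m = s.m`, `ε₀ = s.ε/2` gives
`g'', m'', ε''` and the state `s'`, good at stage `k+1`. `StepR`: `e_eq` etc. by `Function.update_of_ne`;
`close` from (ii) (`g'' i = g'_i` for `i < s.m`); `thick` from `B_i ⊆ KK`.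
-/

namespace Pool.Agent.MP_fe3720.X

open Topology Filter Set

private theorem cc_le {k : ℕ} {s : St} (hs : Good k s) {i : ℕ} (hi : i < s.m) :
    IsCompact {y : C2 | ∃ p ∈ (Metric.closedBall (0 : ℂ) (k + 1) ×ˢ KK s.e s.r s.R k),
      dist y (Th s.e k (s.g i) p.1 p.2) ≤ 2 * s.ε} ∧
    ∀ y ∈ {y : C2 | ∃ p ∈ (Metric.closedBall (0 : ℂ) (k + 1) ×ˢ KK s.e s.r s.R k),
      dist y (Th s.e k (s.g i) p.1 p.2) ≤ 2 * s.ε}, F s.e k y ∈ M := by
  have he : ∀ i < k, 0 < s.e i := hs.pre.e_pos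
  have hD : IsCompact (Metric.closedBall (0 : ℂ) (k + 1) ×ˢ KK s.e s.r s.R k) :=
    (isCompact_closedBall _ _).prod (isCompact_KK he)
  constructor
  · have hA : IsCompact ((fun p : ℂ × C2 => Th s.e k (s.g i) p.1 p.2) ''
        (Metric.closedBall (0 : ℂ) (k + 1) ×ˢ KK s.e s.r s.R k)) := by
      refine hD.image_of_continuousOn ?_
      refine (Th_smooth he (hs.mem i)).continuousOn.mono ?_
      rintro p ⟨_, hp⟩
      exact ⟨mem_univ _, KK_M hs.pre hp⟩
    have h2 : {y : C2 | ∃ p ∈ (Metric.closedBall (0 : ℂ) (k + 1) ×ˢ KK s.e s.r s.R k),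
        dist y (Th s.e k (s.g i) p.1 p.2) ≤ 2 * s.ε} =
        Metric.cthickening (2 * s.ε) ((fun p : ℂ × C2 => Th s.e k (s.g i) p.1 p.2) ''
          (Metric.closedBall (0 : ℂ) (k + 1) ×ˢ KK s.e s.r s.R k)) := by
      rw [hA.cthickening_eq_biUnion_closedBall (by linarith [hs.pos])]
      ext y
      simp only [mem_iUnion, exists_prop]
      constructor
      · rintro ⟨p, hp, hy⟩
        exact ⟨_, ⟨p, hp, rfl⟩, hy⟩
      · rintro ⟨_, ⟨p, hp, rfl⟩, hy⟩
        exact ⟨p, hp, hy⟩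
    rw [h2]
    exact hA.cthickening
  · rintro y ⟨p, ⟨hp1, hp2⟩, hy⟩
    exact hs.thick i hi p.1 (by simpa using hp1) p.2 hp2 y hy

private theorem ev_M {A : Set C2} (hA : IsCompact A) (hM : A ⊆ M) :
    ∀ᶠ a : ℝ in 𝓝[>] 0, ∀ y ∈ A, H 2 a y ∈ M := by
  obtain ⟨c, hc, hc'⟩ := hA.exists_forall_le' (f := fun y : C2 => ‖y.1‖) (a := 0)
    (continuous_fst.norm.continuousOn) (fun y hy => norm_pos_iff.2 (hM hy))
  obtain ⟨W, hW⟩ := hA.exists_bound_of_continuousOn (f := fun y : C2 => y.2)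
    continuous_snd.continuousOn
  have h1 : Tendsto (fun a : ℝ => a * |W|) (𝓝[>] 0) (𝓝 (0 * |W|)) :=
    (tendsto_nhdsWithin_of_tendsto_nhds tendsto_id).mul_const _
  rw [zero_mul] at h1
  have h2 : ∀ᶠ a : ℝ in 𝓝[>] 0, a * |W| < c ^ 2 := h1.eventually (gt_mem_nhds (by positivity))
  filter_upwards [h2, self_mem_nhdsWithin] with a ha ha0 y hy
  have ha0' : 0 < a := ha0
  change y.1 ^ 2 - (a : ℂ) * y.2 ≠ 0
  intro h
  have h3 : y.1 ^ 2 = (a : ℂ) * y.2 := sub_eq_zero.1 h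
  have h4 : ‖y.1‖ ^ 2 = a * ‖y.2‖ := by
    rw [← norm_pow, h3, norm_mul, Complex.norm_real, Real.norm_of_nonneg ha0'.le]
  have h5 : c ^ 2 ≤ ‖y.1‖ ^ 2 := pow_le_pow_left₀ hc.le (hc' y hy) 2
  have h6 : a * ‖y.2‖ ≤ a * |W| := mul_le_mul_of_nonneg_left ((hW y hy).trans (le_abs_self W)) ha0'.le
  linarith

theorem exists_step {k : ℕ} {s : St} (hs : Good k s) : ∃ s', Good (k + 1) s' ∧ StepR k s s' := by
  have he : ∀ i < k, 0 < s.e i := hs.pre.e_pos
  set D : Set (ℂ × C2) := Metric.closedBall (0 : ℂ) (k + 1) ×ˢ KK s.e s.r s.R k with hDdef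
  have hC₀ : IsCompact (KK s.e s.r s.R k) := isCompact_KK he
  have hD : IsCompact D := (isCompact_closedBall _ _).prod hC₀
  have hDM : ∀ p ∈ D, F s.e k p.2 ∈ M := fun p hp => KK_M hs.pre hp.2
  set Bi : ℕ → Set C2 := fun i => {y : C2 | ∃ p ∈ D, dist y (Th s.e k (s.g i) p.1 p.2) ≤ 2 * s.ε}
    with hBi
  have hBi1 : ∀ i < s.m, IsCompact (Bi i) := fun i hi => (cc_le hs hi).1
  have hBi2 : ∀ i < s.m, ∀ y ∈ Bi i, F s.e k y ∈ M := fun i hi => (cc_le hs hi).2
  set B : Set C2 := ⋃ i ∈ Finset.range s.m, Bi i with hB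
  have hBc : IsCompact B := (Finset.range s.m).isCompact_biUnion
    (fun i hi => hBi1 i (Finset.mem_range.1 hi))
  have hBM : F s.e k '' B ⊆ M := by
    rintro _ ⟨y, hy, rfl⟩
    simp only [hB, mem_iUnion, Finset.mem_range, exists_prop] at hy
    obtain ⟨i, hi, hy⟩ := hy
    exact hBi2 i hi y hy
  -- the three conditions
  have c1 : ∀ᶠ a : ℝ in 𝓝[>] 0, a * s.R k ≤ (s.r k / 4) ^ 2 / 8 := by
    have h1 : Tendsto (fun a : ℝ => a * s.R k) (𝓝[>] 0) (𝓝 (0 * s.R k)) :=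
      (tendsto_nhdsWithin_of_tendsto_nhds tendsto_id).mul_const _
    rw [zero_mul] at h1
    have h2 := hs.pre.r_pos k le_rfl
    exact (h1.eventually (gt_mem_nhds (by positivity : (0 : ℝ) < (s.r k / 4) ^ 2 / 8))).mono
      fun a ha => ha.le
  have c2 : ∀ᶠ a : ℝ in 𝓝[>] 0, ∀ i ∈ Finset.range s.m, ∃ g' ∈ G, ∀ p ∈ D,
      dist (Th (Function.update s.e k a) (k + 1) g' p.1 p.2) (Th s.e k (s.g i) p.1 p.2) < s.ε := by
    rw [Filter.eventually_all_finset]
    intro i _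
    exact th_upd (hs.mem i) hD hDM hs.pos
  have c3 : ∀ᶠ a : ℝ in 𝓝[>] 0, ∀ y ∈ F s.e k '' B, H 2 a y ∈ M :=
    ev_M (hBc.image continuous_F) hBM
  obtain ⟨a, ⟨⟨ha1, ha2⟩, ha3⟩, ha0⟩ := (((c1.and c2).and c3).and self_mem_nhdsWithin).exists
  have ha0' : 0 < a := ha0
  set e' := Function.update s.e k a with he'
  have hFe : F e' k = F s.e k := F_congr fun i hi => Function.update_of_ne hi.ne _ _
  have hek : e' k = a := Function.update_self _ _ _
  have hF1 : ∀ y ∈ B, F e' (k + 1) y ∈ M := by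
    intro y hy
    change H 2 (e' k) (F e' k y) ∈ M
    rw [hek, hFe]
    exact ha3 _ ⟨y, hy, rfl⟩
  choose! g' hg'G hg' using ha2
  obtain ⟨ρ₀, hρ₀, hρ₀'⟩ := hBc.exists_forall_le' (f := fun y : C2 => ‖(F e' (k + 1) y).1‖) (a := 0)
    (continuous_F.fst.norm.continuousOn) (fun y hy => norm_pos_iff.2 (hF1 y hy))
  obtain ⟨P₀, hP₀⟩ := hBc.exists_bound_of_continuousOn (f := fun y : C2 => F e' (k + 1) y)
    continuous_F.continuousOn
  have hrk := hs.pre.r_pos k le_rfl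
  have hRk := hs.pre.R_gt k le_rfl
  set ρ := min ρ₀ (min ((s.r k / 4) ^ 2 / 2 / 2) (1 / 2)) with hρ
  have hρ1 : 0 < ρ := lt_min hρ₀ (lt_min (by positivity) (by norm_num))
  have hρ2 : ρ < (s.r k / 4) ^ 2 / 2 := by
    have h1 : ρ ≤ (s.r k / 4) ^ 2 / 2 / 2 := (min_le_right _ _).trans (min_le_left _ _)
    have h2 : (0 : ℝ) < (s.r k / 4) ^ 2 / 2 := by positivity
    linarith
  have hρ3 : ρ < 1 := by
    have h1 : ρ ≤ 1 / 2 := (min_le_right _ _).trans (min_le_right _ _)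
    linarith
  have hρ4 : ρ ≤ ρ₀ := min_le_left _ _
  set P := max P₀ (s.R k ^ 2 + 2) with hP
  have hP1 : P₀ ≤ P := le_max_left _ _
  have hP2 : s.R k ^ 2 + 1 < P := by
    have h1 : s.R k ^ 2 + 2 ≤ P := le_max_right _ _
    linarith
  have hP3 : 1 < P := by nlinarith [sq_nonneg (s.R k)]
  set r' := Function.update s.r (k + 1) ρ with hr'
  set R' := Function.update s.R (k + 1) P with hR'
  have er : ∀ i, i ≤ k → r' i = s.r i := fun i hi => Function.update_of_ne (by omega) _ _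
  have eR : ∀ i, i ≤ k → R' i = s.R i := fun i hi => Function.update_of_ne (by omega) _ _
  have ee : ∀ i, i < k → e' i = s.e i := fun i hi => Function.update_of_ne (by omega) _ _
  have er1 : r' (k + 1) = ρ := Function.update_self _ _ _
  have eR1 : R' (k + 1) = P := Function.update_self _ _ _
  have hT' : PreTower (k + 1) e' r' R' := by
    refine ⟨?_, ?_, ?_, ?_, ?_, ?_, ?_⟩
    · intro i hi
      rcases Nat.lt_succ_iff_lt_or_eq.1 hi with h | rfl
      · rw [ee i h]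
        exact he i h
      · rw [hek]
        exact ha0'
    · intro i hi
      rcases Nat.le_succ_iff.1 hi with h | rfl
      · rw [er i h]
        exact hs.pre.r_pos i h
      · rw [er1]
        exact hρ1
    · intro i hi
      rcases Nat.le_succ_iff.1 hi with h | rfl
      · rw [er i h]
        exact hs.pre.r_lt i h
      · rw [er1]
        exact hρ3
    · intro i hi
      rcases Nat.le_succ_iff.1 hi with h | rfl
      · rw [eR i h]
        exact hs.pre.R_gt i h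
      · rw [eR1]
        exact hP3
    · intro i hi
      rcases Nat.lt_succ_iff_lt_or_eq.1 hi with h | rfl
      · rw [ee i h, er i h.le, eR i h.le]
        exact hs.pre.small i h
      · rw [hek, er i le_rfl, eR i le_rfl]
        exact ha1
    · intro i hi
      rcases Nat.lt_succ_iff_lt_or_eq.1 hi with h | rfl
      · rw [er i h.le, er (i + 1) h]
        exact hs.pre.r_succ i h
      · rw [er i le_rfl, er1]
        exact hρ2
    · intro i hi
      rcases Nat.lt_succ_iff_lt_or_eq.1 hi with h | rfl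
      · rw [eR i h.le, eR (i + 1) h]
        exact hs.pre.R_succ i h
      · rw [eR i le_rfl, eR1]
        exact hP2
  obtain ⟨g'', m'', ε'', hgg, hm, hε, hgood⟩ := add_tasks hT'
    (fun i => if i < s.m then g' i else 1)
    (fun i => by
      by_cases hi : i < s.m
      · simp only [hi, if_true]
        exact hg'G i (Finset.mem_range.2 hi)
      · simp only [hi, if_false]
        exact G.one_mem) s.m (half_pos hs.pos)
  refine ⟨⟨e', r', R', g'', m'', ε''⟩, hgood, ?_⟩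
  refine ⟨ee, er, eR, hm, hε, ?_, ?_⟩
  · intro i hi t ht x hx
    have h1 : g'' i = g' i := by
      rw [hgg i hi]
      simp [hi]
    simp only [h1]
    exact (hg' i (Finset.mem_range.2 hi) (t, x) ⟨by simpa using ht, hx⟩).le
  · intro i hi t ht x hx y hy
    have hyB : y ∈ B := by
      simp only [hB, mem_iUnion, Finset.mem_range, exists_prop]
      exact ⟨i, hi, (t, x), ⟨by simpa using ht, hx⟩, hy⟩
    have h1 := hρ₀' y hyB
    have h2 := hP₀ y hyB
    have h3 : ‖(F e' (k + 1) y).1‖ ≤ ‖F e' (k + 1) y‖ := norm_fst_le _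
    have h4 : ‖(F e' (k + 1) y).2‖ ≤ ‖F e' (k + 1) y‖ := norm_snd_le _
    refine ⟨?_, ?_, ?_⟩
    · simp only [er1]
      exact hρ4.trans h1
    · simp only [eR1]
      exact h3.trans (h2.trans hP1)
    · simp only [eR1]
      exact h4.trans (h2.trans hP1)

end Pool.Agent.MP_fe3720.X
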