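import Pool.Agent.Work.MP_fe3720_an.X.Mono
import Pool.Agent.Work.MP_fe3720_an.X.Approx

/-!
# The tasks: monomial fields of level `j ≤ k` are limits, on `K_j`, of combinations of `VT` fields of level `k` (size M)

PROOF. `C = KK e r R j` is compact (`isCompact_KK`), contained in `KK' e r R j ⊆ KK' e r R k` (`KK_sub_KK'`, `KK'_mono`), so
`F e k x ∈ M` for `x ∈ C` (`KK'_M`). The function `q x = (F e j x).1^a * (F e j x).2^b` is in `Ap e j C` (`Ap_LP`, `LP_mono`),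
so in `Ap e k C` (`Ap_level`). The components of `x ↦ fderiv ℂ (F e k) x (mu e j a b σ x)` are `q x` times the components of
`fderiv ℂ (F e k) x (1,0)` or `(0,1)`, in `Ap e k C` by `Ap_dF` (with `j := k`) and `Ap_mul`, `Ap_congr`. Choose `q₁, q₂ ∈ LP` with
`q_i (F e k x)` within `δ'` of these components on `C`, then (`InS_LP`, compact set `F e k '' C ⊆ M`) a family `(m, c, g)` with
`‖(q₁ y, q₂ y) - Σ c_i • pbM (g_i) y‖ < δ'` for `y = F e k x`. Apply `fderiv ℂ (Fi e k) (F e k x)`, bounded by `B` on `C`: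
`fderiv (Fi e k) (F e k x) ∘ fderiv (F e k) x = id` (differentiate `Fi_F`), and by `VT_eq`
`fderiv (Fi e k) (F e k x) (pbM g_i (F e k x)) = (cc e k)⁻¹ • VT e k g_i x` (`cc_pos`). Coefficients `c_i / cc e k`,
`δ' = δ / (2 B + 2)`.
-/

namespace Pool.Agent.MP_fe3720.X

open Topology Filter Set

theorem task_exists {k : ℕ} {e r R : ℕ → ℝ} (hT : PreTower k e r R) {j : ℕ} (hj : j ≤ k) (a : ℤ)
    (b : ℕ) (σ : Bool) {δ : ℝ} (hδ : 0 < δ) :
    ∃ (m : ℕ) (c : Fin m → ℂ) (g : Fin m → Equiv.Perm C2), (∀ i, g i ∈ G) ∧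
      ∀ x ∈ KK e r R j, ‖mu e j a b σ x - ∑ i, c i • VT e k (g i) x‖ < δ := by
  have he : ∀ i < k, 0 < e i := hT.e_pos
  have hC : IsCompact (KK e r R j) := isCompact_KK fun i hi => he i (hi.trans_le hj)
  have hCK : KK e r R j ⊆ KK' e r R j := KK_sub_KK' (hT.r_pos j hj)
  have hM : ∀ x ∈ KK e r R j, F e k x ∈ M := fun x hx => KK'_M hT (KK'_mono hT hj (hCK hx))
  have hcL : Continuous (fun x : C2 => fderiv ℂ (Fi e k) (F e k x)) :=
    ((contDiff_Fi (m := 1)).continuous_fderiv one_ne_zero).comp continuous_F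
  obtain ⟨B₀, hB₀⟩ := hC.exists_bound_of_continuousOn hcL.continuousOn
  set B : ℝ := max B₀ 0 with hB
  have hB0 : 0 ≤ B := le_max_right _ _
  have hBC : ∀ x ∈ KK e r R j, ‖fderiv ℂ (Fi e k) (F e k x)‖ ≤ B := fun x hx =>
    (hB₀ x hx).trans (le_max_left _ _)
  set δ' : ℝ := δ / (2 * B + 2) with hδ'
  have hδ'0 : 0 < δ' := by positivity
  obtain ⟨v, hv⟩ : ∃ v : C2, ∀ x, mu e j a b σ x = ((F e j x).1 ^ a * (F e j x).2 ^ b) • v := by
    cases σ with
    | true =>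
      refine ⟨(1, 0), fun x => ?_⟩
      simp [mu]
    | false =>
      refine ⟨(0, 1), fun x => ?_⟩
      simp [mu]
  have hAq : Ap e k (KK e r R j) (fun x => (F e j x).1 ^ a * (F e j x).2 ^ b) :=
    Ap_level hT hj hC hCK (Ap_LP (LP_mono a b))
  obtain ⟨hd1, hd2⟩ := Ap_dF he hC hM le_rfl v
  obtain ⟨q₁, hq₁, hq₁'⟩ := Ap_mul hC hM hAq hd1 δ' hδ'0
  obtain ⟨q₂, hq₂, hq₂'⟩ := Ap_mul hC hM hAq hd2 δ' hδ'0
  have hK : IsCompact (F e k '' KK e r R j) := hC.image continuous_F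
  have hKM : F e k '' KK e r R j ⊆ M := by
    rintro _ ⟨x, hx, rfl⟩
    exact hM x hx
  obtain ⟨m, c, g, hg, hcg⟩ := InS_LP hq₁ hq₂ (F e k '' KK e r R j) hKM hK δ' hδ'0
  have hcc : (cc e k : ℂ) ≠ 0 := by exact_mod_cast (cc_pos he).ne'
  refine ⟨m, fun i => c i * (cc e k : ℂ)⁻¹, g, hg, fun x hx => ?_⟩
  have hinv : ∀ u : C2, fderiv ℂ (Fi e k) (F e k x) (fderiv ℂ (F e k) x u) = u := by
    intro u
    have h1 : HasFDerivAt (Fi e k) (fderiv ℂ (Fi e k) (F e k x)) (F e k x) :=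
      ((contDiff_Fi (m := 1)).differentiable one_ne_zero _).hasFDerivAt
    have h2 : HasFDerivAt (F e k) (fderiv ℂ (F e k) x) x :=
      ((contDiff_F (m := 1)).differentiable one_ne_zero _).hasFDerivAt
    have h3 := h1.comp x h2
    have h4 : (Fi e k ∘ F e k) = id := by
      funext y
      exact Fi_F he y
    rw [h4] at h3
    have h5 := h3.unique (hasFDerivAt_id x)
    have h6 := congrArg (fun L : C2 →L[ℂ] C2 => L u) h5
    simpa using h6
  set p : C2 := ((F e j x).1 ^ a * (F e j x).2 ^ b) • fderiv ℂ (F e k) x v with hp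
  have e1 : fderiv ℂ (Fi e k) (F e k x) p = mu e j a b σ x := by
    rw [hp, map_smul, hinv, hv]
  have e2 : mu e j a b σ x - ∑ i, (c i * (cc e k : ℂ)⁻¹) • VT e k (g i) x =
      fderiv ℂ (Fi e k) (F e k x) (p - ∑ i, c i • pbM (g i) (F e k x)) := by
    rw [map_sub, e1, map_sum]
    congr 1
    refine Finset.sum_congr rfl fun i _ => ?_
    rw [map_smul, VT_eq he (hg i) (hM x hx), smul_smul, mul_assoc, inv_mul_cancel₀ hcc, mul_one]
  have e3 : ‖p - (q₁ (F e k x), q₂ (F e k x))‖ < δ' := by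
    rw [norm_sub_rev, Prod.norm_def, max_lt_iff]
    exact ⟨hq₁' x hx, hq₂' x hx⟩
  have e4 : ‖(q₁ (F e k x), q₂ (F e k x)) - ∑ i, c i • pbM (g i) (F e k x)‖ < δ' :=
    hcg _ ⟨x, hx, rfl⟩
  have e5 : ‖p - ∑ i, c i • pbM (g i) (F e k x)‖ < 2 * δ' := by
    have := norm_sub_le_norm_sub_add_norm_sub p (q₁ (F e k x), q₂ (F e k x))
      (∑ i, c i • pbM (g i) (F e k x))
    linarith
  show ‖mu e j a b σ x - ∑ i, (c i * (cc e k : ℂ)⁻¹) • VT e k (g i) x‖ < δ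
  rw [e2]
  calc ‖fderiv ℂ (Fi e k) (F e k x) (p - ∑ i, c i • pbM (g i) (F e k x))‖
      ≤ ‖fderiv ℂ (Fi e k) (F e k x)‖ * ‖p - ∑ i, c i • pbM (g i) (F e k x)‖ :=
        ContinuousLinearMap.le_opNorm _ _
    _ ≤ B * (2 * δ') := mul_le_mul (hBC x hx) e5.le (norm_nonneg _) hB0
    _ < δ := by
        rw [hδ', ← mul_assoc, mul_div_assoc', div_lt_iff₀ (by positivity)]
        nlinarith

end Pool.Agent.MP_fe3720.X
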