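import Pool.Agent.Work.MP_fe3720_an.X.Word
import Pool.Agent.Work.MP_fe3720_an.X.Fan
import Pool.Agent.Work.MP_fe3720_an.X.Lip
import Pool.Agent.Work.MP_fe3720_an.X.Quot

/-!
# Trotter approximation by elements of `G` (size M-L)

PROOF. Let `L`, `ρ₁` be from `eflow_lip` for `T`. Choose `η > 0` with `η ≤ ρ₁`, `2 L η ≤ ρ`, `L η < δ`. Take the family
`(m, c, g)` with `‖y x - Σ c_i • pbE n e (g i) x‖ < η` on `T`. For `h : ℝ` put `A_h x = Hi n e (Aw c g h (H n e x))`,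
`A'_h x = Hi n e ((Aw c g h).symm (H n e x))`, and `Q h x = A_h x - ψ h x`. On the open set
`U = {x ∈ M | H n e x ∈ M} ⊇ T`, `Q` is jointly `C¹` in `(h, x) ∈ ℝ × U` (restrict scalars, `Aw_smooth`, `contDiff_Hi`,
`contDiff_H`, `hψ.smooth`), so it has a derivative `Q' h x` in `h`, jointly continuous; `Q 0 x = 0`
(`Aw_zero`, `Hi_H`, `hψ.zero`), and `Q' 0 x = Σ c_i • pbE n e (g i) x - y x` (`Aw_deriv` at the point `H n e x`, chain rule
with `Hi n e`, `pbE` is by definition the derivative of the same expression: `pbE n e g x = fderiv ℂ (Hi n e) (H n e x) (pbM g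
(H n e x))`, easy chain rule with `pbM_hasDeriv`), so `‖Q' 0 x‖ < η` on `T`. By `unif_small` there is `δ₁ > 0` with
`‖Q h x‖ ≤ η |h|` for `|h| < δ₁`, `x ∈ T`. Same for `Q₂ h x = A'_h x - ψ (-h) x` (`Aw_symm_deriv`; the derivative of
`ψ (-h) x` at `0` is `- y x`), with some `δ₂`. Choose `N` with `1/N < min δ₁ δ₂`, and `g' = (Aw c g (1/N)) ^ N ∈ G`. Then
`Hi n e (g' (H n e x)) = A^[N] x` with `A = A_{1/N}` (`H_Hi`: `H n e (Hi n e y) = y`), and the inverse is `A'^[N]`.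
Apply `fan` to `ψ`, `A`, `T`, `L`, `η`, `ρ` and every `x ∈ C` (`htube`): `dist (A^[N] x) (ψ 1 x) ≤ L η < δ`; and to
`s ↦ ψ (-s)`, `A'`: `dist (A'^[N] x) (ψ (-1) x) < δ`.
-/

namespace Pool.Agent.MP_fe3720.X

open Topology Filter Set

private theorem real_smooth {n : ℕ} {e : ℝ} {B : ℂ → C2 → C2}
    (hB : ContDiffOn ℂ 2 (fun p : ℂ × C2 => B p.1 p.2) (univ ×ˢ M)) :
    ContDiffOn ℝ 1 (fun p : ℝ × C2 => Hi n e (B p.1 (H n e p.2)))
      (univ ×ˢ {x | x ∈ M ∧ H n e x ∈ M}) := by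
  have h1 : ContDiff ℝ 1 (fun p : ℝ × C2 => ((p.1 : ℂ), H n e p.2)) := by
    refine ContDiff.prodMk ?_ ?_
    · exact Complex.ofRealCLM.contDiff.comp contDiff_fst
    · exact ((contDiff_H (m := 1)).restrict_scalars ℝ).comp contDiff_snd
  have h2 : ContDiffOn ℝ 1 (fun p : ℂ × C2 => B p.1 p.2) (univ ×ˢ M) :=
    (hB.restrict_scalars ℝ).of_le (by norm_num)
  have h3 := h2.comp h1.contDiffOn
    (s := univ ×ˢ {x | x ∈ M ∧ H n e x ∈ M}) (fun p hp => ⟨mem_univ _, hp.2.2⟩)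
  exact ((contDiff_Hi (m := 1)).restrict_scalars ℝ).comp_contDiffOn h3

private theorem pbE_eq {n : ℕ} {e : ℝ} {g : Equiv.Perm C2} (hg : g ∈ G) {x : C2}
    (hx : H n e x ∈ M) :
    pbE n e g x = fderiv ℂ (Hi n e) (H n e x) (pbM g (H n e x)) := by
  have h1 := pbM_hasDeriv hg hx
  have h0 : g.symm (sh (-1) 0 (g (H n e x))) = H n e x := by
    rw [sh_zero, Equiv.symm_apply_apply]
  have h2 : HasFDerivAt (Hi n e) (fderiv ℂ (Hi n e) (H n e x))
      (g.symm (sh (-1) 0 (g (H n e x)))) := by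
    rw [h0]
    exact ((contDiff_Hi (m := 1)).differentiable one_ne_zero _).hasFDerivAt
  exact (h2.comp_hasDerivAt (0 : ℂ) h1).deriv

private theorem small_step {n : ℕ} {e : ℝ} (he : 0 < e) {ψ : ℝ → C2 → C2} {y b : C2 → C2}
    (hψ0 : ∀ x, ψ 0 x = x)
    (hψs : ContDiffOn ℝ 1 (fun p : ℝ × C2 => ψ p.1 p.2) (univ ×ˢ M))
    (hψd : ∀ x ∈ M, HasDerivAt (fun s => ψ s x) (y x) 0) {T : Set C2}
    (hT : IsCompact T) (hTM : T ⊆ M) (hTH : ∀ x ∈ T, H n e x ∈ M) {B : ℂ → C2 → C2}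
    (hB : ContDiffOn ℂ 2 (fun p : ℂ × C2 => B p.1 p.2) (univ ×ˢ M)) (hB0 : ∀ x, B 0 x = x)
    (hBd : ∀ x ∈ M, HasDerivAt (fun h : ℂ => B h x) (b x) 0) {η : ℝ} (hη : ∀ x ∈ T,
      ‖y x - fderiv ℂ (Hi n e) (H n e x) (b (H n e x))‖ < η) :
    ∃ δ > 0, ∀ t : ℝ, |t| < δ → ∀ x ∈ T, dist (Hi n e (B t (H n e x))) (ψ t x) ≤ η * |t| := by
  set U : Set C2 := {x | x ∈ M ∧ H n e x ∈ M} with hU
  have hUo : IsOpen U := by
    have h : Continuous (H n e) := (contDiff_H (m := 0)).continuous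
    exact M_open.inter (M_open.preimage h)
  have hUo' : IsOpen ((univ : Set ℝ) ×ˢ U) := isOpen_univ.prod hUo
  set P : ℝ × C2 → C2 := fun p => Hi n e (B p.1 (H n e p.2)) - ψ p.1 p.2 with hP
  have hPs : ContDiffOn ℝ 1 P (univ ×ˢ U) :=
    (real_smooth hB).sub (hψs.mono fun p hp => ⟨hp.1, hp.2.1⟩)
  have hPd : ∀ t : ℝ, ∀ x ∈ U, HasDerivAt (fun s => P (s, x)) (fderiv ℝ P (t, x) (1, 0)) t := by
    intro t x hx
    have h1 : HasFDerivAt P (fderiv ℝ P (t, x)) (t, x) :=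
      ((hPs.differentiableOn one_ne_zero).differentiableAt
        (hUo'.mem_nhds ⟨mem_univ _, hx⟩)).hasFDerivAt
    exact h1.comp_hasDerivAt t ((hasDerivAt_id t).prodMk (hasDerivAt_const t x))
  have hPc : ContinuousOn (fun p : ℝ × C2 => fderiv ℝ P (p.1, p.2) (1, 0)) (univ ×ˢ U) :=
    (hPs.continuousOn_fderiv_of_isOpen hUo' le_rfl).clm_apply continuousOn_const
  have hTU : T ⊆ U := fun x hx => ⟨hTM hx, hTH x hx⟩
  have hval : ∀ x ∈ U, fderiv ℝ P (0, x) (1, 0) =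
      fderiv ℂ (Hi n e) (H n e x) (b (H n e x)) - y x := by
    intro x hx
    have h1 := hPd 0 x hx
    have h2 : HasFDerivAt (Hi n e) (fderiv ℂ (Hi n e) (H n e x)) (B 0 (H n e x)) := by
      rw [hB0]
      exact ((contDiff_Hi (m := 1)).differentiable one_ne_zero _).hasFDerivAt
    have h3 : HasDerivAt (fun h : ℂ => Hi n e (B h (H n e x)))
        (fderiv ℂ (Hi n e) (H n e x) (b (H n e x))) ((0 : ℝ) : ℂ) := by
      rw [Complex.ofReal_zero]
      exact h2.comp_hasDerivAt (0 : ℂ) (hBd _ hx.2)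
    have h4 : HasDerivAt (fun s : ℝ => Hi n e (B s (H n e x)))
        (fderiv ℂ (Hi n e) (H n e x) (b (H n e x))) (0 : ℝ) := by
      have h5 := (h3.hasFDerivAt.restrictScalars ℝ).comp_hasDerivAt (0 : ℝ)
        Complex.ofRealCLM.hasDerivAt
      simp only [ContinuousLinearMap.coe_restrictScalars', Complex.ofRealCLM_apply,
        Complex.ofReal_one, ContinuousLinearMap.toSpanSingleton_apply, one_smul] at h5
      exact h5
    exact h1.unique (h4.sub (hψd x hx.1))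
  obtain ⟨δ, hδ, h⟩ := unif_small (Q := fun t x => P (t, x))
    (Q' := fun t x => fderiv ℝ P (t, x) (1, 0)) hUo hPd hPc hT hTU
    (fun x hx => by
      simp only [hP, Complex.ofReal_zero, hB0, Hi_H he.ne', hψ0, sub_self])
    (fun x hx => by
      rw [hval x (hTU hx), norm_sub_rev]
      exact hη x hx)
  exact ⟨δ, hδ, fun t ht x hx => by rw [dist_eq_norm]; exact h t ht x hx⟩

private theorem iter_eq {n : ℕ} {e : ℝ} (he : 0 < e) (g : Equiv.Perm C2) (N : ℕ) (x : C2) :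
    (fun x => Hi n e (g (H n e x)))^[N] x = Hi n e ((g ^ N) (H n e x)) := by
  induction N generalizing x with
  | zero => simp [Hi_H he.ne']
  | succ N ih =>
    rw [Function.iterate_succ_apply, ih, H_Hi he.ne', pow_succ, Equiv.Perm.mul_apply]

theorem trotter {n : ℕ} {e : ℝ} (he : 0 < e) {ψ : ℝ → C2 → C2} {y : C2 → C2}
    (hψ : EFlow ψ y) {C T : Set C2} {ρ : ℝ} (hρ : 0 < ρ) (hT : IsCompact T) (hTM : T ⊆ M)
    (hTH : ∀ x ∈ T, H n e x ∈ M)
    (htube : ∀ p ∈ C, ∀ s ∈ Icc (-1 : ℝ) 1, ∀ x, dist x (ψ s p) ≤ ρ → x ∈ T)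
    (hap : ∀ δ > 0, ∃ (m : ℕ) (c : Fin m → ℂ) (g : Fin m → Equiv.Perm C2), (∀ i, g i ∈ G) ∧
      ∀ x ∈ T, ‖y x - ∑ i, c i • pbE n e (g i) x‖ < δ) {δ : ℝ} (hδ : 0 < δ) :
    ∃ g' ∈ G, ∀ x ∈ C, dist (Hi n e (g' (H n e x))) (ψ 1 x) < δ ∧
      dist (Hi n e (g'.symm (H n e x))) (ψ (-1) x) < δ := by
  obtain ⟨L, hL, ρ₁, hρ₁, hlip⟩ := eflow_lip hψ hT hTM
  have hL0 : 0 < L := by linarith
  obtain ⟨η, hη0, hη1, hη2, hη3⟩ : ∃ η : ℝ, 0 < η ∧ η ≤ ρ₁ ∧ 2 * L * η ≤ ρ ∧ L * η < δ := by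
    refine ⟨min ρ₁ (min (ρ / (2 * L)) (δ / (2 * L))), by positivity, min_le_left _ _, ?_, ?_⟩
    · calc 2 * L * min ρ₁ (min (ρ / (2 * L)) (δ / (2 * L))) ≤ 2 * L * (ρ / (2 * L)) := by
            gcongr
            exact (min_le_right _ _).trans (min_le_left _ _)
        _ = ρ := by field_simp
    · calc L * min ρ₁ (min (ρ / (2 * L)) (δ / (2 * L))) ≤ L * (δ / (2 * L)) := by
            gcongr
            exact (min_le_right _ _).trans (min_le_right _ _)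
        _ = δ / 2 := by field_simp
        _ < δ := by linarith
  obtain ⟨m, c, g, hg, hy⟩ := hap η hη0
  have hsum : ∀ x ∈ T, fderiv ℂ (Hi n e) (H n e x) (∑ i, c i • pbM (g i) (H n e x)) =
      ∑ i, c i • pbE n e (g i) x := by
    intro x hx
    rw [map_sum]
    refine Finset.sum_congr rfl fun i _ => ?_
    rw [map_smul, pbE_eq (hg i) (hTH x hx)]
  obtain ⟨δ₁, hδ₁, h1⟩ := small_step (n := n) he hψ.zero hψ.smooth hψ.deriv hT hTM hTH
    (B := fun h x => Aw c g h x) (Aw_smooth hg) (fun x => (Aw_zero x).1)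
    (fun x hx => Aw_deriv hg hx) (η := η) (fun x hx => by rw [hsum x hx]; exact hy x hx)
  have hneg : ContDiffOn ℝ 1 (fun p : ℝ × C2 => ψ (-p.1) p.2) (univ ×ˢ M) :=
    hψ.smooth.comp (t := univ ×ˢ M) (f := fun p : ℝ × C2 => ((-p.1, p.2) : ℝ × C2))
      ((contDiff_fst.neg.prodMk contDiff_snd).contDiffOn) (fun p hp => ⟨mem_univ _, hp.2⟩)
  have hnegd : ∀ x ∈ M, HasDerivAt (fun s => ψ (-s) x) (-y x) 0 := by
    intro x hx
    have h2 : HasDerivAt (fun s => ψ s x) (y x) (-(0 : ℝ)) := by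
      rw [neg_zero]
      exact hψ.deriv x hx
    have h3 := h2.scomp (0 : ℝ) (hasDerivAt_neg (0 : ℝ))
    rw [neg_one_smul] at h3
    exact h3
  obtain ⟨δ₂, hδ₂, h2⟩ := small_step (n := n) he (ψ := fun s x => ψ (-s) x)
    (y := fun x => -y x) (fun x => by simp [hψ.zero]) hneg hnegd hT hTM hTH
    (B := fun h x => (Aw c g h).symm x) (Aw_symm_smooth hg) (fun x => (Aw_zero x).2)
    (fun x hx => Aw_symm_deriv hg hx) (η := η) (fun x hx => by
      rw [map_neg, hsum x hx, ← neg_sub_neg, neg_neg, norm_sub_rev, neg_neg] <;>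
      simpa [sub_eq_add_neg, add_comm] using hy x hx)
  obtain ⟨N, hN⟩ := exists_nat_one_div_lt (lt_min hδ₁ hδ₂)
  have hN1 : 0 < N + 1 := Nat.succ_pos N
  have hNr : (0 : ℝ) < ((N + 1 : ℕ) : ℝ) := by exact_mod_cast hN1
  set τ : ℝ := 1 / ((N + 1 : ℕ) : ℝ) with hτ
  have hτ0 : 0 < τ := by positivity
  have hτ1 : |τ| < δ₁ := by
    rw [abs_of_pos hτ0]
    have : τ < min δ₁ δ₂ := by
      rw [hτ]
      push_cast
      exact hN
    exact this.trans_le (min_le_left _ _)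
  have hτ2 : |τ| < δ₂ := by
    rw [abs_of_pos hτ0]
    have : τ < min δ₁ δ₂ := by
      rw [hτ]
      push_cast
      exact hN
    exact this.trans_le (min_le_right _ _)
  have hητ : η * |τ| = η / ((N + 1 : ℕ) : ℝ) := by
    rw [abs_of_pos hτ0, hτ]
    ring
  refine ⟨(Aw c g (τ : ℂ)) ^ (N + 1), G.pow_mem (Aw_mem hg _) _, fun x hx => ⟨?_, ?_⟩⟩
  · have h3 := fan hψ.zero hψ.add (A := fun x => Hi n e (Aw c g (τ : ℂ) (H n e x)))
      hN1 (x := x) (T := T) hL hη0.le hη2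
      (fun s hs z hz => htube x hx s ⟨by linarith [hs.1], hs.2⟩ z hz)
      (fun s hs p hp q hq hpq => hlip s ⟨by linarith [hs.1], hs.2⟩ p hp q hq (hpq.trans hη1))
      (fun p hp => by
        have h4 := h1 τ hτ1 p hp
        rw [hητ] at h4
        exact h4) (N + 1) le_rfl
    rw [iter_eq he, div_self hNr.ne'] at h3
    exact h3.trans_lt hη3
  · have h3 := fan (ψ := fun s x => ψ (-s) x) (fun x => by simp [hψ.zero])
      (fun s t x => by
        simp only [neg_add]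
        exact hψ.add _ _ _) (A := fun x => Hi n e ((Aw c g (τ : ℂ)).symm (H n e x)))
      hN1 (x := x) (T := T) hL hη0.le hη2
      (fun s hs z hz => htube x hx (-s) ⟨by linarith [hs.2], by linarith [hs.1]⟩ z hz)
      (fun s hs p hp q hq hpq =>
        hlip (-s) ⟨by linarith [hs.2], by linarith [hs.1]⟩ p hp q hq (hpq.trans hη1))
      (fun p hp => by
        have h4 := h2 τ hτ2 p hp
        rw [hητ] at h4
        exact h4) (N + 1) le_rfl
    rw [iter_eq he, div_self hNr.ne'] at h3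
    have h5 : ((Aw c g (τ : ℂ)) ^ (N + 1)).symm = (Aw c g (τ : ℂ)).symm ^ (N + 1) := by
      change ((Aw c g (τ : ℂ)) ^ (N + 1))⁻¹ = (Aw c g (τ : ℂ))⁻¹ ^ (N + 1)
      rw [inv_pow]
    rw [h5]
    exact h3.trans_lt hη3

end Pool.Agent.MP_fe3720.X
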