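import Pool.Agent.Work.MP_fe3720_an.X.UpdGen
import Pool.Agent.Work.MP_fe3720_an.X.CompCl
import Pool.Agent.Work.MP_fe3720_an.X.GBase

/-!
# Every element of `G` can be updated (size M)

PROOF. `G_induction` with `P = Upd n`. `1`: `g' = 1`, `Hi_H`. Generators: `UpdGen`. Products: let `Upd n g`, `Upd n h`,
`g, h ∈ G`, `C ⊆ M` compact, `δ > 0`. `comp_close` with `K = C`, `V = M`, `f = h`, `h = g` gives a compact `K' ⊆ M` and `δ'`; for
small `e` choose `h'` for (`C`, `δ'`) and `g'` for (`K'`, `δ'`); with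
`f' x = Hi n e (h' (H n e x))`, `Hi n e (g' (H n e (f' x))) = Hi n e (g' (h' (H n e x)))` by `H_Hi` (`e > 0`): so `g' * h'`
works for the direct part. For the inverse part `(g * h).symm = h.symm ∘ g.symm`: apply `comp_close` with `f = g.symm`,
`h = h.symm` and take the union of the compact sets and the minimum of the `δ'` (the SAME `g', h'` must serve for both,
so choose them for `C ∪ K' ∪ K''` and the smaller `δ`).
-/

namespace Pool.Agent.MP_fe3720.X

open Topology Filter Set

theorem upd_all {n : ℕ} (hn : 1 ≤ n) {g : Equiv.Perm C2} (hg : g ∈ G) : Upd n g := by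
  refine G_induction (P := fun g => Upd n g) ?_ (upd_sh hn) (upd_dl hn) (upd_tw hn) ?_ hg
  · intro C _ _ δ hδ
    filter_upwards [self_mem_nhdsWithin] with e he
    have he' : e ≠ 0 := ne_of_gt he
    refine ⟨1, G.one_mem, fun x _ => ?_⟩
    have h1 : Hi n e ((1 : Equiv.Perm C2) (H n e x)) = (1 : Equiv.Perm C2) x := Hi_H he' x
    have h2 : Hi n e ((1 : Equiv.Perm C2).symm (H n e x)) = (1 : Equiv.Perm C2).symm x :=
      Hi_H he' x
    rw [h1, h2, dist_self, dist_self]
    exact ⟨hδ, hδ⟩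
  · intro g h hg hh ug uh C hCM hC δ hδ
    have cg : ContinuousOn g M := (G_smooth hg).continuousOn
    have ch : ContinuousOn h M := (G_smooth hh).continuousOn
    have cg' : ContinuousOn g.symm M := (G_smooth (symm_mem hg)).continuousOn
    have ch' : ContinuousOn h.symm M := (G_smooth (symm_mem hh)).continuousOn
    obtain ⟨K₁, hK₁M, hK₁c, -, δ₁, hδ₁, H₁⟩ := comp_close hC M_open (ch.mono hCM)
      (fun x hx => G_maps hh (hCM hx)) cg hδ
    obtain ⟨K₂, hK₂M, hK₂c, -, δ₂, hδ₂, H₂⟩ := comp_close hC M_open (cg'.mono hCM)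
      (fun x hx => G_maps (symm_mem hg) (hCM hx)) ch' hδ
    have uh' := uh (C ∪ K₂) (union_subset hCM hK₂M) (hC.union hK₂c) (min δ₁ δ₂)
      (lt_min hδ₁ hδ₂)
    have ug' := ug (C ∪ K₁) (union_subset hCM hK₁M) (hC.union hK₁c) (min δ₁ δ₂)
      (lt_min hδ₁ hδ₂)
    filter_upwards [uh', ug', self_mem_nhdsWithin] with e hh' hg' he
    obtain ⟨h', hh'G, hh'⟩ := hh'
    obtain ⟨g', hg'G, hg'⟩ := hg'
    have he' : e ≠ 0 := ne_of_gt he
    refine ⟨g' * h', G.mul_mem hg'G hh'G, fun x hx => ⟨?_, ?_⟩⟩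
    · have h1 := (H₁ (fun x => Hi n e (h' (H n e x)))
        (fun x hx => (hh' x (Or.inl hx)).1.trans_le (min_le_left _ _))).2
        (fun y => Hi n e (g' (H n e y)))
        (fun y hy => (hg' y (Or.inr hy)).1.trans_le (min_le_left _ _)) x hx
      simp only [H_Hi he'] at h1
      exact h1
    · have h1 := (H₂ (fun x => Hi n e (g'.symm (H n e x)))
        (fun x hx => (hg' x (Or.inl hx)).2.trans_le (min_le_right _ _))).2
        (fun y => Hi n e (h'.symm (H n e y)))
        (fun y hy => (hh' y (Or.inr hy)).2.trans_le (min_le_right _ _)) x hx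
      simp only [H_Hi he'] at h1
      exact h1

end Pool.Agent.MP_fe3720.X
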