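import Pool.Agent.Work.MP_fe3720_an.X.Trot
import Pool.Agent.Work.MP_fe3720_an.X.FieldAp

/-!
# The elementary flows can be updated (size M)

PROOF of `upd_of_eflow`. Let `C ⊆ M` be compact. The tube `C^t = {ψ s p : p ∈ C, s ∈ Icc (-1) 1}` is compact and contained
in `M`; choose `ρ > 0` with `T = Metric.cthickening ρ C^t ⊆ M` (compact). For all small `e > 0`:
`e * ‖x.2‖ ≤ ‖x.1‖^n / 8` on `T` (the right side is bounded below on `T`, `‖x.2‖` above). For such `e`: `H n e x ∈ M` on `T`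
(`H_maps`), `field_approx` gives `hap` for the field `y` (equal to `(y₁, y₂)` on `M`), and `trotter` gives `g'`.
`upd_sh`: apply it to `ψ s = sh a (s t)`, `y x = (0, t x.1^a)`, `ψ 1 = sh a t`, `ψ (-1) = sh a (-t) = (sh a t).symm`
(`sh_symm`); `EFlow`: `sh_add`, `sh_zero`, smoothness (`sh_smooth`, restrict scalars to `ℝ`), derivative explicit.
`upd_dl`: `y x = (0, t x.1^a x.2)`. `upd_tw`: `y x = (t x.2^b x.1, 0)`.
-/

namespace Pool.Agent.MP_fe3720.X

open Topology Filter Set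

theorem upd_of_eflow {n : ℕ} (hn : 1 ≤ n) {ψ : ℝ → C2 → C2} {y : C2 → C2} (hψ : EFlow ψ y)
    {y₁ y₂ : C2 → ℂ} (h₁ : y₁ ∈ LP) (h₂ : y₂ ∈ LP) (hy : ∀ x ∈ M, y x = (y₁ x, y₂ x))
    {C : Set C2} (hCM : C ⊆ M) (hC : IsCompact C) {δ : ℝ} (hδ : 0 < δ) :
    ∀ᶠ e : ℝ in 𝓝[>] 0, ∃ g' ∈ G, ∀ x ∈ C, dist (Hi n e (g' (H n e x))) (ψ 1 x) < δ ∧
      dist (Hi n e (g'.symm (H n e x))) (ψ (-1) x) < δ := by
  set Ct : Set C2 := (fun p : ℝ × C2 => ψ p.1 p.2) '' (Icc (-1 : ℝ) 1 ×ˢ C) with hCt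
  have hCt1 : IsCompact Ct :=
    (isCompact_Icc.prod hC).image_of_continuousOn
      (hψ.smooth.continuousOn.mono (prod_mono (subset_univ _) hCM))
  have hCt2 : Ct ⊆ M := by
    rintro _ ⟨p, hp, rfl⟩
    exact hψ.maps _ _ (hCM hp.2)
  obtain ⟨ρ, hρ, hρM⟩ := hCt1.exists_cthickening_subset_open M_open hCt2
  set T : Set C2 := Metric.cthickening ρ Ct with hT
  have hTc : IsCompact T := hCt1.cthickening
  have hcont : ContinuousOn (fun x : C2 => ‖x.1‖ ^ n / (8 * (‖x.2‖ + 1))) T := by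
    refine ContinuousOn.div (by fun_prop) (by fun_prop) fun x _ => ?_
    positivity
  obtain ⟨c, hc, hcT⟩ := hTc.exists_forall_le' hcont (a := 0) fun x hx => by
    have h1 : 0 < ‖x.1‖ := norm_pos_iff.2 (hρM hx)
    positivity
  filter_upwards [Ioc_mem_nhdsGT hc] with e he
  have hs : ∀ x ∈ T, e * ‖x.2‖ ≤ ‖x.1‖ ^ n / 8 := by
    intro x hx
    have h1 := hcT x hx
    have h2 : (0 : ℝ) < 8 * (‖x.2‖ + 1) := by positivity
    rw [le_div_iff₀ h2] at h1
    have h3 : e * ‖x.2‖ ≤ c * (‖x.2‖ + 1) :=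
      mul_le_mul he.2 (by linarith) (norm_nonneg _) hc.le
    linarith
  refine trotter he.1 hψ hρ hTc hρM (fun x hx => H_maps he.1 (hρM hx) (hs x hx)) ?_ ?_ hδ
  · intro p hp s hs' x hx
    exact Metric.mem_cthickening_of_dist_le x (ψ s p) ρ Ct ⟨(s, p), ⟨hs', hp⟩, rfl⟩ hx
  · intro δ' hδ'
    obtain ⟨m, c', g, hg, hcg⟩ := field_approx hn he.1 hTc hρM hs h₁ h₂ hδ'
    refine ⟨m, c', g, hg, fun x hx => ?_⟩
    rw [hy x (hρM hx)]
    exact hcg x hx

private theorem contDiff_par (t : ℂ) :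
    ContDiff ℝ 1 (fun p : ℝ × C2 => (((p.1 : ℂ) * t, p.2) : ℂ × C2)) := by
  have h1 : ContDiff ℝ 1 (fun p : ℝ × C2 => (p.1 : ℂ)) :=
    Complex.ofRealCLM.contDiff.comp contDiff_fst
  exact (h1.mul contDiff_const).prodMk contDiff_snd

private theorem smooth_par {Φ : ℂ → C2 → C2}
    (hΦ : ContDiffOn ℂ 2 (fun p : ℂ × C2 => Φ p.1 p.2) (univ ×ˢ M)) (t : ℂ) :
    ContDiffOn ℝ 1 (fun p : ℝ × C2 => Φ ((p.1 : ℂ) * t) p.2) (univ ×ˢ M) := by
  have h1 : ContDiffOn ℝ 1 (fun p : ℂ × C2 => Φ p.1 p.2) (univ ×ˢ M) :=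
    (hΦ.restrict_scalars ℝ).of_le one_le_two
  exact h1.comp (contDiff_par t).contDiffOn fun p hp => ⟨mem_univ _, hp.2⟩

private theorem hasDeriv_par (t : ℂ) : HasDerivAt (fun s : ℝ => (s : ℂ) * t) t 0 := by
  have h1 : HasDerivAt (fun s : ℝ => (s : ℂ)) 1 0 := Complex.ofRealCLM.hasDerivAt
  simpa using h1.mul_const t

theorem upd_sh {n : ℕ} (hn : 1 ≤ n) (a : ℤ) (t : ℂ) : Upd n (sh a t) := by
  intro C hCM hC δ hδ
  have hE : EFlow (fun (s : ℝ) (x : C2) => sh a ((s : ℂ) * t) x)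
      (fun x : C2 => ((0 : ℂ), t * x.1 ^ a)) := by
    refine ⟨fun x => ?_, fun s s' x => ?_, fun s x hx => G_maps (sh_mem _ _) hx,
      smooth_par (Φ := fun c x => sh a c x) (sh_smooth a) t, fun x _ => ?_⟩
    · simp only [Complex.ofReal_zero, zero_mul]
      exact sh_zero a x
    · simp only [Complex.ofReal_add, add_mul]
      exact sh_add a _ _ x
    · have h1 : HasDerivAt (fun s : ℝ => x.2 + (s : ℂ) * t * x.1 ^ a) (t * x.1 ^ a) 0 :=
        ((hasDeriv_par t).mul_const (x.1 ^ a)).const_add x.2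
      exact (hasDerivAt_const (0 : ℝ) x.1).prodMk h1
  have h := upd_of_eflow hn hE (y₁ := fun _ => 0) (y₂ := fun x => t * x.1 ^ a) (LP_const 0)
    (LP.mul_mem (LP_const t) (LP_zpow a)) (fun x _ => rfl) hCM hC hδ
  filter_upwards [h] with e he
  obtain ⟨g', hg', hgC⟩ := he
  refine ⟨g', hg', fun x hx => ?_⟩
  have h2 := hgC x hx
  rw [sh_symm]
  simpa using h2

theorem upd_dl {n : ℕ} (hn : 1 ≤ n) (a : ℤ) (t : ℂ) : Upd n (dl a t) := by
  intro C hCM hC δ hδ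
  have hE : EFlow (fun (s : ℝ) (x : C2) => dl a ((s : ℂ) * t) x)
      (fun x : C2 => ((0 : ℂ), t * x.1 ^ a * x.2)) := by
    refine ⟨fun x => ?_, fun s s' x => ?_, fun s x hx => G_maps (dl_mem _ _) hx,
      smooth_par (Φ := fun c x => dl a c x) (dl_smooth a) t, fun x _ => ?_⟩
    · simp only [Complex.ofReal_zero, zero_mul]
      exact dl_zero a x
    · simp only [Complex.ofReal_add, add_mul]
      exact dl_add a _ _ x
    · have h0 : HasDerivAt (fun s : ℝ => Complex.exp ((s : ℂ) * t * x.1 ^ a)) (t * x.1 ^ a) 0 := by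
        have h1 := ((hasDeriv_par t).mul_const (x.1 ^ a)).cexp
        simpa using h1
      have h1 : HasDerivAt (fun s : ℝ => x.2 * Complex.exp ((s : ℂ) * t * x.1 ^ a))
          (t * x.1 ^ a * x.2) 0 := by
        have h2 := h0.const_mul x.2
        rwa [mul_comm x.2 (t * x.1 ^ a)] at h2
      exact (hasDerivAt_const (0 : ℝ) x.1).prodMk h1
  have h := upd_of_eflow hn hE (y₁ := fun _ => 0) (y₂ := fun x => t * x.1 ^ a * x.2) (LP_const 0)
    (LP.mul_mem (LP.mul_mem (LP_const t) (LP_zpow a)) LP_snd) (fun x _ => rfl) hCM hC hδ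
  filter_upwards [h] with e he
  obtain ⟨g', hg', hgC⟩ := he
  refine ⟨g', hg', fun x hx => ?_⟩
  have h2 := hgC x hx
  rw [dl_symm]
  simpa using h2

theorem upd_tw {n : ℕ} (hn : 1 ≤ n) (b : ℕ) (t : ℂ) : Upd n (tw b t) := by
  intro C hCM hC δ hδ
  have hE : EFlow (fun (s : ℝ) (x : C2) => tw b ((s : ℂ) * t) x)
      (fun x : C2 => (t * x.2 ^ b * x.1, (0 : ℂ))) := by
    refine ⟨fun x => ?_, fun s s' x => ?_, fun s x hx => G_maps (tw_mem _ _) hx,
      smooth_par (Φ := fun c x => tw b c x) (tw_smooth b) t, fun x _ => ?_⟩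
    · simp only [Complex.ofReal_zero, zero_mul]
      exact tw_zero b x
    · simp only [Complex.ofReal_add, add_mul]
      exact tw_add b _ _ x
    · have h0 : HasDerivAt (fun s : ℝ => Complex.exp ((s : ℂ) * t * x.2 ^ b)) (t * x.2 ^ b) 0 := by
        have h1 := ((hasDeriv_par t).mul_const (x.2 ^ b)).cexp
        simpa using h1
      have h1 : HasDerivAt (fun s : ℝ => x.1 * Complex.exp ((s : ℂ) * t * x.2 ^ b))
          (t * x.2 ^ b * x.1) 0 := by
        have h2 := h0.const_mul x.1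
        rwa [mul_comm x.1 (t * x.2 ^ b)] at h2
      exact h1.prodMk (hasDerivAt_const (0 : ℝ) x.2)
  have h := upd_of_eflow hn hE (y₁ := fun x => t * x.2 ^ b * x.1) (y₂ := fun _ => 0)
    (LP.mul_mem (LP.mul_mem (LP_const t) (LP.pow_mem LP_snd b)) LP_fst) (LP_const 0)
    (fun x _ => rfl) hCM hC hδ
  filter_upwards [h] with e he
  obtain ⟨g', hg', hgC⟩ := he
  refine ⟨g', hg', fun x hx => ?_⟩
  have h2 := hgC x hx
  rw [tw_symm]
  simpa using h2

end Pool.Agent.MP_fe3720.X
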