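import Pool.Agent.Work.MP_fe3720_an.X.GBase

/-!
# The words `Aw` (size M)

PROOFS, all by induction on `m`, from the recursive definition (`Fin.sum_univ_succ`, `Fin.tail`).
`Aw_mem`: `sh_mem` and group laws. `Aw_smooth`: composition of `(h, x) ↦ (h, Aw (tail) h x)` with `conj_smooth`
(`(g 0)⁻¹ * sh * g 0` applied to `y` is `(g 0).symm (sh (-1) (c 0 h) (g 0 y))`); the values stay in `M` (`G_maps`).
`Aw_symm_smooth`: `(Aw c g h).symm = (Aw (tail c) (tail g) h).symm ∘ ((g 0)⁻¹ * sh (-1) (-(c 0 h)) * g 0)`.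
`Aw_zero`: `sh_zero`. `Aw_deriv`: derivative at `h = 0` of `B (h, Aw' h x)` where `B (h, y) = g_0⁻¹ sh (c_0 h) g_0 y` is
jointly differentiable, `B (0, y) = y`: it is `∂_h B (0, x) + (derivative of Aw' h x) = c_0 • pbM (g 0) x + Σ ...`
(chain rule: the derivative of `B` at `(0, x)` in the direction `(1, v)` is `c_0 • pbM (g 0) x + v`, because
`B (0, ·) = id`). `Aw_symm_deriv`: same with the reversed product.
-/

namespace Pool.Agent.MP_fe3720.X

open Topology Filter Set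

variable {m : ℕ} {c : Fin m → ℂ} {g : Fin m → Equiv.Perm C2}

private theorem Aw_succ {m : ℕ} (c : Fin (m + 1) → ℂ) (g : Fin (m + 1) → Equiv.Perm C2) (h : ℂ)
    (x : C2) : Aw c g h x =
      (g 0).symm (sh (-1) (c 0 * h) (g 0 (Aw (Fin.tail c) (Fin.tail g) h x))) := rfl

private theorem Aw_succ_symm {m : ℕ} (c : Fin (m + 1) → ℂ) (g : Fin (m + 1) → Equiv.Perm C2)
    (h : ℂ) (x : C2) : (Aw c g h).symm x =
      (Aw (Fin.tail c) (Fin.tail g) h).symm ((g 0).symm (sh (-1) (-c 0 * h) (g 0 x))) := by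
  rw [Equiv.symm_apply_eq, Aw_succ]
  simp only [Equiv.apply_symm_apply]
  rw [← sh_add]
  have h1 : c 0 * h + -c 0 * h = 0 := by ring
  rw [h1, sh_zero, Equiv.symm_apply_apply]

theorem Aw_mem (hg : ∀ i, g i ∈ G) (h : ℂ) : Aw c g h ∈ G := by
  induction m with
  | zero => exact G.one_mem
  | succ m ih =>
    exact G.mul_mem (G.mul_mem (G.mul_mem (G.inv_mem (hg 0)) (sh_mem _ _)) (hg 0))
      (ih fun i => hg i.succ)

private theorem B_smooth {g : Equiv.Perm C2} (hg : g ∈ G) (c : ℂ) :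
    ContDiffOn ℂ 2 (fun p : ℂ × C2 => g.symm (sh (-1) (c * p.1) (g p.2))) (univ ×ˢ M) := by
  have h1 : ContDiffOn ℂ 2 (fun p : ℂ × C2 => (c * p.1, p.2)) (univ ×ˢ M) := by fun_prop
  exact (conj_smooth hg (-1)).comp h1 fun p hp => ⟨mem_univ _, hp.2⟩

theorem Aw_smooth (hg : ∀ i, g i ∈ G) :
    ContDiffOn ℂ 2 (fun p : ℂ × C2 => Aw c g p.1 p.2) (univ ×ˢ M) := by
  induction m with
  | zero => exact contDiff_snd.contDiffOn
  | succ m ih =>
    have h1 := ih (c := Fin.tail c) (g := Fin.tail g) fun i => hg i.succ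
    have h2 : ContDiffOn ℂ 2 (fun p : ℂ × C2 => (p.1, Aw (Fin.tail c) (Fin.tail g) p.1 p.2))
        (univ ×ˢ M) := contDiff_fst.contDiffOn.prodMk h1
    exact (B_smooth (hg 0) (c 0)).comp h2 fun p hp =>
      ⟨mem_univ _, G_maps (Aw_mem (fun i => hg i.succ) p.1) hp.2⟩

theorem Aw_symm_smooth (hg : ∀ i, g i ∈ G) :
    ContDiffOn ℂ 2 (fun p : ℂ × C2 => (Aw c g p.1).symm p.2) (univ ×ˢ M) := by
  induction m with
  | zero => exact contDiff_snd.contDiffOn
  | succ m ih =>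
    have h1 := ih (c := Fin.tail c) (g := Fin.tail g) fun i => hg i.succ
    have h2 : ContDiffOn ℂ 2 (fun p : ℂ × C2 => (p.1, (g 0).symm (sh (-1) (-c 0 * p.1)
        (g 0 p.2)))) (univ ×ˢ M) := contDiff_fst.contDiffOn.prodMk (B_smooth (hg 0) (-c 0))
    have h3 := h1.comp h2 fun p hp =>
      ⟨mem_univ _, G_maps (symm_mem (hg 0)) (G_maps (sh_mem _ _) (G_maps (hg 0) hp.2))⟩
    refine h3.congr fun p _ => ?_
    exact Aw_succ_symm c g p.1 p.2

theorem Aw_zero (x : C2) : Aw c g 0 x = x ∧ (Aw c g 0).symm x = x := by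
  have h : Aw c g 0 x = x := by
    induction m with
    | zero => rfl
    | succ m ih =>
      rw [Aw_succ, mul_zero, sh_zero, Equiv.symm_apply_apply]
      exact ih
  exact ⟨h, (Equiv.symm_apply_eq _).2 h.symm⟩

private theorem chain_aux {Φ : ℂ × C2 → C2} {x a v : C2} {f : ℂ → C2}
    (hΦ : DifferentiableAt ℂ Φ (0, x)) (h0 : ∀ y, Φ (0, y) = y)
    (ha : HasDerivAt (fun h => Φ (h, x)) a 0) (hf : HasDerivAt f v 0) (hfx : f 0 = x) :
    HasDerivAt (fun h => Φ (h, f h)) (a + v) 0 := by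
  have hL := hΦ.hasFDerivAt
  have h1 : fderiv ℂ Φ (0, x) ((1 : ℂ), (0 : C2)) = a := by
    have h5 : HasDerivAt (fun s : ℂ => (s, x)) ((1 : ℂ), (0 : C2)) 0 :=
      (hasDerivAt_id (0 : ℂ)).prodMk (hasDerivAt_const (0 : ℂ) x)
    exact (hL.comp_hasDerivAt (0 : ℂ) h5).unique ha
  have h2 : fderiv ℂ Φ (0, x) ((0 : ℂ), v) = v := by
    have h5 : HasFDerivAt (fun y : C2 => ((0 : ℂ), y)) (ContinuousLinearMap.inr ℂ ℂ C2) x :=
      hasFDerivAt_prodMk_right (0 : ℂ) x
    have h6 := hL.comp x h5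
    have h7 : (Φ ∘ fun y : C2 => ((0 : ℂ), y)) = id := by
      funext y
      exact h0 y
    rw [h7] at h6
    have h8 := congrArg (fun L : C2 →L[ℂ] C2 => L v) (h6.unique (hasFDerivAt_id x))
    simpa using h8
  have h3 : HasDerivAt (fun s : ℂ => (s, f s)) ((1 : ℂ), v) 0 :=
    (hasDerivAt_id (0 : ℂ)).prodMk hf
  have hL' : HasFDerivAt Φ (fderiv ℂ Φ (0, x)) ((0 : ℂ), f 0) := by
    rw [hfx]
    exact hL
  have h4 := hL'.comp_hasDerivAt (0 : ℂ) h3
  have h5 : fderiv ℂ Φ (0, x) ((1 : ℂ), v) = a + v := by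
    have h6 : ((1 : ℂ), v) = ((1 : ℂ), (0 : C2)) + ((0 : ℂ), v) := by simp
    rw [h6, map_add, h1, h2]
  rw [h5] at h4
  exact h4

private theorem B_deriv {g : Equiv.Perm C2} (hg : g ∈ G) (c : ℂ) {x : C2} (hx : x ∈ M) :
    HasDerivAt (fun h : ℂ => g.symm (sh (-1) (c * h) (g x))) (c • pbM g x) 0 := by
  have h3 : HasDerivAt (fun s : ℂ => g.symm (sh (-1) s (g x))) (pbM g x) (c * 0) := by
    rw [mul_zero]
    exact pbM_hasDeriv hg hx
  have h4 : HasDerivAt (fun t : ℂ => c * t) c 0 := by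
    simpa using (hasDerivAt_id (0 : ℂ)).const_mul c
  exact h3.scomp (0 : ℂ) h4

private theorem UM_nhds {x : C2} (hx : x ∈ M) : (univ : Set ℂ) ×ˢ M ∈ 𝓝 ((0 : ℂ), x) :=
  (isOpen_univ.prod M_open).mem_nhds ⟨mem_univ _, hx⟩

theorem Aw_deriv (hg : ∀ i, g i ∈ G) {x : C2} (hx : x ∈ M) :
    HasDerivAt (fun h : ℂ => Aw c g h x) (∑ i, c i • pbM (g i) x) 0 := by
  induction m with
  | zero =>
    simp only [Finset.univ_eq_empty, Finset.sum_empty]
    exact hasDerivAt_const (0 : ℂ) x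
  | succ m ih =>
    have h1 := ih (c := Fin.tail c) (g := Fin.tail g) fun i => hg i.succ
    rw [Fin.sum_univ_succ]
    refine chain_aux (Φ := fun p : ℂ × C2 => (g 0).symm (sh (-1) (c 0 * p.1) (g 0 p.2)))
      (f := fun h => Aw (Fin.tail c) (Fin.tail g) h x) ?_ ?_ ?_ h1 (Aw_zero x).1
    · exact ((B_smooth (hg 0) (c 0)).differentiableOn two_ne_zero).differentiableAt (UM_nhds hx)
    · intro y
      simp only [mul_zero, sh_zero, Equiv.symm_apply_apply]
    · exact B_deriv (hg 0) (c 0) hx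

theorem Aw_symm_deriv (hg : ∀ i, g i ∈ G) {x : C2} (hx : x ∈ M) :
    HasDerivAt (fun h : ℂ => (Aw c g h).symm x) (-∑ i, c i • pbM (g i) x) 0 := by
  induction m with
  | zero =>
    simp only [Finset.univ_eq_empty, Finset.sum_empty, neg_zero]
    exact hasDerivAt_const (0 : ℂ) x
  | succ m ih =>
    have h1 := ih (c := Fin.tail c) (g := Fin.tail g) fun i => hg i.succ
    have h2 : (fun h : ℂ => (Aw c g h).symm x) = fun h => (Aw (Fin.tail c) (Fin.tail g) h).symm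
        ((g 0).symm (sh (-1) (-c 0 * h) (g 0 x))) := by
      funext h
      exact Aw_succ_symm c g h x
    have h3 := chain_aux (Φ := fun p : ℂ × C2 => (Aw (Fin.tail c) (Fin.tail g) p.1).symm p.2)
      (f := fun h => (g 0).symm (sh (-1) (-c 0 * h) (g 0 x))) (x := x)
      (((Aw_symm_smooth (c := Fin.tail c) (g := Fin.tail g) fun i => hg i.succ).differentiableOn
        two_ne_zero).differentiableAt (UM_nhds hx)) (fun y => (Aw_zero y).2) h1
      (B_deriv (hg 0) (-c 0) hx) (by simp only [mul_zero, sh_zero, Equiv.symm_apply_apply])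
    rw [h2]
    convert h3 using 1
    rw [Fin.sum_univ_succ, neg_add, neg_smul, add_comm]
    rfl

end Pool.Agent.MP_fe3720.X
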